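import Pool.Agent.Work.MP_9fcdee_mp.G2_Reduce

set_option autoImplicit false

open Set Filter Topology MeasureTheory

namespace Pool.Agent.Work.MP_9fcdee_mp

variable {α : ℝ}

/-- graph of the maximal operator `A u = -u'' + i|x|^α u` in `L²(ℝ)`: `u ∈ L²` has a
representative `y ∈ H²_loc` (with first and second derivatives `y₁`, `y₂`) and
`h = -y'' + i|x|^α y` is in `L²`. -/
def OpLine (α : ℝ) (u h : Lp ℂ 2 (volume : Measure ℝ)) : Prop :=
  ∃ y y₁ y₂ : ℝ → ℂ, u =ᵐ[volume] y ∧
    (∀ R : ℝ, MemLp y₂ 2 (volume.restrict (Icc (-R) R))) ∧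
    (∀ x : ℝ, y x = y 0 + ∫ t in (0:ℝ)..x, y₁ t) ∧
    (∀ x : ℝ, y₁ x = y₁ 0 + ∫ t in (0:ℝ)..x, y₂ t) ∧
    h =ᵐ[volume] fun x => - y₂ x + Complex.I * ((|x| ^ α : ℝ) : ℂ) * y x

/-- graph of the maximal operator in `L²(0,∞)` with the Dirichlet condition at `0` -/
def OpHalf (α : ℝ) (u h : Lp ℂ 2 (volume.restrict (Ioi (0:ℝ)))) : Prop :=
  ∃ y y₁ y₂ : ℝ → ℂ, u =ᵐ[volume.restrict (Ioi (0:ℝ))] y ∧ y 0 = 0 ∧
    (∀ R : ℝ, MemLp y₂ 2 (volume.restrict (Icc 0 R))) ∧
    (∀ x : ℝ, 0 ≤ x → y x = y 0 + ∫ t in (0:ℝ)..x, y₁ t) ∧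
    (∀ x : ℝ, 0 ≤ x → y₁ x = y₁ 0 + ∫ t in (0:ℝ)..x, y₂ t) ∧
    h =ᵐ[volume.restrict (Ioi (0:ℝ))] fun x => - y₂ x + Complex.I * ((|x| ^ α : ℝ) : ℂ) * y x

/-- eigenfunctions on the line -/
def IsEigenLine (α : ℝ) (u : Lp ℂ 2 (volume : Measure ℝ)) : Prop :=
  u ≠ 0 ∧ ∃ l : ℂ, OpLine α u (l • u)

/-- Dirichlet eigenfunctions on the half-line -/
def IsEigenHalf (α : ℝ) (u : Lp ℂ 2 (volume.restrict (Ioi (0:ℝ)))) : Prop :=
  u ≠ 0 ∧ ∃ l : ℂ, OpHalf α u (l • u)

/-- the coefficients are even -/
lemma qf_neg (c κ : ℂ) (x : ℝ) : qf α c κ (-x) = qf α c κ x := by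
  unfold qf; rw [abs_neg]

/-- Dirichlet solutions are odd, Neumann solutions are even -/
lemma parity (hα : 0 < α) {c κ : ℂ} {u v : ℝ → ℂ} (h : IsSol (qf α c κ) 0 u v) (b : Bool)
    (hb : bc b (u 0) (v 0) = 0) (x : ℝ) : u (-x) = (if b then -1 else 1) * u x := by
  have h1 := h.reflect 0
  have h2 : IsSol (qf α c κ) 0 (fun x => u (-x)) (fun x => - v (-x)) := by
    constructor
    · intro y
      have := h1.du y
      simpa using this
    · intro y
      have := h1.dv y
      simpa [qf_neg] using this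
  have h3 := (h2.smul (if b then -1 else 1)).congr_f (g := 0) (by intro x; simp)
  have h4 := IsSol.unique (continuous_qf hα c κ) h3 h (X := 0) (by
    cases b
    · simp
    · simp only [bc, if_true] at hb
      simp [hb]) (by
    cases b
    · simp only [bc] at hb
      simp at hb
      simp [hb]
    · simp)
  have h5 := h4.1 x
  cases b
  · simpa using h5
  · simp only [if_true] at h5 ⊢
    linear_combination -h5

lemma memLp_Icc {g : ℝ → ℂ} (hg : Continuous g) (a b : ℝ) :
    MemLp g 2 (volume.restrict (Icc a b)) := by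
  obtain ⟨C, hC⟩ := (isCompact_Icc (a := a) (b := b)).exists_bound_of_continuousOn hg.continuousOn
  exact MemLp.of_bound hg.aestronglyMeasurable C (ae_restrict_of_forall_mem measurableSet_Icc hC)

lemma memLp_of_finEn {X : ℝ} {u v : ℝ → ℂ} (hu : Continuous u)
    (h : FinEn X u v) : MemLp u 2 (volume.restrict (Ioi X)) := by
  rw [memLp_two_iff_integrable_sq_norm hu.aestronglyMeasurable]
  refine Integrable.mono' h (hu.norm.pow 2).aestronglyMeasurable (Eventually.of_forall fun x => ?_)
  rw [Real.norm_of_nonneg (by positivity)]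
  have : 0 ≤ ‖v x‖ ^ 2 := by positivity
  linarith

lemma primitive {u v : ℝ → ℂ} (hd : ∀ x, HasDerivAt u (v x) x) (hv : Continuous v) (x : ℝ) :
    u x = u 0 + ∫ t in (0:ℝ)..x, v t := by
  rw [intervalIntegral.integral_eq_sub_of_hasDerivAt (fun t _ => hd t)
    (hv.intervalIntegrable _ _)]
  ring

lemma eigenHalf_of_sol (hα : 0 < α) {l : ℂ} {u v : ℝ → ℂ}
    (h : IsSol (qf α Complex.I l) 0 u v) (h0 : u 0 = 0)
    (hu : MemLp u 2 (volume.restrict (Ioi (0:ℝ)))) (hne : hu.toLp u ≠ 0) :
    IsEigenHalf α (hu.toLp u) := by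
  have hq := continuous_qf hα Complex.I l
  refine ⟨hne, l, u, v, fun x => qf α Complex.I l x * u x, hu.coeFn_toLp, h0, ?_, ?_, ?_, ?_⟩
  · intro R
    have hc : Continuous (fun x => qf α Complex.I l x * u x) := hq.mul h.cont
    exact memLp_Icc hc 0 R
  · intro x _
    exact primitive h.du h.cont' x
  · intro x _
    exact primitive (fun x => (h.dv x).congr_deriv (by simp)) (hq.mul h.cont) x
  · have h1 := Lp.coeFn_smul l (hu.toLp u)
    filter_upwards [h1, hu.coeFn_toLp] with x hx1 hx2
    rw [hx1, Pi.smul_apply, hx2, smul_eq_mul, qf]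
    ring

lemma eigenLine_of_sol (hα : 0 < α) {l : ℂ} {u v : ℝ → ℂ}
    (h : IsSol (qf α Complex.I l) 0 u v)
    (hu : MemLp u 2 (volume : Measure ℝ)) (hne : hu.toLp u ≠ 0) :
    IsEigenLine α (hu.toLp u) := by
  have hq := continuous_qf hα Complex.I l
  refine ⟨hne, l, u, v, fun x => qf α Complex.I l x * u x, hu.coeFn_toLp, ?_, ?_, ?_, ?_⟩
  · intro R
    have hc : Continuous (fun x => qf α Complex.I l x * u x) := hq.mul h.cont
    exact memLp_Icc hc (-R) R
  · intro x
    exact primitive h.du h.cont' x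
  · intro x
    exact primitive (fun x => (h.dv x).congr_deriv (by simp)) (hq.mul h.cont) x
  · have h1 := Lp.coeFn_smul l (hu.toLp u)
    filter_upwards [h1, hu.coeFn_toLp] with x hx1 hx2
    rw [hx1, Pi.smul_apply, hx2, smul_eq_mul, qf]
    ring

/-- completeness on the half-line -/
theorem half_dense (hα : 0 < α) (hα1 : α ≤ 1) :
    (Submodule.span ℂ {u : Lp ℂ 2 (volume.restrict (Ioi (0:ℝ))) |
      IsEigenHalf α u}).topologicalClosure = ⊤ := by
  rw [Submodule.topologicalClosure_eq_top_iff, Submodule.eq_bot_iff]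
  intro g hg
  set f : ℝ → ℂ := fun x => (starRingEnd ℂ) (g x) with hf
  have hfm : MemLp f 2 (volume.restrict (Ioi (0:ℝ))) := (Lp.memLp g).star
  have ho : Orth α true f := by
    intro l u v h hE hb
    have hb' : u 0 = 0 := by simpa [bc] using hb
    have hu := memLp_of_finEn h.cont hE
    by_cases hne : hu.toLp u = 0
    · have h1 : u =ᵐ[volume.restrict (Ioi (0:ℝ))] 0 := by
        have := hu.coeFn_toLp
        rw [hne] at this
        exact this.symm.trans (Lp.coeFn_zero _ _ _)
      rw [integral_congr_ae (g := fun _ => (0:ℂ))]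
      · simp
      · filter_upwards [h1] with x hx
        rw [hx]; simp
    · have he := eigenHalf_of_sol hα h hb' hu hne
      have h1 := (Submodule.mem_orthogonal _ _).mp hg _ (Submodule.subset_span he)
      rw [L2.inner_def] at h1
      have h2 : ∫ x in Ioi (0:ℝ), f x * u x = (starRingEnd ℂ)
          (∫ x in Ioi (0:ℝ), inner ℂ ((hu.toLp u : Lp ℂ 2 _) x) (g x)) := by
        rw [← integral_conj]
        apply integral_congr_ae
        filter_upwards [hu.coeFn_toLp] with x hx
        rw [hx, RCLike.inner_apply, map_mul, hf]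
        simp
      rw [h2, h1, map_zero]
  have h0 := orth_zero hα hα1 true hfm ho
  apply Lp.ext
  refine EventuallyEq.trans ?_ (Lp.coeFn_zero _ _ _).symm
  filter_upwards [h0] with x hx
  have : (starRingEnd ℂ) (g x) = 0 := hx
  simpa using this

lemma integrable_neg_half {E : Type*} [NormedAddCommGroup E] {φ : ℝ → E}
    (h : IntegrableOn (fun x => φ (-x)) (Ioi 0)) : IntegrableOn φ (Iic 0) := by
  rw [integrableOn_Iic_iff_integrableOn_Iio]
  have h1 := (Measure.measurePreserving_neg (volume : Measure ℝ)).integrableOn_comp_preimage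
    (MeasurableEquiv.neg ℝ).measurableEmbedding (f := φ) (s := Iio 0)
  have h2 : (Neg.neg : ℝ → ℝ) ⁻¹' (Iio 0) = Ioi 0 := by
    ext x; simp
  rw [h2] at h1
  exact h1.mp h

/-- an `L²(0,∞)` solution with a boundary condition is in `L²(ℝ)` -/
lemma memLp_line (hα : 0 < α) {l : ℂ} {u v : ℝ → ℂ}
    (h : IsSol (qf α Complex.I l) 0 u v) (hE : FinEn 0 u v) (b : Bool)
    (hb : bc b (u 0) (v 0) = 0) : MemLp u 2 (volume : Measure ℝ) := by
  have hu := memLp_of_finEn h.cont hE
  rw [memLp_two_iff_integrable_sq_norm h.cont.aestronglyMeasurable] at hu ⊢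
  have h1 : IntegrableOn (fun x => ‖u x‖ ^ 2) (Iic 0) := by
    apply integrable_neg_half
    have : (fun x : ℝ => ‖u (-x)‖ ^ 2) = fun x => ‖u x‖ ^ 2 := by
      funext x
      rw [parity hα h b hb x, norm_mul]
      cases b <;> simp
    rw [this]; exact hu
  rw [← integrableOn_univ, ← Iic_union_Ioi (a := (0:ℝ))]
  exact h1.union hu

/-- completeness on the line -/
theorem line_dense (hα : 0 < α) (hα1 : α ≤ 1) :
    (Submodule.span ℂ {u : Lp ℂ 2 (volume : Measure ℝ) |
      IsEigenLine α u}).topologicalClosure = ⊤ := by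
  rw [Submodule.topologicalClosure_eq_top_iff, Submodule.eq_bot_iff]
  intro g hg
  set f : ℝ → ℂ := fun x => (starRingEnd ℂ) (g x) with hf
  have hfm : MemLp f 2 (volume : Measure ℝ) := (Lp.memLp g).star
  have hfn : MemLp (fun x => f (-x)) 2 (volume : Measure ℝ) :=
    hfm.comp_measurePreserving (Measure.measurePreserving_neg (volume : Measure ℝ))
  -- the two halves
  have key : ∀ b : Bool, (fun x => f x + (if b then -1 else 1) * f (-x))
      =ᵐ[volume.restrict (Ioi (0:ℝ))] 0 := by
    intro b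
    have hm : MemLp (fun x => f x + (if b then -1 else 1) * f (-x)) 2
        (volume.restrict (Ioi (0:ℝ))) :=
      (hfm.add (hfn.const_mul (if b then -1 else 1))).restrict _
    refine orth_zero hα hα1 b hm ?_
    intro l u v h hE hb
    have hu := memLp_line hα h hE b hb
    have hpar := parity hα h b hb
    have hfu : Integrable (fun x => f x * u x) := by
      have := hfm.integrable_mul hu
      exact this
    have hzero : ∫ x, f x * u x = 0 := by
      by_cases hne : hu.toLp u = 0
      · have h1 : u =ᵐ[volume] 0 := by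
          have := hu.coeFn_toLp
          rw [hne] at this
          exact this.symm.trans (Lp.coeFn_zero _ _ _)
        rw [integral_congr_ae (g := fun _ => (0:ℂ))]
        · simp
        · filter_upwards [h1] with x hx
          rw [hx]; simp
      · have he := eigenLine_of_sol hα h hu hne
        have h1 := (Submodule.mem_orthogonal _ _).mp hg _ (Submodule.subset_span he)
        rw [L2.inner_def] at h1
        have h2 : ∫ x, f x * u x = (starRingEnd ℂ)
            (∫ x, inner ℂ ((hu.toLp u : Lp ℂ 2 _) x) (g x)) := by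
          rw [← integral_conj]
          apply integral_congr_ae
          filter_upwards [hu.coeFn_toLp] with x hx
          rw [hx, RCLike.inner_apply, map_mul, hf]
          simp
        rw [h2, h1, map_zero]
    have hsplit : ∫ x, f x * u x = (∫ x in Iic (0:ℝ), f x * u x) + ∫ x in Ioi (0:ℝ), f x * u x := by
      rw [← setIntegral_univ, ← Iic_union_Ioi (a := (0:ℝ)),
        setIntegral_union (Iic_disjoint_Ioi le_rfl) measurableSet_Ioi hfu.integrableOn
          hfu.integrableOn]
    have hneg : ∫ x in Iic (0:ℝ), f x * u x = ∫ x in Ioi (0:ℝ), f (-x) * u (-x) := by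
      have := integral_comp_neg_Ioi (0:ℝ) (fun x => f x * u x)
      rw [neg_zero] at this
      exact this.symm
    have hfun : IntegrableOn (fun x => f (-x) * u (-x)) (Ioi (0:ℝ)) := by
      have h3 : Integrable (fun x => f (-x) * u (-x)) := hfu.comp_neg
      exact h3.integrableOn
    rw [hsplit, hneg, ← integral_add hfun hfu.integrableOn] at hzero
    rw [← hzero]
    apply integral_congr_ae
    refine Eventually.of_forall fun x => ?_
    simp only
    rw [hpar]
    ring
  have hIoi : ∀ᵐ x ∂(volume.restrict (Ioi (0:ℝ))), f x = 0 ∧ f (-x) = 0 := by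
    filter_upwards [key true, key false] with x h1 h2
    simp only [if_true, Pi.zero_apply] at h1 h2
    simp only [Bool.false_eq_true, if_false] at h2
    constructor
    · linear_combination (h1 + h2) / 2
    · linear_combination (h2 - h1) / 2
  have hall : ∀ᵐ x ∂(volume : Measure ℝ), f x = 0 := by
    have hae := (ae_restrict_iff' measurableSet_Ioi).mp hIoi
    have hae2 : ∀ᵐ x ∂(volume : Measure ℝ), -x ∈ Ioi (0:ℝ) → f (-x) = 0 ∧ f (- -x) = 0 := by
      have := (Measure.measurePreserving_neg (volume : Measure ℝ)).quasiMeasurePreserving.ae hae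
      exact this
    have hne0 : ∀ᵐ x ∂(volume : Measure ℝ), x ≠ 0 := by
      rw [ae_iff]; simp
    filter_upwards [hae, hae2, hne0] with x h1 h2 h3
    rcases lt_or_gt_of_ne h3 with h4 | h4
    · have := (h2 (by simp only [mem_Ioi]; linarith)).2
      rwa [neg_neg] at this
    · exact (h1 h4).1
  apply Lp.ext
  refine EventuallyEq.trans ?_ (Lp.coeFn_zero _ _ _).symm
  filter_upwards [hall] with x hx
  have : (starRingEnd ℂ) (g x) = 0 := hx
  simpa using this

end Pool.Agent.Work.MP_9fcdee_mp
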