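import Mathlib

/-!
# Definitions for MP_9fcdee_mp

Completeness of the eigenfunctions of `-d²/dx² + i|x|^α`.
Everything is stated for classical solutions of `u'' = q u - f` on `ℝ`,
with `q x = c |x|^α - κ`.
-/

set_option autoImplicit false

open Set Filter Topology MeasureTheory

namespace Pool.Agent.Work.MP_9fcdee_mp

/-- the coefficient `q(x) = c |x|^α - κ` -/
noncomputable def qf (α : ℝ) (c κ : ℂ) (x : ℝ) : ℂ := c * ((|x| ^ α : ℝ) : ℂ) - κ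

/-- `u` is a classical solution of `u'' = q u - f` on `ℝ`, with `v = u'`. -/
structure IsSol (q f u v : ℝ → ℂ) : Prop where
  du : ∀ x, HasDerivAt u (v x) x
  dv : ∀ x, HasDerivAt v (q x * u x - f x) x

/-- finite energy on `(X, ∞)` -/
def FinEn (X : ℝ) (u v : ℝ → ℂ) : Prop :=
  IntegrableOn (fun x => ‖u x‖ ^ 2 + ‖v x‖ ^ 2) (Ioi X)

/-- the energy on `(X, ∞)` -/
noncomputable def En (X : ℝ) (u v : ℝ → ℂ) : ℝ := ∫ x in Ioi X, (‖u x‖ ^ 2 + ‖v x‖ ^ 2)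

/-- square integrable on `(X, ∞)` -/
def SqInt (X : ℝ) (f : ℝ → ℂ) : Prop := IntegrableOn (fun x => ‖f x‖ ^ 2) (Ioi X)

/-- coercivity of `q` on `[X, ∞)` -/
structure Coer (q : ℝ → ℂ) (X : ℝ) (τ : ℂ) (δ : ℝ) : Prop where
  pos : 0 < δ
  nrm : ‖τ‖ ≤ 1
  re : δ ≤ τ.re
  req : ∀ x, X ≤ x → δ ≤ (τ * q x).re

open Classical in
/-- the solution of `u'' = q u - f`, `u X = a`, `u' X = b` (a pair `(u, u')`) -/
noncomputable def solP (q f : ℝ → ℂ) (X : ℝ) (a b : ℂ) : (ℝ → ℂ) × (ℝ → ℂ) :=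
  if h : ∃ p : (ℝ → ℂ) × (ℝ → ℂ), IsSol q f p.1 p.2 ∧ p.1 X = a ∧ p.2 X = b then h.choose
  else (0, 0)

/-- the solution `u` -/
noncomputable def solU (q f : ℝ → ℂ) (X : ℝ) (a b : ℂ) : ℝ → ℂ := (solP q f X a b).1

/-- its derivative -/
noncomputable def solV (q f : ℝ → ℂ) (X : ℝ) (a b : ℂ) : ℝ → ℂ := (solP q f X a b).2

/-- boundary condition at `0`: `b = true` is Dirichlet (`u 0`), `b = false` is Neumann (`u' 0`);
`bc b (u 0) (u' 0)` is the boundary value, `bc (!b) (u 0) (u' 0)` the complementary one. -/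
def bc (b : Bool) (x y : ℂ) : ℂ := if b then x else y

/-- `ω = e^{iπ/(2(α+2))}`, so that `ω^{α+2} = i`. -/
noncomputable def om (α : ℝ) : ℂ := Complex.exp ((Real.pi / (2 * (α + 2)) : ℝ) * Complex.I)

/-- the order `ρ = 1/α + 1/2` -/
noncomputable def rho (α : ℝ) : ℝ := 1 / α + 1 / 2

/-- the square root `s(x) = i √(l - i x^α)` of `i x^α - l`, for `Re l > 0` -/
noncomputable def sf (α : ℝ) (l : ℂ) (x : ℝ) : ℂ :=
  Complex.I * (l - Complex.I * ((|x| ^ α : ℝ) : ℂ)) ^ (1 / 2 : ℂ)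

/-- `P(X) = ∫_0^X s` -/
noncomputable def Pf (α : ℝ) (l : ℂ) (X : ℝ) : ℂ := ∫ x in (0:ℝ)..X, sf α l x

/-- `R(X) = - Re P(X) = ∫_0^X Im √(l - i x^α)` -/
noncomputable def Rf (α : ℝ) (l : ℂ) (X : ℝ) : ℝ := ∫ x in (0:ℝ)..X, - (sf α l x).re

/-- the point `x₀(l) = (Im l)^{1/α}` -/
noncomputable def x0 (α : ℝ) (l : ℂ) : ℝ := l.im ^ (1 / α)

/-- `e(φ) = ∫_0^1 (Im √(e^{iφ} - i y^α))_+ dy` -/
noncomputable def ef (α φ : ℝ) : ℝ :=
  ∫ y in (0:ℝ)..1, max 0 (- (sf α (Complex.exp (φ * Complex.I)) y).re)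

/-- orthogonality of `f` to all eigenfunctions with boundary condition `b` -/
def Orth (α : ℝ) (b : Bool) (f : ℝ → ℂ) : Prop :=
  ∀ (l : ℂ) (u v : ℝ → ℂ), IsSol (qf α Complex.I l) 0 u v → FinEn 0 u v →
    bc b (u 0) (v 0) = 0 → ∫ x in Ioi (0:ℝ), f x * u x = 0

/-- the resolvent family: `w l = (A - l)⁻¹ f` for every `l`, entire in `l`. -/
structure Fam (α : ℝ) (b : Bool) (f : ℝ → ℂ) (w w' : ℂ → ℝ → ℂ) : Prop where
  sol : ∀ l, IsSol (qf α Complex.I l) f (w l) (w' l)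
  fin : ∀ l, FinEn 0 (w l) (w' l)
  bc0 : ∀ l, bc b (w l 0) (w' l 0) = 0
  dw : ∀ x, Differentiable ℂ (fun l => w l x)
  dw' : ∀ x, Differentiable ℂ (fun l => w' l x)

end Pool.Agent.Work.MP_9fcdee_mp
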