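import Pool.Agent.Work.MP_9fcdee_mp.Defs

set_option autoImplicit false

open Set Filter Topology MeasureTheory

namespace Pool.Agent.Work.MP_9fcdee_mp

variable {α : ℝ}

/-! ### the principal square root -/

lemma csq_sq (z : ℂ) : (z ^ (1 / 2 : ℂ)) ^ 2 = z := by
  have h := Complex.cpow_nat_inv_pow z (n := 2) (by norm_num)
  have e : ((2 : ℕ) : ℂ)⁻¹ = 1 / 2 := by norm_num
  rwa [e] at h

lemma csq_re_nonneg (z : ℂ) : 0 ≤ (z ^ (1 / 2 : ℂ)).re := by
  by_cases hz : z = 0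
  · subst hz
    rw [Complex.zero_cpow (by norm_num)]
    simp
  · rw [Complex.cpow_def_of_ne_zero hz, Complex.exp_re]
    apply mul_nonneg (Real.exp_nonneg _)
    have e : (Complex.log z * (1 / 2)).im = z.arg / 2 := by
      rw [show (1 / 2 : ℂ) = ((1 / 2 : ℝ) : ℂ) by norm_num, Complex.im_mul_ofReal, Complex.log_im]
      ring
    rw [e]
    apply Real.cos_nonneg_of_neg_pi_div_two_le_of_le
    · have := Complex.neg_pi_lt_arg z
      linarith
    · have := Complex.arg_le_pi z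
      linarith

lemma csq_re_eq (z : ℂ) : (z ^ (1 / 2 : ℂ)).re ^ 2 - (z ^ (1 / 2 : ℂ)).im ^ 2 = z.re := by
  have h := congrArg Complex.re (csq_sq z)
  rw [sq, Complex.mul_re] at h
  nlinarith

lemma csq_im_eq (z : ℂ) : 2 * (z ^ (1 / 2 : ℂ)).re * (z ^ (1 / 2 : ℂ)).im = z.im := by
  have h := congrArg Complex.im (csq_sq z)
  rw [sq, Complex.mul_im] at h
  nlinarith

lemma csq_re_pos {z : ℂ} (hz : 0 < z.re) : 0 < (z ^ (1 / 2 : ℂ)).re := by
  have h1 := csq_re_nonneg z
  have h2 := csq_re_eq z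
  rcases h1.eq_or_lt with h | h
  · rw [← h] at h2
    nlinarith [sq_nonneg (z ^ (1 / 2 : ℂ)).im]
  · exact h

lemma csq_im_le {z : ℂ} (hz : 0 ≤ z.re) : |(z ^ (1 / 2 : ℂ)).im| ≤ (z ^ (1 / 2 : ℂ)).re := by
  have h1 := csq_re_nonneg z
  have h2 := csq_re_eq z
  apply abs_le_of_sq_le_sq _ h1
  linarith

lemma csq_norm_sq (z : ℂ) : ‖z ^ (1 / 2 : ℂ)‖ ^ 2 = ‖z‖ := by
  rw [← norm_pow, csq_sq]

/-- monotonicity of the positive part of the imaginary part -/
lemma csq_mono {z₁ z₂ : ℂ} (h1 : 0 ≤ z₁.re) (h2 : 0 ≤ z₂.re) (hre : z₂.re ≤ z₁.re)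
    (him : z₁.im ≤ z₂.im) :
    max 0 (z₁ ^ (1 / 2 : ℂ)).im ≤ max 0 (z₂ ^ (1 / 2 : ℂ)).im := by
  rcases le_or_gt (z₁ ^ (1 / 2 : ℂ)).im 0 with h | h
  · rw [max_eq_left h]
    exact le_max_left _ _
  · rw [max_eq_right h.le]
    refine le_trans ?_ (le_max_right _ _)
    have a1 := csq_re_eq z₁
    have a2 := csq_re_eq z₂
    have b1 := csq_im_eq z₁
    have b2 := csq_im_eq z₂
    have c1 := csq_im_le h1
    have c2 := csq_im_le h2
    have d1 := csq_re_nonneg z₁
    have d2 := csq_re_nonneg z₂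
    set w1r := (z₁ ^ (1 / 2 : ℂ)).re
    set w1i := (z₁ ^ (1 / 2 : ℂ)).im
    set w2r := (z₂ ^ (1 / 2 : ℂ)).re
    set w2i := (z₂ ^ (1 / 2 : ℂ)).im
    have e1 : 0 < w1r := lt_of_lt_of_le (abs_pos.mpr h.ne') c1
    have e2 : 0 < z₁.im := by rw [← b1]; positivity
    have e3 : 0 < z₂.im := lt_of_lt_of_le e2 him
    have e4 : 0 < w2i := by
      by_contra hc
      push Not at hc
      have : 2 * w2r * w2i ≤ 0 := mul_nonpos_of_nonneg_of_nonpos (by positivity) hc
      linarith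
    by_contra hc
    push Not at hc
    have f1 : w2r ^ 2 < w1r ^ 2 := by nlinarith
    have f2 : w2r < w1r := by
      by_contra hcc
      push Not at hcc
      nlinarith
    have f3 : w2r * w2i < w1r * w1i := by
      calc w2r * w2i ≤ w2r * w1i := by gcongr
        _ < w1r * w1i := by gcongr
    linarith

lemma csq_strict {z₁ z₂ : ℂ} (h1 : 0 ≤ z₁.re) (h2 : 0 ≤ z₂.re) (hre : z₂.re ≤ z₁.re)
    (him : z₁.im < z₂.im) (h0 : 0 < z₂.im) :
    max 0 (z₁ ^ (1 / 2 : ℂ)).im < max 0 (z₂ ^ (1 / 2 : ℂ)).im := by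
  have a1 := csq_re_eq z₁
  have a2 := csq_re_eq z₂
  have b1 := csq_im_eq z₁
  have b2 := csq_im_eq z₂
  have d1 := csq_re_nonneg z₁
  have d2 := csq_re_nonneg z₂
  set w1r := (z₁ ^ (1 / 2 : ℂ)).re
  set w1i := (z₁ ^ (1 / 2 : ℂ)).im
  set w2r := (z₂ ^ (1 / 2 : ℂ)).re
  set w2i := (z₂ ^ (1 / 2 : ℂ)).im
  have e4 : 0 < w2i := by
    by_contra hc
    push Not at hc
    have : 2 * w2r * w2i ≤ 0 := mul_nonpos_of_nonneg_of_nonpos (by positivity) hc
    linarith
  rw [max_eq_right e4.le]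
  refine max_lt e4 ?_
  by_contra hc
  push Not at hc
  have f1 : w2r ^ 2 ≤ w1r ^ 2 := by nlinarith
  have f2 : w2r ≤ w1r := by
    by_contra hcc
    push Not at hcc
    nlinarith
  have f3 : w2r * w2i ≤ w1r * w1i := by
    have e5 : 0 ≤ w1i := e4.le.trans hc
    calc w2r * w2i ≤ w2r * w1i := by gcongr
      _ ≤ w1r * w1i := by gcongr
  linarith

/-! ### the function `s` -/

lemma sf_re (l : ℂ) (x : ℝ) :
    (sf α l x).re = -((l - Complex.I * ((|x| ^ α : ℝ) : ℂ)) ^ (1 / 2 : ℂ)).im := by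
  unfold sf
  simp

lemma sf_im (l : ℂ) (x : ℝ) :
    (sf α l x).im = ((l - Complex.I * ((|x| ^ α : ℝ) : ℂ)) ^ (1 / 2 : ℂ)).re := by
  unfold sf
  simp

lemma arg_re (l : ℂ) (t : ℝ) : (l - Complex.I * (t : ℂ)).re = l.re := by simp

lemma arg_im (l : ℂ) (t : ℝ) : (l - Complex.I * (t : ℂ)).im = l.im - t := by simp

lemma sf_sq' (l : ℂ) (x : ℝ) : sf α l x ^ 2 = qf α Complex.I l x := by
  unfold sf qf
  rw [mul_pow, csq_sq, Complex.I_sq]
  ring

lemma sf_sq {l : ℂ} (hl : 0 < l.re) (x : ℝ) : sf α l x ^ 2 = qf α Complex.I l x := sf_sq' l x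

lemma arg_slit {l : ℂ} (hl : 0 < l.re) (t : ℝ) : l - Complex.I * (t : ℂ) ∈ Complex.slitPlane := by
  left
  rw [arg_re]
  exact hl

lemma continuous_abs_rpow (hα : 0 < α) : Continuous fun x : ℝ => |x| ^ α :=
  continuous_abs.rpow_const fun _ => Or.inr hα.le

lemma continuous_sf (hα : 0 < α) {l : ℂ} (hl : 0 < l.re) : Continuous (sf α l) := by
  unfold sf
  refine continuous_const.mul ?_
  rw [continuous_iff_continuousAt]
  intro x
  have h1 : ContinuousAt (fun z : ℂ => z ^ (1 / 2 : ℂ)) (l - Complex.I * ((|x| ^ α : ℝ) : ℂ)) :=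
    continuousAt_cpow_const (arg_slit hl _)
  have h2 : ContinuousAt (fun x : ℝ => l - Complex.I * ((|x| ^ α : ℝ) : ℂ)) x := by
    apply Continuous.continuousAt
    exact continuous_const.sub (continuous_const.mul
      (Complex.continuous_ofReal.comp (continuous_abs_rpow hα)))
  exact ContinuousAt.comp (f := fun x : ℝ => l - Complex.I * ((|x| ^ α : ℝ) : ℂ)) h1 h2

lemma sf_im_pos {l : ℂ} (hl : 0 < l.re) (x : ℝ) : 0 < (sf α l x).im := by
  rw [sf_im]
  exact csq_re_pos (by rw [arg_re]; exact hl)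

lemma rpow_le_of_le_x0 (hα : 0 < α) {l : ℂ} (hl' : 0 < l.im) {x : ℝ} (hx0 : 0 ≤ x)
    (hx : x ≤ x0 α l) : |x| ^ α ≤ l.im := by
  rw [abs_of_nonneg hx0]
  unfold x0 at hx
  calc x ^ α ≤ (l.im ^ (1 / α)) ^ α := Real.rpow_le_rpow hx0 hx hα.le
    _ = l.im := by
      rw [← Real.rpow_mul hl'.le, one_div_mul_cancel hα.ne', Real.rpow_one]

lemma sf_re_nonpos (hα : 0 < α) {l : ℂ} (hl : 0 < l.re) (hl' : 0 < l.im) {x : ℝ} (hx0 : 0 ≤ x)
    (hx : x ≤ x0 α l) : (sf α l x).re ≤ 0 := by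
  rw [sf_re, neg_nonpos]
  have h1 := rpow_le_of_le_x0 hα hl' hx0 hx
  have h2 := csq_im_eq (l - Complex.I * ((|x| ^ α : ℝ) : ℂ))
  have h3 : 0 < ((l - Complex.I * ((|x| ^ α : ℝ) : ℂ)) ^ (1 / 2 : ℂ)).re :=
    csq_re_pos (by rw [arg_re]; exact hl)
  rw [arg_im] at h2
  by_contra hc
  push Not at hc
  nlinarith

/-- `|Re s| ≤ Im s` -/
lemma sf_re_le_im {l : ℂ} (hl : 0 < l.re) (x : ℝ) : |(sf α l x).re| ≤ (sf α l x).im := by
  rw [sf_re, sf_im, abs_neg]
  exact csq_im_le (by rw [arg_re]; exact hl.le)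

lemma sf_norm_sq {l : ℂ} (hl : 0 < l.re) (x : ℝ) :
    ‖sf α l x‖ ^ 2 = ‖qf α Complex.I l x‖ ∧ l.re ≤ ‖sf α l x‖ ^ 2 := by
  have h : ‖sf α l x‖ ^ 2 = ‖qf α Complex.I l x‖ := by rw [← norm_pow, sf_sq']
  refine ⟨h, ?_⟩
  rw [h]
  have h1 := Complex.abs_re_le_norm (qf α Complex.I l x)
  have h2 : (qf α Complex.I l x).re = -l.re := by
    unfold qf
    simp
  rw [h2, abs_neg] at h1
  exact (le_abs_self _).trans h1

lemma sf_ne_zero {l : ℂ} (hl : 0 < l.re) (x : ℝ) : sf α l x ≠ 0 := by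
  intro h
  have := sf_im_pos (α := α) hl x
  rw [h] at this
  simp at this

lemma csq_inv {z : ℂ} (hz : z ≠ 0) : z ^ ((1 / 2 : ℂ) - 1) = (z ^ (1 / 2 : ℂ))⁻¹ := by
  rw [Complex.cpow_sub _ _ hz, Complex.cpow_one]
  have h := csq_sq z
  have h2 : z ^ (1 / 2 : ℂ) ≠ 0 := by
    intro h0
    rw [h0] at h
    apply hz
    rw [← h]
    simp
  rw [div_eq_iff hz]
  nth_rewrite 3 [← h]
  rw [sq]
  field_simp

/-- derivative in `x > 0` : `s' = q'/(2s)` with `q' = i α x^{α-1}` -/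
lemma hasDerivAt_sf {l : ℂ} (hl : 0 < l.re) {x : ℝ} (hx : 0 < x) :
    HasDerivAt (sf α l) (Complex.I * ((α * x ^ (α - 1) : ℝ) : ℂ) / (2 * sf α l x)) x := by
  have hslit := arg_slit hl (|x| ^ α)
  have hz : l - Complex.I * ((|x| ^ α : ℝ) : ℂ) ≠ 0 := Complex.slitPlane_ne_zero hslit
  have h0 : HasDerivAt (fun x : ℝ => |x| ^ α) (α * x ^ (α - 1)) x := by
    have h1 : HasDerivAt (fun x : ℝ => x ^ α) (α * x ^ (α - 1)) x :=
      Real.hasDerivAt_rpow_const (Or.inl hx.ne')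
    refine h1.congr_of_eventuallyEq ?_
    filter_upwards [lt_mem_nhds hx] with y hy
    rw [abs_of_pos hy]
  have h1 : HasDerivAt (fun x : ℝ => ((|x| ^ α : ℝ) : ℂ)) ((α * x ^ (α - 1) : ℝ) : ℂ) x :=
    h0.ofReal_comp
  have h2 : HasDerivAt (fun x : ℝ => l - Complex.I * ((|x| ^ α : ℝ) : ℂ))
      (-(Complex.I * ((α * x ^ (α - 1) : ℝ) : ℂ))) x := (h1.const_mul _).const_sub _
  have h3 : HasDerivAt (fun z : ℂ => z ^ (1 / 2 : ℂ))
      ((1 / 2 : ℂ) * (l - Complex.I * ((|x| ^ α : ℝ) : ℂ)) ^ ((1 / 2 : ℂ) - 1))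
      (l - Complex.I * ((|x| ^ α : ℝ) : ℂ)) := by
    simpa using (hasDerivAt_id _).cpow_const (c := (1 / 2 : ℂ)) hslit
  have h4 := (HasDerivAt.comp x h3 h2).const_mul Complex.I
  refine h4.congr_deriv ?_
  rw [csq_inv hz]
  have hw : (l - Complex.I * ((|x| ^ α : ℝ) : ℂ)) ^ (1 / 2 : ℂ) ≠ 0 := by
    intro h
    have := csq_sq (l - Complex.I * ((|x| ^ α : ℝ) : ℂ))
    rw [h] at this
    apply hz
    rw [← this]
    simp
  unfold sf
  have hI := Complex.I_ne_zero
  field_simp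
  ring_nf
  simp

lemma hasDerivAt_sf_l {l : ℂ} (hl : 0 < l.re) (x : ℝ) :
    HasDerivAt (fun l => sf α l x) (-(1 / (2 * sf α l x))) l := by
  have hslit := arg_slit hl (|x| ^ α)
  have hz : l - Complex.I * ((|x| ^ α : ℝ) : ℂ) ≠ 0 := Complex.slitPlane_ne_zero hslit
  have h1 : HasDerivAt (fun l : ℂ => l - Complex.I * ((|x| ^ α : ℝ) : ℂ)) 1 l :=
    (hasDerivAt_id l).sub_const _
  have h2 := (h1.cpow_const (c := (1 / 2 : ℂ)) hslit).const_mul Complex.I
  refine h2.congr_deriv ?_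
  rw [csq_inv hz]
  have hw : (l - Complex.I * ((|x| ^ α : ℝ) : ℂ)) ^ (1 / 2 : ℂ) ≠ 0 := by
    intro h
    have := csq_sq (l - Complex.I * ((|x| ^ α : ℝ) : ℂ))
    rw [h] at this
    apply hz
    rw [← this]
    simp
  unfold sf
  have hI := Complex.I_ne_zero
  field_simp
  simp

lemma differentiableOn_sf (x : ℝ) : DifferentiableOn ℂ (fun l => sf α l x) {l | 0 < l.re} := by
  intro l hl
  exact (hasDerivAt_sf_l hl x).differentiableAt.differentiableWithinAt

lemma differentiableOn_Pf (hα : 0 < α) (X : ℝ) :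
    DifferentiableOn ℂ (fun l => Pf α l X) {l | 0 < l.re} := by
  intro l₀ hl₀
  have hl0 : 0 < l₀.re := hl₀
  have hball : ∀ l ∈ Metric.ball l₀ (l₀.re / 2), l₀.re / 2 < l.re := by
    intro l hl
    rw [Metric.mem_ball, dist_eq_norm] at hl
    have h1 := Complex.abs_re_le_norm (l - l₀)
    rw [Complex.sub_re] at h1
    have h2 := (abs_le.mp (h1.trans hl.le)).1
    have h3 := (abs_lt.mp (lt_of_le_of_lt h1 hl)).1
    linarith
  have key := intervalIntegral.hasDerivAt_integral_of_dominated_loc_of_deriv_le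
    (μ := volume) (𝕜 := ℂ) (a := 0) (b := X) (F := fun l x => sf α l x)
    (F' := fun l x => -(1 / (2 * sf α l x))) (x₀ := l₀) (s := Metric.ball l₀ (l₀.re / 2))
    (bound := fun _ => 1 / (2 * Real.sqrt (l₀.re / 2)))
    (Metric.ball_mem_nhds _ (by positivity))
    (by
      filter_upwards [Metric.ball_mem_nhds l₀ (half_pos hl0)] with l hl
      have hl' : 0 < l.re := by have := hball l hl; linarith
      exact (continuous_sf hα hl').aestronglyMeasurable)
    ((continuous_sf hα hl0).intervalIntegrable _ _)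
    (by
      have : Continuous fun x => -(1 / (2 * sf α l₀ x)) := by
        refine (Continuous.div continuous_const (continuous_const.mul (continuous_sf hα hl0)) ?_).neg
        intro x
        exact mul_ne_zero two_ne_zero (sf_ne_zero hl0 x)
      exact this.aestronglyMeasurable)
    (by
      refine Filter.Eventually.of_forall fun x _ l hl => ?_
      have h1 := hball l hl
      have hl' : 0 < l.re := by linarith
      rw [norm_neg, norm_div, norm_one, norm_mul]
      have h2 : Real.sqrt (l₀.re / 2) ≤ ‖sf α l x‖ := by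
        rw [← Real.sqrt_sq (norm_nonneg (sf α l x))]
        apply Real.sqrt_le_sqrt
        have := (sf_norm_sq (α := α) hl' x).2
        linarith
      have h3 : 0 < Real.sqrt (l₀.re / 2) := Real.sqrt_pos.mpr (by positivity)
      have h4 : ‖(2 : ℂ)‖ = 2 := by simp
      rw [h4]
      gcongr)
    (intervalIntegrable_const)
    (by
      refine Filter.Eventually.of_forall fun x _ l hl => ?_
      have h1 := hball l hl
      have hl' : 0 < l.re := by linarith
      exact hasDerivAt_sf_l hl' x)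
  exact key.2.differentiableAt.differentiableWithinAt

lemma norm_exp_Pf (hα : 0 < α) {l : ℂ} (hl : 0 < l.re) (X : ℝ) :
    ‖Complex.exp (Pf α l X)‖ = Real.exp (- Rf α l X) := by
  rw [Complex.norm_exp]
  congr 1
  unfold Pf Rf
  have h := Complex.reCLM.intervalIntegral_comp_comm
    ((continuous_sf hα hl).intervalIntegrable (μ := volume) 0 X)
  simp only [Complex.reCLM_apply] at h
  rw [← h, intervalIntegral.integral_neg, neg_neg]

lemma continuous_re_sf (hα : 0 < α) {l : ℂ} (hl : 0 < l.re) :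
    Continuous fun x => - (sf α l x).re := (Complex.continuous_re.comp (continuous_sf hα hl)).neg

lemma hasDerivAt_Rf (hα : 0 < α) {l : ℂ} (hl : 0 < l.re) (x : ℝ) :
    HasDerivAt (Rf α l) (- (sf α l x).re) x := by
  have hc := continuous_re_sf hα hl
  exact intervalIntegral.integral_hasDerivAt_right (hc.intervalIntegrable _ _)
    (hc.stronglyMeasurableAtFilter _ _) hc.continuousAt

/-- `0 ≤ R(x₀) - R(x) ≤ (x₀ - x) √|l|` -/
lemma Rf_diff_le (hα : 0 < α) {l : ℂ} (hl : 0 < l.re) (hl' : 0 < l.im) {x y : ℝ} (hx0 : 0 ≤ x)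
    (hxy : x ≤ y) (hy : y ≤ x0 α l) :
    0 ≤ Rf α l y - Rf α l x ∧ Rf α l y - Rf α l x ≤ (y - x) * Real.sqrt ‖l‖ := by
  have hc := continuous_re_sf hα hl
  have h1 : Rf α l y - Rf α l x = ∫ t in x..y, - (sf α l t).re := by
    unfold Rf
    rw [intervalIntegral.integral_interval_sub_left (hc.intervalIntegrable _ _)
      (hc.intervalIntegrable _ _)]
  rw [h1]
  have hb : ∀ t ∈ Icc x y, 0 ≤ - (sf α l t).re ∧ - (sf α l t).re ≤ Real.sqrt ‖l‖ := by
    intro t ht
    have ht0 : 0 ≤ t := hx0.trans ht.1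
    have htx : t ≤ x0 α l := ht.2.trans hy
    have h2 := sf_re_nonpos hα hl hl' ht0 htx
    refine ⟨by linarith, ?_⟩
    have h3 := rpow_le_of_le_x0 hα hl' ht0 htx
    have h4 : ‖sf α l t‖ ^ 2 ≤ ‖l‖ := by
      rw [(sf_norm_sq hl t).1]
      have e : ‖qf α Complex.I l t‖ = ‖l - Complex.I * ((|t| ^ α : ℝ) : ℂ)‖ := by
        unfold qf
        rw [← norm_neg]
        congr 1
        ring
      rw [e, ← sq_le_sq₀ (norm_nonneg _) (norm_nonneg _), ← Complex.normSq_eq_norm_sq,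
        ← Complex.normSq_eq_norm_sq, Complex.normSq_apply, Complex.normSq_apply, arg_re, arg_im]
      have h5 : 0 ≤ |t| ^ α := by positivity
      nlinarith
    have h6 : ‖sf α l t‖ ≤ Real.sqrt ‖l‖ := by
      rw [← Real.sqrt_sq (norm_nonneg (sf α l t))]
      exact Real.sqrt_le_sqrt h4
    have h7 := Complex.abs_re_le_norm (sf α l t)
    have h8 := neg_abs_le (sf α l t).re
    linarith
  constructor
  · exact intervalIntegral.integral_nonneg hxy (fun t ht => (hb t ht).1)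
  · calc ∫ t in x..y, - (sf α l t).re ≤ ∫ _t in x..y, Real.sqrt ‖l‖ := by
          apply intervalIntegral.integral_mono_on hxy (hc.intervalIntegrable _ _)
            (intervalIntegrable_const)
          intro t ht
          exact (hb t ht).2
      _ = (y - x) * Real.sqrt ‖l‖ := by simp

/-- scaling of the square root -/
lemma csq_scale {r : ℝ} (hr : 0 < r) {z : ℂ} (hz : 0 < z.re) :
    ((r : ℂ) * z) ^ (1 / 2 : ℂ) = ((r ^ (1 / 2 : ℝ) : ℝ) : ℂ) * z ^ (1 / 2 : ℂ) := by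
  have h1 := csq_sq ((r : ℂ) * z)
  have h2 : (((r ^ (1 / 2 : ℝ) : ℝ) : ℂ) * z ^ (1 / 2 : ℂ)) ^ 2 = (r : ℂ) * z := by
    rw [mul_pow, csq_sq, ← Complex.ofReal_pow]
    congr 2
    rw [← Real.rpow_natCast, ← Real.rpow_mul hr.le]
    norm_num
  have h3 : 0 < (((r : ℂ) * z) ^ (1 / 2 : ℂ)).re := by
    apply csq_re_pos
    rw [Complex.re_ofReal_mul]
    positivity
  have h4 : 0 < (((r ^ (1 / 2 : ℝ) : ℝ) : ℂ) * z ^ (1 / 2 : ℂ)).re := by
    rw [Complex.re_ofReal_mul]
    have := csq_re_pos hz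
    positivity
  rcases sq_eq_sq_iff_eq_or_eq_neg.mp (h1.trans h2.symm) with h | h
  · exact h
  · rw [h, Complex.neg_re] at h3
    linarith

lemma exp_re (φ : ℝ) : (Complex.exp (φ * Complex.I)).re = Real.cos φ := by
  rw [Complex.exp_ofReal_mul_I_re]

lemma exp_im (φ : ℝ) : (Complex.exp (φ * Complex.I)).im = Real.sin φ := by
  rw [Complex.exp_ofReal_mul_I_im]

/-- homogeneity: `R(x₀(l), l) = e(φ) r^ρ` for `l = r e^{iφ}` -/
lemma Rf_x0 (hα : 0 < α) {r φ : ℝ} (hr : 0 < r) (hφ : φ ∈ Ioo 0 (Real.pi / 2)) :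
    Rf α (r * Complex.exp (φ * Complex.I)) (x0 α (r * Complex.exp (φ * Complex.I))) =
      ef α φ * r ^ rho α := by
  have hcos : 0 < Real.cos φ := Real.cos_pos_of_mem_Ioo ⟨by linarith [hφ.1, Real.pi_pos], hφ.2⟩
  have hsin : 0 < Real.sin φ := Real.sin_pos_of_pos_of_lt_pi hφ.1 (by linarith [hφ.2, Real.pi_pos])
  have hsin1 : Real.sin φ ≤ 1 := Real.sin_le_one φ
  set e : ℂ := Complex.exp (φ * Complex.I) with he
  have here : e.re = Real.cos φ := exp_re φ
  have heim : e.im = Real.sin φ := exp_im φ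
  have hepos : 0 < e.re := by rw [here]; exact hcos
  have heipos : 0 < e.im := by rw [heim]; exact hsin
  have hx0 : x0 α (r * e) = r ^ (1 / α) * Real.sin φ ^ (1 / α) := by
    unfold x0
    rw [Complex.im_ofReal_mul, heim, Real.mul_rpow hr.le hsin.le]
  set c : ℝ := r ^ (1 / α) with hc
  have hc0 : 0 < c := by positivity
  set σ : ℝ := Real.sin φ ^ (1 / α) with hσ
  have hσ0 : 0 ≤ σ := by positivity
  have hσ1 : σ ≤ 1 := Real.rpow_le_one hsin.le hsin1 (by positivity)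
  have hx0e : x0 α e = σ := by
    unfold x0
    rw [heim]
  -- pointwise scaling
  have hpt : ∀ y : ℝ, - (sf α (r * e) (c * y)).re = r ^ (1 / 2 : ℝ) * (- (sf α e y).re) := by
    intro y
    rw [sf_re, sf_re, neg_neg, neg_neg]
    have e1 : (r : ℂ) * e - Complex.I * ((|c * y| ^ α : ℝ) : ℂ)
        = (r : ℂ) * (e - Complex.I * ((|y| ^ α : ℝ) : ℂ)) := by
      have : |c * y| ^ α = r * |y| ^ α := by
        rw [abs_mul, abs_of_pos hc0, Real.mul_rpow hc0.le (abs_nonneg _), hc,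
          ← Real.rpow_mul hr.le, one_div_mul_cancel hα.ne', Real.rpow_one]
      rw [this]
      push_cast
      ring
    rw [e1, csq_scale hr (by rw [arg_re]; exact hepos), Complex.im_ofReal_mul]
  have h1 : Rf α (r * e) (c * σ) = c * ∫ y in (0:ℝ)..σ, - (sf α (r * e) (c * y)).re := by
    unfold Rf
    have := intervalIntegral.mul_integral_comp_mul_left (a := 0) (b := σ)
      (f := fun x => - (sf α (r * e) x).re) c
    rw [this, mul_zero]
  rw [hx0, h1]
  simp_rw [hpt]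
  rw [intervalIntegral.integral_const_mul]
  have hcont := continuous_re_sf (α := α) hα hepos
  have h2 : ef α φ = ∫ y in (0:ℝ)..σ, - (sf α e y).re := by
    unfold ef
    rw [← he]
    have hc2 : Continuous fun y => max 0 (- (sf α e y).re) := continuous_const.max hcont
    rw [← intervalIntegral.integral_add_adjacent_intervals (b := σ)
      (hc2.intervalIntegrable _ _) (hc2.intervalIntegrable _ _)]
    have e1 : ∫ y in (0:ℝ)..σ, max 0 (- (sf α e y).re) = ∫ y in (0:ℝ)..σ, - (sf α e y).re := by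
      apply intervalIntegral.integral_congr
      intro y hy
      rw [uIcc_of_le hσ0] at hy
      have := sf_re_nonpos hα hepos heipos hy.1 (by rw [hx0e]; exact hy.2)
      exact max_eq_right (by linarith)
    have e2 : ∫ y in σ..1, max 0 (- (sf α e y).re) = 0 := by
      have : ∫ y in σ..1, max 0 (- (sf α e y).re) = ∫ _y in σ..1, (0 : ℝ) := by
        apply intervalIntegral.integral_congr
        intro y hy
        rw [uIcc_of_le hσ1] at hy
        apply max_eq_left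
        rw [sf_re, neg_neg]
        have h3 := csq_im_eq (e - Complex.I * ((|y| ^ α : ℝ) : ℂ))
        have h4 : 0 < ((e - Complex.I * ((|y| ^ α : ℝ) : ℂ)) ^ (1 / 2 : ℂ)).re :=
          csq_re_pos (by rw [arg_re]; exact hepos)
        rw [arg_im, heim] at h3
        have hy0 : 0 ≤ y := hσ0.trans hy.1
        have h5 : Real.sin φ ≤ |y| ^ α := by
          rw [abs_of_nonneg hy0]
          calc Real.sin φ = σ ^ α := by
                rw [hσ, ← Real.rpow_mul hsin.le, one_div_mul_cancel hα.ne', Real.rpow_one]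
            _ ≤ y ^ α := Real.rpow_le_rpow hσ0 hy.1 hα.le
        by_contra hcc
        push Not at hcc
        nlinarith
      rw [this]
      simp
    rw [e1, e2, add_zero]
  rw [h2]
  have h3 : r ^ rho α = c * r ^ (1 / 2 : ℝ) := by
    unfold rho
    rw [hc, ← Real.rpow_add hr]
  rw [h3]
  ring

/-- the integrand of `e` -/
noncomputable def eint (α φ y : ℝ) : ℝ := max 0 (- (sf α (Complex.exp (φ * Complex.I)) y).re)

lemma eint_eq (φ y : ℝ) : eint α φ y =
    max 0 ((Complex.exp (φ * Complex.I) - Complex.I * ((|y| ^ α : ℝ) : ℂ)) ^ (1 / 2 : ℂ)).im := by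
  unfold eint
  rw [sf_re, neg_neg]

lemma ef_zero : ef α 0 = 0 := by
  have h : ∀ y : ℝ, max 0 (- (sf α (Complex.exp ((0 : ℝ) * Complex.I)) y).re) = 0 := by
    intro y
    rw [sf_re, neg_neg]
    apply max_eq_left
    have h3 := csq_im_eq (Complex.exp ((0 : ℝ) * Complex.I) - Complex.I * ((|y| ^ α : ℝ) : ℂ))
    have h4 : 0 < ((Complex.exp ((0 : ℝ) * Complex.I) - Complex.I * ((|y| ^ α : ℝ) : ℂ)) ^
        (1 / 2 : ℂ)).re := by
      apply csq_re_pos
      rw [arg_re, exp_re, Real.cos_zero]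
      norm_num
    rw [arg_im, exp_im, Real.sin_zero] at h3
    have h5 : 0 ≤ |y| ^ α := by positivity
    by_contra hcc
    push Not at hcc
    nlinarith
  unfold ef
  simp_rw [h]
  simp

lemma continuous_eint (hα : 0 < α) : Continuous (Function.uncurry fun φ y : ℝ =>
    eint α (max 0 (min φ (Real.pi / 2))) y) := by
  unfold Function.uncurry
  simp only [eint_eq]
  refine continuous_const.max (Complex.continuous_im.comp ?_)
  rw [continuous_iff_continuousAt]
  rintro ⟨φ, y⟩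
  have hmem : max 0 (min φ (Real.pi / 2)) ∈ Icc 0 (Real.pi / 2) :=
    ⟨le_max_left _ _, max_le (by positivity) (min_le_right _ _)⟩
  have h1 : ContinuousAt (fun z : ℂ => z ^ (1 / 2 : ℂ))
      (Complex.exp ((max 0 (min φ (Real.pi / 2)) : ℝ) * Complex.I)
        - Complex.I * ((|y| ^ α : ℝ) : ℂ)) := by
    apply Complex.continuousAt_cpow_const_of_re_pos
    · left
      rw [arg_re, exp_re]
      exact Real.cos_nonneg_of_neg_pi_div_two_le_of_le (by linarith [hmem.1, Real.pi_pos]) hmem.2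
    · norm_num
  have h2 : ContinuousAt (fun q : ℝ × ℝ =>
      Complex.exp ((max 0 (min q.1 (Real.pi / 2)) : ℝ) * Complex.I)
        - Complex.I * ((|q.2| ^ α : ℝ) : ℂ)) (φ, y) := by
    apply Continuous.continuousAt
    have hc := (continuous_abs_rpow hα).comp (continuous_snd (X := ℝ) (Y := ℝ))
    have hc2 := Complex.continuous_ofReal.comp hc
    refine Continuous.sub (by fun_prop) (continuous_const.mul hc2)
  exact ContinuousAt.comp (f := fun q : ℝ × ℝ =>
      Complex.exp ((max 0 (min q.1 (Real.pi / 2)) : ℝ) * Complex.I)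
        - Complex.I * ((|q.2| ^ α : ℝ) : ℂ)) h1 h2

lemma clamp_eq {φ : ℝ} (hφ : φ ∈ Icc 0 (Real.pi / 2)) : max 0 (min φ (Real.pi / 2)) = φ := by
  rw [min_eq_left hφ.2, max_eq_right hφ.1]

lemma continuous_eint_right (hα : 0 < α) {φ : ℝ} (hφ : φ ∈ Icc 0 (Real.pi / 2)) :
    Continuous (eint α φ) := by
  have h := (continuous_eint hα).comp (Continuous.prodMk_right φ)
  have e : (Function.uncurry fun φ y : ℝ => eint α (max 0 (min φ (Real.pi / 2))) y) ∘
      (fun y => (φ, y)) = eint α φ := by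
    funext y
    simp only [Function.comp, Function.uncurry]
    rw [clamp_eq hφ]
  rwa [e] at h

lemma ef_continuousOn (hα : 0 < α) : ContinuousOn (ef α) (Icc 0 (Real.pi / 2)) := by
  have h := intervalIntegral.continuous_parametric_intervalIntegral_of_continuous'
    (μ := volume) (continuous_eint hα) 0 1
  refine h.continuousOn.congr ?_
  intro φ hφ
  simp only
  rw [clamp_eq hφ]
  rfl

lemma ef_strictMono (hα : 0 < α) : StrictMonoOn (ef α) (Icc 0 (Real.pi / 2)) := by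
  intro φ₁ h1 φ₂ h2 h12
  have e1 : ef α φ₁ = ∫ y in (0:ℝ)..1, eint α φ₁ y := rfl
  have e2 : ef α φ₂ = ∫ y in (0:ℝ)..1, eint α φ₂ y := rfl
  rw [e1, e2]
  have hcos : Real.cos φ₂ < Real.cos φ₁ :=
    Real.cos_lt_cos_of_nonneg_of_le_pi_div_two h1.1 h2.2 h12
  have hsin : Real.sin φ₁ < Real.sin φ₂ :=
    Real.sin_lt_sin_of_lt_of_le_pi_div_two (by linarith [h1.1, Real.pi_pos]) h2.2 h12
  have hc1 : 0 ≤ Real.cos φ₁ :=
    Real.cos_nonneg_of_neg_pi_div_two_le_of_le (by linarith [h1.1, Real.pi_pos]) h1.2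
  have hc2 : 0 ≤ Real.cos φ₂ :=
    Real.cos_nonneg_of_neg_pi_div_two_le_of_le (by linarith [h2.1, Real.pi_pos]) h2.2
  have hs1 : 0 ≤ Real.sin φ₁ :=
    Real.sin_nonneg_of_nonneg_of_le_pi h1.1 (by linarith [h1.2, Real.pi_pos])
  apply intervalIntegral.integral_lt_integral_of_continuousOn_of_le_of_exists_lt (by norm_num)
    (continuous_eint_right hα h1).continuousOn (continuous_eint_right hα h2).continuousOn
  · intro y _
    rw [eint_eq, eint_eq]
    apply csq_mono
    · rw [arg_re, exp_re]; exact hc1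
    · rw [arg_re, exp_re]; exact hc2
    · rw [arg_re, exp_re, arg_re, exp_re]; exact hcos.le
    · rw [arg_im, exp_im, arg_im, exp_im]; linarith
  · refine ⟨0, ⟨le_rfl, by norm_num⟩, ?_⟩
    rw [eint_eq, eint_eq]
    apply csq_strict
    · rw [arg_re, exp_re]; exact hc1
    · rw [arg_re, exp_re]; exact hc2
    · rw [arg_re, exp_re, arg_re, exp_re]; exact hcos.le
    · rw [arg_im, exp_im, arg_im, exp_im]; linarith
    · rw [arg_im, exp_im, abs_zero, Real.zero_rpow hα.ne']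
      linarith

end Pool.Agent.Work.MP_9fcdee_mp
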