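import Pool.Agent.Work.MP_9fcdee_mp.M1_Ode
import Pool.Agent.Work.MP_9fcdee_mp.E1_Wkb

set_option autoImplicit false

open Set Filter Topology MeasureTheory

namespace Pool.Agent.Work.MP_9fcdee_mp

variable {α : ℝ}

lemma e2_re {g : ℝ → ℂ} {g' : ℂ} {x : ℝ} (h : HasDerivAt g g' x) :
    HasDerivAt (fun t => (g t).re) g'.re x := by
  exact (Complex.reCLM.hasFDerivAt.comp_hasDerivAt x h)

lemma e2_im {g : ℝ → ℂ} {g' : ℂ} {x : ℝ} (h : HasDerivAt g g' x) :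
    HasDerivAt (fun t => (g t).im) g'.im x := by
  exact (Complex.imCLM.hasFDerivAt.comp_hasDerivAt x h)

lemma e2_normsq (z : ℂ) : ‖z‖ ^ 2 = z.re ^ 2 + z.im ^ 2 := by
  rw [← Complex.normSq_eq_norm_sq, Complex.normSq_apply]; ring

/-- derivative of `Im (v ū)` -/
lemma e2_deriv_im {q f u v : ℝ → ℂ} (h : IsSol q f u v) (x : ℝ) :
    HasDerivAt (fun t => (v t).im * (u t).re - (v t).re * (u t).im)
      ((q x).im * ‖u x‖ ^ 2 - ((f x).im * (u x).re - (f x).re * (u x).im)) x := by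
  have h1 := (e2_im (h.dv x)).mul (e2_re (h.du x))
  have h2 := (e2_re (h.dv x)).mul (e2_im (h.du x))
  refine (h1.sub h2).congr_deriv ?_
  simp only [Complex.sub_im, Complex.sub_re, Complex.mul_im, Complex.mul_re]
  rw [e2_normsq]
  ring

lemma e2_deriv_normsq {g : ℝ → ℂ} {g' : ℂ} {x : ℝ} (h : HasDerivAt g g' x) :
    HasDerivAt (fun t => ‖g t‖ ^ 2) (2 * ((g x).re * g'.re + (g x).im * g'.im)) x := by
  have h1 := ((e2_re h).pow 2).add ((e2_im h).pow 2)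
  refine (h1.congr_of_eventuallyEq ?_).congr_deriv ?_
  · exact Eventually.of_forall (fun t => by simp [e2_normsq])
  · simp; ring

lemma e2_alg (s u v : ℂ) (hs : |s.re| ≤ s.im) (h : v.im * u.re - v.re * u.im ≤ 0) :
    ‖v + s * u‖ ≤ 3 * ‖v - s * u‖ := by
  set X : ℝ := v.re * u.re + v.im * u.im with hX
  set Y : ℝ := v.im * u.re - v.re * u.im with hY
  have hzz : X ^ 2 + Y ^ 2 = ‖u‖ ^ 2 * ‖v‖ ^ 2 := by
    rw [e2_normsq, e2_normsq, hX, hY]; ring
  set P : ℝ := ‖v‖ ^ 2 + ‖s‖ ^ 2 * ‖u‖ ^ 2 with hP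
  have hB : ‖v + s * u‖ ^ 2 = P + 2 * (s.re * X + s.im * Y) := by
    rw [hP, e2_normsq, e2_normsq, e2_normsq, e2_normsq, hX, hY]
    simp only [Complex.add_re, Complex.add_im, Complex.mul_re, Complex.mul_im]
    ring
  have hA : ‖v - s * u‖ ^ 2 = P - 2 * (s.re * X + s.im * Y) := by
    rw [hP, e2_normsq, e2_normsq, e2_normsq, e2_normsq, hX, hY]
    simp only [Complex.sub_re, Complex.sub_im, Complex.mul_re, Complex.mul_im]
    ring
  have hP0 : 0 ≤ P := by positivity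
  have hs0 : 0 ≤ s.im := (abs_nonneg _).trans hs
  have hsre : s.re ^ 2 * 2 ≤ ‖s‖ ^ 2 := by
    rw [e2_normsq]
    have : s.re ^ 2 ≤ s.im ^ 2 := by
      rw [← sq_abs s.re]; exact pow_le_pow_left₀ (abs_nonneg _) hs 2
    linarith
  have hP2 : 4 * (‖s‖ ^ 2 * (‖u‖ ^ 2 * ‖v‖ ^ 2)) ≤ P ^ 2 := by
    rw [hP]; nlinarith [sq_nonneg (‖v‖ ^ 2 - ‖s‖ ^ 2 * ‖u‖ ^ 2)]
  have hm : (s.re * X) ^ 2 * 8 ≤ P ^ 2 := by
    have h1 : X ^ 2 ≤ ‖u‖ ^ 2 * ‖v‖ ^ 2 := by nlinarith [sq_nonneg Y]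
    have h2 : (s.re ^ 2 * 2) * X ^ 2 ≤ ‖s‖ ^ 2 * (‖u‖ ^ 2 * ‖v‖ ^ 2) :=
      mul_le_mul hsre h1 (sq_nonneg _) (sq_nonneg _)
    nlinarith
  have hm2 : s.re * X ≤ 2 / 5 * P := by
    by_contra hcon
    push Not at hcon
    have : (2 / 5 * P) ^ 2 < (s.re * X) ^ 2 := by
      apply pow_lt_pow_left₀ hcon (by positivity) (by norm_num)
    nlinarith [sq_nonneg P]
  have hY2 : s.im * Y ≤ 0 := mul_nonpos_of_nonneg_of_nonpos hs0 h
  have hfin : ‖v + s * u‖ ^ 2 ≤ (3 * ‖v - s * u‖) ^ 2 := by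
    rw [mul_pow, hB, hA]; nlinarith
  exact le_of_sq_le_sq hfin (by positivity)

lemma e2_qf_im (l : ℂ) {x : ℝ} (hx : 0 ≤ x) : (qf α Complex.I l x).im = x ^ α - l.im := by
  simp [qf, abs_of_nonneg hx]

lemma e2_qf_re (l : ℂ) (x : ℝ) : (qf α Complex.I l x).re = - l.re := by
  simp [qf]

lemma e2_x0_pow (hα : 0 < α) {l : ℂ} (hl : 0 < l.im) : x0 α l ^ α = l.im := by
  unfold x0
  rw [← Real.rpow_mul hl.le, one_div, inv_mul_cancel₀ hα.ne', Real.rpow_one]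

lemma e2_x0_pos {l : ℂ} (hl : 0 < l.im) : 0 < x0 α l := Real.rpow_pos_of_pos hl _

lemma e2_pow_le (hα : 0 < α) {l : ℂ} (hl : 0 < l.im) {x : ℝ} (hx : 0 ≤ x) (hx' : x ≤ x0 α l) :
    x ^ α ≤ l.im := by
  rw [← e2_x0_pow hα hl]
  exact Real.rpow_le_rpow hx hx' hα.le

lemma e2_bc {b : Bool} {x y : ℂ} (h : bc b x y = 0) : y.im * x.re - y.re * x.im = 0 := by
  cases b
  · have : y = 0 := by simpa [bc] using h
    simp [this]
  · have : x = 0 := by simpa [bc] using h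
    simp [this]

lemma e2_im_nonpos (hα : 0 < α) {b : Bool} {l : ℂ} (hl : 0 < l.im) {v v' : ℝ → ℂ}
    (h : IsSol (qf α Complex.I l) 0 v v') (hb : bc b (v 0) (v' 0) = 0) {x : ℝ} (hx : 0 ≤ x)
    (hx' : x ≤ x0 α l) : (v' x).im * (v x).re - (v' x).re * (v x).im ≤ 0 := by
  have hanti : AntitoneOn (fun t => (v' t).im * (v t).re - (v' t).re * (v t).im)
      (Icc 0 (x0 α l)) := by
    apply antitoneOn_of_deriv_nonpos (convex_Icc _ _)
    · exact fun t _ => (e2_deriv_im h t).continuousAt.continuousWithinAt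
    · exact fun t _ => (e2_deriv_im h t).differentiableAt.differentiableWithinAt
    · intro t ht
      rw [interior_Icc] at ht
      rw [(e2_deriv_im h t).deriv, e2_qf_im l ht.1.le]
      have h1 : t ^ α ≤ l.im := e2_pow_le hα hl ht.1.le ht.2.le
      have h2 : (t ^ α - l.im) * ‖v t‖ ^ 2 ≤ 0 :=
        mul_nonpos_of_nonpos_of_nonneg (by linarith) (by positivity)
      simpa using h2
  have h0 := hanti (left_mem_Icc.2 (hx.trans hx')) ⟨hx, hx'⟩ hx
  have h1 := e2_bc hb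
  simp only at h0
  linarith

/-- the derivative of `‖a‖²`, `a = v' - s v` -/
lemma e2_norm_bound {s u v : ℂ} (hs : 1 ≤ ‖s‖) (h : ‖v + s * u‖ ≤ 3 * ‖v - s * u‖) :
    ‖u‖ ≤ 2 * ‖v - s * u‖ / ‖s‖ ∧ ‖u‖ ≤ 2 * ‖v - s * u‖ ∧ ‖v‖ ≤ 2 * ‖v - s * u‖ := by
  have h1 : 2 * (‖s‖ * ‖u‖) ≤ 4 * ‖v - s * u‖ := by
    have e : 2 * (‖s‖ * ‖u‖) = ‖(v + s * u) - (v - s * u)‖ := by
      rw [show (v + s * u) - (v - s * u) = 2 * (s * u) by ring]; simp
    rw [e]
    exact (norm_sub_le _ _).trans (by linarith)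
  have h2 : 2 * ‖v‖ ≤ 4 * ‖v - s * u‖ := by
    have e : 2 * ‖v‖ = ‖(v + s * u) + (v - s * u)‖ := by
      rw [show (v + s * u) + (v - s * u) = 2 * v by ring]; simp
    rw [e]
    exact (norm_add_le _ _).trans (by linarith)
  have hs0 : 0 < ‖s‖ := by linarith
  refine ⟨?_, ?_, by linarith⟩
  · rw [le_div_iff₀ hs0]; linarith
  · nlinarith [norm_nonneg u]

lemma e2_inner_le (a w : ℂ) : |a.re * w.re + a.im * w.im| ≤ ‖a‖ * ‖w‖ := by
  apply abs_le_of_sq_le_sq _ (by positivity)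
  rw [mul_pow, e2_normsq, e2_normsq]
  nlinarith [sq_nonneg (a.re * w.im - a.im * w.re)]

lemma e2_one_le_norm_sf {l : ℂ} (hl1 : 1 ≤ l.re) (x : ℝ) : 1 ≤ ‖sf α l x‖ := by
  have h := (sf_norm_sq (α := α) (lt_of_lt_of_le one_pos hl1) x).2
  have h1 : (1:ℝ) ^ 2 ≤ ‖sf α l x‖ ^ 2 := by linarith
  exact le_of_sq_le_sq h1 (norm_nonneg _)

lemma e2_hasDerivAt_H (hα : 0 < α) {b : Bool} {l : ℂ} (hl1 : 1 ≤ l.re) (hl : 0 < l.im)
    {v v' : ℝ → ℂ} (h : IsSol (qf α Complex.I l) 0 v v') (hb : bc b (v 0) (v' 0) = 0) (c : ℝ)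
    {x : ℝ} (hx : 0 < x) (hx' : x ≤ x0 α l) :
    ∃ D : ℝ, |D| ≤ 2 * (α * x ^ (α - 1)) / l.re * ‖v' x - sf α l x * v x‖ ^ 2 ∧
    HasDerivAt (fun t => ‖v' t - sf α l t * v t‖ ^ 2 * Real.exp (-2 * Rf α l t) *
      Real.exp (c * (2 * t ^ α / l.re)))
      (Real.exp (-2 * Rf α l x) * Real.exp (c * (2 * x ^ α / l.re)) *
        (D + c * (2 * (α * x ^ (α - 1)) / l.re) * ‖v' x - sf α l x * v x‖ ^ 2)) x := by
  have hlp : 0 < l.re := by linarith
  set s := sf α l x with hs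
  have hs1 : 1 ≤ ‖s‖ := e2_one_le_norm_sf hl1 x
  have hs0 : s ≠ 0 := by
    intro h0; rw [h0, norm_zero] at hs1; linarith
  set a := v' x - s * v x with ha
  set w : ℂ := Complex.I * ((α * x ^ (α - 1) : ℝ) : ℂ) / (2 * s) * v x with hw
  have hba : ‖v' x + s * v x‖ ≤ 3 * ‖v' x - s * v x‖ :=
    e2_alg s (v x) (v' x) (sf_re_le_im hlp x) (e2_im_nonpos hα hl h hb hx.le hx')
  have hvn := (e2_norm_bound hs1 hba).1
  have hk : 0 ≤ α * x ^ (α - 1) := by positivity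
  have hwn : ‖w‖ ≤ α * x ^ (α - 1) / l.re * ‖a‖ := by
    have e1 : ‖w‖ = (α * x ^ (α - 1)) / (2 * ‖s‖) * ‖v x‖ := by
      rw [hw, norm_mul, norm_div, norm_mul, norm_mul, Complex.norm_I, Complex.norm_real,
        Real.norm_of_nonneg hk]
      simp
    have e2 : ‖w‖ ≤ (α * x ^ (α - 1)) / (2 * ‖s‖) * (2 * ‖a‖ / ‖s‖) := by
      rw [e1]
      apply mul_le_mul_of_nonneg_left hvn (by positivity)
    have hsn : 0 < ‖s‖ := by linarith
    have e3 : (α * x ^ (α - 1)) / (2 * ‖s‖) * (2 * ‖a‖ / ‖s‖) =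
        α * x ^ (α - 1) * ‖a‖ / ‖s‖ ^ 2 := by
      field_simp
    have e4 : α * x ^ (α - 1) * ‖a‖ / ‖s‖ ^ 2 ≤ α * x ^ (α - 1) * ‖a‖ / l.re := by
      apply div_le_div_of_nonneg_left (by positivity) hlp
      exact (sf_norm_sq (α := α) hlp x).2
    calc ‖w‖ ≤ _ := e2
      _ = _ := e3
      _ ≤ _ := e4
      _ = _ := by ring
  have hda : HasDerivAt (fun t => v' t - sf α l t * v t) (- s * a - w) x := by
    have h1 := (h.dv x).sub ((hasDerivAt_sf (α := α) hlp hx).mul (h.du x))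
    refine h1.congr_deriv ?_
    have hsq : sf α l x ^ 2 = qf α Complex.I l x := sf_sq hlp x
    rw [← hsq, ← hs, hw, ha]
    simp only [Pi.zero_apply]
    ring
  have hdn := e2_deriv_normsq hda
  have hax : v' x - sf α l x * v x = a := rfl
  rw [hax] at hdn
  have hdR : HasDerivAt (fun t => Real.exp (-2 * Rf α l t))
      (Real.exp (-2 * Rf α l x) * (-2 * (-s.re))) x :=
    ((hasDerivAt_Rf (α := α) hα hlp x).const_mul (-2)).exp
  have hdp : HasDerivAt (fun t : ℝ => Real.exp (c * (2 * t ^ α / l.re)))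
      (Real.exp (c * (2 * x ^ α / l.re)) * (c * (2 * (α * x ^ (α - 1)) / l.re))) x := by
    have h1 : HasDerivAt (fun t : ℝ => t ^ α) (α * x ^ (α - 1)) x :=
      Real.hasDerivAt_rpow_const (Or.inl hx.ne')
    exact (((h1.const_mul 2).div_const l.re).const_mul c).exp
  refine ⟨- 2 * (a.re * w.re + a.im * w.im), ?_, ?_⟩
  · have h1 := e2_inner_le a w
    have h2 : ‖a‖ * ‖w‖ ≤ ‖a‖ * (α * x ^ (α - 1) / l.re * ‖a‖) :=
      mul_le_mul_of_nonneg_left hwn (norm_nonneg _)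
    rw [abs_mul]
    have h3 : |(-2:ℝ)| = 2 := by norm_num
    rw [h3]
    calc 2 * |a.re * w.re + a.im * w.im| ≤ 2 * (‖a‖ * (α * x ^ (α - 1) / l.re * ‖a‖)) := by
          linarith
      _ = _ := by ring
  · refine ((hdn.mul hdR).mul hdp).congr_deriv ?_
    simp only [Pi.mul_apply, hax]
    simp only [Complex.sub_re, Complex.sub_im, Complex.mul_re, Complex.mul_im, Complex.neg_re,
      Complex.neg_im]
    rw [e2_normsq a]
    ring

lemma e2_cont_rpow (hα : 0 < α) : Continuous (fun t : ℝ => t ^ α) :=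
  continuous_id.rpow_const (fun _ => Or.inr hα.le)

lemma e2_cont_H (hα : 0 < α) {l : ℂ} (hlp : 0 < l.re) {v v' : ℝ → ℂ}
    (h : IsSol (qf α Complex.I l) 0 v v') (c : ℝ) :
    Continuous (fun t => ‖v' t - sf α l t * v t‖ ^ 2 * Real.exp (-2 * Rf α l t) *
      Real.exp (c * (2 * t ^ α / l.re))) := by
  have h1 : Continuous v := continuous_iff_continuousAt.2 fun t => (h.du t).continuousAt
  have h2 : Continuous v' := continuous_iff_continuousAt.2 fun t => (h.dv t).continuousAt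
  have h3 : Continuous (Rf α l) :=
    continuous_iff_continuousAt.2 fun t => (hasDerivAt_Rf hα hlp t).continuousAt
  have h4 := continuous_sf (α := α) hα hlp
  have h5 := e2_cont_rpow hα
  fun_prop

lemma e2_mono (hα : 0 < α) {b : Bool} {l : ℂ} (hl1 : 1 ≤ l.re) (hl : 0 < l.im)
    {v v' : ℝ → ℂ} (h : IsSol (qf α Complex.I l) 0 v v') (hb : bc b (v 0) (v' 0) = 0) :
    MonotoneOn (fun t => ‖v' t - sf α l t * v t‖ ^ 2 * Real.exp (-2 * Rf α l t) *
      Real.exp (1 * (2 * t ^ α / l.re))) (Icc 0 (x0 α l)) := by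
  apply monotoneOn_of_deriv_nonneg (convex_Icc _ _)
  · exact (e2_cont_H hα (by linarith) h 1).continuousOn
  · intro t ht
    rw [interior_Icc] at ht
    obtain ⟨D, _, hD⟩ := e2_hasDerivAt_H hα hl1 hl h hb 1 ht.1 ht.2.le
    exact hD.differentiableAt.differentiableWithinAt
  · intro t ht
    rw [interior_Icc] at ht
    obtain ⟨D, hD1, hD⟩ := e2_hasDerivAt_H hα hl1 hl h hb 1 ht.1 ht.2.le
    rw [hD.deriv]
    apply mul_nonneg (by positivity)
    have := (abs_le.1 hD1).1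
    linarith

lemma e2_anti (hα : 0 < α) {b : Bool} {l : ℂ} (hl1 : 1 ≤ l.re) (hl : 0 < l.im)
    {v v' : ℝ → ℂ} (h : IsSol (qf α Complex.I l) 0 v v') (hb : bc b (v 0) (v' 0) = 0) :
    AntitoneOn (fun t => ‖v' t - sf α l t * v t‖ ^ 2 * Real.exp (-2 * Rf α l t) *
      Real.exp ((-1) * (2 * t ^ α / l.re))) (Icc 0 (x0 α l)) := by
  apply antitoneOn_of_deriv_nonpos (convex_Icc _ _)
  · exact (e2_cont_H hα (by linarith) h (-1)).continuousOn
  · intro t ht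
    rw [interior_Icc] at ht
    obtain ⟨D, _, hD⟩ := e2_hasDerivAt_H hα hl1 hl h hb (-1) ht.1 ht.2.le
    exact hD.differentiableAt.differentiableWithinAt
  · intro t ht
    rw [interior_Icc] at ht
    obtain ⟨D, hD1, hD⟩ := e2_hasDerivAt_H hα hl1 hl h hb (-1) ht.1 ht.2.le
    rw [hD.deriv]
    apply mul_nonpos_of_nonneg_of_nonpos (by positivity)
    have := (abs_le.1 hD1).2
    linarith

set_option linter.unusedVariables false in
/-- homogeneous solutions with a boundary condition at `0`, inside the quadrant. -/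
theorem homog_bound (hα : 0 < α) (hα1 : α ≤ 1) (T : ℝ) (hT : 0 < T) :
    ∃ C : ℝ, 1 ≤ C ∧ ∀ (b : Bool) (l : ℂ), 1 ≤ l.re → 0 < l.im → l.im ≤ T * l.re →
    ∀ v v' : ℝ → ℂ, IsSol (qf α Complex.I l) 0 v v' → bc b (v 0) (v' 0) = 0 →
    ∀ x y : ℝ, 0 ≤ x → x ≤ y → y ≤ x0 α l →
      ‖v' x - sf α l x * v x‖ ≤ C * ‖v' y - sf α l y * v y‖ * Real.exp (Rf α l x - Rf α l y) ∧
      ‖v' y - sf α l y * v y‖ ≤ C * ‖v' x - sf α l x * v x‖ * Real.exp (Rf α l y - Rf α l x) ∧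
      ‖v x‖ ≤ C * ‖v' x - sf α l x * v x‖ ∧ ‖v' x‖ ≤ C * ‖v' x - sf α l x * v x‖ := by
  refine ⟨Real.exp T + 2, by have := Real.exp_pos T; linarith, ?_⟩
  intro b l hl1 hl hlT v v' h hb x y hx hxy hy
  have hlp : 0 < l.re := by linarith
  have hE : 0 < Real.exp T := Real.exp_pos T
  -- the phase
  have hψ : ∀ t, 0 ≤ t → t ≤ x0 α l → 0 ≤ 2 * t ^ α / l.re ∧ 2 * t ^ α / l.re ≤ 2 * T := by
    intro t ht ht'
    have h1 : 0 ≤ t ^ α := Real.rpow_nonneg ht α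
    refine ⟨by positivity, ?_⟩
    rw [div_le_iff₀ hlp]
    have := e2_pow_le hα hl ht ht'
    linarith
  have hm := e2_mono hα hl1 hl h hb ⟨hx, hxy.trans hy⟩ ⟨hx.trans hxy, hy⟩ hxy
  have ha := e2_anti hα hl1 hl h hb ⟨hx, hxy.trans hy⟩ ⟨hx.trans hxy, hy⟩ hxy
  simp only at hm ha
  set A := ‖v' x - sf α l x * v x‖ with hA
  set B := ‖v' y - sf α l y * v y‖ with hB
  have hA0 : 0 ≤ A := norm_nonneg _
  have hB0 : 0 ≤ B := norm_nonneg _
  obtain ⟨px, px'⟩ := hψ x hx (hxy.trans hy)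
  obtain ⟨py, py'⟩ := hψ y (hx.trans hxy) hy
  set ψx := 2 * x ^ α / l.re
  set ψy := 2 * y ^ α / l.re
  -- key abstract step
  have key : ∀ (a b r r' ψ : ℝ), 0 ≤ a → 0 ≤ b → 0 ≤ ψ → ψ ≤ 2 * T →
      a ^ 2 * Real.exp (-2 * r) ≤ b ^ 2 * Real.exp (-2 * r') * Real.exp ψ →
      a ≤ (Real.exp T + 2) * b * Real.exp (r - r') := by
    intro a b r r' ψ ha hb h0 h1 h2
    have e1 : (Real.exp (-r) * a) ^ 2 ≤ (Real.exp T * (Real.exp (-r') * b)) ^ 2 := by
      have k1 : (Real.exp (-r) * a) ^ 2 = a ^ 2 * Real.exp (-2 * r) := by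
        rw [mul_pow, ← Real.exp_nat_mul]; push_cast; ring_nf
      have k2 : (Real.exp T * (Real.exp (-r') * b)) ^ 2 =
          b ^ 2 * Real.exp (-2 * r') * Real.exp (2 * T) := by
        rw [mul_pow, mul_pow, ← Real.exp_nat_mul, ← Real.exp_nat_mul]; push_cast; ring_nf
      rw [k1, k2]
      refine h2.trans ?_
      apply mul_le_mul_of_nonneg_left (Real.exp_le_exp.2 h1) (by positivity)
    have e2 : Real.exp (-r) * a ≤ Real.exp T * (Real.exp (-r') * b) :=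
      le_of_sq_le_sq e1 (by positivity)
    have e3 : a = Real.exp r * (Real.exp (-r) * a) := by
      rw [← mul_assoc, ← Real.exp_add]; simp
    have e4 : a ≤ Real.exp r * (Real.exp T * (Real.exp (-r') * b)) := by
      rw [e3]
      exact mul_le_mul_of_nonneg_left e2 (Real.exp_pos _).le
    have e5 : Real.exp r * (Real.exp T * (Real.exp (-r') * b)) =
        Real.exp T * b * Real.exp (r - r') := by
      rw [sub_eq_add_neg, Real.exp_add]; ring
    rw [e5] at e4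
    refine e4.trans ?_
    have : 0 ≤ b * Real.exp (r - r') := by positivity
    nlinarith
  refine ⟨?_, ?_, ?_, ?_⟩
  · refine key A B _ _ ψy hA0 hB0 py py' ?_
    rw [one_mul, one_mul] at hm
    refine le_trans ?_ hm
    apply le_mul_of_one_le_right (by positivity)
    exact Real.one_le_exp px
  · refine key B A _ _ ψy hB0 hA0 py py' ?_
    have e1 : B ^ 2 * Real.exp (-2 * Rf α l y) =
        B ^ 2 * Real.exp (-2 * Rf α l y) * Real.exp (-1 * ψy) * Real.exp ψy := by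
      rw [mul_assoc, ← Real.exp_add]; simp
    rw [e1]
    apply mul_le_mul_of_nonneg_right _ (Real.exp_pos _).le
    refine ha.trans ?_
    apply mul_le_of_le_one_right (by positivity)
    rw [Real.exp_le_one_iff]; linarith
  · have hba := e2_alg (sf α l x) (v x) (v' x) (sf_re_le_im hlp x)
      (e2_im_nonpos hα hl h hb hx (hxy.trans hy))
    have := (e2_norm_bound (e2_one_le_norm_sf hl1 x) hba).2.1
    nlinarith
  · have hba := e2_alg (sf α l x) (v x) (v' x) (sf_re_le_im hlp x)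
      (e2_im_nonpos hα hl h hb hx (hxy.trans hy))
    have := (e2_norm_bound (e2_one_le_norm_sf hl1 x) hba).2.2
    nlinarith

lemma e2_exists_p (hα : 0 < α) (hα1 : α ≤ 1) (b : Bool) {l : ℂ} (hl1 : 1 ≤ l.re)
    (hl : 0 < l.im) {x₁ : ℝ} (hx0 : 0 ≤ x₁) (hx1 : x₁ ≤ x0 α l) {f : ℝ → ℂ}
    (hf : Continuous f) :
    ∃ p p' : ℝ → ℂ, IsSol (qf α Complex.I l) f p p' ∧ bc b (p 0) (p' 0) = 0 ∧
      p' x₁ = sf α l x₁ * p x₁ := by
  have hq := continuous_qf hα Complex.I l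
  obtain ⟨C, hC, H⟩ := homog_bound hα hα1 l.im hl
  obtain ⟨⟨S, S'⟩, hS, hS0, hS0'⟩ := exists_sol hq (continuous_const (y := (0:ℂ))) 0
    (if b then 0 else 1) (if b then 1 else 0)
  obtain ⟨⟨y, y'⟩, hy, hy0, hy0'⟩ := exists_sol hq hf 0 0 0
  simp only at hS hS0 hS0' hy hy0 hy0'
  have hbS : bc b (S 0) (S' 0) = 0 := by
    rw [hS0, hS0']; cases b <;> simp [bc]
  have hne : S' x₁ - sf α l x₁ * S x₁ ≠ 0 := by
    intro h0
    obtain ⟨e1, _, _, _⟩ := H b l hl1 hl (by nlinarith) S S' hS hbS 0 x₁ le_rfl hx0 hx1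
    obtain ⟨_, _, e3, e4⟩ := H b l hl1 hl (by nlinarith) S S' hS hbS 0 x₁ le_rfl hx0 hx1
    rw [h0, norm_zero, mul_zero, zero_mul] at e1
    have e5 : ‖S' 0 - sf α l 0 * S 0‖ = 0 := le_antisymm e1 (norm_nonneg _)
    rw [e5, mul_zero] at e3 e4
    have z1 : S 0 = 0 := norm_le_zero_iff.1 e3
    have z2 : S' 0 = 0 := norm_le_zero_iff.1 e4
    rw [z1] at hS0; rw [z2] at hS0'
    cases b <;> simp at hS0 hS0'
  set c : ℂ := -(y' x₁ - sf α l x₁ * y x₁) / (S' x₁ - sf α l x₁ * S x₁) with hc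
  refine ⟨fun x => y x + c * S x, fun x => y' x + c * S' x, ?_, ?_, ?_⟩
  · have h1 := hy.add (hS.smul c)
    have h2 : (fun x => f x + c * (fun _ : ℝ => (0:ℂ)) x) = f := by
      funext x; simp
    rw [h2] at h1
    exact h1
  · have h3 : bc b (y 0 + c * S 0) (y' 0 + c * S' 0) = c * bc b (S 0) (S' 0) := by
      rw [hy0, hy0']; cases b <;> simp [bc]
    simp only [h3, hbS, mul_zero]
  · have h4 : c * (S' x₁ - sf α l x₁ * S x₁) = -(y' x₁ - sf α l x₁ * y x₁) := by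
      rw [hc]; field_simp
    simp only
    linear_combination h4

lemma e2_tangent (hα : 0 < α) (hα1 : α ≤ 1) {t z : ℝ} (ht : 0 ≤ t) (hz : 0 < z) :
    α * z ^ (α - 1) * (z - t) ≤ z ^ α - t ^ α := by
  have h1 : (1 + (t / z - 1)) ^ α ≤ 1 + α * (t / z - 1) := by
    apply rpow_one_add_le_one_add_mul_self _ hα.le hα1
    have : 0 ≤ t / z := by positivity
    linarith
  have h2 : (1 + (t / z - 1)) ^ α = t ^ α / z ^ α := by
    rw [show (1 + (t / z - 1)) = t / z by ring, Real.div_rpow ht hz.le]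
  rw [h2, div_le_iff₀ (Real.rpow_pos_of_pos hz α)] at h1
  have h3 : z ^ (α - 1) * z = z ^ α := by
    rw [← Real.rpow_add_one hz.ne']; ring_nf
  have h4 : (1 + α * (t / z - 1)) * z ^ α = z ^ α - α * z ^ (α - 1) * (z - t) := by
    rw [← h3]; field_simp; ring
  linarith

lemma e2_qf_norm (hα : 0 < α) {l : ℂ} (hl : 0 < l.im) {x : ℝ} (hx : 0 ≤ x) (hx' : x ≤ x0 α l) :
    ‖qf α Complex.I l x‖ ≤ ‖l‖ := by
  have h1 := e2_pow_le hα hl hx hx'
  have h0 : 0 ≤ x ^ α := Real.rpow_nonneg hx α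
  apply le_of_sq_le_sq _ (norm_nonneg _)
  rw [e2_normsq, e2_normsq, e2_qf_im l hx, e2_qf_re]
  nlinarith

lemma e2_p'_bound (hα : 0 < α) {l : ℂ} (hl : 0 < l.im) {x₁ : ℝ} (hx1 : 1 ≤ x₁)
    (hx0 : x₁ ≤ x0 α l) {f : ℝ → ℂ} (hf : Continuous f) {F M : ℝ}
    (hF : ∀ x ∈ Icc 0 x₁, ‖f x‖ ≤ F) {p p' : ℝ → ℂ} (h : IsSol (qf α Complex.I l) f p p')
    (hM : ∀ x ∈ Icc 0 x₁, ‖p x‖ ≤ M) {x : ℝ} (hx : x ∈ Icc 0 x₁) :
    ‖p' x‖ ≤ 2 * M + ‖l‖ * M + F := by
  set a := min x (x₁ - 1) with ha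
  have ha0 : 0 ≤ a := le_min hx.1 (by linarith)
  have ha1 : a + 1 ≤ x₁ := by have := min_le_right x (x₁ - 1); linarith
  have hax : a ≤ x := min_le_left _ _
  have hxa : x ≤ a + 1 := by
    rcases le_total x (x₁ - 1) with h1 | h1
    · rw [ha, min_eq_left h1]; linarith
    · rw [ha, min_eq_right h1]; linarith [hx.2]
  have hsub : ∀ t ∈ Icc a (a + 1), t ∈ Icc 0 x₁ := fun t ht =>
    ⟨ha0.trans ht.1, ht.2.trans ha1⟩
  exact deriv_le (continuous_qf hα Complex.I l) hf h (fun t ht => hM t (hsub t ht))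
    (fun t ht => e2_qf_norm hα hl (hsub t ht).1 ((hsub t ht).2.trans hx0))
    (fun t ht => hF t (hsub t ht)) ⟨hax, hxa⟩

lemma e2_M_bound (hα : 0 < α) (hα1 : α ≤ 1) {b : Bool} {l : ℂ} (hl1 : 1 ≤ l.re)
    (hl : 0 < l.im) {x₁ : ℝ} (hx1 : 1 ≤ x₁) (hx0 : x₁ ≤ x0 α l) {f : ℝ → ℂ}
    (hf : Continuous f) {F M : ℝ} (hF0 : 0 ≤ F) (hF : ∀ x ∈ Icc 0 x₁, ‖f x‖ ≤ F)
    {p p' : ℝ → ℂ} (h : IsSol (qf α Complex.I l) f p p') (hb : bc b (p 0) (p' 0) = 0)
    (hout : p' x₁ = sf α l x₁ * p x₁)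
    (hM : ∀ x ∈ Icc 0 x₁, ‖p x‖ ≤ M) {m : ℝ} (hm : m ∈ Icc 0 x₁) (hmM : ‖p m‖ = M)
    (hFM : F ≤ M) :
    α * x0 α l ^ (α - 1) * M ≤ 64 * (3 + ‖l‖) ^ 2 * (F * x₁) := by
  have hlp : 0 < l.re := by linarith
  have hM0 : 0 ≤ M := hF0.trans hFM
  have hX0 : 0 < x0 α l := e2_x0_pos hl
  set Z := α * x0 α l ^ (α - 1) with hZ
  have hZ0 : 0 < Z := by positivity
  set K := 3 + ‖l‖ with hK
  have hK3 : 3 ≤ K := by have := norm_nonneg l; linarith
  have hp' : ∀ x ∈ Icc 0 x₁, ‖p' x‖ ≤ K * M := by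
    intro x hx
    have := e2_p'_bound hα hl hx1 hx0 hf hF h hM hx
    rw [hK]; nlinarith
  set L : ℝ := 1 / (2 * K) with hL
  have hL0 : 0 < L := by positivity
  have hKL : K * L = 1 / 2 := by rw [hL]; field_simp
  have hL2 : L ≤ 1 / 2 := by nlinarith
  -- lower bound near the maximum
  have hlow : ∀ t ∈ Icc 0 x₁, |t - m| ≤ L → M / 2 ≤ ‖p t‖ := by
    intro t ht htm
    have h1 : ‖p t - p m‖ ≤ K * M * ‖t - m‖ :=
      (convex_Icc 0 x₁).norm_image_sub_le_of_norm_hasDerivWithin_le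
        (fun x hx => (h.du x).hasDerivWithinAt) hp' hm ht
    have h2 : ‖p t - p m‖ ≤ M / 2 := by
      rw [Real.norm_eq_abs] at h1
      calc ‖p t - p m‖ ≤ K * M * |t - m| := h1
        _ ≤ K * M * L := by apply mul_le_mul_of_nonneg_left htm (by positivity)
        _ = M / 2 := by
          calc K * M * L = (K * L) * M := by ring
            _ = M / 2 := by rw [hKL]; ring
    have h3 : ‖p m‖ ≤ ‖p t‖ + ‖p t - p m‖ := by
      calc ‖p m‖ = ‖p t - (p t - p m)‖ := by congr 1; ring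
        _ ≤ _ := norm_sub_le _ _
    rw [hmM] at h3
    linarith
  -- choose the interval
  obtain ⟨j, hj0, hj1, hjm⟩ : ∃ j : ℝ, 0 ≤ j ∧ j + L / 2 ≤ x₁ - L / 2 ∧
      ∀ t ∈ Icc j (j + L / 2), |t - m| ≤ L := by
    rcases le_total (x₁ / 2) m with h1 | h1
    · refine ⟨m - L, by linarith, by linarith [hm.2], ?_⟩
      intro t ht
      rw [abs_le]; constructor <;> linarith [ht.1, ht.2]
    · refine ⟨m, hm.1, by linarith, ?_⟩
      intro t ht
      rw [abs_le]; constructor <;> linarith [ht.1, ht.2]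
  -- the monotone function
  set g : ℝ → ℝ := fun t => ((p' t).im * (p t).re - (p' t).re * (p t).im) - F * M * t with hg
  have hgd : ∀ t, HasDerivAt g (((qf α Complex.I l t).im * ‖p t‖ ^ 2 -
      ((f t).im * (p t).re - (f t).re * (p t).im)) - F * M) t := by
    intro t
    have h1 := (e2_deriv_im h t).sub ((hasDerivAt_id t).const_mul (F * M))
    exact h1.congr_deriv (by ring)
  have hder : ∀ t ∈ Icc 0 x₁, deriv g t ≤ (t ^ α - l.im) * ‖p t‖ ^ 2 := by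
    intro t ht
    rw [(hgd t).deriv, e2_qf_im l ht.1]
    have h1 : |(f t).im * (p t).re - (f t).re * (p t).im| ≤ ‖f t‖ * ‖p t‖ := by
      apply abs_le_of_sq_le_sq _ (by positivity)
      rw [mul_pow, e2_normsq, e2_normsq]
      nlinarith [sq_nonneg ((f t).re * (p t).re + (f t).im * (p t).im)]
    have h2 : ‖f t‖ * ‖p t‖ ≤ F * M :=
      mul_le_mul (hF t ht) (hM t ht) (norm_nonneg _) hF0
    have h3 := (abs_le.1 h1).1
    linarith
  have hanti : AntitoneOn g (Icc 0 x₁) := by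
    apply antitoneOn_of_deriv_nonpos (convex_Icc _ _)
    · exact fun t _ => (hgd t).continuousAt.continuousWithinAt
    · exact fun t _ => (hgd t).differentiableAt.differentiableWithinAt
    · intro t ht
      rw [interior_Icc] at ht
      refine (hder t ⟨ht.1.le, ht.2.le⟩).trans ?_
      have h1 := e2_pow_le hα hl ht.1.le (ht.2.le.trans hx0)
      apply mul_nonpos_of_nonpos_of_nonneg (by linarith) (by positivity)
  have hdrop : g (j + L / 2) - g j ≤ (-(Z * (L / 2) * (M / 2) ^ 2)) * ((j + L / 2) - j) := by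
    apply Convex.image_sub_le_mul_sub_of_deriv_le (convex_Icc j (j + L / 2))
    · exact fun t _ => (hgd t).continuousAt.continuousWithinAt
    · exact fun t _ => (hgd t).differentiableAt.differentiableWithinAt
    · intro t ht
      rw [interior_Icc] at ht
      have ht0 : t ∈ Icc 0 x₁ := ⟨by linarith [ht.1], by linarith [ht.2]⟩
      refine (hder t ht0).trans ?_
      have h1 := e2_tangent hα hα1 ht0.1 hX0
      rw [e2_x0_pow hα hl] at h1
      have h2 : Z * (L / 2) ≤ Z * (x0 α l - t) := by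
        apply mul_le_mul_of_nonneg_left _ hZ0.le
        linarith [ht.2]
      have h3 : (M / 2) ^ 2 ≤ ‖p t‖ ^ 2 :=
        pow_le_pow_left₀ (by positivity) (hlow t ht0 (hjm t ⟨ht.1.le, ht.2.le⟩)) 2
      have h4 : Z * (L / 2) * (M / 2) ^ 2 ≤ (l.im - t ^ α) * ‖p t‖ ^ 2 := by
        apply mul_le_mul _ h3 (by positivity)
        · have : 0 ≤ Z * (L / 2) := by positivity
          linarith
        · linarith
      linarith
    · exact left_mem_Icc.2 (by linarith)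
    · exact right_mem_Icc.2 (by linarith)
    · linarith
  have hj' : j ∈ Icc 0 x₁ := ⟨hj0, by linarith⟩
  have hj'' : j + L / 2 ∈ Icc 0 x₁ := ⟨by linarith, by linarith⟩
  have hg0 : g j ≤ g 0 := hanti (left_mem_Icc.2 (by linarith)) hj' hj0
  have hg1 : g x₁ ≤ g (j + L / 2) := hanti hj'' (right_mem_Icc.2 (by linarith)) hj''.2
  have hg00 : g 0 = 0 := by
    have := e2_bc hb
    simp only [hg]; linarith
  have hg11 : - (F * M * x₁) ≤ g x₁ := by
    have h1 : (p' x₁).im * (p x₁).re - (p' x₁).re * (p x₁).im =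
        (sf α l x₁).im * ‖p x₁‖ ^ 2 := by
      rw [hout, e2_normsq]
      simp only [Complex.mul_re, Complex.mul_im]; ring
    have h2 : 0 ≤ (sf α l x₁).im * ‖p x₁‖ ^ 2 :=
      mul_nonneg (sf_im_pos hlp x₁).le (by positivity)
    simp only [hg, h1]; linarith
  have hfin : Z * (L / 2) * (M / 2) ^ 2 * (L / 2) ≤ F * M * x₁ := by
    have : (j + L / 2) - j = L / 2 := by ring
    rw [this] at hdrop
    linarith
  rcases hM0.eq_or_lt with h0 | h0
  · rw [← h0]; simp; positivity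
  · have e1 : Z * M * (L ^ 2 / 16) ≤ F * x₁ := by
      have : M * (Z * M * (L ^ 2 / 16)) ≤ M * (F * x₁) := by nlinarith
      exact le_of_mul_le_mul_left this h0
    have e2 : L ^ 2 = 1 / (4 * K ^ 2) := by rw [hL]; field_simp; ring
    rw [e2] at e1
    have e3 : Z * M * (1 / (4 * K ^ 2) / 16) = Z * M / (64 * K ^ 2) := by
      field_simp; ring
    rw [e3, div_le_iff₀ (by positivity)] at e1
    linarith

lemma e2_x0_sq_le (hα : 0 < α) {l : ℂ} (hl : 0 < l.im) :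
    x0 α l ^ 2 ≤ (1 + ‖l‖) ^ (⌈2 / α⌉₊) := by
  have h1 : l.im ≤ 1 + ‖l‖ := by
    have := (le_abs_self l.im).trans (Complex.abs_im_le_norm l)
    linarith
  have h2 : (1:ℝ) ≤ 1 + ‖l‖ := by have := norm_nonneg l; linarith
  calc x0 α l ^ 2 = l.im ^ (2 / α) := by
        unfold x0
        rw [← Real.rpow_natCast, ← Real.rpow_mul hl.le]
        congr 1; push_cast; ring
    _ ≤ (1 + ‖l‖) ^ (2 / α) := Real.rpow_le_rpow hl.le h1 (by positivity)
    _ ≤ (1 + ‖l‖) ^ ((⌈2 / α⌉₊ : ℕ) : ℝ) :=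
        Real.rpow_le_rpow_of_exponent_le h2 (Nat.le_ceil _)
    _ = _ := Real.rpow_natCast _ _

set_option linter.unusedVariables false in
/-- particular solution with outgoing condition at `x₁`. -/
theorem particular (hα : 0 < α) (hα1 : α ≤ 1) (T : ℝ) (hT : 0 < T) :
    ∃ (C : ℝ) (k : ℕ), 1 ≤ C ∧ ∀ (b : Bool) (l : ℂ), 1 ≤ l.re → 0 < l.im → l.im ≤ T * l.re →
    ∀ x₁ : ℝ, 1 ≤ x₁ → x₁ ≤ x0 α l → ∀ (f : ℝ → ℂ) (F : ℝ), Continuous f → 0 ≤ F →
    (∀ x ∈ Icc 0 x₁, ‖f x‖ ≤ F) →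
    ∃ p p' : ℝ → ℂ, IsSol (qf α Complex.I l) f p p' ∧ bc b (p 0) (p' 0) = 0 ∧
      p' x₁ = sf α l x₁ * p x₁ ∧
      ∀ x ∈ Icc 0 x₁, ‖p x‖ ≤ C * (1 + ‖l‖) ^ k * F ∧ ‖p' x‖ ≤ C * (1 + ‖l‖) ^ k * F := by
  have hαinv : 1 ≤ 1 / α := by rw [le_div_iff₀ hα]; linarith
  refine ⟨1728 * (1 / α), ⌈2 / α⌉₊ + 3, by linarith, ?_⟩
  intro b l hl1 hl _ x₁ hx1 hx0 f F hf hF0 hF
  obtain ⟨p, p', hp, hb, hout⟩ := e2_exists_p hα hα1 b hl1 hl (by linarith) hx0 hf
  refine ⟨p, p', hp, hb, hout, ?_⟩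
  have hcp : Continuous p := continuous_iff_continuousAt.2 fun t => (hp.du t).continuousAt
  obtain ⟨m, hm, hmax⟩ := (isCompact_Icc (a := (0:ℝ)) (b := x₁)).exists_isMaxOn
    ⟨0, left_mem_Icc.2 (by linarith)⟩ (hcp.norm.continuousOn)
  set M := ‖p m‖ with hMdef
  have hM : ∀ x ∈ Icc 0 x₁, ‖p x‖ ≤ M := fun x hx => hmax hx
  set n := ⌈2 / α⌉₊ with hn
  set Q : ℝ := 1 + ‖l‖ with hQ
  have hQ1 : 1 ≤ Q := by have := norm_nonneg l; linarith
  have hX0 : 0 < x0 α l := e2_x0_pos hl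
  have hX1 : 1 ≤ x0 α l := hx1.trans hx0
  have hMb : M ≤ 576 * (1 / α) * Q ^ (n + 2) * F := by
    rcases le_total F M with h | h
    · have h1 := e2_M_bound hα hα1 hl1 hl hx1 hx0 hf hF0 hF hp hb hout hM hm rfl h
      have h2 : x0 α l ^ (α - 1) * x0 α l ^ (1 - α) = 1 := by
        rw [← Real.rpow_add hX0]; simp
      have h3 : x0 α l ^ (1 - α) ≤ x0 α l := by
        calc x0 α l ^ (1 - α) ≤ x0 α l ^ (1:ℝ) :=
              Real.rpow_le_rpow_of_exponent_le hX1 (by linarith)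
          _ = _ := Real.rpow_one _
      have h3' : 0 < x0 α l ^ (1 - α) := Real.rpow_pos_of_pos hX0 _
      have h4 : α * M ≤ 64 * (3 + ‖l‖) ^ 2 * (F * x₁) * x0 α l ^ (1 - α) := by
        calc α * M = (α * x0 α l ^ (α - 1) * M) * x0 α l ^ (1 - α) := by
              calc α * M = α * M * (x0 α l ^ (α - 1) * x0 α l ^ (1 - α)) := by rw [h2]; ring
                _ = _ := by ring
          _ ≤ _ := mul_le_mul_of_nonneg_right h1 h3'.le
      have h5 : (3 + ‖l‖) ^ 2 ≤ 9 * Q ^ 2 := by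
        rw [hQ]; nlinarith [norm_nonneg l]
      have h6 : F * x₁ * x0 α l ^ (1 - α) ≤ F * x0 α l ^ 2 := by
        calc F * x₁ * x0 α l ^ (1 - α) ≤ F * x0 α l * x0 α l := by
              apply mul_le_mul _ h3 h3'.le (by positivity)
              exact mul_le_mul_of_nonneg_left hx0 hF0
          _ = _ := by ring
      have h7 : F * x0 α l ^ 2 ≤ F * Q ^ n :=
        mul_le_mul_of_nonneg_left (e2_x0_sq_le hα hl) hF0
      have h8 : α * M ≤ 576 * Q ^ (n + 2) * F := by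
        calc α * M ≤ 64 * (3 + ‖l‖) ^ 2 * (F * x₁) * x0 α l ^ (1 - α) := h4
          _ = 64 * (3 + ‖l‖) ^ 2 * (F * x₁ * x0 α l ^ (1 - α)) := by ring
          _ ≤ 64 * (9 * Q ^ 2) * (F * Q ^ n) := by
              apply mul_le_mul _ (h6.trans h7) (by positivity) (by positivity)
              linarith
          _ = _ := by rw [pow_add]; ring
      have h9 : M = (1 / α) * (α * M) := by field_simp
      rw [h9]
      calc (1 / α) * (α * M) ≤ (1 / α) * (576 * Q ^ (n + 2) * F) :=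
            mul_le_mul_of_nonneg_left h8 (by positivity)
        _ = _ := by ring
    · refine h.trans ?_
      have h1 : 1 ≤ Q ^ (n + 2) := one_le_pow₀ hQ1
      have h2 : 1 ≤ 576 * (1 / α) * Q ^ (n + 2) := by nlinarith
      nlinarith
  intro x hx
  have hstep : 576 * (1 / α) * Q ^ (n + 2) * F * (3 * Q) = 1728 * (1 / α) * Q ^ (n + 3) * F := by
    rw [show n + 3 = (n + 2) + 1 by ring, pow_succ Q (n + 2)]; ring
  have hK0 : 0 ≤ 576 * (1 / α) * Q ^ (n + 2) * F := by positivity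
  constructor
  · rw [← hstep]
    refine (hM x hx).trans (hMb.trans ?_)
    nlinarith
  · rw [← hstep]
    have h1 := e2_p'_bound hα hl hx1 hx0 hf hF hp hM hx
    have h2 : F ≤ 576 * (1 / α) * Q ^ (n + 2) * F := by
      have h1 : 1 ≤ Q ^ (n + 2) := one_le_pow₀ hQ1
      have h2 : 1 ≤ 576 * (1 / α) * Q ^ (n + 2) := by nlinarith
      nlinarith
    have h3 : 2 * M + ‖l‖ * M + F ≤ (3 + ‖l‖) * (576 * (1 / α) * Q ^ (n + 2) * F) := by
      nlinarith [norm_nonneg l]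
    refine h1.trans (h3.trans ?_)
    rw [mul_comm]
    apply mul_le_mul_of_nonneg_left _ hK0
    rw [hQ]; linarith [norm_nonneg l]

end Pool.Agent.Work.MP_9fcdee_mp
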