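import Pool.Agent.Work.MP_9fcdee_mp.M2a_Energy

set_option autoImplicit false

open Set Filter Topology MeasureTheory

namespace Pool.Agent.Work.MP_9fcdee_mp

variable {α : ℝ}

/-- weighted energy inequality -/
theorem energy_weighted {q f u v : ℝ → ℂ} (hq : Continuous q) (hf : Continuous f)
    (h : IsSol q f u v) {X : ℝ} (hE : FinEn X u v) (hf2 : SqInt X f) {τ : ℂ} {a b : ℝ}
    (hb : 0 < b) (hτ : ‖τ‖ ≤ 1) (h1 : a ≤ τ.re)
    (h2 : ∀ x, X ≤ x → b ≤ (τ * q x).re) :
    a * (∫ x in Ioi X, ‖v x‖ ^ 2) + (b / 2) * (∫ x in Ioi X, ‖u x‖ ^ 2) ≤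
      ‖u X‖ * ‖v X‖ + (∫ x in Ioi X, ‖f x‖ ^ 2) / (2 * b) := by
  have hu := h.continuous_u
  have hv := h.continuous_v
  set Φ : ℝ → ℝ := fun x => (τ * (v x * (starRingEnd ℂ) (u x))).re with hΦ
  have hΦb : ∀ x, |Φ x| ≤ ‖u x‖ * ‖v x‖ := by
    intro x
    refine (Complex.abs_re_le_norm _).trans ?_
    rw [norm_mul, norm_mul, RCLike.norm_conj]
    have h2 : 0 ≤ ‖v x‖ * ‖u x‖ := by positivity
    nlinarith
  have hconj : ∀ t, HasDerivAt (fun t => (starRingEnd ℂ) (u t)) ((starRingEnd ℂ) (v t)) t := by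
    intro t
    exact (h.du t).star
  set G : ℝ → ℂ := fun t => τ * ((q t * u t - f t) * (starRingEnd ℂ) (u t) +
    v t * (starRingEnd ℂ) (v t)) with hG
  have hder : ∀ t, HasDerivAt Φ (G t).re t := by
    intro t
    have h1 := (((h.dv t).mul (hconj t)).const_mul τ)
    have h2 := Complex.reCLM.hasFDerivAt.comp_hasDerivAt t h1
    exact h2
  have hGc : Continuous G := by
    have hc : Continuous fun z : ℂ => (starRingEnd ℂ) z := Complex.continuous_conj
    exact continuous_const.mul ((((hq.mul hu).sub hf).mul (hc.comp hu)).add (hv.mul (hc.comp hv)))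
  have hlow : ∀ t, X ≤ t → a * ‖v t‖ ^ 2 + (b / 2) * ‖u t‖ ^ 2 - ‖f t‖ ^ 2 / (2 * b) ≤
      (G t).re := by
    intro t ht
    have e1 : G t = ((‖v t‖ ^ 2 : ℝ) : ℂ) * τ + ((‖u t‖ ^ 2 : ℝ) : ℂ) * (τ * q t) -
        τ * (f t * (starRingEnd ℂ) (u t)) := by
      rw [hG]
      simp only
      have e2 : v t * (starRingEnd ℂ) (v t) = ((‖v t‖ ^ 2 : ℝ) : ℂ) := by
        rw [Complex.mul_conj, Complex.normSq_eq_norm_sq]
      have e3 : u t * (starRingEnd ℂ) (u t) = ((‖u t‖ ^ 2 : ℝ) : ℂ) := by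
        rw [Complex.mul_conj, Complex.normSq_eq_norm_sq]
      rw [← e2, ← e3]
      ring
    rw [e1, Complex.sub_re, Complex.add_re, Complex.re_ofReal_mul, Complex.re_ofReal_mul]
    have h3 : (τ * (f t * (starRingEnd ℂ) (u t))).re ≤ ‖f t‖ * ‖u t‖ := by
      refine (Complex.re_le_norm _).trans ?_
      rw [norm_mul, norm_mul, RCLike.norm_conj]
      have h2 : 0 ≤ ‖f t‖ * ‖u t‖ := by positivity
      nlinarith
    have h4 : ‖f t‖ * ‖u t‖ ≤ ‖f t‖ ^ 2 / (2 * b) + (b / 2) * ‖u t‖ ^ 2 := by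
      have h3 : 0 ≤ (‖f t‖ - b * ‖u t‖) ^ 2 / (2 * b) := by positivity
      have h4 : (‖f t‖ - b * ‖u t‖) ^ 2 / (2 * b) =
          ‖f t‖ ^ 2 / (2 * b) + (b / 2) * ‖u t‖ ^ 2 - ‖f t‖ * ‖u t‖ := by
        field_simp
        ring
      linarith
    have h5 := mul_le_mul_of_nonneg_left h1 (sq_nonneg ‖v t‖)
    have h6 := mul_le_mul_of_nonneg_left (h2 t ht) (sq_nonneg ‖u t‖)
    nlinarith
  have hI1 : IntegrableOn (fun x => ‖v x‖ ^ 2) (Ioi X) := by
    refine Integrable.mono' hE (by fun_prop : Continuous fun x => ‖v x‖ ^ 2).aestronglyMeasurable ?_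
    refine Eventually.of_forall fun x => ?_
    rw [Real.norm_of_nonneg (by positivity)]
    nlinarith [sq_nonneg ‖u x‖]
  have hI2 : IntegrableOn (fun x => ‖u x‖ ^ 2) (Ioi X) := by
    refine Integrable.mono' hE (by fun_prop : Continuous fun x => ‖u x‖ ^ 2).aestronglyMeasurable ?_
    refine Eventually.of_forall fun x => ?_
    rw [Real.norm_of_nonneg (by positivity)]
    nlinarith [sq_nonneg ‖v x‖]
  have hA : IntegrableOn (fun t => a * ‖v t‖ ^ 2 + (b / 2) * ‖u t‖ ^ 2 - ‖f t‖ ^ 2 / (2 * b))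
      (Ioi X) := ((hI1.const_mul a).add (hI2.const_mul (b / 2))).sub (hf2.div_const (2 * b))
  have hAc : Continuous fun t => a * ‖v t‖ ^ 2 + (b / 2) * ‖u t‖ ^ 2 - ‖f t‖ ^ 2 / (2 * b) := by
    fun_prop
  obtain ⟨L, hL, hgL⟩ := exists_seq_small (fun x => by positivity) hE
  have hlim1 := intervalIntegral_tendsto_integral_Ioi X hA hL
  have hlim2 : Tendsto (fun n => (‖u (L n)‖ ^ 2 + ‖v (L n)‖ ^ 2) + ‖u X‖ * ‖v X‖) atTop
      (𝓝 (0 + ‖u X‖ * ‖v X‖)) := hgL.add_const _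
  have hle : ∫ t in Ioi X, (a * ‖v t‖ ^ 2 + (b / 2) * ‖u t‖ ^ 2 - ‖f t‖ ^ 2 / (2 * b)) ≤
      0 + ‖u X‖ * ‖v X‖ := by
    apply le_of_tendsto_of_tendsto hlim1 hlim2
    filter_upwards [hL.eventually_ge_atTop X] with n hn
    have h3 : ∫ t in X..(L n), (G t).re = Φ (L n) - Φ X :=
      intervalIntegral.integral_eq_sub_of_hasDerivAt (fun t _ => hder t)
        ((Complex.continuous_re.comp hGc).intervalIntegrable _ _)
    have h4 : ∫ t in X..(L n), (a * ‖v t‖ ^ 2 + (b / 2) * ‖u t‖ ^ 2 - ‖f t‖ ^ 2 / (2 * b)) ≤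
        ∫ t in X..(L n), (G t).re := by
      apply intervalIntegral.integral_mono_on hn
      · exact hAc.intervalIntegrable _ _
      · exact (Complex.continuous_re.comp hGc).intervalIntegrable _ _
      · intro t ht
        exact hlow t ht.1
    have h5 := (abs_le.1 (hΦb (L n))).2
    have h6 := (abs_le.1 (hΦb X)).1
    nlinarith [sq_nonneg (‖u (L n)‖ - ‖v (L n)‖), sq_nonneg ‖u (L n)‖, sq_nonneg ‖v (L n)‖]
  have hs1 : ∫ t in Ioi X, (a * ‖v t‖ ^ 2 + (b / 2) * ‖u t‖ ^ 2 - ‖f t‖ ^ 2 / (2 * b)) =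
      (∫ t in Ioi X, (a * ‖v t‖ ^ 2 + (b / 2) * ‖u t‖ ^ 2)) - ∫ t in Ioi X, ‖f t‖ ^ 2 / (2 * b) :=
    integral_sub ((hI1.const_mul a).add (hI2.const_mul (b / 2))) (hf2.div_const (2 * b))
  have hs2 : ∫ t in Ioi X, (a * ‖v t‖ ^ 2 + (b / 2) * ‖u t‖ ^ 2) =
      (∫ t in Ioi X, a * ‖v t‖ ^ 2) + ∫ t in Ioi X, (b / 2) * ‖u t‖ ^ 2 :=
    integral_add (hI1.const_mul a) (hI2.const_mul (b / 2))
  rw [hs1, hs2, integral_const_mul, integral_const_mul, integral_div] at hle
  linarith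

/-- outside the closed quadrant -/
theorem outside_bound (hα : 0 < α) (b : Bool) {ε : ℝ} (hε : 0 < ε) :
    ∃ C : ℝ, 0 < C ∧ ∀ (r φ : ℝ), 1 ≤ r →
    (φ ∈ Icc (-Real.pi) (-ε) ∨ φ ∈ Icc (Real.pi / 2 + ε) Real.pi) →
    ∀ f w w' : ℝ → ℂ, Continuous f → SqInt 0 f →
    IsSol (qf α Complex.I (r * Complex.exp (φ * Complex.I))) f w w' → FinEn 0 w w' →
    bc b (w 0) (w' 0) = 0 →
    ∀ x, 0 ≤ x → ‖w x‖ ^ 2 ≤ C * (∫ x in Ioi (0:ℝ), ‖f x‖ ^ 2) / r := by
  set ε₁ := min ε (Real.pi / 2) with hε₁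
  have hπ := Real.pi_pos
  have hε₁0 : 0 < ε₁ := lt_min hε (by positivity)
  have hε₁π : ε₁ ≤ Real.pi / 2 := min_le_right _ _
  have hε₁ε : ε₁ ≤ ε := min_le_left _ _
  set δ := Real.sin (ε₁ / 3) with hδ
  have hδ0 : 0 < δ := Real.sin_pos_of_pos_of_lt_pi (by linarith) (by linarith)
  refine ⟨3 / (2 * δ ^ 2), by positivity, ?_⟩
  intro r φ hr hφ f w w' hf hf2 hsol hfin hbc x hx
  have hr0 : 0 < r := by linarith
  -- the angle χ
  obtain ⟨χ, hχ1, hχ2, hχ⟩ : ∃ χ : ℝ, -(Real.pi / 2) + ε₁ ≤ χ ∧ χ ≤ Real.pi - ε₁ ∧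
      -Complex.exp (φ * Complex.I) = Complex.exp (χ * Complex.I) := by
    rcases hφ with hφ | hφ
    · refine ⟨φ + Real.pi, ?_, ?_, ?_⟩
      · linarith [hφ.1]
      · linarith [hφ.2]
      · push_cast
        rw [add_mul, Complex.exp_add, Complex.exp_pi_mul_I]
        ring
    · refine ⟨φ - Real.pi, ?_, ?_, ?_⟩
      · linarith [hφ.1]
      · linarith [hφ.2]
      · push_cast
        rw [sub_mul, Complex.exp_sub, Complex.exp_pi_mul_I]
        ring
  set ψ := Real.pi / 6 + χ / 3 with hψ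
  set τ : ℂ := Complex.exp ((-ψ : ℝ) * Complex.I) with hτ
  have hτn : ‖τ‖ ≤ 1 := by rw [hτ, Complex.norm_exp_ofReal_mul_I]
  -- lower bound for cosines
  have hcos : ∀ y : ℝ, |y| ≤ Real.pi / 2 - ε₁ / 3 → δ ≤ Real.cos y := by
    intro y hy
    rw [← Real.cos_abs y, hδ, ← Real.cos_pi_div_two_sub]
    apply Real.cos_le_cos_of_nonneg_of_le_pi (abs_nonneg _) (by linarith) hy
  have hτre : δ ≤ τ.re := by
    rw [hτ, Complex.exp_ofReal_mul_I_re]
    apply hcos
    rw [abs_le]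
    constructor <;> linarith
  have hq : ∀ y, 0 ≤ y → r * δ ≤
      (τ * qf α Complex.I (r * Complex.exp (φ * Complex.I)) y).re := by
    intro y _
    have e1 : τ * qf α Complex.I (r * Complex.exp (φ * Complex.I)) y =
        ((|y| ^ α : ℝ) : ℂ) * (τ * Complex.I) + (r : ℂ) * (τ * (-Complex.exp (φ * Complex.I))) := by
      unfold qf
      ring
    have e2 : τ * (-Complex.exp (φ * Complex.I)) = Complex.exp ((χ - ψ : ℝ) * Complex.I) := by
      rw [hχ, hτ, ← Complex.exp_add]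
      push_cast
      ring_nf
    have e3 : (τ * Complex.I).re = Real.cos (Real.pi / 2 - ψ) := by
      rw [Complex.mul_I_re, hτ, Complex.exp_ofReal_mul_I_im, Real.sin_neg, neg_neg,
        Real.cos_pi_div_two_sub]
    rw [e1, Complex.add_re, Complex.re_ofReal_mul, Complex.re_ofReal_mul, e2,
      Complex.exp_ofReal_mul_I_re, e3]
    have h1 : δ ≤ Real.cos (Real.pi / 2 - ψ) := by
      apply hcos
      rw [abs_le]
      constructor <;> linarith
    have h2 : δ ≤ Real.cos (χ - ψ) := by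
      apply hcos
      rw [abs_le]
      constructor <;> linarith
    have h3 : 0 ≤ |y| ^ α := by positivity
    nlinarith [mul_nonneg h3 (hδ0.le.trans h1), mul_le_mul_of_nonneg_left h2 hr0.le]
  have hen := energy_weighted (continuous_qf hα _ _) hf hsol hfin hf2 (a := δ) (b := r * δ)
    (by positivity) hτn hτre hq
  have hb0 : ‖w 0‖ * ‖w' 0‖ = 0 := by
    unfold bc at hbc
    cases b
    · simp at hbc
      simp [hbc]
    · simp at hbc
      simp [hbc]
  rw [hb0, zero_add] at hen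
  set F2 := ∫ x in Ioi (0:ℝ), ‖f x‖ ^ 2 with hF2
  have hF20 : 0 ≤ F2 := integral_nonneg fun x => by positivity
  have hx1 := norm_sq_le_En hsol hfin hx
  have hEn : En 0 w w' = (∫ x in Ioi (0:ℝ), ‖w x‖ ^ 2) + ∫ x in Ioi (0:ℝ), ‖w' x‖ ^ 2 := by
    unfold En
    have hu := hsol.continuous_u
    have hv := hsol.continuous_v
    apply integral_add
    · refine Integrable.mono' hfin (by fun_prop : Continuous fun x => ‖w x‖ ^ 2).aestronglyMeasurable ?_
      refine Eventually.of_forall fun x => ?_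
      rw [Real.norm_of_nonneg (by positivity)]
      nlinarith [sq_nonneg ‖w' x‖]
    · refine Integrable.mono' hfin (by fun_prop : Continuous fun x => ‖w' x‖ ^ 2).aestronglyMeasurable ?_
      refine Eventually.of_forall fun x => ?_
      rw [Real.norm_of_nonneg (by positivity)]
      nlinarith [sq_nonneg ‖w x‖]
  set A := ∫ x in Ioi (0:ℝ), ‖w' x‖ ^ 2 with hA
  set B := ∫ x in Ioi (0:ℝ), ‖w x‖ ^ 2 with hB
  have hA0 : 0 ≤ A := integral_nonneg fun x => by positivity
  have hB0 : 0 ≤ B := integral_nonneg fun x => by positivity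
  have hr2 : 0 < r * δ := by positivity
  have hB1 : B ≤ F2 / (r * δ ^ 2) := by
    have h1 : (r * δ / 2) * B ≤ F2 / (2 * (r * δ)) := by nlinarith [mul_nonneg hδ0.le hA0]
    have h2 : B ≤ F2 / (r ^ 2 * δ ^ 2) := by
      rw [le_div_iff₀ (by positivity)]
      rw [le_div_iff₀ (by positivity)] at h1
      nlinarith
    refine h2.trans ?_
    apply div_le_div_of_nonneg_left hF20 (by positivity)
    nlinarith [sq_nonneg δ, mul_nonneg (sub_nonneg.2 hr) (sq_nonneg δ),
      mul_nonneg hr0.le (mul_nonneg (sub_nonneg.2 hr) (sq_nonneg δ))]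
  have hA1 : A ≤ F2 / (2 * r * δ ^ 2) := by
    have h1 : δ * A ≤ F2 / (2 * (r * δ)) := by nlinarith [mul_nonneg hr2.le hB0]
    rw [le_div_iff₀ (by positivity)]
    rw [le_div_iff₀ (by positivity)] at h1
    nlinarith
  calc ‖w x‖ ^ 2 ≤ B + A := by rw [← hEn]; exact hx1
    _ ≤ F2 / (r * δ ^ 2) + F2 / (2 * r * δ ^ 2) := add_le_add hB1 hA1
    _ = 3 / (2 * δ ^ 2) * F2 / r := by
      field_simp
      ring

/-- beyond `x₀`. -/
theorem tail_bound (hα : 0 < α) (hα1 : α ≤ 1) :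
    ∃ C : ℝ, 0 < C ∧ ∀ (l : ℂ), 1 ≤ l.re → 1 ≤ l.im → ∀ (f w w' : ℝ → ℂ) (F : ℝ), Continuous f →
    0 ≤ F → (∀ x, ‖f x‖ ≤ F) → SqInt 0 f → ∫ x in Ioi (0:ℝ), ‖f x‖ ^ 2 ≤ F ^ 2 →
    IsSol (qf α Complex.I l) f w w' → FinEn 0 w w' →
    En (x0 α l) w w' ≤ Real.exp (C * Real.sqrt ‖l‖) *
      (‖w (x0 α l)‖ ^ 2 + ‖w' (x0 α l)‖ ^ 2 + F ^ 2) := by
  refine ⟨16 + 8 / α, by positivity, ?_⟩
  intro l hl1 hl2 f w w' F hf hF hfF hf2 hf2F hsol hfin
  have hw := hsol.continuous_u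
  have hw' := hsol.continuous_v
  set X := x0 α l with hX
  set S := Real.sqrt ‖l‖ with hS
  have hln : 1 ≤ ‖l‖ := hl1.trans (Complex.re_le_norm l)
  have hS1 : 1 ≤ S := by
    rw [hS]
    exact Real.one_le_sqrt.2 hln
  have hSS : S ^ 2 = ‖l‖ := Real.sq_sqrt (norm_nonneg _)
  have hX1 : 1 ≤ X := by
    rw [hX, x0]
    exact Real.one_le_rpow hl2 (by positivity)
  have hX0 : 0 < X := by linarith
  have hXα : X ^ α = l.im := by
    rw [hX, x0, ← Real.rpow_mul (by linarith)]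
    rw [one_div, inv_mul_cancel₀ hα.ne', Real.rpow_one]
  have hXle : X ≤ ‖l‖ ^ (1 / α) := by
    rw [hX, x0]
    exact Real.rpow_le_rpow (by linarith) (Complex.im_le_norm l) (by positivity)
  set D := ‖w X‖ ^ 2 + ‖w' X‖ ^ 2 + F ^ 2 with hD
  have hD0 : 0 ≤ D := by positivity
  -- step 1: the unit interval
  set K := Real.sqrt (‖l‖ + 1) with hK
  have hK1 : 1 ≤ K := by
    rw [hK]
    exact Real.one_le_sqrt.2 (by linarith)
  have hKK : K ^ 2 = ‖l‖ + 1 := Real.sq_sqrt (by linarith)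
  have hK2 : K ≤ 2 * S := by
    rw [hK]
    apply Real.sqrt_le_iff.2
    constructor
    · linarith
    · nlinarith
  have hqb : ∀ t ∈ Icc X (X + 1), ‖qf α Complex.I l t‖ ≤ K ^ 2 := by
    intro t ht
    have ht0 : 0 < t := by linarith [ht.1]
    have h1 : t ^ α ≤ X ^ α + 1 := by
      have h2 : t = X + (t - X) := by ring
      have h3 : t ^ α ≤ X ^ α + (t - X) ^ α := by
        conv_lhs => rw [h2]
        exact Real.rpow_add_le_add_rpow hX0.le (by linarith [ht.1]) hα.le hα1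
      have h4 : (t - X) ^ α ≤ 1 := Real.rpow_le_one (by linarith [ht.1]) (by linarith [ht.2]) hα.le
      linarith
    have h1' : X ^ α ≤ t ^ α := Real.rpow_le_rpow hX0.le ht.1 hα.le
    rw [hKK]
    have e1 : qf α Complex.I l t = -(l.re : ℂ) + Complex.I * ((t ^ α - l.im : ℝ) : ℂ) := by
      unfold qf
      rw [abs_of_pos ht0]
      conv_lhs => rw [← Complex.re_add_im l]
      push_cast
      ring
    rw [e1]
    refine (norm_add_le _ _).trans ?_
    rw [norm_neg, Complex.norm_real, norm_mul, Complex.norm_I, one_mul, Complex.norm_real,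
      Real.norm_of_nonneg (by linarith), Real.norm_of_nonneg (by linarith)]
    have := Complex.re_le_norm l
    linarith
  set a := ‖w X‖ with ha
  set b := ‖w' X‖ with hb
  have ha0 : 0 ≤ a := norm_nonneg _
  have hb0 : 0 ≤ b := norm_nonneg _
  set M := (K * a + b + F) * Real.exp K with hM
  have hM0 : 0 ≤ M := by positivity
  have hstep : ∀ t ∈ Icc X (X + 1), ‖w t‖ ≤ M ∧ ‖w' t‖ ≤ M := by
    intro t ht
    have hsub : uIcc X t ⊆ Icc X (X + 1) := by
      rw [uIcc_of_le ht.1]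
      exact Icc_subset_Icc_right ht.2
    have h1 := sol_bound hsol (X := X) (x := t) hK1 hF (fun y hy => hqb y (hsub hy))
      (fun y _ => hfF y)
    have h2 : Real.exp (K * |t - X|) ≤ Real.exp K := by
      apply Real.exp_le_exp.2
      rw [abs_of_nonneg (by linarith [ht.1])]
      nlinarith [ht.1, ht.2]
    have h3 : 0 ≤ K * a + b + F := by positivity
    exact ⟨h1.1.trans (mul_le_mul_of_nonneg_left h2 h3), h1.2.trans (mul_le_mul_of_nonneg_left h2 h3)⟩
  have hMM : M ^ 2 ≤ 3 * K ^ 2 * Real.exp (2 * K) * D := by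
    have e1 : Real.exp (2 * K) = Real.exp K ^ 2 := by
      rw [← Real.exp_nat_mul]
      norm_num
    have h1 : (K * a + b + F) ^ 2 ≤ 3 * K ^ 2 * D := by
      have h2 : (K * a + b + F) ^ 2 ≤ 3 * ((K * a) ^ 2 + b ^ 2 + F ^ 2) := by
        nlinarith [sq_nonneg (K * a - b), sq_nonneg (K * a - F), sq_nonneg (b - F)]
      have h3 : b ^ 2 ≤ K ^ 2 * b ^ 2 := by nlinarith [sq_nonneg b]
      have h4 : F ^ 2 ≤ K ^ 2 * F ^ 2 := by nlinarith [sq_nonneg F]
      rw [hD]
      nlinarith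
    rw [hM, mul_pow, e1]
    nlinarith [mul_le_mul_of_nonneg_right h1 (sq_nonneg (Real.exp K))]
  -- step 2: beyond `X + 1`
  set κ := (X + 1) ^ α - X ^ α with hκ
  have hκ1 : κ ≤ 1 := by
    have h3 : (X + 1) ^ α ≤ X ^ α + 1 ^ α := Real.rpow_add_le_add_rpow hX0.le zero_le_one hα.le hα1
    rw [Real.one_rpow] at h3
    linarith
  have hκlow : α / (2 * X) ≤ κ := by
    have h1 : (1 + -(1 / (X + 1))) ^ α ≤ 1 + α * -(1 / (X + 1)) := by
      apply rpow_one_add_le_one_add_mul_self _ hα.le hα1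
      have : 1 / (X + 1) ≤ 1 := by
        rw [div_le_one (by linarith)]
        linarith
      linarith
    have h2 : 1 + -(1 / (X + 1)) = X / (X + 1) := by
      field_simp
      ring
    rw [h2, Real.div_rpow hX0.le (by linarith)] at h1
    have h3 : 1 ≤ (X + 1) ^ α := Real.one_le_rpow (by linarith) hα.le
    have h4 : 0 < (X + 1) ^ α := by linarith
    rw [div_le_iff₀ h4] at h1
    have h5 : α / (X + 1) ≤ κ := by
      have h6 : (1 + α * -(1 / (X + 1))) * (X + 1) ^ α =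
          (X + 1) ^ α - (α / (X + 1)) * (X + 1) ^ α := by
        ring
      have h7 : α / (X + 1) ≤ (α / (X + 1)) * (X + 1) ^ α := by
        have : 0 < α / (X + 1) := by positivity
        nlinarith
      rw [h6] at h1
      linarith
    refine le_trans ?_ h5
    exact div_le_div_of_nonneg_left hα.le (by linarith) (by linarith)
  have hκ0 : 0 < κ := lt_of_lt_of_le (by positivity) hκlow
  set δ := κ / (4 * ‖l‖) with hδ
  have hδ0 : 0 < δ := by positivity
  have hδκ : δ * ‖l‖ = κ / 4 := by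
    rw [hδ]
    field_simp
  have hδκ2 : δ ≤ κ / 4 := by
    rw [← hδκ]
    nlinarith
  have hcoer : Coer (qf α Complex.I l) (X + 1) ((δ : ℂ) - Complex.I / 2) δ := by
    refine ⟨hδ0, ?_, ?_, ?_⟩
    · refine (norm_sub_le _ _).trans ?_
      have h1 : ‖(δ : ℂ)‖ = δ := by
        rw [Complex.norm_real, Real.norm_of_nonneg hδ0.le]
      have h2 : ‖Complex.I / 2‖ = 1 / 2 := by
        rw [norm_div, Complex.norm_I]
        norm_num
      rw [h1, h2]
      linarith
    · simp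
    · intro x hx
      have hx0 : 0 < x := by linarith
      have h1 : (X + 1) ^ α ≤ x ^ α := Real.rpow_le_rpow (by linarith) hx hα.le
      have e1 : (((δ : ℂ) - Complex.I / 2) * qf α Complex.I l x).re =
          -δ * l.re + (x ^ α - l.im) / 2 := by
        unfold qf
        rw [abs_of_pos hx0]
        simp
        ring
      rw [e1]
      have h2 := mul_le_mul_of_nonneg_left (Complex.re_le_norm l) hδ0.le
      rw [hκ, hXα] at hδκ hδκ2
      linarith
  have hfin1 : FinEn (X + 1) w w' := hfin.extend hw hw'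
  have hf21 : SqInt (X + 1) f := hf2.mono_set (Ioi_subset_Ioi (by linarith))
  have hen := energy_bound (continuous_qf hα _ _) hf hsol hfin1 hcoer hf21
  have hF1 : ∫ x in Ioi (X + 1), ‖f x‖ ^ 2 ≤ F ^ 2 := by
    refine le_trans ?_ hf2F
    apply setIntegral_mono_set hf2
    · exact Eventually.of_forall fun t => by positivity
    · exact (Ioi_subset_Ioi (by linarith)).eventuallyLE
  have hM1 := hstep (X + 1) ⟨by linarith, le_refl _⟩
  have hen2 : En (X + 1) w w' ≤ (2 / δ) * M ^ 2 + F ^ 2 / δ ^ 2 := by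
    refine hen.trans (add_le_add ?_ ?_)
    · apply mul_le_mul_of_nonneg_left _ (by positivity)
      nlinarith [hM1.1, hM1.2, norm_nonneg (w (X + 1)), norm_nonneg (w' (X + 1))]
    · exact div_le_div_of_nonneg_right hF1 (by positivity)
  have hsplit : En X w w' ≤ 2 * M ^ 2 + En (X + 1) w w' := by
    unfold En
    rw [← Ioc_union_Ioi_eq_Ioi (show X ≤ X + 1 by linarith)]
    rw [setIntegral_union Ioc_disjoint_Ioi_same measurableSet_Ioi
      (IntegrableOn.mono_set (hfin.extend hw hw' : FinEn X w w') Ioc_subset_Ioi_self) hfin1]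
    have hc : Continuous fun x => ‖w x‖ ^ 2 + ‖w' x‖ ^ 2 := by fun_prop
    have h1 : ∫ x in Ioc X (X + 1), (‖w x‖ ^ 2 + ‖w' x‖ ^ 2) ≤ 2 * M ^ 2 := by
      rw [← intervalIntegral.integral_of_le (by linarith)]
      have h2 : ∫ x in X..(X + 1), (‖w x‖ ^ 2 + ‖w' x‖ ^ 2) ≤ ∫ _x in X..(X + 1), (2 * M ^ 2) := by
        apply intervalIntegral.integral_mono_on (by linarith) (hc.intervalIntegrable _ _)
          (continuous_const.intervalIntegrable _ _)
        intro t ht
        have h3 := hstep t ht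
        have h4 := pow_le_pow_left₀ (norm_nonneg _) h3.1 2
        have h5 := pow_le_pow_left₀ (norm_nonneg _) h3.2 2
        linarith
      refine h2.trans ?_
      rw [intervalIntegral.integral_const]
      simp
    linarith
  -- numerics
  have hSe : S ≤ Real.exp S := by
    have := Real.add_one_le_exp S
    linarith
  have he1 : (2.7 : ℝ) ≤ Real.exp 1 := by
    have := Real.exp_one_gt_d9
    linarith
  have he2 : (7 : ℝ) ≤ Real.exp 2 := by
    have : Real.exp 2 = Real.exp 1 ^ 2 := by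
      rw [← Real.exp_nat_mul]
      norm_num
    rw [this]
    nlinarith
  have he2S : (7 : ℝ) ≤ Real.exp (2 * S) := he2.trans (Real.exp_le_exp.2 (by linarith))
  have hlS : ‖l‖ ≤ Real.exp (2 * S) := by
    rw [← hSS, show 2 * S = S + S by ring, Real.exp_add]
    nlinarith [Real.exp_pos S]
  have hM2 : M ^ 2 ≤ Real.exp (8 * S) * D := by
    refine hMM.trans (mul_le_mul_of_nonneg_right ?_ hD0)
    have h1 : 3 * K ^ 2 ≤ Real.exp (4 * S) := by
      rw [hKK, show 4 * S = 2 * S + 2 * S by ring, Real.exp_add]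
      nlinarith [Real.exp_pos (2 * S)]
    have h2 : Real.exp (2 * K) ≤ Real.exp (4 * S) := Real.exp_le_exp.2 (by linarith)
    calc 3 * K ^ 2 * Real.exp (2 * K) ≤ Real.exp (4 * S) * Real.exp (4 * S) :=
          mul_le_mul h1 h2 (Real.exp_pos _).le (Real.exp_pos _).le
      _ = Real.exp (8 * S) := by
        rw [← Real.exp_add]
        ring_nf
  have hδinv : 1 / δ ≤ Real.exp ((5 + 3 / α) * S) := by
    have h1 : 1 / δ = 4 * ‖l‖ * (1 / κ) := by
      rw [hδ]
      field_simp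
    have h2 : 1 / κ ≤ 2 * X / α := by
      rw [div_le_div_iff₀ hκ0 hα]
      have h3 : α ≤ κ * (2 * X) := by
        rwa [div_le_iff₀ (by positivity)] at hκlow
      linarith
    have h3 : X ≤ Real.exp (2 * S / α) := by
      refine hXle.trans ?_
      refine (Real.rpow_le_rpow (norm_nonneg _) hlS (by positivity)).trans ?_
      rw [← Real.exp_mul]
      apply Real.exp_le_exp.2
      rw [mul_one_div]
    have h4 : 1 / α ≤ Real.exp (S / α) := by
      have h5 := Real.add_one_le_exp (1 / α)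
      have h6 : Real.exp (1 / α) ≤ Real.exp (S / α) :=
        Real.exp_le_exp.2 (div_le_div_of_nonneg_right hS1 hα.le)
      linarith
    have h7 : (8 : ℝ) ≤ Real.exp (3 * S) := by
      have h8 : Real.exp 3 ≤ Real.exp (3 * S) := Real.exp_le_exp.2 (by linarith)
      have h9 : Real.exp 3 = Real.exp 1 ^ 3 := by
        rw [← Real.exp_nat_mul]
        norm_num
      have h10 : (2.7 : ℝ) ^ 3 ≤ Real.exp 1 ^ 3 := pow_le_pow_left₀ (by norm_num) he1 3
      norm_num at h10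
      linarith
    have h0 : 0 ≤ ‖l‖ := norm_nonneg _
    calc 1 / δ = 4 * ‖l‖ * (1 / κ) := h1
      _ ≤ 4 * ‖l‖ * (2 * X / α) := mul_le_mul_of_nonneg_left h2 (by positivity)
      _ = 8 * ((1 / α) * (‖l‖ * X)) := by
        field_simp
        ring
      _ ≤ Real.exp (3 * S) * (Real.exp (S / α) * (Real.exp (2 * S) * Real.exp (2 * S / α))) := by
        gcongr
      _ = Real.exp ((5 + 3 / α) * S) := by
        rw [← Real.exp_add, ← Real.exp_add, ← Real.exp_add]
        congr 1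
        field_simp
        ring
  have hFD : F ^ 2 ≤ D := by
    rw [hD]
    nlinarith [sq_nonneg a, sq_nonneg b]
  have hEpos : 0 < Real.exp ((13 + 6 / α) * S) := Real.exp_pos _
  have hSα : 0 ≤ S / α := by positivity
  have eS3 : (5 + 3 / α) * S = 5 * S + 3 * (S / α) := by ring
  have eS6 : (13 + 6 / α) * S = 13 * S + 6 * (S / α) := by ring
  have hT1 : 2 * M ^ 2 ≤ 2 * (Real.exp ((13 + 6 / α) * S) * D) := by
    apply mul_le_mul_of_nonneg_left _ (by norm_num)
    refine hM2.trans (mul_le_mul_of_nonneg_right (Real.exp_le_exp.2 ?_) hD0)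
    rw [eS6]
    linarith
  have hT2 : (2 / δ) * M ^ 2 ≤ 2 * (Real.exp ((13 + 6 / α) * S) * D) := by
    have h1 : (2 / δ) * M ^ 2 = 2 * ((1 / δ) * M ^ 2) := by ring
    rw [h1]
    apply mul_le_mul_of_nonneg_left _ (by norm_num)
    calc (1 / δ) * M ^ 2 ≤ Real.exp ((5 + 3 / α) * S) * (Real.exp (8 * S) * D) :=
          mul_le_mul hδinv hM2 (sq_nonneg _) (Real.exp_pos _).le
      _ = Real.exp ((5 + 3 / α) * S + 8 * S) * D := by
        rw [Real.exp_add]
        ring
      _ ≤ Real.exp ((13 + 6 / α) * S) * D := by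
        refine mul_le_mul_of_nonneg_right (Real.exp_le_exp.2 ?_) hD0
        rw [eS6, eS3]
        linarith
  have hT3 : F ^ 2 / δ ^ 2 ≤ Real.exp ((13 + 6 / α) * S) * D := by
    have h1 : F ^ 2 / δ ^ 2 = (1 / δ) ^ 2 * F ^ 2 := by
      field_simp
    rw [h1]
    have h2 : (1 / δ) ^ 2 ≤ Real.exp ((5 + 3 / α) * S) ^ 2 :=
      pow_le_pow_left₀ (by positivity) hδinv 2
    have h3 : Real.exp ((5 + 3 / α) * S) ^ 2 ≤ Real.exp ((13 + 6 / α) * S) := by
      rw [← Real.exp_nat_mul]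
      apply Real.exp_le_exp.2
      rw [eS6, eS3]
      push_cast
      linarith
    exact mul_le_mul (h2.trans h3) hFD (sq_nonneg _) hEpos.le
  have hfinal : 5 * Real.exp ((13 + 6 / α) * S) ≤ Real.exp ((16 + 8 / α) * S) := by
    calc 5 * Real.exp ((13 + 6 / α) * S) ≤ Real.exp (2 * S) * Real.exp ((13 + 6 / α) * S) := by
          apply mul_le_mul_of_nonneg_right _ hEpos.le
          linarith
      _ = Real.exp (2 * S + (13 + 6 / α) * S) := (Real.exp_add _ _).symm
      _ ≤ Real.exp ((16 + 8 / α) * S) := by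
        apply Real.exp_le_exp.2
        have e8 : (16 + 8 / α) * S = 16 * S + 8 * (S / α) := by ring
        rw [eS6, e8]
        linarith
  calc En X w w' ≤ 2 * M ^ 2 + En (X + 1) w w' := hsplit
    _ ≤ 2 * M ^ 2 + ((2 / δ) * M ^ 2 + F ^ 2 / δ ^ 2) := by linarith
    _ ≤ 5 * Real.exp ((13 + 6 / α) * S) * D := by linarith
    _ ≤ Real.exp ((16 + 8 / α) * S) * D := mul_le_mul_of_nonneg_right hfinal hD0

end Pool.Agent.Work.MP_9fcdee_mp
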