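import Pool.Agent.Work.MP_9fcdee_mp.M3_Rotate

set_option autoImplicit false

open Set Filter Topology MeasureTheory

namespace Pool.Agent.Work.MP_9fcdee_mp

variable {α : ℝ}

/-- functions bounded by `exp (C (1+|l|)^ρ)` -/
def EB (α : ℝ) (g : ℂ → ℝ) : Prop :=
  ∃ C : ℝ, 0 ≤ C ∧ ∀ l, |g l| ≤ Real.exp (C * (1 + ‖l‖) ^ rho α)

lemma rho_pos (hα : 0 < α) : 0 < rho α := by
  unfold rho
  positivity

lemma one_le_S (hα : 0 < α) (l : ℂ) : 1 ≤ (1 + ‖l‖) ^ rho α :=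
  Real.one_le_rpow (by linarith [norm_nonneg l]) (rho_pos hα).le

lemma EB.mono {g h : ℂ → ℝ} (hh : EB α h) (hgh : ∀ l, |g l| ≤ |h l|) : EB α g := by
  obtain ⟨C, hC, hb⟩ := hh
  exact ⟨C, hC, fun l => (hgh l).trans (hb l)⟩

lemma EB.const (hα : 0 < α) (c : ℝ) : EB α (fun _ => c) := by
  refine ⟨|c|, abs_nonneg _, fun l => ?_⟩
  have h1 := Real.add_one_le_exp (|c| * (1 + ‖l‖) ^ rho α)
  have h2 := one_le_S hα l
  have h3 := abs_nonneg c
  nlinarith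

lemma EB.mul {g h : ℂ → ℝ} (hg : EB α g) (hh : EB α h) : EB α (fun l => g l * h l) := by
  obtain ⟨C, hC, hb⟩ := hg
  obtain ⟨C', hC', hb'⟩ := hh
  refine ⟨C + C', by linarith, fun l => ?_⟩
  rw [abs_mul, add_mul, Real.exp_add]
  exact mul_le_mul (hb l) (hb' l) (abs_nonneg _) (Real.exp_pos _).le

lemma EB.add (hα : 0 < α) {g h : ℂ → ℝ} (hg : EB α g) (hh : EB α h) :
    EB α (fun l => g l + h l) := by
  obtain ⟨C, hC, hb⟩ := hg
  obtain ⟨C', hC', hb'⟩ := hh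
  refine ⟨C + C' + 1, by linarith, fun l => ?_⟩
  have hS := one_le_S hα l
  set S := (1 + ‖l‖) ^ rho α
  have h1 : Real.exp (C * S) ≤ Real.exp ((C + C') * S) := Real.exp_le_exp.2 (by nlinarith)
  have h2 : Real.exp (C' * S) ≤ Real.exp ((C + C') * S) := Real.exp_le_exp.2 (by nlinarith)
  have h3 : 2 ≤ Real.exp S := by
    have := Real.add_one_le_exp S
    linarith
  calc |g l + h l| ≤ |g l| + |h l| := abs_add_le _ _
    _ ≤ Real.exp (C * S) + Real.exp (C' * S) := add_le_add (hb l) (hb' l)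
    _ ≤ Real.exp ((C + C') * S) * 2 := by linarith
    _ ≤ Real.exp ((C + C') * S) * Real.exp S := by gcongr
    _ = Real.exp ((C + C' + 1) * S) := by
      rw [← Real.exp_add]
      congr 1
      ring

lemma EB.pow (hα : 0 < α) {g : ℂ → ℝ} (hg : EB α g) (n : ℕ) : EB α (fun l => g l ^ n) := by
  induction n with
  | zero =>
    simp only [pow_zero]
    exact EB.const hα 1
  | succ n ih =>
    simp only [pow_succ]
    exact ih.mul hg

lemma EB.S {c : ℝ} : EB α (fun l => Real.exp (c * (1 + ‖l‖) ^ rho α)) := by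
  refine ⟨|c|, abs_nonneg _, fun l => ?_⟩
  rw [abs_of_pos (Real.exp_pos _)]
  apply Real.exp_le_exp.2
  have h2 : 0 ≤ (1 + ‖l‖) ^ rho α := Real.rpow_nonneg (by positivity) _
  exact mul_le_mul_of_nonneg_right (le_abs_self c) h2

lemma EB.rpow {p : ℝ} (hp : p ≤ rho α) : EB α (fun l => (1 + ‖l‖) ^ p) := by
  refine ⟨1, zero_le_one, fun l => ?_⟩
  rw [abs_of_nonneg (Real.rpow_nonneg (by positivity) _), one_mul]
  have h1 : (1 + ‖l‖) ^ p ≤ (1 + ‖l‖) ^ rho α :=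
    Real.rpow_le_rpow_of_exponent_le (by linarith [norm_nonneg l]) hp
  have h2 := Real.add_one_le_exp ((1 + ‖l‖) ^ rho α)
  linarith

/-- the point beyond which the coefficient is coercive -/
noncomputable def e4X (α : ℝ) (l : ℂ) : ℝ := (4 * (1 + ‖l‖)) ^ (1 / α)

/-- Gronwall rate -/
noncomputable def e4K (l : ℂ) : ℝ := Real.sqrt (5 * (1 + ‖l‖))

lemma e4X_pos (α : ℝ) (l : ℂ) : 0 < e4X α l := by
  unfold e4X
  positivity

lemma e4X_pow (hα : 0 < α) (l : ℂ) : e4X α l ^ α = 4 * (1 + ‖l‖) := by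
  unfold e4X
  rw [one_div]
  exact Real.rpow_inv_rpow (by positivity) hα.ne'

lemma e4K_sq (l : ℂ) : e4K l ^ 2 = 5 * (1 + ‖l‖) := Real.sq_sqrt (by positivity)

lemma e4K_ge (l : ℂ) : 1 ≤ e4K l := by
  unfold e4K
  rw [Real.one_le_sqrt]
  linarith [norm_nonneg l]

lemma e4_rate (l : ℂ) :
    e4K l * e4X α l = Real.sqrt 5 * 4 ^ (1 / α) * (1 + ‖l‖) ^ rho α := by
  unfold e4K e4X rho
  have h1 : (0 : ℝ) < 1 + ‖l‖ := by positivity
  rw [Real.sqrt_mul (by norm_num), Real.mul_rpow (by norm_num) h1.le, Real.rpow_add h1,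
    Real.sqrt_eq_rpow (1 + ‖l‖)]
  ring

/-- the constant in the energy estimate -/
noncomputable def e4B (α : ℝ) (l : ℂ) : ℝ :=
  (2 * e4X α l + 4) * e4K l ^ 2 * Real.exp (2 * (e4K l * e4X α l))

lemma e4B_EB (hα : 0 < α) : EB α (e4B α) := by
  have h1 : EB α (fun l => (2 * e4X α l + 4)) := by
    refine EB.add hα ((EB.const hα 2).mul ?_) (EB.const hα 4)
    refine ((EB.const hα (4 ^ (1 / α))).mul (EB.rpow (p := 1 / α) ?_)).mono fun l => ?_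
    · unfold rho
      linarith
    · unfold e4X
      rw [Real.mul_rpow (by norm_num) (by positivity)]
  have h2 : EB α (fun l => e4K l ^ 2) := by
    refine EB.pow hα ?_ 2
    refine ((EB.const hα (Real.sqrt 5)).mul (EB.rpow (p := 1 / 2) ?_)).mono fun l => ?_
    · unfold rho
      have : 0 < 1 / α := by positivity
      linarith
    · unfold e4K
      rw [Real.sqrt_mul (by norm_num), Real.sqrt_eq_rpow (1 + ‖l‖)]
  have h3 : EB α (fun l => Real.exp (2 * (e4K l * e4X α l))) := by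
    refine (EB.S (α := α) (c := 2 * (Real.sqrt 5 * 4 ^ (1 / α)))).mono fun l => ?_
    rw [e4_rate, ← mul_assoc]
  exact (h1.mul h2).mul h3

lemma e4B_ge (l : ℂ) : 4 ≤ e4B α l := by
  unfold e4B
  have h1 := e4X_pos α l
  have h2 := e4K_ge l
  have h3 : 1 ≤ Real.exp (2 * (e4K l * e4X α l)) := Real.one_le_exp (by positivity)
  have h4 : 1 ≤ e4K l ^ 2 := one_le_pow₀ h2
  calc (4 : ℝ) = 4 * 1 * 1 := by norm_num
    _ ≤ (2 * e4X α l + 4) * e4K l ^ 2 * Real.exp (2 * (e4K l * e4X α l)) := by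
      gcongr
      linarith

lemma e4_coer (hα : 0 < α) (l : ℂ) : ∃ τ : ℂ, Coer (qf α Complex.I l) (e4X α l) τ (1 / 2) := by
  have hs : (0 : ℝ) < Real.sqrt 2 := Real.sqrt_pos.2 (by norm_num)
  have hs2 : Real.sqrt 2 ^ 2 = 2 := Real.sq_sqrt (by norm_num)
  have hs3 : Real.sqrt 2 ≤ 2 := by nlinarith
  refine ⟨(((1 / Real.sqrt 2 : ℝ) : ℂ)) * (1 - Complex.I), by norm_num, ?_, ?_, ?_⟩
  · rw [norm_mul, Complex.norm_real, Real.norm_of_nonneg (by positivity)]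
    have h1 : ‖1 - Complex.I‖ = Real.sqrt 2 := by
      rw [Complex.norm_def, Complex.normSq_apply]
      simp
      norm_num
    rw [h1]
    exact le_of_eq (by field_simp)
  · rw [Complex.re_ofReal_mul]
    simp
    rw [inv_le_inv₀ (by norm_num) hs]
    exact hs3
  · intro x hx
    have hX := e4X_pos α l
    have hx0 : 0 < x := lt_of_lt_of_le hX hx
    have h1 : 4 * (1 + ‖l‖) ≤ |x| ^ α := by
      rw [← e4X_pow hα l, abs_of_pos hx0]
      exact Real.rpow_le_rpow hX.le hx hα.le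
    have h2 : ((((1 / Real.sqrt 2 : ℝ) : ℂ)) * (1 - Complex.I) * qf α Complex.I l x).re =
        (1 / Real.sqrt 2) * (|x| ^ α - (l.re + l.im)) := by
      unfold qf
      rw [mul_assoc, Complex.re_ofReal_mul]
      simp
      ring
    rw [h2]
    have h3 : l.re + l.im ≤ 2 * ‖l‖ := by
      have h4 := Complex.abs_re_le_norm l
      have h5 := Complex.abs_im_le_norm l
      have h6 := le_abs_self l.re
      have h7 := le_abs_self l.im
      linarith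
    have h4 : (1 : ℝ) / 2 ≤ 1 / Real.sqrt 2 := one_div_le_one_div_of_le hs hs3
    have h5 : 2 ≤ |x| ^ α - (l.re + l.im) := by linarith [norm_nonneg l]
    nlinarith

/-- the energy is controlled by the data at `0` -/
lemma e4_energy (hα : 0 < α) {l : ℂ} {f u v : ℝ → ℂ} {F : ℝ} (hf : Continuous f)
    (hfb : ∀ x, ‖f x‖ ≤ F) (hf2 : SqInt 0 f) (h : IsSol (qf α Complex.I l) f u v)
    (hE : FinEn 0 u v) :
    En 0 u v ≤ e4B α l * ((‖u 0‖ + ‖v 0‖ + F) ^ 2 + ∫ x in Ioi (0:ℝ), ‖f x‖ ^ 2) := by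
  have hF : 0 ≤ F := (norm_nonneg _).trans (hfb 0)
  have hu := h.cont
  have hv := h.cont'
  have hX := e4X_pos α l
  have hK := e4K_ge l
  set X := e4X α l with hXdef
  set K := e4K l with hKdef
  set M := (K * ‖u 0‖ + ‖v 0‖ + F) * Real.exp (K * X) with hM
  have hM0 : 0 ≤ M := by positivity
  have hbd : ∀ x, 0 ≤ x → x ≤ X → ‖u x‖ ≤ M ∧ ‖v x‖ ≤ M := by
    intro x hx0 hxX
    have h1 := sol_bound h (X := 0) (x := x) (K := K) (F := F) hK hF ?_ (fun t _ => hfb t)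
    · have h2 : Real.exp (K * |x - 0|) ≤ Real.exp (K * X) := by
        apply Real.exp_le_exp.2
        rw [sub_zero, abs_of_nonneg hx0]
        gcongr
      have h3 : 0 ≤ K * ‖u 0‖ + ‖v 0‖ + F := by positivity
      exact ⟨h1.1.trans (mul_le_mul_of_nonneg_left h2 h3),
        h1.2.trans (mul_le_mul_of_nonneg_left h2 h3)⟩
    · intro t ht
      rw [uIcc_of_le hx0] at ht
      rw [hKdef, e4K_sq]
      have h4 : |t| ^ α ≤ 4 * (1 + ‖l‖) := by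
        rw [← e4X_pow hα l, abs_of_nonneg ht.1]
        exact Real.rpow_le_rpow ht.1 (ht.2.trans hxX) hα.le
      have h5 : (0 : ℝ) ≤ |t| ^ α := Real.rpow_nonneg (abs_nonneg _) _
      calc ‖qf α Complex.I l t‖ ≤ ‖Complex.I * ((|t| ^ α : ℝ) : ℂ)‖ + ‖l‖ := norm_sub_le _ _
        _ = |t| ^ α + ‖l‖ := by
          rw [norm_mul, Complex.norm_I, one_mul, Complex.norm_real, Real.norm_of_nonneg h5]
        _ ≤ _ := by linarith [norm_nonneg l]
  have hgc : Continuous fun x => ‖u x‖ ^ 2 + ‖v x‖ ^ 2 := by fun_prop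
  have hsplit : En 0 u v = (∫ x in Ioc 0 X, (‖u x‖ ^ 2 + ‖v x‖ ^ 2)) + En X u v := by
    unfold En
    rw [← setIntegral_union Ioc_disjoint_Ioi_same measurableSet_Ioi
      ((hgc.integrableOn_Icc (a := 0) (b := X)).mono_set Ioc_subset_Icc_self)
      (hE.mono_set (Ioi_subset_Ioi hX.le)), Ioc_union_Ioi_eq_Ioi hX.le]
  have h1 : (∫ x in Ioc 0 X, (‖u x‖ ^ 2 + ‖v x‖ ^ 2)) ≤ 2 * M ^ 2 * X := by
    have h2 : ‖∫ x in Ioc 0 X, (‖u x‖ ^ 2 + ‖v x‖ ^ 2)‖ ≤ 2 * M ^ 2 * (volume.real (Ioc 0 X)) := by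
      apply norm_setIntegral_le_of_norm_le_const
      · rw [Real.volume_Ioc]
        exact ENNReal.ofReal_lt_top
      · intro x hx
        rw [Real.norm_of_nonneg (by positivity)]
        have h3 := hbd x hx.1.le hx.2
        have h4 : ‖u x‖ ^ 2 ≤ M ^ 2 := pow_le_pow_left₀ (norm_nonneg _) h3.1 2
        have h5 : ‖v x‖ ^ 2 ≤ M ^ 2 := pow_le_pow_left₀ (norm_nonneg _) h3.2 2
        linarith
    rw [Real.volume_real_Ioc_of_le hX.le, sub_zero] at h2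
    exact (le_abs_self _).trans h2
  obtain ⟨τ, hc⟩ := e4_coer hα l
  have hf2X : SqInt X f := hf2.mono_set (Ioi_subset_Ioi hX.le)
  have h2 := energy_bound (continuous_qf hα _ _) hf h (hE.mono_set (Ioi_subset_Ioi hX.le)) hc hf2X
  have h3 : ∫ x in Ioi X, ‖f x‖ ^ 2 ≤ ∫ x in Ioi (0:ℝ), ‖f x‖ ^ 2 := by
    apply setIntegral_mono_set hf2
    · exact Eventually.of_forall fun x => by positivity
    · exact (Ioi_subset_Ioi hX.le).eventuallyLE
  have h4 : En X u v ≤ 4 * M ^ 2 + 4 * ∫ x in Ioi (0:ℝ), ‖f x‖ ^ 2 := by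
    refine h2.trans ?_
    have h5 := hbd X hX.le le_rfl
    have h6 : ‖u X‖ * ‖v X‖ ≤ M ^ 2 := by
      rw [sq]
      exact mul_le_mul h5.1 h5.2 (norm_nonneg _) hM0
    have h7 : (2 / (1 / 2 : ℝ)) * (‖u X‖ * ‖v X‖) + (∫ x in Ioi X, ‖f x‖ ^ 2) / (1 / 2 : ℝ) ^ 2 =
      4 * (‖u X‖ * ‖v X‖) + 4 * (∫ x in Ioi X, ‖f x‖ ^ 2) := by ring
    rw [h7]
    linarith
  have hM2 : M ^ 2 ≤ K ^ 2 * Real.exp (2 * (K * X)) * (‖u 0‖ + ‖v 0‖ + F) ^ 2 := by
    have h5 : K * ‖u 0‖ + ‖v 0‖ + F ≤ K * (‖u 0‖ + ‖v 0‖ + F) := by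
      have := norm_nonneg (v 0)
      nlinarith
    calc M ^ 2 = (K * ‖u 0‖ + ‖v 0‖ + F) ^ 2 * Real.exp (2 * (K * X)) := by
          rw [hM, mul_pow, ← Real.exp_nat_mul]
          push_cast
          rfl
      _ ≤ (K * (‖u 0‖ + ‖v 0‖ + F)) ^ 2 * Real.exp (2 * (K * X)) := by gcongr
      _ = _ := by ring
  have hF2 : 0 ≤ ∫ x in Ioi (0:ℝ), ‖f x‖ ^ 2 := by positivity
  have hB4 := e4B_ge (α := α) l
  rw [hsplit]
  calc (∫ x in Ioc 0 X, (‖u x‖ ^ 2 + ‖v x‖ ^ 2)) + En X u v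
      ≤ (2 * X + 4) * M ^ 2 + 4 * ∫ x in Ioi (0:ℝ), ‖f x‖ ^ 2 := by linarith
    _ ≤ (2 * X + 4) * (K ^ 2 * Real.exp (2 * (K * X)) * (‖u 0‖ + ‖v 0‖ + F) ^ 2) +
        e4B α l * ∫ x in Ioi (0:ℝ), ‖f x‖ ^ 2 := by gcongr
    _ = e4B α l * ((‖u 0‖ + ‖v 0‖ + F) ^ 2 + ∫ x in Ioi (0:ℝ), ‖f x‖ ^ 2) := by
      unfold e4B
      rw [← hXdef, ← hKdef]
      ring

lemma norm_om (α : ℝ) : ‖om α‖ = 1 := by
  unfold om
  exact Complex.norm_exp_ofReal_mul_I _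

lemma om_ne (α : ℝ) : om α ≠ 0 := Complex.exp_ne_zero _

/-- the bound for the boundary value off the ray -/
noncomputable def e4Q (α : ℝ) (F2 : ℝ) (l : ℂ) : ℝ :=
  (1 + ‖l‖) ^ 2 * F2 + e4B α l * (9 * (1 + ‖l‖) ^ 2) ^ 2

lemma e4Q_EB (hα : 0 < α) (hα1 : α ≤ 1) (F2 : ℝ) : EB α (e4Q α F2) := by
  have h1 : EB α (fun l => 1 + ‖l‖) := by
    refine (EB.rpow (α := α) (p := 1) ?_).mono fun l => ?_
    · unfold rho
      have : 1 ≤ 1 / α := by
        rw [le_div_iff₀ hα]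
        linarith
      linarith
    · rw [Real.rpow_one]
  have h2 := EB.pow hα h1 2
  exact EB.add hα (h2.mul (EB.const hα F2))
    ((e4B_EB hα).mul (EB.pow hα ((EB.const hα 9).mul h2) 2))

lemma e4_G (hα : 0 < α) (hα1 : α ≤ 1) {b : Bool} {f : ℝ → ℂ} {w w' : ℂ → ℝ → ℂ}
    (hF : Fam α b f w w') (hf : Continuous f) (hf2 : SqInt 0 f) (l : ℂ) :
    |(l * (om α ^ 2)⁻¹).im| ^ 2 * ‖bc (!b) (w l 0) (w' l 0)‖ ≤
      e4Q α (∫ x in Ioi (0:ℝ), ‖f x‖ ^ 2) l := by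
  set F2 := ∫ x in Ioi (0:ℝ), ‖f x‖ ^ 2 with hF2def
  have hF2 : 0 ≤ F2 := by positivity
  set n := |(l * (om α ^ 2)⁻¹).im| with hn
  have hB4 := e4B_ge (α := α) l
  have hn0 : 0 ≤ n := abs_nonneg _
  have hnl : n ≤ ‖l‖ := by
    have h1 := Complex.abs_im_le_norm (l * (om α ^ 2)⁻¹)
    rwa [norm_mul, norm_inv, norm_pow, norm_om, one_pow, inv_one, mul_one] at h1
  rcases hn0.eq_or_lt with hn1 | hn1
  · rw [← hn1, zero_pow two_ne_zero, zero_mul]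
    unfold e4Q
    exact add_nonneg (by positivity) (mul_nonneg (by linarith) (by positivity))
  obtain ⟨X, hX, -, m, -, hfin, -⟩ := weyl_ball hα hα1 (‖l‖ + 1) (by positivity)
  have hl : l ∈ Metric.ball (0 : ℂ) (‖l‖ + 1) := by
    rw [mem_ball_zero_iff]
    linarith
  have hDf := hfin l hl
  set D := solU (qf α Complex.I l) 0 X 1 (m l) with hD
  set D' := solV (qf α Complex.I l) 0 X 1 (m l) with hD'
  have hq := continuous_qf hα Complex.I l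
  have hsol : IsSol (qf α Complex.I l) 0 D D' := isSol_sol hq continuous_zero X 1 (m l)
  have hDX : D X = 1 := solU_at hq continuous_zero X 1 (m l)
  have hE : FinEn 0 D D' := FinEn.extend hsol.cont hsol.cont' hDf
  obtain ⟨hm1, hm2⟩ := m_bound hα hα1 hsol hE
  rw [← hn] at hm1 hm2
  have hzero : IsSol (qf α Complex.I l) 0 (fun _ => 0) (fun _ => 0) :=
    ⟨fun x => hasDerivAt_const x _, fun x => (hasDerivAt_const x (0 : ℂ)).congr_deriv (by simp)⟩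
  have hnz : ¬ (D 0 = 0 ∧ D' 0 = 0) := by
    rintro ⟨h1, h2⟩
    have h3 := (IsSol.unique hq hsol hzero (X := 0) h1 h2).1 X
    rw [hDX] at h3
    exact one_ne_zero h3
  have hD0 : D 0 ≠ 0 := by
    intro h1
    rw [h1, norm_zero, mul_zero] at hm1
    have h2 : ‖D' 0‖ ≤ 0 := by
      by_contra h3
      have := mul_pos hn1 (not_le.1 h3)
      linarith
    exact hnz ⟨h1, norm_le_zero_iff.1 h2⟩
  have hD'0 : D' 0 ≠ 0 := by
    intro h1
    rw [h1, norm_zero, mul_zero] at hm2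
    have h2 : ‖D 0‖ ≤ 0 := by
      by_contra h3
      have := mul_pos hn1 (not_le.1 h3)
      linarith
    exact hnz ⟨norm_le_zero_iff.1 h2, h1⟩
  set z := bc b (D 0) (D' 0) with hz
  set G := bc (!b) (w l 0) (w' l 0) with hG
  have hz0 : z ≠ 0 := by
    rw [hz]
    unfold bc
    cases b
    · simpa using hD'0
    · simpa using hD0
  have hzp : 0 < ‖z‖ := norm_pos_iff.2 hz0
  have hbc := hF.bc0 l
  obtain ⟨-, hgr⟩ := green hf (hF.sol l) hsol (hF.fin l) hE hf2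
  have hGz : ‖G‖ * ‖z‖ = ‖∫ x in Ioi (0:ℝ), f x * D x‖ := by
    rw [hgr, ← norm_mul, hG, hz]
    unfold bc at hbc ⊢
    cases b
    · simp only [Bool.false_eq_true, if_false, Bool.not_false, if_true] at hbc ⊢
      rw [hbc, zero_mul, zero_sub, norm_neg]
    · simp only [Bool.not_true, Bool.false_eq_true, if_false, if_true] at hbc ⊢
      rw [hbc, zero_mul, sub_zero]
  have hdata : n * (‖D 0‖ + ‖D' 0‖) ≤ 9 * (1 + ‖l‖) ^ 2 * ‖z‖ := by
    have h1 : (1 : ℝ) + ‖l‖ ≤ (1 + ‖l‖) ^ 2 := by nlinarith [norm_nonneg l]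
    have h2 : n ≤ (1 + ‖l‖) ^ 2 := by linarith
    rw [hz]
    unfold bc
    cases b
    · simp only [Bool.false_eq_true, if_false]
      have h3 : n * ‖D' 0‖ ≤ (1 + ‖l‖) ^ 2 * ‖D' 0‖ := by gcongr
      have h4 : 4 * (1 + ‖l‖) * ‖D' 0‖ ≤ 8 * (1 + ‖l‖) ^ 2 * ‖D' 0‖ := by
        have := norm_nonneg (D' 0)
        nlinarith [norm_nonneg l]
      linarith
    · simp only [if_true]
      have h3 : n * ‖D 0‖ ≤ (1 + ‖l‖) ^ 2 * ‖D 0‖ := by gcongr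
      linarith
  have hen := e4_energy hα (F := 0) (f := 0) continuous_zero (by simp) (by
    unfold SqInt
    simp) hsol hE
  simp only [Pi.zero_apply, norm_zero, ne_eq, OfNat.ofNat_ne_zero, not_false_eq_true, zero_pow,
    integral_zero, add_zero] at hen
  have hint : ‖∫ x in Ioi (0:ℝ), f x * D x‖ ≤ ‖z‖ * F2 + ‖z‖⁻¹ * En 0 D D' := by
    have h1 : IntegrableOn (fun x => ‖z‖ * ‖f x‖ ^ 2 + ‖z‖⁻¹ * (‖D x‖ ^ 2 + ‖D' x‖ ^ 2)) (Ioi 0) :=
      (hf2.const_mul _).add (hE.const_mul _)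
    refine (norm_integral_le_of_norm_le h1 (Eventually.of_forall fun x => ?_)).trans
      (le_of_eq ?_)
    · rw [norm_mul]
      have h2 : ‖z‖ * (‖f x‖ * ‖D x‖) ≤ ‖z‖ ^ 2 * ‖f x‖ ^ 2 + ‖D x‖ ^ 2 := by
        nlinarith [sq_nonneg (‖z‖ * ‖f x‖ - ‖D x‖), mul_nonneg (mul_nonneg hzp.le (norm_nonneg (f x)))
          (norm_nonneg (D x))]
      have h3 : ‖f x‖ * ‖D x‖ ≤ ‖z‖⁻¹ * (‖z‖ ^ 2 * ‖f x‖ ^ 2 + ‖D x‖ ^ 2) := by
        rw [inv_mul_eq_div, le_div_iff₀ hzp]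
        linarith
      refine h3.trans ?_
      have h4 : ‖z‖⁻¹ * (‖z‖ ^ 2 * ‖f x‖ ^ 2 + ‖D x‖ ^ 2) =
          ‖z‖ * ‖f x‖ ^ 2 + ‖z‖⁻¹ * ‖D x‖ ^ 2 := by
        field_simp
      rw [h4]
      have h5 : 0 ≤ ‖z‖⁻¹ * ‖D' x‖ ^ 2 := by positivity
      linarith
    · rw [integral_add (hf2.const_mul _) (hE.const_mul _), integral_const_mul,
        integral_const_mul]
      rfl
  have h1 : ‖G‖ ≤ F2 + En 0 D D' / ‖z‖ ^ 2 := by
    have h2 : ‖G‖ * ‖z‖ ≤ ‖z‖ * F2 + ‖z‖⁻¹ * En 0 D D' := hGz.trans_le hint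
    have h3 : ‖G‖ ≤ (‖z‖ * F2 + ‖z‖⁻¹ * En 0 D D') / ‖z‖ := by
      rw [le_div_iff₀ hzp]
      exact h2
    refine h3.trans (le_of_eq ?_)
    field_simp
  have h2 : n ^ 2 * (En 0 D D' / ‖z‖ ^ 2) ≤ e4B α l * (9 * (1 + ‖l‖) ^ 2) ^ 2 := by
    rw [mul_div_assoc', div_le_iff₀ (by positivity)]
    calc n ^ 2 * En 0 D D' ≤ n ^ 2 * (e4B α l * (‖D 0‖ + ‖D' 0‖) ^ 2) := by gcongr
      _ = e4B α l * (n * (‖D 0‖ + ‖D' 0‖)) ^ 2 := by ring
      _ ≤ e4B α l * (9 * (1 + ‖l‖) ^ 2 * ‖z‖) ^ 2 := by gcongr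
      _ = _ := by ring
  have h3 : n ^ 2 * F2 ≤ (1 + ‖l‖) ^ 2 * F2 := by
    gcongr
    linarith
  calc n ^ 2 * ‖G‖ ≤ n ^ 2 * (F2 + En 0 D D' / ‖z‖ ^ 2) := by gcongr
    _ = n ^ 2 * F2 + n ^ 2 * (En 0 D D' / ‖z‖ ^ 2) := by ring
    _ ≤ _ := by
      unfold e4Q
      linarith

/-- the boundary value is of finite type -/
lemma e4_G' (hα : 0 < α) (hα1 : α ≤ 1) {b : Bool} {f : ℝ → ℂ} {w w' : ℂ → ℝ → ℂ}
    (hF : Fam α b f w w') (hf : Continuous f) (hf2 : SqInt 0 f) :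
    EB α (fun l => ‖bc (!b) (w l 0) (w' l 0)‖) := by
  obtain ⟨C, hC, hQ⟩ := e4Q_EB hα hα1 (∫ x in Ioi (0:ℝ), ‖f x‖ ^ 2)
  set G : ℂ → ℂ := fun l => bc (!b) (w l 0) (w' l 0) with hG
  have hGd : Differentiable ℂ G := by
    rw [hG]
    unfold bc
    cases b
    · simpa using hF.dw 0
    · simpa using hF.dw' 0
  have hGn : ∀ l : ℂ, |(l * (om α ^ 2)⁻¹).im| ^ 2 * ‖G l‖ ≤ Real.exp (C * (1 + ‖l‖) ^ rho α) :=
    fun l => (e4_G hα hα1 hF hf hf2 l).trans ((le_abs_self _).trans (hQ l))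
  have hmain : EB α (fun l => 4 * Real.exp (C * 2 ^ rho α * (1 + ‖l‖) ^ rho α)) :=
    (EB.const hα 4).mul EB.S
  refine hmain.mono fun l => ?_
  rw [abs_of_nonneg (norm_nonneg _), abs_of_nonneg (by positivity)]
  have hρ := rho_pos hα
  have hexp : ∀ l' : ℂ, ‖l'‖ ≤ 1 + ‖l‖ → Real.exp (C * (1 + ‖l'‖) ^ rho α) ≤
      Real.exp (C * 2 ^ rho α * (1 + ‖l‖) ^ rho α) := by
    intro l' hl'
    apply Real.exp_le_exp.2
    rw [mul_assoc, ← Real.mul_rpow (by norm_num) (by positivity)]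
    refine mul_le_mul_of_nonneg_left ?_ hC
    exact Real.rpow_le_rpow (by positivity) (by linarith [norm_nonneg l]) hρ.le
  by_cases h1 : 1 ≤ |(l * (om α ^ 2)⁻¹).im|
  · have h2 := hGn l
    have h3 : 1 ≤ |(l * (om α ^ 2)⁻¹).im| ^ 2 := one_le_pow₀ h1
    have h4 : ‖G l‖ ≤ |(l * (om α ^ 2)⁻¹).im| ^ 2 * ‖G l‖ :=
      le_mul_of_one_le_left (norm_nonneg _) h3
    have h5 := hexp l (by linarith)
    have h6 := Real.exp_pos (C * 2 ^ rho α * (1 + ‖l‖) ^ rho α)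
    linarith
  · have h1' := not_le.1 h1
    set ν := l * (om α ^ 2)⁻¹ with hν
    have ho2 : om α ^ 2 ≠ 0 := pow_ne_zero 2 (om_ne α)
    have hno2 : ‖om α ^ 2‖ = 1 := by rw [norm_pow, norm_om, one_pow]
    let H : ℂ → ℂ := fun ζ => (ζ ^ 2 - 1) ^ 2 * G (om α ^ 2 * (((ν.re : ℝ) : ℂ) + ζ))
    have hHd : Differentiable ℂ H := by
      have h2 : Differentiable ℂ (fun ζ : ℂ => G (om α ^ 2 * (((ν.re : ℝ) : ℂ) + ζ))) :=
        hGd.comp (by fun_prop)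
      exact (by fun_prop : Differentiable ℂ (fun ζ : ℂ => (ζ ^ 2 - 1) ^ 2)).mul h2
    have hνn : ‖ν‖ = ‖l‖ := by
      rw [hν, norm_mul, norm_inv, hno2, inv_one, mul_one]
    have hbd : ∀ ζ ∈ frontier (Metric.ball (0 : ℂ) 1), ‖H ζ‖ ≤
        4 * Real.exp (C * 2 ^ rho α * (1 + ‖l‖) ^ rho α) := by
      intro ζ hζ
      rw [frontier_ball _ one_ne_zero, mem_sphere_zero_iff_norm] at hζ
      have h2 : ‖ζ ^ 2 - 1‖ ^ 2 = 4 * |ζ.im| ^ 2 := by
        have h3 : ζ.re ^ 2 + ζ.im ^ 2 = 1 := by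
          have h4 := Complex.sq_norm ζ
          rw [hζ, Complex.normSq_apply] at h4
          nlinarith
        rw [Complex.sq_norm, Complex.normSq_apply, sq_abs]
        simp only [Complex.sub_re, Complex.sub_im, sq, Complex.mul_re, Complex.mul_im,
          Complex.one_re, Complex.one_im]
        have h4 : ζ.re ^ 2 = 1 - ζ.im ^ 2 := by linarith
        have h5 : (ζ.re * ζ.re - ζ.im * ζ.im - 1) = -2 * ζ.im ^ 2 := by
          have : ζ.re * ζ.re = ζ.re ^ 2 := by ring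
          rw [this, h4]
          ring
        rw [h5]
        have h6 : (ζ.re * ζ.im + ζ.im * ζ.re - 0) = 2 * ζ.re * ζ.im := by ring
        rw [h6]
        have h7 : 2 * ζ.re * ζ.im * (2 * ζ.re * ζ.im) = 4 * ζ.re ^ 2 * ζ.im ^ 2 := by ring
        rw [h7, h4]
        ring
      have hl' : om α ^ 2 * (((ν.re : ℝ) : ℂ) + ζ) * (om α ^ 2)⁻¹ = ((ν.re : ℝ) : ℂ) + ζ := by
        rw [mul_comm (om α ^ 2), mul_assoc, mul_inv_cancel₀ ho2, mul_one]
      have h8 := hGn (om α ^ 2 * (((ν.re : ℝ) : ℂ) + ζ))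
      rw [hl', Complex.add_im, Complex.ofReal_im, zero_add] at h8
      have h9 : ‖om α ^ 2 * (((ν.re : ℝ) : ℂ) + ζ)‖ ≤ 1 + ‖l‖ := by
        rw [norm_mul, hno2, one_mul]
        refine (norm_add_le _ _).trans ?_
        rw [hζ, Complex.norm_real, Real.norm_eq_abs]
        have := Complex.abs_re_le_norm ν
        linarith
      calc ‖H ζ‖ = ‖ζ ^ 2 - 1‖ ^ 2 * ‖G (om α ^ 2 * (((ν.re : ℝ) : ℂ) + ζ))‖ := by
            rw [norm_mul, norm_pow]
        _ = 4 * (|ζ.im| ^ 2 * ‖G (om α ^ 2 * (((ν.re : ℝ) : ℂ) + ζ))‖) := by rw [h2]; ring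
        _ ≤ 4 * Real.exp (C * 2 ^ rho α * (1 + ‖l‖) ^ rho α) := by
            have := h8.trans (hexp _ h9)
            linarith
    have hζ0 : (((ν.im : ℝ) : ℂ) * Complex.I) ∈ closure (Metric.ball (0 : ℂ) 1) := by
      apply subset_closure
      rw [mem_ball_zero_iff, norm_mul, Complex.norm_I, mul_one, Complex.norm_real,
        Real.norm_eq_abs]
      exact h1'
    have h2 := Complex.norm_le_of_forall_mem_frontier_norm_le Metric.isBounded_ball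
      hHd.diffContOnCl hbd hζ0
    have h3 : om α ^ 2 * (((ν.re : ℝ) : ℂ) + ((ν.im : ℝ) : ℂ) * Complex.I) = l := by
      rw [Complex.re_add_im, hν, mul_comm, mul_assoc, inv_mul_cancel₀ ho2, mul_one]
    have h4 : H (((ν.im : ℝ) : ℂ) * Complex.I) = (((1 + ν.im ^ 2) ^ 2 : ℝ) : ℂ) * G l := by
      show ((((ν.im : ℝ) : ℂ) * Complex.I) ^ 2 - 1) ^ 2 *
        G (om α ^ 2 * (((ν.re : ℝ) : ℂ) + ((ν.im : ℝ) : ℂ) * Complex.I)) = _
      rw [h3, mul_pow, Complex.I_sq]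
      push_cast
      ring
    rw [h4, norm_mul, Complex.norm_real, Real.norm_of_nonneg (by positivity)] at h2
    refine le_trans ?_ h2
    have h5 : (1 : ℝ) ≤ (1 + ν.im ^ 2) ^ 2 := one_le_pow₀ (by nlinarith [sq_nonneg ν.im])
    exact le_mul_of_one_le_left (norm_nonneg _) h5

theorem finite_type (hα : 0 < α) (hα1 : α ≤ 1) {b : Bool} {f : ℝ → ℂ} {w w' : ℂ → ℝ → ℂ}
    (hF : Fam α b f w w') (hf : Continuous f) {F : ℝ} (hfb : ∀ x, ‖f x‖ ≤ F) (hf2 : SqInt 0 f) :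
    ∃ C : ℝ, ∀ (l : ℂ) (x : ℝ), 0 ≤ x → ‖w l x‖ ≤ Real.exp (C * (1 + ‖l‖) ^ rho α) := by
  have hG := e4_G' hα hα1 hF hf hf2
  set F2 := ∫ x in Ioi (0:ℝ), ‖f x‖ ^ 2 with hF2def
  have hEB : EB α (fun l => e4B α l * ((‖bc (!b) (w l 0) (w' l 0)‖ + F) ^ 2 + F2)) :=
    (e4B_EB hα).mul (EB.add hα (EB.pow hα (EB.add hα hG (EB.const hα F)) 2) (EB.const hα F2))
  obtain ⟨C, hC, hb⟩ := hEB
  refine ⟨C, fun l x hx => ?_⟩
  have hS := one_le_S hα l
  have h1 := e4_energy hα hf hfb hf2 (hF.sol l) (hF.fin l)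
  have h2 : ‖w l 0‖ + ‖w' l 0‖ = ‖bc (!b) (w l 0) (w' l 0)‖ := by
    have hbc := hF.bc0 l
    unfold bc at hbc ⊢
    cases b
    · simp only [Bool.false_eq_true, if_false, Bool.not_false, if_true] at hbc ⊢
      rw [hbc, norm_zero, add_zero]
    · simp only [Bool.not_true, Bool.false_eq_true, if_false, if_true] at hbc ⊢
      rw [hbc, norm_zero, zero_add]
  rw [h2] at h1
  have h3 := norm_sq_le_En (hF.sol l) (hF.fin l) hx
  have h4 : ‖w l x‖ ^ 2 ≤ Real.exp (C * (1 + ‖l‖) ^ rho α) :=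
    h3.trans (h1.trans ((le_abs_self _).trans (hb l)))
  by_cases h5 : 1 ≤ ‖w l x‖
  · refine le_trans ?_ h4
    nlinarith
  · have h6 : 1 ≤ Real.exp (C * (1 + ‖l‖) ^ rho α) := Real.one_le_exp (by positivity)
    linarith [not_le.1 h5]

end Pool.Agent.Work.MP_9fcdee_mp
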