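import Pool.Agent.Work.MP_9fcdee_mp.E5b_Local

set_option autoImplicit false

open Set Filter Topology MeasureTheory

namespace Pool.Agent.Work.MP_9fcdee_mp

variable {α : ℝ}

lemma e5_rho_ge (hα : 0 < α) (hα1 : α ≤ 1) : 1 ≤ rho α := by
  unfold rho
  have : 1 ≤ 1 / α := by rw [le_div_iff₀ hα]; linarith
  linarith

lemma e5_le_rpow (hα : 0 < α) (hα1 : α ≤ 1) {r : ℝ} (hr : 1 ≤ r) : r ≤ r ^ rho α := by
  calc r = r ^ (1:ℝ) := (Real.rpow_one r).symm
    _ ≤ r ^ rho α := Real.rpow_le_rpow_of_exponent_le hr (e5_rho_ge hα hα1)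

/-- `c √r ≤ ε r^ρ + c²/(4ε)` -/
lemma e5_sqrt_le (hα : 0 < α) (hα1 : α ≤ 1) {r c ε : ℝ} (hr : 1 ≤ r) (hε : 0 < ε) :
    c * Real.sqrt r ≤ ε * r ^ rho α + c ^ 2 / (4 * ε) := by
  have h1 : Real.sqrt r ^ 2 = r := Real.sq_sqrt (by linarith)
  have h2 : ε * r ≤ ε * r ^ rho α := mul_le_mul_of_nonneg_left (e5_le_rpow hα hα1 hr) hε.le
  have h3 : c * Real.sqrt r ≤ ε * r + c ^ 2 / (4 * ε) := by
    have h4 : ε * r + c ^ 2 / (4 * ε) - c * Real.sqrt r =
        (2 * ε * Real.sqrt r - c) ^ 2 / (4 * ε) := by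
      field_simp
      nlinarith
    have h5 : 0 ≤ (2 * ε * Real.sqrt r - c) ^ 2 / (4 * ε) := by positivity
    linarith
  linarith

/-- polynomial bounds in cones once the growth is of minimal type -/
theorem cone_bound (hα : 0 < α) (hα1 : α ≤ 1) {b : Bool} {f : ℝ → ℂ} {w w' : ℂ → ℝ → ℂ}
    (hF : Fam α b f w w') (hf : Continuous f) {F : ℝ} (hfb : ∀ x, ‖f x‖ ≤ F) (hf2 : SqInt 0 f)
    (hmin : ∀ ε : ℝ, 0 < ε → ∃ C : ℝ, ∀ (l : ℂ) (x : ℝ), 0 ≤ x →
      ‖w l x‖ ≤ C * Real.exp (ε * ‖l‖ ^ rho α))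
    {φ₁ φ₂ : ℝ} (h1 : 0 < φ₁) (h2 : φ₂ < Real.pi / 2) (x : ℝ) (hx : 0 ≤ x) :
    ∃ (C : ℝ) (k : ℕ), ∀ (r φ : ℝ), 1 ≤ r → φ ∈ Icc φ₁ φ₂ →
      ‖w (r * Complex.exp (φ * Complex.I)) x‖ ≤ C * r ^ k := by
  by_cases h12 : φ₁ ≤ φ₂
  swap
  · exact ⟨1, 0, fun r φ _ hφ => absurd (hφ.1.trans hφ.2) h12⟩
  obtain ⟨F', hF'0, hF'b, hF'I⟩ := e5_F hfb
  obtain ⟨T, Λ₀, hT, hΛ₀, hcone⟩ := e5_cone h1 h12 h2
  obtain ⟨C0, k, hC0, hmain⟩ := e5_main hα hα1 T hT F' hF'0
  have hpi := Real.pi_pos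
  have hm0 : (0:ℝ) ∈ Icc 0 (Real.pi / 2) := ⟨le_rfl, by linarith⟩
  have hm1 : φ₁ ∈ Icc 0 (Real.pi / 2) := ⟨h1.le, by linarith⟩
  have he1 : 0 < ef α φ₁ := by
    have := ef_strictMono hα hm0 hm1 h1
    rwa [ef_zero] at this
  set ε : ℝ := ef α φ₁ / 2 with hε
  have hε0 : 0 < ε := by rw [hε]; linarith
  obtain ⟨Cε, hCε⟩ := hmin ε hε0
  have hCε0 : 0 ≤ Cε := by
    have := (norm_nonneg _).trans (hCε 0 0 le_rfl)
    by_contra hcon
    push Not at hcon
    have h3 := mul_neg_of_neg_of_pos hcon (Real.exp_pos (ε * ‖(0:ℂ)‖ ^ rho α))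
    linarith
  have hsin : 0 < Real.sin φ₁ := Real.sin_pos_of_pos_of_lt_pi h1 (by linarith)
  set Λ : ℝ := max Λ₀ (x ^ α / Real.sin φ₁) with hΛ
  set K : ℝ := (1 + Cε) * Real.exp (x ^ 2 / (4 * ε)) with hK
  have hK0 : 0 ≤ K := by positivity
  have hB0 : 0 ≤ Cε * Real.exp (ε * Λ ^ rho α) := by positivity
  have hA0 : 0 ≤ C0 ^ 2 * (1 + K) * 2 ^ (2 * k) := by positivity
  refine ⟨C0 ^ 2 * (1 + K) * 2 ^ (2 * k) + Cε * Real.exp (ε * Λ ^ rho α), 2 * k, ?_⟩
  intro r φ hr1 hφ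
  have hr0 : 0 < r := by linarith
  have hrk : 1 ≤ r ^ (2 * k) := one_le_pow₀ hr1
  have hnorm := e5_norm hr0.le φ
  rcases le_total Λ r with hr | hr
  · obtain ⟨g1, g2, g3⟩ := hcone r φ ((le_max_left _ _).trans hr) hφ
    set l : ℂ := (r : ℂ) * Complex.exp (φ * Complex.I) with hl
    obtain ⟨-, -, -, m4, m5, -⟩ := hmain b l g1 g2 g3 f (w l) (w' l) hf hF'b hf2 hF'I
      (hF.sol _) (hF.fin _) (hF.bc0 _)
    have hxx : x ≤ x0 α l := by
      unfold x0
      rw [hl, e5_im]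
      have h3 : x ^ α / Real.sin φ₁ ≤ r := (le_max_right _ _).trans hr
      rw [div_le_iff₀ hsin] at h3
      have h4 : Real.sin φ₁ ≤ Real.sin φ := by
        apply Real.sin_le_sin_of_le_of_le_pi_div_two (by linarith) (by linarith [hφ.2]) hφ.1
      have h5 : x ^ α ≤ r * Real.sin φ := h3.trans (mul_le_mul_of_nonneg_left h4 hr0.le)
      calc x = (x ^ α) ^ (1 / α) := by
            rw [← Real.rpow_mul hx, mul_one_div_cancel hα.ne', Real.rpow_one]
        _ ≤ _ := Real.rpow_le_rpow (Real.rpow_nonneg hx _) h5 (by positivity)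
    have e4 := m4 x hx hxx
    have e5 := m5 (Cε * Real.exp (ε * r ^ rho α)) (by positivity) (fun y hy => by
      have := hCε l y hy
      rwa [hnorm] at this)
    have hφm : φ ∈ Icc 0 (Real.pi / 2) := ⟨by linarith [hφ.1], by linarith [hφ.2]⟩
    have hR0 : Rf α l (x0 α l) = ef α φ * r ^ rho α :=
      Rf_x0 hα hr0 ⟨by linarith [hφ.1], by linarith [hφ.2]⟩
    have hRx : Rf α l x ≤ x * Real.sqrt r := by
      have := (Rf_diff_le hα (by linarith : 0 < l.re) (by linarith) le_rfl hx hxx).2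
      rw [e5_Rf_zero, sub_zero, sub_zero, hnorm] at this
      exact this
    have heφ : ef α φ₁ ≤ ef α φ := (ef_strictMono hα).monotoneOn hm1 hφm hφ.1
    have hrp : 0 ≤ r ^ rho α := Real.rpow_nonneg hr0.le _
    have hexp : Rf α l x - Rf α l (x0 α l) ≤ x ^ 2 / (4 * ε) - ε * r ^ rho α := by
      rw [hR0]
      have h3 := e5_sqrt_le hα hα1 (c := x) hr1 hε0
      have h4 : 2 * ε * r ^ rho α ≤ ef α φ * r ^ rho α :=
        mul_le_mul_of_nonneg_right (by rw [hε]; linarith) hrp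
      linarith
    set a : ℝ := ‖w' l (x0 α l) - sf α l (x0 α l) * w l (x0 α l)‖ with ha
    rw [hnorm] at e4 e5
    have hQ : 1 ≤ C0 * (1 + r) ^ k := one_le_mul_of_one_le_of_one_le hC0
      (one_le_pow₀ (by linarith))
    set Q : ℝ := C0 * (1 + r) ^ k with hQd
    have hex1 : 1 ≤ Real.exp (ε * r ^ rho α) := Real.one_le_exp (by positivity)
    have hax : a * Real.exp (Rf α l x - Rf α l (x0 α l)) ≤ Q * K := by
      calc a * Real.exp (Rf α l x - Rf α l (x0 α l)) ≤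
          (Q * (1 + Cε * Real.exp (ε * r ^ rho α))) *
            Real.exp (x ^ 2 / (4 * ε) - ε * r ^ rho α) :=
            mul_le_mul e5 (Real.exp_le_exp.mpr hexp) (Real.exp_pos _).le (by positivity)
        _ ≤ (Q * ((1 + Cε) * Real.exp (ε * r ^ rho α))) *
            Real.exp (x ^ 2 / (4 * ε) - ε * r ^ rho α) := by
            apply mul_le_mul_of_nonneg_right _ (Real.exp_pos _).le
            apply mul_le_mul_of_nonneg_left _ (by linarith)
            nlinarith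
        _ = Q * ((1 + Cε) * (Real.exp (ε * r ^ rho α) *
            Real.exp (x ^ 2 / (4 * ε) - ε * r ^ rho α))) := by ring
        _ = Q * K := by
            rw [← Real.exp_add, hK]
            congr 3
            ring_nf
    have hfin : ‖w l x‖ ≤ Q ^ 2 * (1 + K) := by
      refine e4.trans ?_
      have h3 : 1 + a * Real.exp (Rf α l x - Rf α l (x0 α l)) ≤ Q * (1 + K) := by nlinarith
      calc _ ≤ Q * (Q * (1 + K)) := mul_le_mul_of_nonneg_left h3 (by linarith)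
        _ = _ := by ring
    have hQ2 : Q ^ 2 ≤ C0 ^ 2 * 2 ^ (2 * k) * r ^ (2 * k) := by
      have h3 : (1 + r) ^ k ≤ (2 * r) ^ k := pow_le_pow_left₀ (by linarith) (by linarith) k
      have h4 : Q ≤ C0 * (2 * r) ^ k := mul_le_mul_of_nonneg_left h3 (by linarith)
      calc Q ^ 2 ≤ (C0 * (2 * r) ^ k) ^ 2 := pow_le_pow_left₀ (by linarith) h4 2
        _ = _ := by rw [mul_pow, mul_pow, mul_pow, ← pow_mul, ← pow_mul]; ring
    calc ‖w l x‖ ≤ Q ^ 2 * (1 + K) := hfin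
      _ ≤ C0 ^ 2 * 2 ^ (2 * k) * r ^ (2 * k) * (1 + K) :=
          mul_le_mul_of_nonneg_right hQ2 (by linarith)
      _ = C0 ^ 2 * (1 + K) * 2 ^ (2 * k) * r ^ (2 * k) := by ring
      _ ≤ _ := by
          apply mul_le_mul_of_nonneg_right _ (by positivity)
          linarith
  · have h3 := hCε ((r : ℂ) * Complex.exp (φ * Complex.I)) x hx
    rw [hnorm] at h3
    have h4 : Real.exp (ε * r ^ rho α) ≤ Real.exp (ε * Λ ^ rho α) := by
      apply Real.exp_le_exp.mpr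
      apply mul_le_mul_of_nonneg_left _ hε0.le
      apply Real.rpow_le_rpow hr0.le hr
      linarith [e5_rho_ge hα hα1]
    calc _ ≤ Cε * Real.exp (ε * r ^ rho α) := h3
      _ ≤ Cε * Real.exp (ε * Λ ^ rho α) := mul_le_mul_of_nonneg_left h4 hCε0
      _ ≤ Cε * Real.exp (ε * Λ ^ rho α) * r ^ (2 * k) := by nlinarith
      _ ≤ _ := by
          apply mul_le_mul_of_nonneg_right _ (by positivity)
          linarith

/-- homogeneous solutions without boundary condition -/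
lemma e5_hom (hα : 0 < α) (hα1 : α ≤ 1) (T : ℝ) (hT : 0 < T) :
    ∃ C : ℝ, 1 ≤ C ∧ ∀ (l : ℂ), 1 ≤ l.re → 1 ≤ l.im → l.im ≤ T * l.re →
    ∀ v v' : ℝ → ℂ, IsSol (qf α Complex.I l) 0 v v' →
    ∀ y : ℝ, 0 ≤ y → y ≤ x0 α l →
      ‖v y‖ ≤ C * (1 + ‖l‖) * (‖v 0‖ + ‖v' 0‖) * Real.exp (Rf α l y) ∧
      ‖v' y‖ ≤ C * (1 + ‖l‖) * (‖v 0‖ + ‖v' 0‖) * Real.exp (Rf α l y) := by
  obtain ⟨C1, hC1, hH⟩ := homog_bound hα hα1 T hT
  refine ⟨3 * C1 ^ 2, by nlinarith, ?_⟩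
  intro l hre him hlT v v' hv y hy0 hy
  have hre0 : 0 < l.re := by linarith
  have him0 : 0 < l.im := by linarith
  have hq : Continuous (qf α Complex.I l) := continuous_qf hα _ _
  have hf0 : Continuous (0 : ℝ → ℂ) := continuous_const
  set L : ℝ := 1 + ‖l‖ with hL
  have hL1 : 1 ≤ L := by linarith [norm_nonneg l]
  have hs0 : ‖sf α l 0‖ ≤ 2 * L := by
    apply e5_sf_norm hα hα1 hre0 him0 le_rfl
    have : 0 ≤ x0 α l := Real.rpow_nonneg him0.le _
    linarith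
  -- a bound for one BC solution
  have key : ∀ (b : Bool) (u u' : ℝ → ℂ), IsSol (qf α Complex.I l) 0 u u' →
      bc b (u 0) (u' 0) = 0 → ‖u 0‖ ≤ 1 → ‖u' 0‖ ≤ 1 →
      ‖u y‖ ≤ C1 ^ 2 * (3 * L) * Real.exp (Rf α l y) ∧
      ‖u' y‖ ≤ C1 ^ 2 * (3 * L) * Real.exp (Rf α l y) := by
    intro b u u' hu hbc h0 h0'
    obtain ⟨-, h2, -, -⟩ := hH b l hre him0 hlT u u' hu hbc 0 y le_rfl hy0 hy
    obtain ⟨-, -, h3, h4⟩ := hH b l hre him0 hlT u u' hu hbc y y hy0 le_rfl hy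
    rw [e5_Rf_zero, sub_zero] at h2
    have h5 : ‖u' 0 - sf α l 0 * u 0‖ ≤ 3 * L := by
      calc _ ≤ ‖u' 0‖ + ‖sf α l 0 * u 0‖ := norm_sub_le _ _
        _ = ‖u' 0‖ + ‖sf α l 0‖ * ‖u 0‖ := by rw [norm_mul]
        _ ≤ 1 + 2 * L * 1 := by
            have := mul_le_mul hs0 h0 (norm_nonneg _) (by positivity)
            linarith
        _ ≤ 3 * L := by linarith
    have h6 : C1 * ‖u' y - sf α l y * u y‖ ≤ C1 ^ 2 * (3 * L) * Real.exp (Rf α l y) := by
      calc _ ≤ C1 * (C1 * ‖u' 0 - sf α l 0 * u 0‖ * Real.exp (Rf α l y)) :=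
            mul_le_mul_of_nonneg_left h2 (by linarith)
        _ ≤ C1 * (C1 * (3 * L) * Real.exp (Rf α l y)) := by
            apply mul_le_mul_of_nonneg_left _ (by linarith)
            apply mul_le_mul_of_nonneg_right _ (Real.exp_pos _).le
            apply mul_le_mul_of_nonneg_left h5 (by linarith)
        _ = _ := by ring
    exact ⟨h3.trans h6, h4.trans h6⟩
  -- the two basic solutions
  have hN := isSol_sol hq hf0 0 1 0
  have hN0 := solU_at hq hf0 0 1 0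
  have hN0' := solV_at hq hf0 0 1 0
  have hDd := isSol_sol hq hf0 0 0 1
  have hD0 := solU_at hq hf0 0 0 1
  have hD0' := solV_at hq hf0 0 0 1
  set uN := solU (qf α Complex.I l) 0 0 1 0
  set vN := solV (qf α Complex.I l) 0 0 1 0
  set uD := solU (qf α Complex.I l) 0 0 0 1
  set vD := solV (qf α Complex.I l) 0 0 0 1
  have kN := key false uN vN hN (by simp [bc, hN0']) (by simp [hN0]) (by simp [hN0'])
  have kD := key true uD vD hDd (by simp [bc, hD0]) (by simp [hD0]) (by simp [hD0'])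
  have hsum : IsSol (qf α Complex.I l) 0 (fun x => v 0 * uN x + v' 0 * uD x)
      (fun x => v 0 * vN x + v' 0 * vD x) := by
    have h := (hN.smul (v 0)).add (hDd.smul (v' 0))
    have h0 : (fun x => v 0 * (0 : ℝ → ℂ) x + v' 0 * (0 : ℝ → ℂ) x) = 0 := by
      funext x; simp
    rwa [h0] at h
  have huniq := hv.unique hq hsum (X := 0) (by simp [hN0, hD0]) (by simp [hN0', hD0'])
  have hE : 0 ≤ C1 ^ 2 * (3 * L) * Real.exp (Rf α l y) := by positivity
  constructor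
  · rw [huniq.1 y]
    calc ‖v 0 * uN y + v' 0 * uD y‖ ≤ ‖v 0‖ * ‖uN y‖ + ‖v' 0‖ * ‖uD y‖ := by
          refine (norm_add_le _ _).trans ?_
          rw [norm_mul, norm_mul]
      _ ≤ ‖v 0‖ * (C1 ^ 2 * (3 * L) * Real.exp (Rf α l y)) +
          ‖v' 0‖ * (C1 ^ 2 * (3 * L) * Real.exp (Rf α l y)) :=
          add_le_add (mul_le_mul_of_nonneg_left kN.1 (norm_nonneg _))
            (mul_le_mul_of_nonneg_left kD.1 (norm_nonneg _))
      _ = _ := by ring
  · rw [huniq.2 y]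
    calc ‖v 0 * vN y + v' 0 * vD y‖ ≤ ‖v 0‖ * ‖vN y‖ + ‖v' 0‖ * ‖vD y‖ := by
          refine (norm_add_le _ _).trans ?_
          rw [norm_mul, norm_mul]
      _ ≤ ‖v 0‖ * (C1 ^ 2 * (3 * L) * Real.exp (Rf α l y)) +
          ‖v' 0‖ * (C1 ^ 2 * (3 * L) * Real.exp (Rf α l y)) :=
          add_le_add (mul_le_mul_of_nonneg_left kN.2 (norm_nonneg _))
            (mul_le_mul_of_nonneg_left kD.2 (norm_nonneg _))
      _ = _ := by ring

lemma e5_x0_le (hα : 0 < α) {l : ℂ} (him : 1 ≤ l.im) :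
    x0 α l ≤ (1 + ‖l‖) ^ (⌈1 / α⌉₊) := by
  unfold x0
  have h1 : l.im ≤ 1 + ‖l‖ := by
    have := (le_abs_self _).trans (Complex.abs_im_le_norm l); linarith
  calc l.im ^ (1 / α) ≤ (1 + ‖l‖) ^ (1 / α) := Real.rpow_le_rpow (by linarith) h1 (by positivity)
    _ ≤ (1 + ‖l‖) ^ ((⌈1 / α⌉₊ : ℕ) : ℝ) :=
        Real.rpow_le_rpow_of_exponent_le (by linarith [norm_nonneg l]) (Nat.le_ceil _)
    _ = _ := Real.rpow_natCast _ _

lemma e5_En_split {u v : ℝ → ℂ} (hu : Continuous u) (hv : Continuous v) {Y B : ℝ} (hY : 0 ≤ Y)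
    (hE : FinEn 0 u v) (hB : ∀ y, 0 ≤ y → y ≤ Y → ‖u y‖ ^ 2 + ‖v y‖ ^ 2 ≤ B) :
    En 0 u v ≤ Y * B + En Y u v := by
  unfold En
  have hcont : Continuous (fun x => ‖u x‖ ^ 2 + ‖v x‖ ^ 2) := by fun_prop
  have h1 : ∫ x in Ioi (0:ℝ), (‖u x‖ ^ 2 + ‖v x‖ ^ 2) =
      (∫ x in Ioc 0 Y, (‖u x‖ ^ 2 + ‖v x‖ ^ 2)) + ∫ x in Ioi Y, (‖u x‖ ^ 2 + ‖v x‖ ^ 2) := by
    rw [← Ioc_union_Ioi_eq_Ioi hY]
    apply setIntegral_union
    · exact Set.disjoint_left.mpr fun x hx hx' => absurd hx.2 (not_le.mpr hx')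
    · exact measurableSet_Ioi
    · exact hE.mono_set Ioc_subset_Ioi_self
    · exact hE.mono_set (Ioi_subset_Ioi hY)
  rw [h1]
  have h2 : ∫ x in Ioc 0 Y, (‖u x‖ ^ 2 + ‖v x‖ ^ 2) ≤ Y * B := by
    have h3 : ∫ x in Ioc 0 Y, (‖u x‖ ^ 2 + ‖v x‖ ^ 2) ≤ ∫ _x in Ioc 0 Y, B := by
      apply setIntegral_mono_on (hE.mono_set Ioc_subset_Ioi_self)
      · exact integrableOn_const (by simp)
      · exact measurableSet_Ioc
      · intro x hx; exact hB x hx.1.le hx.2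
    refine h3.trans ?_
    rw [setIntegral_const]
    simp [Measure.real, hY]
  linarith

/-- bound of the boundary datum away from the ray -/
theorem e5_G (hα : 0 < α) (hα1 : α ≤ 1) (T : ℝ) (hT : 0 < T) (c : ℝ) (hc : 0 < c) (F : ℝ)
    (hF : 0 ≤ F) :
    ∃ C : ℝ, 0 ≤ C ∧ ∀ (b : Bool) (l : ℂ), 1 ≤ l.re → 1 ≤ l.im → l.im ≤ T * l.re →
    c ≤ |(l * (om α ^ 2)⁻¹).im| →
    ∀ f w w' : ℝ → ℂ, Continuous f → SqInt 0 f →
    ∫ x in Ioi (0:ℝ), ‖f x‖ ^ 2 ≤ F ^ 2 →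
    IsSol (qf α Complex.I l) f w w' → FinEn 0 w w' → bc b (w 0) (w' 0) = 0 →
    ‖bc (!b) (w 0) (w' 0)‖ ≤ Real.exp (C * Real.sqrt ‖l‖) * Real.exp (Rf α l (x0 α l)) := by
  obtain ⟨C1, hC1, hH⟩ := e5_hom hα hα1 T hT
  obtain ⟨C3, hC3, hTl⟩ := tail_bound hα hα1
  set n : ℕ := ⌈1 / α⌉₊ with hn
  refine ⟨(1 + 8 / c + 4) + (F ^ 2 + (2 * C1 ^ 2 + 4 + (2 * n + C3 + 2)) + 2), by positivity, ?_⟩
  intro b l hre him hlT hcl f w w' hf hf2 hfI hsol hfin hbc
  have hre0 : 0 < l.re := by linarith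
  have him0 : 0 < l.im := by linarith
  have hl1 : 1 ≤ ‖l‖ := him.trans ((le_abs_self _).trans (Complex.abs_im_le_norm l))
  have hq : Continuous (qf α Complex.I l) := continuous_qf hα _ _
  have hf0 : Continuous (0 : ℝ → ℂ) := continuous_const
  set L : ℝ := 1 + ‖l‖ with hL
  have hL1 : 1 ≤ L := by linarith
  set X0 := x0 α l with hX0
  have hX01 : 1 ≤ X0 := e5_one_le_x0 hα him
  -- the finite energy homogeneous solution
  obtain ⟨X, hX, -, m, -, hm, -⟩ := weyl_ball hα hα1 (‖l‖ + 1) (by positivity)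
  have hlb : l ∈ Metric.ball (0:ℂ) (‖l‖ + 1) := by
    rw [Metric.mem_ball, dist_zero_right]; linarith
  have hfinX := hm l hlb
  have hD := isSol_sol hq hf0 X 1 (m l)
  have hDX := solU_at hq hf0 X 1 (m l)
  set u := solU (qf α Complex.I l) 0 X 1 (m l) with hu
  set v := solV (qf α Complex.I l) 0 X 1 (m l) with hv
  have huc : Continuous u := continuous_iff_continuousAt.mpr fun x => (hD.du x).continuousAt
  have hvc : Continuous v := continuous_iff_continuousAt.mpr fun x => (hD.dv x).continuousAt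
  have hfin0 : FinEn 0 u v := hfinX.extend huc hvc
  obtain ⟨mb1, mb2⟩ := m_bound hα hα1 hD hfin0
  set S : ℝ := ‖u 0‖ + ‖v 0‖ with hS
  have hS0 : 0 < S := by
    by_contra hcon
    push Not at hcon
    have h1 : ‖u 0‖ = 0 := by linarith [norm_nonneg (u 0), norm_nonneg (v 0)]
    have h2 : ‖v 0‖ = 0 := by linarith [norm_nonneg (u 0), norm_nonneg (v 0)]
    rw [norm_eq_zero] at h1 h2
    have hz : IsSol (qf α Complex.I l) 0 (fun _ => 0) (fun _ => 0) := by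
      refine ⟨fun x => hasDerivAt_const _ _, fun x => ?_⟩
      simpa using hasDerivAt_const x (0:ℂ)
    have h3 := (hD.unique hq hz (X := 0) h1 h2).1 X
    rw [hDX] at h3
    exact one_ne_zero h3
  set d : ℂ := bc b (u 0) (v 0) with hd
  have hSd : S ≤ (1 + 8 / c) * L ^ 2 * ‖d‖ := by
    have hL2 : 1 ≤ L ^ 2 := one_le_pow₀ hL1
    have h8 : 8 / c * L ^ 2 * c = 8 * L ^ 2 := by field_simp
    have hdn : ‖d‖ ≤ L ^ 2 * ‖d‖ := by nlinarith [norm_nonneg d]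
    cases b with
    | true =>
      simp only [bc, if_true] at hd
      have h1 : c * ‖v 0‖ ≤ 8 * L ^ 2 * ‖d‖ := by
        rw [hd]
        exact (mul_le_mul_of_nonneg_right hcl (norm_nonneg _)).trans mb1
      have h2 : ‖v 0‖ ≤ 8 / c * L ^ 2 * ‖d‖ := by
        rw [show 8 / c * L ^ 2 * ‖d‖ = (8 * L ^ 2 * ‖d‖) / c by field_simp, le_div_iff₀ hc]
        linarith
      have h3 : ‖u 0‖ = ‖d‖ := by rw [hd]
      rw [hS, h3]
      calc ‖d‖ + ‖v 0‖ ≤ L ^ 2 * ‖d‖ + 8 / c * L ^ 2 * ‖d‖ := add_le_add hdn h2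
        _ = _ := by ring
    | false =>
      simp only [bc, Bool.false_eq_true, if_false] at hd
      have h1 : c * ‖u 0‖ ≤ 8 * L ^ 2 * ‖d‖ := by
        rw [hd]
        refine ((mul_le_mul_of_nonneg_right hcl (norm_nonneg _)).trans mb2).trans ?_
        apply mul_le_mul_of_nonneg_right _ (norm_nonneg _)
        nlinarith
      have h2 : ‖u 0‖ ≤ 8 / c * L ^ 2 * ‖d‖ := by
        rw [show 8 / c * L ^ 2 * ‖d‖ = (8 * L ^ 2 * ‖d‖) / c by field_simp, le_div_iff₀ hc]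
        linarith
      have h3 : ‖v 0‖ = ‖d‖ := by rw [hd]
      rw [hS, h3]
      calc ‖u 0‖ + ‖d‖ ≤ 8 / c * L ^ 2 * ‖d‖ + L ^ 2 * ‖d‖ := add_le_add h2 hdn
        _ = _ := by ring
  have hd0 : 0 < ‖d‖ := by
    by_contra hcon
    have h1 : ‖d‖ = 0 := le_antisymm (not_lt.mp hcon) (norm_nonneg _)
    rw [h1, mul_zero] at hSd
    linarith
  -- bound on [0, X0]
  have hRle : ∀ x, 0 ≤ x → x ≤ X0 → Rf α l x ≤ Rf α l X0 := by
    intro x h0 h1
    have := (Rf_diff_le hα hre0 him0 h0 h1 le_rfl).1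
    linarith
  set E : ℝ := Real.exp (Rf α l X0) with hE
  have hE0 : 0 < E := Real.exp_pos _
  have hbd : ∀ y, 0 ≤ y → y ≤ X0 → ‖u y‖ ^ 2 + ‖v y‖ ^ 2 ≤ 2 * (C1 * L * S * E) ^ 2 := by
    intro y h0 h1
    obtain ⟨h2, h3⟩ := hH l hre him hlT u v hD y h0 h1
    have h4 : C1 * (1 + ‖l‖) * (‖u 0‖ + ‖v 0‖) * Real.exp (Rf α l y) ≤ C1 * L * S * E := by
      apply mul_le_mul_of_nonneg_left _ (by positivity)
      exact Real.exp_le_exp.mpr (hRle y h0 h1)
    have h5 := pow_le_pow_left₀ (norm_nonneg _) (h2.trans h4) 2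
    have h6 := pow_le_pow_left₀ (norm_nonneg _) (h3.trans h4) 2
    linarith
  have hSq0 : SqInt 0 (0 : ℝ → ℂ) := by
    unfold SqInt
    simp
  have hEtail : En X0 u v ≤ Real.exp (C3 * Real.sqrt ‖l‖) * (2 * (C1 * L * S * E) ^ 2) := by
    have h1 := hTl l hre him 0 u v 0 hf0 le_rfl (fun x => by simp) hSq0 (by simp) hD hfin0
    rw [← hX0] at h1
    refine h1.trans ?_
    apply mul_le_mul_of_nonneg_left _ (Real.exp_pos _).le
    have := hbd X0 (by linarith) le_rfl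
    linarith
  have hEn0 := e5_En_split huc hvc (by linarith : 0 ≤ X0) hfin0 hbd
  set W : ℝ := 2 * (C1 * L) ^ 2 * (X0 + Real.exp (C3 * Real.sqrt ‖l‖)) with hW
  have hEnW : En 0 u v ≤ (S * E) ^ 2 * W := by
    refine hEn0.trans ?_
    calc _ ≤ X0 * (2 * (C1 * L * S * E) ^ 2) +
          Real.exp (C3 * Real.sqrt ‖l‖) * (2 * (C1 * L * S * E) ^ 2) := by linarith
      _ = _ := by rw [hW]; ring
  -- Green's identity
  obtain ⟨hint, hgr⟩ := green hf hsol hD hfin hfin0 hf2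
  have hGd : ‖∫ x in Ioi (0:ℝ), f x * u x‖ = ‖bc (!b) (w 0) (w' 0)‖ * ‖d‖ := by
    rw [hgr]
    cases b with
    | true =>
      simp only [bc, if_true] at hbc hd
      simp only [bc, Bool.not_true, Bool.false_eq_true, if_false, hbc, zero_mul, sub_zero,
        norm_mul, hd]
    | false =>
      simp only [bc, Bool.false_eq_true, if_false] at hbc hd
      simp only [bc, Bool.not_false, if_true, hbc, zero_mul, zero_sub, norm_neg, norm_mul, hd]
  have hμ : 0 < S * E := by positivity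
  have hup : ‖∫ x in Ioi (0:ℝ), f x * u x‖ ≤ S * E * (F ^ 2 + W) := by
    have h1 : ‖∫ x in Ioi (0:ℝ), f x * u x‖ ≤
        ∫ x in Ioi (0:ℝ), ((S * E) * ‖f x‖ ^ 2 + (S * E)⁻¹ * (‖u x‖ ^ 2 + ‖v x‖ ^ 2)) := by
      refine (norm_integral_le_integral_norm _).trans ?_
      apply integral_mono hint.norm
      · exact (hf2.const_mul _).add (hfin0.const_mul _)
      · intro x
        simp only [norm_mul]
        have h2 : 0 ≤ (S * E)⁻¹ := by positivity
        have h3 : (S * E) * (S * E)⁻¹ = 1 := mul_inv_cancel₀ hμ.ne'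
        have h4 : 0 ≤ ((S * E) * ‖f x‖ - ‖u x‖) ^ 2 * (S * E)⁻¹ := by positivity
        have h5 : ((S * E) * ‖f x‖ - ‖u x‖) ^ 2 * (S * E)⁻¹ =
            (S * E) * ‖f x‖ ^ 2 * ((S * E) * (S * E)⁻¹) -
              2 * (‖f x‖ * ‖u x‖) * ((S * E) * (S * E)⁻¹) + (S * E)⁻¹ * ‖u x‖ ^ 2 := by ring
        rw [h5, h3, mul_one, mul_one] at h4
        have h6 : 0 ≤ (S * E)⁻¹ * ‖v x‖ ^ 2 := by positivity
        have h7 : 0 ≤ ‖f x‖ * ‖u x‖ := by positivity
        rw [mul_add (S * E)⁻¹]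
        linarith
    refine h1.trans ?_
    rw [integral_add (hf2.const_mul _) (hfin0.const_mul _), integral_const_mul,
      integral_const_mul]
    have h2 : (S * E)⁻¹ * En 0 u v ≤ (S * E) * W := by
      rw [inv_mul_le_iff₀ hμ]
      calc En 0 u v ≤ (S * E) ^ 2 * W := hEnW
        _ = _ := by ring
    have h3 : (S * E) * ∫ x in Ioi (0:ℝ), ‖f x‖ ^ 2 ≤ (S * E) * F ^ 2 :=
      mul_le_mul_of_nonneg_left hfI hμ.le
    have h4 : ∫ x in Ioi (0:ℝ), (‖u x‖ ^ 2 + ‖v x‖ ^ 2) = En 0 u v := rfl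
    rw [h4]
    linarith
  have hW0 : 0 ≤ W := by positivity
  -- conclusion
  have hG1 : ‖bc (!b) (w 0) (w' 0)‖ ≤ ((1 + 8 / c) * L ^ 2) * (F ^ 2 + W) * E := by
    rw [hGd] at hup
    have h1 : S * E * (F ^ 2 + W) ≤ ((1 + 8 / c) * L ^ 2 * ‖d‖) * E * (F ^ 2 + W) := by
      apply mul_le_mul_of_nonneg_right _ (by positivity)
      exact mul_le_mul_of_nonneg_right hSd hE0.le
    have h2 : ‖bc (!b) (w 0) (w' 0)‖ * ‖d‖ ≤ (((1 + 8 / c) * L ^ 2) * (F ^ 2 + W) * E) * ‖d‖ := by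
      calc _ ≤ _ := hup.trans h1
        _ = _ := by ring
    exact le_of_mul_le_mul_right h2 hd0
  refine hG1.trans ?_
  apply mul_le_mul_of_nonneg_right _ hE0.le
  -- exponential bounds
  set s : ℝ := Real.sqrt ‖l‖ with hs
  have hs1 : 1 ≤ s := by rw [hs, Real.one_le_sqrt]; exact hl1
  have hLexp : ∀ j : ℕ, L ^ j ≤ Real.exp (2 * j * s) := fun j => e5_pow_le_exp (norm_nonneg l) j
  have hcexp : ∀ a : ℝ, 0 ≤ a → a ≤ Real.exp (a * s) := fun a ha => e5_const_le_exp ha hl1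
  have a1 : (1 + 8 / c) * L ^ 2 ≤ Real.exp ((1 + 8 / c + 4) * s) := by
    rw [add_mul (1 + 8 / c) 4 s, Real.exp_add]
    apply mul_le_mul (hcexp _ (by positivity)) _ (by positivity) (Real.exp_pos _).le
    have := hLexp 2
    norm_num at this
    exact this
  have a2 : W ≤ Real.exp ((2 * C1 ^ 2 + 4 + (2 * n + C3 + 2)) * s) := by
    have h1 : 2 * (C1 * L) ^ 2 ≤ Real.exp ((2 * C1 ^ 2 + 4) * s) := by
      rw [mul_pow, ← mul_assoc, add_mul, Real.exp_add]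
      apply mul_le_mul (hcexp _ (by positivity)) _ (by positivity) (Real.exp_pos _).le
      have := hLexp 2
      norm_num at this
      exact this
    have h2 : X0 + Real.exp (C3 * s) ≤ Real.exp ((2 * n + C3 + 2) * s) := by
      have h3 : X0 ≤ Real.exp (2 * n * s) := (e5_x0_le hα him).trans (hLexp n)
      have h4 : 2 ≤ Real.exp (2 * s) := hcexp 2 (by norm_num)
      have h5 : Real.exp (2 * n * s) ≤ Real.exp ((2 * n + C3) * s) := by
        apply Real.exp_le_exp.mpr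
        nlinarith
      have h6 : Real.exp (C3 * s) ≤ Real.exp ((2 * n + C3) * s) := by
        apply Real.exp_le_exp.mpr
        have : (0:ℝ) ≤ n := Nat.cast_nonneg n
        nlinarith
      calc X0 + Real.exp (C3 * s) ≤ 2 * Real.exp ((2 * n + C3) * s) := by linarith
        _ ≤ Real.exp (2 * s) * Real.exp ((2 * n + C3) * s) :=
            mul_le_mul_of_nonneg_right h4 (Real.exp_pos _).le
        _ = _ := by rw [← Real.exp_add]; ring_nf
    rw [hW, add_mul, Real.exp_add]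
    exact mul_le_mul h1 h2 (by positivity) (Real.exp_pos _).le
  have a3 : F ^ 2 + W ≤ Real.exp ((F ^ 2 + (2 * C1 ^ 2 + 4 + (2 * n + C3 + 2)) + 2) * s) := by
    set κ : ℝ := 2 * C1 ^ 2 + 4 + (2 * n + C3 + 2) with hκ
    have hκ0 : 0 ≤ κ := by positivity
    have h1 : F ^ 2 ≤ Real.exp ((F ^ 2 + κ) * s) := by
      refine (hcexp _ (by positivity)).trans (Real.exp_le_exp.mpr ?_)
      nlinarith
    have h2 : W ≤ Real.exp ((F ^ 2 + κ) * s) := by
      refine a2.trans (Real.exp_le_exp.mpr ?_)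
      have : 0 ≤ F ^ 2 := by positivity
      nlinarith
    have h4 : 2 ≤ Real.exp (2 * s) := hcexp 2 (by norm_num)
    calc F ^ 2 + W ≤ 2 * Real.exp ((F ^ 2 + κ) * s) := by linarith
      _ ≤ Real.exp (2 * s) * Real.exp ((F ^ 2 + κ) * s) :=
          mul_le_mul_of_nonneg_right h4 (Real.exp_pos _).le
      _ = _ := by rw [← Real.exp_add]; ring_nf
  rw [add_mul (1 + 8 / c + 4), Real.exp_add]
  exact mul_le_mul a1 a3 (by positivity) (Real.exp_pos _).le

/-- upper bound `2e` inside the quadrant, off the ray `φ = π/(α+2)` -/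
theorem upper_two (hα : 0 < α) (hα1 : α ≤ 1) {b : Bool} {f : ℝ → ℂ} {w w' : ℂ → ℝ → ℂ}
    (hF : Fam α b f w w') (hf : Continuous f) {F : ℝ} (hfb : ∀ x, ‖f x‖ ≤ F) (hf2 : SqInt 0 f)
    {φ₀ : ℝ} (h0 : φ₀ ∈ Ioo 0 (Real.pi / 2)) (h1 : φ₀ ≠ Real.pi / (α + 2)) {η : ℝ}
    (hη : 2 * ef α φ₀ < η) :
    ∃ δ C : ℝ, 0 < δ ∧ ∀ x : ℝ, 0 ≤ x → ∀ r φ : ℝ, 1 ≤ r → |φ - φ₀| < δ →
      ‖w (r * Complex.exp (φ * Complex.I)) x‖ ≤ C * Real.exp (η * r ^ rho α) := by
  obtain ⟨F', hF'0, hF'b, hF'I⟩ := e5_F hfb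
  have hpi := Real.pi_pos
  obtain ⟨T, Λ₀, hT, hΛ₀, hcone⟩ := e5_cone (ψ₁ := φ₀ / 2) (ψ₂ := (φ₀ + Real.pi / 2) / 2)
    (by linarith [h0.1]) (by linarith [h0.1, h0.2]) (by linarith [h0.2])
  obtain ⟨C0, k, hC0, hmain⟩ := e5_main hα hα1 T hT F' hF'0
  obtain ⟨Cf, hCf⟩ := finite_type hα hα1 hF hf hfb hf2
  -- the angle
  set a : ℝ := Real.pi / (α + 2) with ha
  have ha0 : 0 < a := by positivity
  have hapi : a < Real.pi := by
    rw [ha, div_lt_iff₀ (by linarith)]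
    nlinarith
  have hsin : Real.sin (φ₀ - a) ≠ 0 := by
    rw [Ne, Real.sin_eq_zero_iff_of_lt_of_lt (by linarith [h0.1]) (by linarith [h0.2])]
    intro h; exact h1 (by linarith)
  set c : ℝ := |Real.sin (φ₀ - a)| / 2 with hc
  have hc0 : 0 < c := by have := abs_pos.mpr hsin; positivity
  obtain ⟨CG, hCG0, hG⟩ := e5_G hα hα1 T hT c hc0 F' hF'0
  have hρ0 : 0 ≤ rho α := by linarith [e5_rho_ge hα hα1]
  -- continuity choices
  set η' : ℝ := (η + 2 * ef α φ₀) / 2 with hη'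
  have hη1 : 2 * ef α φ₀ < η' := by rw [hη']; linarith
  have hη2 : η' < η := by rw [hη']; linarith
  have hefc : ContinuousAt (ef α) φ₀ :=
    (ef_continuousOn hα).continuousAt (Icc_mem_nhds h0.1 h0.2)
  have hev1 : ∀ᶠ φ in 𝓝 φ₀, 2 * ef α φ < η' :=
    (continuousAt_const.mul hefc).eventually (gt_mem_nhds hη1)
  have hsc : Continuous fun φ : ℝ => |Real.sin (φ - a)| := by fun_prop
  have hev2 : ∀ᶠ φ in 𝓝 φ₀, c < |Real.sin (φ - a)| := by
    apply hsc.continuousAt.eventually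
    apply lt_mem_nhds
    have := abs_pos.mpr hsin
    rw [hc]; linarith
  have hev3 : ∀ᶠ φ in 𝓝 φ₀, φ ∈ Ioo (φ₀ / 2) ((φ₀ + Real.pi / 2) / 2) :=
    Ioo_mem_nhds (by linarith [h0.1]) (by linarith [h0.2])
  obtain ⟨δ, hδ, hδb⟩ := Metric.eventually_nhds_iff.mp (hev1.and (hev2.and hev3))
  set Λ : ℝ := Λ₀ with hΛ
  set C4 : ℝ := 2 * C0 + 2 * k + CG + 4 with hC4
  have hk0 : (0:ℝ) ≤ k := Nat.cast_nonneg k
  refine ⟨δ, Real.exp (C4 ^ 2 / (4 * (η - η'))) +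
    Real.exp (|Cf| * (1 + Λ) ^ rho α) * Real.exp (|η| * Λ ^ rho α), hδ, ?_⟩
  intro x hx r φ hr1 hφδ
  obtain ⟨hp1, hp2, hp3⟩ := hδb (y := φ) (by rw [Real.dist_eq]; exact hφδ)
  have hr0 : 0 < r := by linarith
  have hnorm := e5_norm hr0.le φ
  have hrp : 0 ≤ r ^ rho α := Real.rpow_nonneg hr0.le _
  have hηexp : 0 < Real.exp (η * r ^ rho α) := Real.exp_pos _
  rcases le_total Λ r with hr | hr
  · obtain ⟨g1, g2, g3⟩ := hcone r φ hr ⟨hp3.1.le, hp3.2.le⟩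
    have hφ0 : 0 < φ := by linarith [hp3.1, h0.1]
    have hφ2 : φ < Real.pi / 2 := by linarith [hp3.2, h0.2]
    have hR0 := Rf_x0 (α := α) hα hr0 (φ := φ) ⟨hφ0, hφ2⟩
    have him : c ≤ |((r : ℂ) * Complex.exp (φ * Complex.I) * (om α ^ 2)⁻¹).im| := by
      have h3 : (r : ℂ) * Complex.exp (φ * Complex.I) * (om α ^ 2)⁻¹ =
          (r : ℂ) * Complex.exp (((φ - a : ℝ) : ℂ) * Complex.I) := by
        rw [om, ← Complex.exp_nat_mul, ← Complex.exp_neg, mul_assoc, ← Complex.exp_add, ha]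
        congr 2
        push_cast
        field_simp
        ring
      rw [h3, e5_im, abs_mul, abs_of_pos hr0]
      nlinarith [abs_nonneg (Real.sin (φ - a))]
    set l : ℂ := (r : ℂ) * Complex.exp (φ * Complex.I) with hl
    obtain ⟨m1, -, -, -, -, m6⟩ := hmain b l g1 g2 g3 f (w l) (w' l) hf hF'b hf2 hF'I
      (hF.sol _) (hF.fin _) (hF.bc0 _)
    have e1 := m1 x hx
    have eG := hG b l g1 g2 g3 him f (w l) (w' l) hf hf2 hF'I (hF.sol _) (hF.fin _) (hF.bc0 _)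
    rw [hnorm] at e1 m6 eG
    set s : ℝ := Real.sqrt r with hs
    have hs1 : 1 ≤ s := by rw [hs, Real.one_le_sqrt]; exact hr1
    set R0 : ℝ := Rf α l (x0 α l) with hR0d
    have hR0n : 0 ≤ R0 := by
      have hx00 : 0 ≤ x0 α l := Real.rpow_nonneg (by linarith) _
      have := (Rf_diff_le hα (by linarith : 0 < l.re) (by linarith) le_rfl hx00 le_rfl).1
      rw [e5_Rf_zero, sub_zero] at this
      exact this
    set A : ℝ := ‖w' l (x0 α l) - sf α l (x0 α l) * w l (x0 α l)‖ with hA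
    have hE1 : 1 ≤ Real.exp R0 := Real.one_le_exp hR0n
    have hGe : 1 ≤ Real.exp (CG * s) := Real.one_le_exp (by positivity)
    have hQ : C0 * (1 + r) ^ k ≤ Real.exp ((C0 + 2 * k) * s) := by
      rw [add_mul, Real.exp_add]
      exact mul_le_mul (e5_const_le_exp (by linarith) hr1) (e5_pow_le_exp (by linarith) k)
        (by positivity) (Real.exp_pos _).le
    have hQe : 1 ≤ Real.exp ((C0 + 2 * k) * s) := Real.one_le_exp (by positivity)
    have hA1 : A ≤ Real.exp ((C0 + 2 * k) * s) * (2 * (Real.exp (CG * s) * Real.exp R0)) *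
        Real.exp R0 := by
      refine m6.trans ?_
      apply mul_le_mul_of_nonneg_right _ (Real.exp_pos _).le
      apply mul_le_mul hQ _ (by positivity) (Real.exp_pos _).le
      have : 1 ≤ Real.exp (CG * s) * Real.exp R0 := one_le_mul_of_one_le_of_one_le hGe hE1
      linarith
    have h4e : (4:ℝ) ≤ Real.exp (4 * s) := e5_const_le_exp (by norm_num) hr1
    have hA2 : 1 + A ≤ Real.exp (4 * s) * (Real.exp ((C0 + 2 * k) * s) *
        (Real.exp (CG * s) * Real.exp R0) * Real.exp R0) := by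
      have h3 : 1 ≤ Real.exp ((C0 + 2 * k) * s) * (Real.exp (CG * s) * Real.exp R0) *
          Real.exp R0 :=
        one_le_mul_of_one_le_of_one_le (one_le_mul_of_one_le_of_one_le hQe
          (one_le_mul_of_one_le_of_one_le hGe hE1)) hE1
      have h4 : Real.exp ((C0 + 2 * k) * s) * (2 * (Real.exp (CG * s) * Real.exp R0)) *
        Real.exp R0 = 2 * (Real.exp ((C0 + 2 * k) * s) * (Real.exp (CG * s) * Real.exp R0) *
          Real.exp R0) := by ring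
      nlinarith
    have hfinal : ‖w l x‖ ≤ Real.exp (C4 * s + 2 * R0) := by
      refine e1.trans ?_
      calc Real.exp (C0 * s) * (1 + A) ≤ Real.exp (C0 * s) * (Real.exp (4 * s) *
          (Real.exp ((C0 + 2 * k) * s) * (Real.exp (CG * s) * Real.exp R0) * Real.exp R0)) :=
            mul_le_mul_of_nonneg_left hA2 (Real.exp_pos _).le
        _ = Real.exp (C4 * s + 2 * R0) := by
            simp only [← Real.exp_add]
            congr 1
            rw [hC4]; ring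
    have h5 : C4 * s + 2 * R0 ≤ η * r ^ rho α + C4 ^ 2 / (4 * (η - η')) := by
      have h6 := e5_sqrt_le hα hα1 (c := C4) hr1 (show 0 < η - η' by linarith)
      have h7 : 2 * R0 ≤ η' * r ^ rho α := by
        rw [hR0, ← mul_assoc]
        exact mul_le_mul_of_nonneg_right hp1.le hrp
      linarith
    calc ‖w l x‖ ≤ Real.exp (η * r ^ rho α + C4 ^ 2 / (4 * (η - η'))) :=
          hfinal.trans (Real.exp_le_exp.mpr h5)
      _ = Real.exp (C4 ^ 2 / (4 * (η - η'))) * Real.exp (η * r ^ rho α) := by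
          rw [Real.exp_add]; ring
      _ ≤ _ := by
          apply mul_le_mul_of_nonneg_right _ hηexp.le
          have : 0 < Real.exp (|Cf| * (1 + Λ) ^ rho α) * Real.exp (|η| * Λ ^ rho α) := by
            positivity
          linarith
  · have h3 := hCf ((r : ℂ) * Complex.exp (φ * Complex.I)) x hx
    rw [hnorm] at h3
    have h4 : Real.exp (Cf * (1 + r) ^ rho α) ≤ Real.exp (|Cf| * (1 + Λ) ^ rho α) := by
      apply Real.exp_le_exp.mpr
      apply mul_le_mul (le_abs_self _) _ (Real.rpow_nonneg (by linarith) _) (abs_nonneg _)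
      exact Real.rpow_le_rpow (by linarith) (by linarith) hρ0
    have h5 : 1 ≤ Real.exp (|η| * Λ ^ rho α) * Real.exp (η * r ^ rho α) := by
      rw [← Real.exp_add]
      apply Real.one_le_exp
      have h6 : r ^ rho α ≤ Λ ^ rho α := Real.rpow_le_rpow hr0.le hr hρ0
      have h7 : -|η| ≤ η := neg_abs_le η
      have h8 : 0 ≤ |η| := abs_nonneg η
      nlinarith
    calc _ ≤ Real.exp (|Cf| * (1 + Λ) ^ rho α) := h3.trans h4
      _ ≤ Real.exp (|Cf| * (1 + Λ) ^ rho α) *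
          (Real.exp (|η| * Λ ^ rho α) * Real.exp (η * r ^ rho α)) :=
          le_mul_of_one_le_right (Real.exp_pos _).le h5
      _ = (Real.exp (|Cf| * (1 + Λ) ^ rho α) * Real.exp (|η| * Λ ^ rho α)) *
          Real.exp (η * r ^ rho α) := by ring
      _ ≤ _ := by
          apply mul_le_mul_of_nonneg_right _ hηexp.le
          have : 0 < Real.exp (C4 ^ 2 / (4 * (η - η'))) := Real.exp_pos _
          linarith

end Pool.Agent.Work.MP_9fcdee_mp
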