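import Pool.Agent.Work.MP_9fcdee_mp.E2_Transfer
import Pool.Agent.Work.MP_9fcdee_mp.E3_Tail
import Pool.Agent.Work.MP_9fcdee_mp.E4_Finite

set_option autoImplicit false

open Set Filter Topology MeasureTheory

namespace Pool.Agent.Work.MP_9fcdee_mp

variable {α : ℝ}

lemma e5_pow_le_exp {x : ℝ} (hx : 0 ≤ x) (k : ℕ) :
    (1 + x) ^ k ≤ Real.exp (2 * k * Real.sqrt x) := by
  have h1 : 1 + x ≤ Real.exp (2 * Real.sqrt x) := by
    have h2 : 1 + Real.sqrt x ≤ Real.exp (Real.sqrt x) := by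
      have := Real.add_one_le_exp (Real.sqrt x); linarith
    have h3 : (1 + Real.sqrt x) ^ 2 ≤ (Real.exp (Real.sqrt x)) ^ 2 :=
      pow_le_pow_left₀ (by positivity) h2 2
    have h4 : (Real.exp (Real.sqrt x)) ^ 2 = Real.exp (2 * Real.sqrt x) := by
      rw [← Real.exp_nat_mul]; norm_num
    have h5 : Real.sqrt x ^ 2 = x := Real.sq_sqrt hx
    nlinarith [Real.sqrt_nonneg x]
  calc (1 + x) ^ k ≤ (Real.exp (2 * Real.sqrt x)) ^ k := pow_le_pow_left₀ (by positivity) h1 k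
    _ = Real.exp (2 * k * Real.sqrt x) := by
        rw [← Real.exp_nat_mul]; ring_nf

lemma e5_const_le_exp {c x : ℝ} (hc : 0 ≤ c) (hx : 1 ≤ x) : c ≤ Real.exp (c * Real.sqrt x) := by
  have h1 : 1 ≤ Real.sqrt x := by rw [Real.one_le_sqrt]; exact hx
  have h2 := Real.add_one_le_exp (c * Real.sqrt x)
  nlinarith

lemma e5_one_le_x0 (hα : 0 < α) {l : ℂ} (h : 1 ≤ l.im) : 1 ≤ x0 α l :=
  Real.one_le_rpow h (by positivity)

lemma e5_x0_rpow (hα : 0 < α) {l : ℂ} (h : 0 < l.im) : (x0 α l) ^ α = l.im := by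
  unfold x0
  rw [← Real.rpow_mul h.le]
  rw [one_div, inv_mul_cancel₀ hα.ne', Real.rpow_one]

lemma e5_qf_norm (hα : 0 < α) (hα1 : α ≤ 1) {l : ℂ} (h : 0 < l.im) {x : ℝ} (hx0 : 0 ≤ x)
    (hx : x ≤ x0 α l + 1) : ‖qf α Complex.I l x‖ ≤ 2 * (1 + ‖l‖) := by
  have hx0' : 0 ≤ x0 α l := Real.rpow_nonneg h.le _
  have h1 : |x| ^ α ≤ l.im + 1 := by
    rw [abs_of_nonneg hx0]
    calc x ^ α ≤ (x0 α l + 1) ^ α := Real.rpow_le_rpow hx0 hx hα.le
      _ ≤ (x0 α l) ^ α + 1 ^ α := Real.rpow_add_le_add_rpow hx0' zero_le_one hα.le hα1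
      _ = l.im + 1 := by rw [e5_x0_rpow hα h, Real.one_rpow]
  have h2 : l.im ≤ ‖l‖ := (le_abs_self _).trans (Complex.abs_im_le_norm l)
  have h3 : 0 ≤ |x| ^ α := Real.rpow_nonneg (abs_nonneg _) _
  unfold qf
  calc ‖Complex.I * ((|x| ^ α : ℝ) : ℂ) - l‖ ≤ ‖Complex.I * ((|x| ^ α : ℝ) : ℂ)‖ + ‖l‖ := norm_sub_le _ _
    _ = |x| ^ α + ‖l‖ := by
        rw [norm_mul, Complex.norm_I, one_mul, Complex.norm_real, Real.norm_of_nonneg h3]
    _ ≤ 2 * (1 + ‖l‖) := by nlinarith [norm_nonneg l]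

lemma e5_sf_norm (hα : 0 < α) (hα1 : α ≤ 1) {l : ℂ} (hre : 0 < l.re) (h : 0 < l.im) {x : ℝ}
    (hx0 : 0 ≤ x) (hx : x ≤ x0 α l + 1) : ‖sf α l x‖ ≤ 2 * (1 + ‖l‖) := by
  have h1 := (sf_norm_sq (α := α) hre x).1
  have h2 := e5_qf_norm hα hα1 h hx0 hx
  rw [← h1] at h2
  by_contra hcon
  push Not at hcon
  have h3 : 0 ≤ ‖l‖ := norm_nonneg l
  nlinarith

lemma e5_Rf_zero (l : ℂ) : Rf α l 0 = 0 := by simp [Rf]

/-- all the pointwise estimates needed for one value of the spectral parameter. -/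
theorem e5_main (hα : 0 < α) (hα1 : α ≤ 1) (T : ℝ) (hT : 0 < T) (F : ℝ) (hF : 0 ≤ F) :
    ∃ (C : ℝ) (k : ℕ), 1 ≤ C ∧ ∀ (b : Bool) (l : ℂ), 1 ≤ l.re → 1 ≤ l.im → l.im ≤ T * l.re →
    ∀ f w w' : ℝ → ℂ, Continuous f → (∀ x, ‖f x‖ ≤ F) → SqInt 0 f →
    ∫ x in Ioi (0:ℝ), ‖f x‖ ^ 2 ≤ F ^ 2 →
    IsSol (qf α Complex.I l) f w w' → FinEn 0 w w' → bc b (w 0) (w' 0) = 0 →
    (∀ x, 0 ≤ x → ‖w x‖ ≤ Real.exp (C * Real.sqrt ‖l‖) *
      (1 + ‖w' (x0 α l) - sf α l (x0 α l) * w (x0 α l)‖)) ∧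
    (∀ X, 0 ≤ X → X ≤ x0 α l → ‖w' X - sf α l X * w X‖ ≤ C * (1 + ‖l‖) ^ k *
      (1 + ‖w' (x0 α l) - sf α l (x0 α l) * w (x0 α l)‖ *
        Real.exp (Rf α l X - Rf α l (x0 α l)))) ∧
    (∀ X, 0 ≤ X → X ≤ x0 α l → ‖w' (x0 α l) - sf α l (x0 α l) * w (x0 α l)‖ ≤
      C * (1 + ‖l‖) ^ k * (1 + ‖w' X - sf α l X * w X‖) *
        Real.exp (Rf α l (x0 α l) - Rf α l X)) ∧
    (∀ X, 0 ≤ X → X ≤ x0 α l → ‖w X‖ ≤ C * (1 + ‖l‖) ^ k *
      (1 + ‖w' (x0 α l) - sf α l (x0 α l) * w (x0 α l)‖ *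
        Real.exp (Rf α l X - Rf α l (x0 α l)))) ∧
    (∀ B, 0 ≤ B → (∀ x, 0 ≤ x → ‖w x‖ ≤ B) →
      ‖w' (x0 α l) - sf α l (x0 α l) * w (x0 α l)‖ ≤ C * (1 + ‖l‖) ^ k * (1 + B)) ∧
    ‖w' (x0 α l) - sf α l (x0 α l) * w (x0 α l)‖ ≤ C * (1 + ‖l‖) ^ k *
      (1 + ‖bc (!b) (w 0) (w' 0)‖) * Real.exp (Rf α l (x0 α l)) := by
  obtain ⟨C1, hC1, hH⟩ := homog_bound hα hα1 T hT
  obtain ⟨C2, k2, hC2, hP⟩ := particular hα hα1 T hT
  obtain ⟨C3, hC3, hTl⟩ := tail_bound hα hα1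
  set D : ℝ := 10 * C1 ^ 2 * C2 * (F + 1) with hD
  have hD1 : 1 ≤ D := by
    have : 1 ≤ C1 ^ 2 := one_le_pow₀ hC1
    have h2 : 1 ≤ C1 ^ 2 * C2 := one_le_mul_of_one_le_of_one_le this hC2
    have h3 : 1 ≤ C1 ^ 2 * C2 * (F + 1) := one_le_mul_of_one_le_of_one_le h2 (by linarith)
    rw [hD]; linarith
  refine ⟨max D (C3 + 2 * D + 2 * (k2 + 1 : ℕ)), k2 + 1, le_max_of_le_left hD1, ?_⟩
  intro b l hre him hlT f w w' hf hfF hf2 hfI hsol hfin hbc
  have hre0 : 0 < l.re := by linarith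
  have him0 : 0 < l.im := by linarith
  set X0 := x0 α l with hX0
  set L : ℝ := 1 + ‖l‖ with hL
  have hl1 : 1 ≤ ‖l‖ := him.trans ((le_abs_self _).trans (Complex.abs_im_le_norm l))
  have hL1 : 1 ≤ L := by linarith
  have hX01 : 1 ≤ X0 := e5_one_le_x0 hα him
  obtain ⟨p, p', hpsol, hpbc, hp0, hpb⟩ := hP b l hre him0 hlT X0 hX01 le_rfl f F hf hF
    (fun x _ => hfF x)
  -- homogeneous part
  set v : ℝ → ℂ := fun x => w x - p x with hv
  set v' : ℝ → ℂ := fun x => w' x - p' x with hv'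
  have hvsol : IsSol (qf α Complex.I l) 0 v v' := by
    refine ⟨fun x => (hsol.du x).sub (hpsol.du x), fun x => ?_⟩
    have := (hsol.dv x).sub (hpsol.dv x)
    refine this.congr_deriv ?_
    simp only [hv, Pi.zero_apply]
    ring
  have hvbc : bc b (v 0) (v' 0) = 0 := by
    clear_value L
    cases b with
    | true =>
      simp only [bc, if_true] at hbc hpbc ⊢
      simp only [hv, hbc, hpbc, sub_zero]
    | false =>
      simp only [bc, Bool.false_eq_true, if_false] at hbc hpbc ⊢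
      simp only [hv', hbc, hpbc, sub_zero]
  set A : ℂ := w' X0 - sf α l X0 * w X0 with hA
  have hAv : v' X0 - sf α l X0 * v X0 = A := by
    simp only [hv, hv', hA]
    rw [hp0]; ring
  set G : ℝ := C2 * L ^ k2 * (F + 1) with hG
  have hLk : 1 ≤ L ^ k2 := one_le_pow₀ hL1
  have hG1 : 1 ≤ G := by
    have h2 : 1 ≤ C2 * L ^ k2 := one_le_mul_of_one_le_of_one_le hC2 hLk
    exact one_le_mul_of_one_le_of_one_le h2 (by linarith)
  have hGF : F ≤ G := by
    have h2 : 1 ≤ C2 * L ^ k2 := one_le_mul_of_one_le_of_one_le hC2 hLk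
    rw [hG]; nlinarith
  have hpG : ∀ x, 0 ≤ x → x ≤ X0 → ‖p x‖ ≤ G ∧ ‖p' x‖ ≤ G := by
    intro x h0 h1
    have h2 := hpb x ⟨h0, h1⟩
    have h3 : C2 * (1 + ‖l‖) ^ k2 * F ≤ G := by
      rw [hG, hL]
      have : 0 ≤ C2 * (1 + ‖l‖) ^ k2 := by positivity
      nlinarith
    exact ⟨h2.1.trans h3, h2.2.trans h3⟩
  have hs : ∀ x, 0 ≤ x → x ≤ X0 + 1 → ‖sf α l x‖ ≤ 2 * L := by
    intro x h0 h1
    exact e5_sf_norm hα hα1 hre0 him0 h0 h1
  -- bound for the transfer functional of `p`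
  have hap : ∀ x, 0 ≤ x → x ≤ X0 → ‖p' x - sf α l x * p x‖ ≤ 3 * G * L := by
    intro x h0 h1
    have h2 := hpG x h0 h1
    have h3 := hs x h0 (by linarith)
    calc ‖p' x - sf α l x * p x‖ ≤ ‖p' x‖ + ‖sf α l x * p x‖ := norm_sub_le _ _
      _ = ‖p' x‖ + ‖sf α l x‖ * ‖p x‖ := by rw [norm_mul]
      _ ≤ G + (2 * L) * G := by
          have := mul_le_mul h3 h2.1 (norm_nonneg _) (by positivity)
          linarith [h2.2]
      _ ≤ 3 * G * L := by nlinarith
  have hdecomp : ∀ x, w' x - sf α l x * w x =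
      (p' x - sf α l x * p x) + (v' x - sf α l x * v x) := by
    intro x; simp only [hv, hv']; ring
  have hRle : ∀ x, 0 ≤ x → x ≤ X0 → Rf α l x ≤ Rf α l X0 := by
    intro x h0 h1
    have := (Rf_diff_le hα hre0 him0 h0 h1 le_rfl).1
    linarith
  have hC1' : 0 < C1 := by linarith
  -- abbreviations for the big constant
  have hKdef : D * L ^ (k2 + 1) = 10 * C1 ^ 2 * G * L := by
    rw [hD, hG, pow_succ]; ring
  have hC1sq : C1 ≤ C1 ^ 2 := by nlinarith
  have hC1sq1 : 1 ≤ C1 ^ 2 := one_le_pow₀ hC1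
  set K : ℝ := 10 * C1 ^ 2 * G * L with hK
  have hGL : 1 ≤ G * L := one_le_mul_of_one_le_of_one_le hG1 hL1
  have hGLG : G ≤ G * L := by nlinarith
  have hCGL : G * L ≤ C1 ^ 2 * (G * L) := by nlinarith
  have hCGL1 : C1 * (G * L) ≤ C1 ^ 2 * (G * L) := by nlinarith
  have hCC : C1 ^ 2 ≤ C1 ^ 2 * (G * L) := by nlinarith
  have hKeq : K = 10 * (C1 ^ 2 * (G * L)) := by rw [hK]; ring
  have hK1 : 1 ≤ K := by rw [hKeq]; nlinarith
  -- the constants
  have hCmax : K ≤ max D (C3 + 2 * D + 2 * (k2 + 1 : ℕ)) * (1 + ‖l‖) ^ (k2 + 1) := by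
    rw [← hKdef]
    exact mul_le_mul_of_nonneg_right (le_max_left _ _) (by positivity)
  set M : ℝ := max D (C3 + 2 * D + 2 * (k2 + 1 : ℕ)) * (1 + ‖l‖) ^ (k2 + 1) with hM
  -- transfer estimates for w
  have hT2 : ∀ X, 0 ≤ X → X ≤ X0 → ‖w' X - sf α l X * w X‖ ≤
      K * (1 + ‖A‖ * Real.exp (Rf α l X - Rf α l X0)) := by
    intro X h0 h1
    have h2 := (hH b l hre him0 hlT v v' hvsol hvbc X X0 h0 h1 le_rfl).1
    rw [hAv] at h2
    have h3 := hap X h0 h1
    have hE : 0 ≤ ‖A‖ * Real.exp (Rf α l X - Rf α l X0) := by positivity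
    rw [hdecomp X]
    calc _ ≤ ‖p' X - sf α l X * p X‖ + ‖v' X - sf α l X * v X‖ := norm_add_le _ _
      _ ≤ 3 * (G * L) + C1 * (‖A‖ * Real.exp (Rf α l X - Rf α l X0)) := by
          have : C1 * ‖A‖ * Real.exp (Rf α l X - Rf α l X0) =
            C1 * (‖A‖ * Real.exp (Rf α l X - Rf α l X0)) := by ring
          linarith
      _ ≤ K * (1 + ‖A‖ * Real.exp (Rf α l X - Rf α l X0)) := by
          rw [mul_one_add K]
          apply add_le_add
          · rw [hKeq]; linarith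
          · apply mul_le_mul_of_nonneg_right _ hE
            rw [hKeq]; linarith
  have hT3 : ∀ X, 0 ≤ X → X ≤ X0 → ‖A‖ ≤
      K * (1 + ‖w' X - sf α l X * w X‖) * Real.exp (Rf α l X0 - Rf α l X) := by
    intro X h0 h1
    have h2 := (hH b l hre him0 hlT v v' hvsol hvbc X X0 h0 h1 le_rfl).2.1
    rw [hAv] at h2
    have h3 := hap X h0 h1
    have h4 : ‖v' X - sf α l X * v X‖ ≤ ‖w' X - sf α l X * w X‖ + 3 * G * L := by
      have : v' X - sf α l X * v X = (w' X - sf α l X * w X) - (p' X - sf α l X * p X) := by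
        simp only [hv, hv']; ring
      rw [this]
      exact (norm_sub_le _ _).trans (by linarith)
    refine h2.trans ?_
    apply mul_le_mul_of_nonneg_right _ (Real.exp_pos _).le
    have h5 : 0 ≤ ‖w' X - sf α l X * w X‖ := norm_nonneg _
    calc C1 * ‖v' X - sf α l X * v X‖ ≤ C1 * (‖w' X - sf α l X * w X‖ + 3 * G * L) :=
          mul_le_mul_of_nonneg_left h4 hC1'.le
      _ = C1 * ‖w' X - sf α l X * w X‖ + 3 * (C1 * (G * L)) := by ring
      _ ≤ K * ‖w' X - sf α l X * w X‖ + K := by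
          apply add_le_add
          · apply mul_le_mul_of_nonneg_right _ h5
            rw [hKeq]; linarith
          · rw [hKeq]; linarith
      _ = _ := by ring
  have hT4 : ∀ X, 0 ≤ X → X ≤ X0 →
      ‖w X‖ ≤ K * (1 + ‖A‖ * Real.exp (Rf α l X - Rf α l X0)) ∧
      ‖w' X‖ ≤ K * (1 + ‖A‖ * Real.exp (Rf α l X - Rf α l X0)) := by
    intro X h0 h1
    obtain ⟨h2, -, h3, h4⟩ := hH b l hre him0 hlT v v' hvsol hvbc X X0 h0 h1 le_rfl
    rw [hAv] at h2
    have h5 := hpG X h0 h1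
    have hE : 0 ≤ ‖A‖ * Real.exp (Rf α l X - Rf α l X0) := by positivity
    have h6 : C1 * ‖v' X - sf α l X * v X‖ ≤ C1 ^ 2 * (‖A‖ * Real.exp (Rf α l X - Rf α l X0)) := by
      calc _ ≤ C1 * (C1 * ‖A‖ * Real.exp (Rf α l X - Rf α l X0)) :=
            mul_le_mul_of_nonneg_left h2 hC1'.le
        _ = _ := by ring
    have h7 : G + C1 ^ 2 * (‖A‖ * Real.exp (Rf α l X - Rf α l X0)) ≤
        K * (1 + ‖A‖ * Real.exp (Rf α l X - Rf α l X0)) := by
      rw [mul_one_add K]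
      apply add_le_add
      · rw [hKeq]; linarith
      · apply mul_le_mul_of_nonneg_right _ hE
        rw [hKeq]; linarith
    constructor
    · have : w X = p X + v X := by simp only [hv]; ring
      rw [this]
      exact (norm_add_le _ _).trans ((add_le_add h5.1 (h3.trans h6)).trans h7)
    · have : w' X = p' X + v' X := by simp only [hv']; ring
      rw [this]
      exact (norm_add_le _ _).trans ((add_le_add h5.2 (h4.trans h6)).trans h7)
  have hA0 : 0 ≤ ‖A‖ := norm_nonneg _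
  refine ⟨?_, ?_, ?_, ?_, ?_, ?_⟩
  · -- sup bound
    have hend := hT4 X0 (by linarith) le_rfl
    rw [sub_self, Real.exp_zero, mul_one] at hend
    have hKexp : K ≤ Real.exp ((D + 2 * (k2 + 1 : ℕ)) * Real.sqrt ‖l‖) := by
      rw [← hKdef, add_mul, Real.exp_add]
      apply mul_le_mul (e5_const_le_exp (by linarith) hl1) (e5_pow_le_exp (norm_nonneg _) _)
        (by positivity) (Real.exp_pos _).le
    have hbig : 2 * Real.exp (C3 * Real.sqrt ‖l‖) * K ≤
        Real.exp (max D (C3 + 2 * D + 2 * (k2 + 1 : ℕ)) * Real.sqrt ‖l‖) := by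
      have h1 : 2 * Real.exp (C3 * Real.sqrt ‖l‖) * K ≤
          Real.exp (D * Real.sqrt ‖l‖) * Real.exp (C3 * Real.sqrt ‖l‖) *
            Real.exp ((D + 2 * (k2 + 1 : ℕ)) * Real.sqrt ‖l‖) := by
        apply mul_le_mul _ hKexp (by linarith) (by positivity)
        apply mul_le_mul_of_nonneg_right _ (Real.exp_pos _).le
        have h10 : 2 ≤ D := by
          rw [hD]
          have h3 : 1 ≤ C1 ^ 2 * C2 * (F + 1) :=
            one_le_mul_of_one_le_of_one_le (one_le_mul_of_one_le_of_one_le hC1sq1 hC2)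
              (by linarith)
          linarith
        exact h10.trans (e5_const_le_exp (by linarith) hl1)
      refine h1.trans ?_
      rw [← Real.exp_add, ← Real.exp_add]
      apply Real.exp_le_exp.mpr
      calc _ = (C3 + 2 * D + 2 * (k2 + 1 : ℕ)) * Real.sqrt ‖l‖ := by ring
        _ ≤ _ := mul_le_mul_of_nonneg_right (le_max_right _ _) (Real.sqrt_nonneg _)
    have hexp1 : 1 ≤ Real.exp (C3 * Real.sqrt ‖l‖) := Real.one_le_exp (by positivity)
    intro x hx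
    rcases le_total x X0 with hxX | hxX
    · have h1 := (hT4 x hx hxX).1
      have h2 : Real.exp (Rf α l x - Rf α l X0) ≤ 1 := by
        apply Real.exp_le_one_iff.mpr
        linarith [hRle x hx hxX]
      have h3 : K * (1 + ‖A‖ * Real.exp (Rf α l x - Rf α l X0)) ≤ K * (1 + ‖A‖) := by
        apply mul_le_mul_of_nonneg_left _ (by linarith)
        nlinarith
      refine (h1.trans h3).trans ?_
      apply mul_le_mul_of_nonneg_right _ (by positivity)
      refine le_trans ?_ hbig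
      nlinarith
    · have hfin' : FinEn X0 w w' := hfin.mono_set (Ioi_subset_Ioi (by linarith))
      have h1 := norm_sq_le_En hsol hfin' hxX
      have h2 := hTl l hre him f w w' F hf hF hfF hf2 hfI hsol hfin
      rw [← hX0] at h2
      have h3 : ‖w x‖ ^ 2 ≤ (Real.exp (C3 * Real.sqrt ‖l‖) * (2 * K * (1 + ‖A‖))) ^ 2 := by
        refine (h1.trans h2).trans ?_
        have h4 : ‖w X0‖ ^ 2 ≤ (K * (1 + ‖A‖)) ^ 2 := pow_le_pow_left₀ (norm_nonneg _) hend.1 2
        have h5 : ‖w' X0‖ ^ 2 ≤ (K * (1 + ‖A‖)) ^ 2 := pow_le_pow_left₀ (norm_nonneg _) hend.2 2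
        have h6 : F ^ 2 ≤ (K * (1 + ‖A‖)) ^ 2 := by
          apply pow_le_pow_left₀ hF
          have : F ≤ K := by rw [hKeq]; linarith
          nlinarith
        have h7 : Real.exp (C3 * Real.sqrt ‖l‖) ≤ Real.exp (C3 * Real.sqrt ‖l‖) ^ 2 := by
          nlinarith
        calc Real.exp (C3 * Real.sqrt ‖l‖) * (‖w X0‖ ^ 2 + ‖w' X0‖ ^ 2 + F ^ 2) ≤
            Real.exp (C3 * Real.sqrt ‖l‖) * (4 * (K * (1 + ‖A‖)) ^ 2) := by
              apply mul_le_mul_of_nonneg_left _ (Real.exp_pos _).le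
              nlinarith [sq_nonneg (K * (1 + ‖A‖))]
          _ ≤ Real.exp (C3 * Real.sqrt ‖l‖) ^ 2 * (4 * (K * (1 + ‖A‖)) ^ 2) := by
              apply mul_le_mul_of_nonneg_right h7 (by positivity)
          _ = _ := by ring
      have h8 : ‖w x‖ ≤ Real.exp (C3 * Real.sqrt ‖l‖) * (2 * K * (1 + ‖A‖)) :=
        le_of_sq_le_sq h3 (by positivity)
      refine h8.trans ?_
      calc _ = (2 * Real.exp (C3 * Real.sqrt ‖l‖) * K) * (1 + ‖A‖) := by ring
        _ ≤ _ := mul_le_mul_of_nonneg_right hbig (by positivity)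
  · intro X h0 h1
    exact (hT2 X h0 h1).trans (mul_le_mul_of_nonneg_right hCmax (by positivity))
  · intro X h0 h1
    refine (hT3 X h0 h1).trans ?_
    apply mul_le_mul_of_nonneg_right _ (Real.exp_pos _).le
    exact mul_le_mul_of_nonneg_right hCmax (by positivity)
  · intro X h0 h1
    exact (hT4 X h0 h1).1.trans (mul_le_mul_of_nonneg_right hCmax (by positivity))
  · intro B hB hwB
    have h1 : ‖w' X0‖ ≤ 2 * B + (2 * L) * B + F := by
      refine deriv_le (continuous_qf hα _ _) hf hsol (a := X0) (fun t ht => hwB t ?_)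
        (fun t ht => ?_) (fun t _ => hfF t) ⟨le_rfl, by linarith⟩
      · linarith [ht.1]
      · exact e5_qf_norm hα hα1 him0 (by linarith [ht.1]) ht.2
    have h2 : ‖sf α l X0 * w X0‖ ≤ 2 * L * B := by
      rw [norm_mul]
      exact mul_le_mul (hs X0 (by linarith) (by linarith)) (hwB X0 (by linarith))
        (norm_nonneg _) (by positivity)
    refine le_trans ?_ (mul_le_mul_of_nonneg_right hCmax (by positivity : 0 ≤ 1 + B))
    calc ‖A‖ ≤ ‖w' X0‖ + ‖sf α l X0 * w X0‖ := norm_sub_le _ _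
      _ ≤ 2 * B + (2 * L) * B + F + 2 * L * B := by linarith
      _ ≤ K * (1 + B) := by
          have h3 : L ≤ G * L := by nlinarith
          have h4 : K * (1 + B) = K + K * B := by ring
          rw [h4]
          have h5 : F ≤ K := by rw [hKeq]; linarith
          have h6 : 6 * L ≤ K := by rw [hKeq]; linarith
          nlinarith
  · have h2 := (hH b l hre him0 hlT v v' hvsol hvbc 0 X0 le_rfl (by linarith) le_rfl).2.1
    rw [hAv, e5_Rf_zero, sub_zero] at h2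
    refine h2.trans ?_
    apply mul_le_mul_of_nonneg_right _ (Real.exp_pos _).le
    refine le_trans ?_ (mul_le_mul_of_nonneg_right hCmax (by positivity))
    have hp00 := hpG 0 le_rfl (by linarith)
    have hs0 := hs 0 le_rfl (by linarith)
    have h3 : ‖v' 0 - sf α l 0 * v 0‖ ≤ 3 * L * ‖bc (!b) (v 0) (v' 0)‖ := by
      cases b with
      | true =>
        simp only [bc, if_true] at hvbc
        simp only [bc, Bool.not_true, Bool.false_eq_true, if_false, hvbc, mul_zero, sub_zero]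
        nlinarith [norm_nonneg (v' 0)]
      | false =>
        simp only [bc, Bool.false_eq_true, if_false] at hvbc
        simp only [bc, Bool.not_false, if_true, hvbc, zero_sub, norm_neg, norm_mul]
        have := mul_le_mul_of_nonneg_right hs0 (norm_nonneg (v 0))
        nlinarith [norm_nonneg (v 0)]
    have h4 : ‖bc (!b) (v 0) (v' 0)‖ ≤ ‖bc (!b) (w 0) (w' 0)‖ + G := by
      cases b with
      | true =>
        simp only [bc, Bool.not_true, Bool.false_eq_true, if_false, hv']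
        exact (norm_sub_le _ _).trans (by linarith [hp00.2])
      | false =>
        simp only [bc, Bool.not_false, if_true, hv]
        exact (norm_sub_le _ _).trans (by linarith [hp00.1])
    have h5 : 0 ≤ ‖bc (!b) (w 0) (w' 0)‖ := norm_nonneg _
    have h6 : 3 * L * ‖bc (!b) (v 0) (v' 0)‖ ≤ 3 * L * (‖bc (!b) (w 0) (w' 0)‖ + G) :=
      mul_le_mul_of_nonneg_left h4 (by positivity)
    calc C1 * ‖v' 0 - sf α l 0 * v 0‖ ≤ C1 * (3 * L * (‖bc (!b) (w 0) (w' 0)‖ + G)) :=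
          mul_le_mul_of_nonneg_left (h3.trans h6) hC1'.le
      _ = 3 * (C1 * L) * ‖bc (!b) (w 0) (w' 0)‖ + 3 * (C1 * (G * L)) := by ring
      _ ≤ K * ‖bc (!b) (w 0) (w' 0)‖ + K := by
          apply add_le_add
          · apply mul_le_mul_of_nonneg_right _ h5
            have : C1 * L ≤ C1 * (G * L) := by
              apply mul_le_mul_of_nonneg_left _ hC1'.le
              nlinarith
            rw [hKeq]; linarith
          · rw [hKeq]; linarith
      _ = _ := by ring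

end Pool.Agent.Work.MP_9fcdee_mp
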