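import Pool.Agent.Work.MP_9fcdee_mp.E5a_Main

set_option autoImplicit false

open Set Filter Topology MeasureTheory

namespace Pool.Agent.Work.MP_9fcdee_mp

variable {α : ℝ}

lemma e5_re (r φ : ℝ) : ((r : ℂ) * Complex.exp (φ * Complex.I)).re = r * Real.cos φ := by
  rw [Complex.re_ofReal_mul, Complex.exp_ofReal_mul_I_re]

lemma e5_im (r φ : ℝ) : ((r : ℂ) * Complex.exp (φ * Complex.I)).im = r * Real.sin φ := by
  rw [Complex.im_ofReal_mul, Complex.exp_ofReal_mul_I_im]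

lemma e5_norm {r : ℝ} (hr : 0 ≤ r) (φ : ℝ) : ‖(r : ℂ) * Complex.exp (φ * Complex.I)‖ = r := by
  rw [norm_mul, Complex.norm_exp_ofReal_mul_I, mul_one, Complex.norm_real, Real.norm_of_nonneg hr]

lemma e5_polar (r φ : ℝ) (z : ℂ) :
    (r : ℂ) * Complex.exp (φ * Complex.I) * Complex.exp z =
      ((r * Real.exp z.re : ℝ) : ℂ) * Complex.exp (((φ + z.im : ℝ) : ℂ) * Complex.I) := by
  have hz : z = (z.re : ℂ) + (z.im : ℂ) * Complex.I := (Complex.re_add_im z).symm
  conv_lhs => rw [hz]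
  push_cast
  rw [Complex.exp_add, add_mul, Complex.exp_add]
  ring

/-- constants for a closed cone inside the open quadrant -/
lemma e5_cone {ψ₁ ψ₂ : ℝ} (h1 : 0 < ψ₁) (h12 : ψ₁ ≤ ψ₂) (h2 : ψ₂ < Real.pi / 2) :
    ∃ T Λ : ℝ, 0 < T ∧ 1 ≤ Λ ∧ ∀ r φ : ℝ, Λ ≤ r → φ ∈ Icc ψ₁ ψ₂ →
      1 ≤ ((r : ℂ) * Complex.exp (φ * Complex.I)).re ∧
      1 ≤ ((r : ℂ) * Complex.exp (φ * Complex.I)).im ∧
      ((r : ℂ) * Complex.exp (φ * Complex.I)).im ≤
        T * ((r : ℂ) * Complex.exp (φ * Complex.I)).re := by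
  have hc : 0 < Real.cos ψ₂ := Real.cos_pos_of_mem_Ioo ⟨by linarith, h2⟩
  have hs : 0 < Real.sin ψ₁ := Real.sin_pos_of_pos_of_lt_pi h1 (by linarith [Real.pi_pos])
  refine ⟨1 / Real.cos ψ₂, max 1 (max (1 / Real.cos ψ₂) (1 / Real.sin ψ₁)), by positivity,
    le_max_left _ _, ?_⟩
  intro r φ hr hφ
  rw [e5_re, e5_im]
  have hr1 : 1 ≤ r := (le_max_left _ _).trans hr
  have hr2 : 1 / Real.cos ψ₂ ≤ r := ((le_max_left _ _).trans (le_max_right _ _)).trans hr
  have hr3 : 1 / Real.sin ψ₁ ≤ r := ((le_max_right _ _).trans (le_max_right _ _)).trans hr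
  have hcos : Real.cos ψ₂ ≤ Real.cos φ :=
    Real.cos_le_cos_of_nonneg_of_le_pi (by linarith [hφ.1]) (by linarith [Real.pi_pos]) hφ.2
  have hsin : Real.sin ψ₁ ≤ Real.sin φ := by
    apply Real.sin_le_sin_of_le_of_le_pi_div_two (by linarith) (by linarith [hφ.2]) hφ.1
  have hsin1 : Real.sin φ ≤ 1 := Real.sin_le_one φ
  rw [div_le_iff₀ hc] at hr2
  rw [div_le_iff₀ hs] at hr3
  refine ⟨?_, ?_, ?_⟩
  · nlinarith
  · nlinarith
  · have h3 : r * Real.sin φ ≤ r := by nlinarith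
    have h4 : r ≤ 1 / Real.cos ψ₂ * (r * Real.cos φ) := by
      rw [div_mul_eq_mul_div, one_mul, le_div_iff₀ hc]
      nlinarith
    exact h3.trans h4

lemma e5_F {f : ℝ → ℂ} {F : ℝ} (hfb : ∀ x, ‖f x‖ ≤ F) :
    ∃ F' : ℝ, 0 ≤ F' ∧ (∀ x, ‖f x‖ ≤ F') ∧ ∫ x in Ioi (0:ℝ), ‖f x‖ ^ 2 ≤ F' ^ 2 := by
  have hI : 0 ≤ ∫ x in Ioi (0:ℝ), ‖f x‖ ^ 2 := integral_nonneg fun x => by positivity
  have hF : 0 ≤ F := (norm_nonneg _).trans (hfb 0)
  refine ⟨F + Real.sqrt (∫ x in Ioi (0:ℝ), ‖f x‖ ^ 2), by positivity, fun x => ?_, ?_⟩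
  · have := Real.sqrt_nonneg (∫ x in Ioi (0:ℝ), ‖f x‖ ^ 2)
    linarith [hfb x]
  · have h1 := Real.sq_sqrt hI
    have h2 := Real.sqrt_nonneg (∫ x in Ioi (0:ℝ), ‖f x‖ ^ 2)
    nlinarith

lemma e5_rpow_diff {β y₀ y₁ M : ℝ} (hβ : 1 ≤ β) (h1 : 0 ≤ y₁) (h10 : y₁ ≤ y₀) (h0 : y₀ ≤ M) :
    y₀ ^ β - y₁ ^ β ≤ β * M ^ (β - 1) * (y₀ - y₁) := by
  rcases eq_or_lt_of_le (h1.trans h10) with h | h
  · have h2 : y₁ = 0 := le_antisymm (by linarith) h1
    rw [← h, h2]; simp
  · have h2 := one_add_mul_self_le_rpow_one_add (s := y₁ / y₀ - 1)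
      (by have : 0 ≤ y₁ / y₀ := by positivity
          linarith) hβ
    rw [add_sub_cancel, Real.div_rpow h1 h.le] at h2
    have h3 : 0 < y₀ ^ β := Real.rpow_pos_of_pos h _
    rw [le_div_iff₀ h3] at h2
    have h4 : y₀ ^ β = y₀ ^ (β - 1) * y₀ := by
      rw [← Real.rpow_add_one h.ne']; ring_nf
    have h5 : (1 + β * (y₁ / y₀ - 1)) * y₀ ^ β = y₀ ^ β - β * y₀ ^ (β - 1) * (y₀ - y₁) := by
      rw [h4]; field_simp; ring
    rw [h5] at h2
    have h6 : y₀ ^ (β - 1) ≤ M ^ (β - 1) := Real.rpow_le_rpow h.le h0 (by linarith)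
    have h7 : β * y₀ ^ (β - 1) * (y₀ - y₁) ≤ β * M ^ (β - 1) * (y₀ - y₁) := by
      apply mul_le_mul_of_nonneg_right _ (by linarith)
      apply mul_le_mul_of_nonneg_left h6 (by linarith)
    linarith

lemma e5_y_diff {t a b φ : ℝ} (ht : 0 < t) (ht1 : t ≤ 1) (ha : |a| ≤ t) (hb : |b| ≤ t)
    (hφ1 : 0 < φ - t) (hφ2 : φ + t < Real.pi / 2) :
    Real.exp (-t) * Real.sin (φ - t) ≤ Real.exp a * Real.sin (φ + b) ∧
    Real.exp a * Real.sin (φ + b) - Real.exp (-t) * Real.sin (φ - t) ≤ 9 * t ∧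
    0 ≤ Real.exp (-t) * Real.sin (φ - t) ∧ Real.exp a * Real.sin (φ + b) ≤ 3 := by
  rw [abs_le] at ha hb
  have hpi := Real.pi_pos
  have hs0 : 0 < Real.sin (φ - t) := Real.sin_pos_of_pos_of_lt_pi hφ1 (by linarith)
  have hs1 : Real.sin (φ - t) ≤ Real.sin (φ + b) :=
    Real.sin_le_sin_of_le_of_le_pi_div_two (by linarith) (by linarith) (by linarith)
  have hs2 : Real.sin (φ + b) ≤ 1 := Real.sin_le_one _
  have he1 : Real.exp (-t) ≤ Real.exp a := Real.exp_le_exp.mpr ha.1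
  have he2 : Real.exp a ≤ Real.exp t := Real.exp_le_exp.mpr ha.2
  have he3 : Real.exp t ≤ 1 + 2 * t := by
    have := (abs_le.mp (Real.abs_exp_sub_one_sub_id_le (x := t) (by rw [abs_of_pos ht]; exact ht1))).2
    nlinarith
  have he4 : 1 - t ≤ Real.exp (-t) := by
    have := Real.add_one_le_exp (-t); linarith
  have hs3 : Real.sin (φ + b) - Real.sin (φ - t) ≤ 2 * t := by
    have := (abs_le.mp (Real.abs_sin_sub_sin_le (φ + b) (φ - t))).2
    have h2 : |φ + b - (φ - t)| ≤ 2 * t := by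
      rw [abs_le]; constructor <;> linarith
    linarith
  have hep : 0 < Real.exp (-t) := Real.exp_pos _
  refine ⟨?_, ?_, by positivity, ?_⟩
  · exact mul_le_mul he1 hs1 hs0.le (Real.exp_pos _).le
  · have h1 : Real.exp a * Real.sin (φ + b) ≤ Real.exp t * Real.sin (φ + b) :=
      mul_le_mul_of_nonneg_right he2 (by linarith)
    have hs1' : Real.sin (φ - t) ≤ 1 := Real.sin_le_one _
    nlinarith
  · have h1 : Real.exp a * Real.sin (φ + b) ≤ Real.exp t * 1 :=
      mul_le_mul (he2) hs2 (by linarith) (Real.exp_pos _).le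
    linarith

/-- the local functionals -/
theorem local_functional (hα : 0 < α) (hα1 : α ≤ 1) {b : Bool} {f : ℝ → ℂ} {w w' : ℂ → ℝ → ℂ}
    (hF : Fam α b f w w') (hf : Continuous f) {F : ℝ} (hfb : ∀ x, ‖f x‖ ≤ F) (hf2 : SqInt 0 f)
    {φ₁ φ₂ : ℝ} (h1 : 0 < φ₁) (h2 : φ₂ < Real.pi / 2) :
    ∃ C Λ t₀ : ℝ, 0 < C ∧ 1 ≤ Λ ∧ 0 < t₀ ∧ ∀ (t r φ : ℝ), 0 < t → t ≤ t₀ → Λ ≤ r →
      φ ∈ Icc φ₁ φ₂ →
      ∃ A : ℂ → ℂ,
        DifferentiableOn ℂ A (Metric.closedBall 0 t) ∧
        (∀ z : ℂ, ‖z‖ ≤ t → ∀ B : ℝ, 0 ≤ B →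
          (∀ x : ℝ, 0 ≤ x → ‖w (r * Complex.exp (φ * Complex.I) * Complex.exp z) x‖ ≤ B) →
          ‖A z‖ ≤ Real.exp (C * Real.sqrt r) * (B + Real.exp (C * t * r ^ rho α)) *
            Real.exp (- (ef α (φ + z.im) * (r * Real.exp z.re) ^ rho α))) ∧
        (∀ z : ℂ, ‖z‖ ≤ t → ∀ x : ℝ, 0 ≤ x →
          ‖w (r * Complex.exp (φ * Complex.I) * Complex.exp z) x‖ ≤ Real.exp (C * Real.sqrt r) *
            (‖A z‖ * Real.exp (ef α (φ + z.im) * (r * Real.exp z.re) ^ rho α) +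
              Real.exp (C * t * r ^ rho α))) := by
  by_cases h12 : φ₁ ≤ φ₂
  swap
  · refine ⟨1, 1, 1, one_pos, le_rfl, one_pos, ?_⟩
    intro t r φ _ _ _ hφ
    exact absurd (hφ.1.trans hφ.2) h12
  obtain ⟨F', hF'0, hF'b, hF'I⟩ := e5_F hfb
  obtain ⟨T, Λ₀, hT, hΛ₀, hcone⟩ := e5_cone (ψ₁ := φ₁ / 2) (ψ₂ := (φ₂ + Real.pi / 2) / 2)
    (by linarith) (by linarith) (by linarith)
  obtain ⟨C0, k, hC0, hmain⟩ := e5_main hα hα1 T hT F' hF'0
  -- constants
  set β : ℝ := 1 / α with hβ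
  have hβ1 : 1 ≤ β := by rw [hβ, le_div_iff₀ hα]; linarith
  set c₁ : ℝ := 2 * (β * (3:ℝ) ^ (β - 1) * 9) with hc₁
  have hc₁0 : 0 < c₁ := by positivity
  have hpi := Real.pi_pos
  set C : ℝ := 10 * C0 + 8 * k + 4 + c₁ with hC
  refine ⟨C, Λ₀ * Real.exp 1, min (min (φ₁ / 2) ((Real.pi / 2 - φ₂) / 2)) 1, by positivity, ?_,
    ?_, ?_⟩
  · have := Real.one_le_exp (show (0:ℝ) ≤ 1 by norm_num)
    exact one_le_mul_of_one_le_of_one_le hΛ₀ this
  · apply lt_min (lt_min (by linarith) (by linarith)) one_pos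
  intro t r φ ht htt hr hφ
  have ht1 : t ≤ 1 := htt.trans (min_le_right _ _)
  have ht2 : t ≤ φ₁ / 2 := htt.trans ((min_le_left _ _).trans (min_le_left _ _))
  have ht3 : t ≤ (Real.pi / 2 - φ₂) / 2 := htt.trans ((min_le_left _ _).trans (min_le_right _ _))
  have hr1 : 1 ≤ r := by
    have := Real.one_le_exp (show (0:ℝ) ≤ 1 by norm_num)
    exact (one_le_mul_of_one_le_of_one_le hΛ₀ this).trans hr
  have hr0 : 0 < r := by linarith
  have hφt1 : 0 < φ - t := by linarith [hφ.1]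
  have hφt2 : φ + t < Real.pi / 2 := by linarith [hφ.2]
  set X : ℝ := (r * (Real.exp (-t) * Real.sin (φ - t))) ^ (1 / α) with hX
  -- the point `l z`
  set l : ℂ → ℂ := fun z => (r : ℂ) * Complex.exp (φ * Complex.I) * Complex.exp z with hl
  have hgeo : ∀ z : ℂ, ‖z‖ ≤ t → 1 ≤ (l z).re ∧ 1 ≤ (l z).im ∧ (l z).im ≤ T * (l z).re ∧
      ‖l z‖ = r * Real.exp z.re ∧ Real.sqrt ‖l z‖ ≤ 2 * Real.sqrt r ∧ 0 ≤ X ∧ X ≤ x0 α (l z) ∧
      Rf α (l z) (x0 α (l z)) = ef α (φ + z.im) * (r * Real.exp z.re) ^ rho α ∧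
      (x0 α (l z) - X) * Real.sqrt ‖l z‖ ≤ c₁ * t * r ^ rho α := by
    intro z hz
    have hzre : |z.re| ≤ t := (Complex.abs_re_le_norm z).trans hz
    have hzim : |z.im| ≤ t := (Complex.abs_im_le_norm z).trans hz
    have hzre' := abs_le.mp hzre
    have hzim' := abs_le.mp hzim
    have hlz : l z = ((r * Real.exp z.re : ℝ) : ℂ) *
        Complex.exp (((φ + z.im : ℝ) : ℂ) * Complex.I) := e5_polar r φ z
    have hrz : Λ₀ ≤ r * Real.exp z.re := by
      have h3 : Real.exp (-1) ≤ Real.exp z.re := Real.exp_le_exp.mpr (by linarith)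
      have h4 : Real.exp 1 * Real.exp (-1) = 1 := by rw [← Real.exp_add]; norm_num
      calc Λ₀ = Λ₀ * Real.exp 1 * Real.exp (-1) := by rw [mul_assoc, h4, mul_one]
        _ ≤ r * Real.exp z.re := mul_le_mul hr h3 (Real.exp_pos _).le hr0.le
    have hrz0 : 0 < r * Real.exp z.re := by positivity
    obtain ⟨g1, g2, g3⟩ := hcone (r * Real.exp z.re) (φ + z.im) hrz
      ⟨by linarith [hφ.1], by linarith [hφ.2]⟩
    rw [← hlz] at g1 g2 g3
    have hnorm : ‖l z‖ = r * Real.exp z.re := by rw [hlz]; exact e5_norm hrz0.le _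
    have hnorm4 : ‖l z‖ ≤ 4 * r := by
      rw [hnorm]
      have h3 : Real.exp z.re ≤ Real.exp 1 := Real.exp_le_exp.mpr (by linarith)
      have h4 := Real.exp_one_lt_d9
      nlinarith
    have hsq : Real.sqrt ‖l z‖ ≤ 2 * Real.sqrt r := by
      calc Real.sqrt ‖l z‖ ≤ Real.sqrt (4 * r) := Real.sqrt_le_sqrt hnorm4
        _ = 2 * Real.sqrt r := by
          rw [Real.sqrt_mul (by norm_num)]
          congr 1
          rw [show (4:ℝ) = 2 ^ 2 by norm_num, Real.sqrt_sq (by norm_num)]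
    obtain ⟨y1, y2, y3, y4⟩ := e5_y_diff ht ht1 hzre hzim hφt1 hφt2
    have hx0 : x0 α (l z) = (r * (Real.exp z.re * Real.sin (φ + z.im))) ^ (1 / α) := by
      unfold x0
      rw [hlz, e5_im]
      ring_nf
    have hX0 : 0 ≤ X := Real.rpow_nonneg (by positivity) _
    have hXx : X ≤ x0 α (l z) := by
      rw [hx0, hX]
      apply Real.rpow_le_rpow (by positivity) _ (by positivity)
      exact mul_le_mul_of_nonneg_left y1 hr0.le
    refine ⟨g1, g2, g3, hnorm, hsq, hX0, hXx, ?_, ?_⟩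
    · rw [hlz]
      apply Rf_x0 hα hrz0
      exact ⟨by linarith, by linarith⟩
    · have hd : x0 α (l z) - X ≤ r ^ (1 / α) * (β * (3:ℝ) ^ (β - 1) * (9 * t)) := by
        rw [hx0, hX, Real.mul_rpow hr0.le (y3.trans y1), Real.mul_rpow hr0.le y3, ← mul_sub]
        apply mul_le_mul_of_nonneg_left _ (Real.rpow_nonneg hr0.le _)
        refine (e5_rpow_diff (β := 1 / α) hβ1 y3 y1 y4).trans ?_
        apply mul_le_mul_of_nonneg_left y2 (by positivity)
      have hrr : r ^ rho α = r ^ (1 / α) * Real.sqrt r := by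
        rw [rho, Real.rpow_add hr0, Real.sqrt_eq_rpow]
      calc (x0 α (l z) - X) * Real.sqrt ‖l z‖ ≤
          (r ^ (1 / α) * (β * (3:ℝ) ^ (β - 1) * (9 * t))) * (2 * Real.sqrt r) := by
            apply mul_le_mul hd hsq (Real.sqrt_nonneg _)
            positivity
        _ = c₁ * t * r ^ rho α := by rw [hrr, hc₁]; ring
  -- bounds of constants
  have hs1 : 1 ≤ Real.sqrt r := by rw [Real.one_le_sqrt]; exact hr1
  have hbig : ∀ z : ℂ, ‖z‖ ≤ t → C0 * (1 + ‖l z‖) ^ k ≤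
      Real.exp ((C0 + 4 * k) * Real.sqrt r) := by
    intro z hz
    obtain ⟨-, -, -, hn, hsq, -⟩ := hgeo z hz
    rw [add_mul, Real.exp_add]
    apply mul_le_mul (e5_const_le_exp (by linarith) hr1) _ (by positivity) (Real.exp_pos _).le
    refine (e5_pow_le_exp (norm_nonneg _) k).trans ?_
    apply Real.exp_le_exp.mpr
    have hk : (0:ℝ) ≤ k := Nat.cast_nonneg k
    nlinarith
  have h2exp : (2:ℝ) ≤ Real.exp (2 * Real.sqrt r) := e5_const_le_exp (by norm_num) hr1
  have hrp : 0 ≤ r ^ rho α := Real.rpow_nonneg hr0.le _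
  have hCt : Real.exp (c₁ * t * r ^ rho α) ≤ Real.exp (C * t * r ^ rho α) := by
    apply Real.exp_le_exp.mpr
    apply mul_le_mul_of_nonneg_right _ hrp
    apply mul_le_mul_of_nonneg_right _ ht.le
    rw [hC]
    have hk : (0:ℝ) ≤ k := Nat.cast_nonneg k
    linarith
  have h1t : 1 ≤ Real.exp (C * t * r ^ rho α) := by
    apply Real.one_le_exp
    have hk : (0:ℝ) ≤ k := Nat.cast_nonneg k
    have : 0 ≤ C := by rw [hC]; positivity
    positivity
  refine ⟨fun z => (w' (l z) X - sf α (l z) X * w (l z) X) * Complex.exp (Pf α (l z) X),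
    ?_, ?_, ?_⟩
  · intro z hz
    rw [Metric.mem_closedBall, dist_zero_right] at hz
    have hre : 0 < (l z).re := by linarith [(hgeo z hz).1]
    have hopen : IsOpen {l : ℂ | 0 < l.re} := isOpen_lt continuous_const Complex.continuous_re
    have hld : DifferentiableAt ℂ l z := by
      simp only [hl]
      exact (Complex.differentiable_exp z).const_mul _
    have hs : DifferentiableAt ℂ (fun z => sf α (l z) X) z :=
      ((differentiableOn_sf (α := α) X).differentiableAt (hopen.mem_nhds hre)).comp z hld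
    have hp : DifferentiableAt ℂ (fun z => Pf α (l z) X) z :=
      ((differentiableOn_Pf hα X).differentiableAt (hopen.mem_nhds hre)).comp z hld
    have hw : DifferentiableAt ℂ (fun z => w (l z) X) z := ((hF.dw X) (l z)).comp z hld
    have hw' : DifferentiableAt ℂ (fun z => w' (l z) X) z := ((hF.dw' X) (l z)).comp z hld
    exact ((hw'.sub (hs.mul hw)).mul hp.cexp).differentiableWithinAt
  · intro z hz B hB hwB
    obtain ⟨g1, g2, g3, g4, g5, g6, g7, g8, g9⟩ := hgeo z hz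
    obtain ⟨-, m2, -, -, m5, -⟩ := hmain b (l z) g1 g2 g3 f (w (l z)) (w' (l z)) hf hF'b hf2 hF'I
      (hF.sol _) (hF.fin _) (hF.bc0 _)
    have e2 := m2 X g6 g7
    have e5 := m5 B hB hwB
    have hM := hbig z hz
    set M : ℝ := C0 * (1 + ‖l z‖) ^ k with hMdef
    have hM0 : 1 ≤ M := one_le_mul_of_one_le_of_one_le hC0
      (one_le_pow₀ (by linarith [norm_nonneg (l z)]))
    set a : ℝ := ‖w' (l z) (x0 α (l z)) - sf α (l z) (x0 α (l z)) * w (l z) (x0 α (l z))‖ with ha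
    have ha0 : 0 ≤ a := norm_nonneg _
    rw [norm_mul, norm_exp_Pf hα (by linarith)]
    have hRd := (Rf_diff_le hα (by linarith : 0 < (l z).re) (by linarith) g6 g7 le_rfl).2
    rw [← g8]
    set R0 := Rf α (l z) (x0 α (l z)) with hR0
    set RX := Rf α (l z) X with hRX
    have hEd : Real.exp (R0 - RX) ≤ Real.exp (c₁ * t * r ^ rho α) :=
      Real.exp_le_exp.mpr (hRd.trans g9)
    have hstep : ‖w' (l z) X - sf α (l z) X * w (l z) X‖ * Real.exp (-RX) ≤
        M * (Real.exp (R0 - RX) + a) * Real.exp (-R0) := by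
      calc _ ≤ (M * (1 + a * Real.exp (RX - R0))) * Real.exp (-RX) :=
            mul_le_mul_of_nonneg_right e2 (Real.exp_pos _).le
        _ = M * (Real.exp (-RX) + a * (Real.exp (RX - R0) * Real.exp (-RX))) := by ring
        _ = M * (Real.exp (R0 - RX) * Real.exp (-R0) + a * Real.exp (-R0)) := by
            rw [← Real.exp_add, ← Real.exp_add]
            congr 3
            · ring_nf
            · ring_nf
        _ = _ := by ring
    refine hstep.trans ?_
    apply mul_le_mul_of_nonneg_right _ (Real.exp_pos _).le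
    have hexp0 : 0 < Real.exp (c₁ * t * r ^ rho α) := Real.exp_pos _
    have hMM : 2 * (M * M) ≤ Real.exp (C * Real.sqrt r) := by
      have h3 : M * M ≤ Real.exp ((C0 + 4 * k) * Real.sqrt r) *
          Real.exp ((C0 + 4 * k) * Real.sqrt r) :=
        mul_le_mul hM hM (by linarith) (Real.exp_pos _).le
      calc 2 * (M * M) ≤ Real.exp (2 * Real.sqrt r) * (Real.exp ((C0 + 4 * k) * Real.sqrt r) *
          Real.exp ((C0 + 4 * k) * Real.sqrt r)) :=
            mul_le_mul h2exp h3 (by positivity) (Real.exp_pos _).le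
        _ = Real.exp ((2 * C0 + 8 * k + 2) * Real.sqrt r) := by
            rw [← Real.exp_add, ← Real.exp_add]; ring_nf
        _ ≤ _ := by
            apply Real.exp_le_exp.mpr
            apply mul_le_mul_of_nonneg_right _ (by linarith)
            rw [hC]; linarith
    have hMle : M ≤ M * M := by nlinarith
    calc M * (Real.exp (R0 - RX) + a) ≤
        M * (Real.exp (C * t * r ^ rho α) + M * (1 + B)) := by
          apply mul_le_mul_of_nonneg_left _ (by linarith)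
          exact add_le_add (hEd.trans hCt) e5
      _ ≤ (M * M) * (Real.exp (C * t * r ^ rho α) + (1 + B)) := by
          have : 0 < Real.exp (C * t * r ^ rho α) := Real.exp_pos _
          nlinarith
      _ ≤ (M * M) * (2 * (B + Real.exp (C * t * r ^ rho α))) := by
          apply mul_le_mul_of_nonneg_left _ (by positivity)
          linarith
      _ = (2 * (M * M)) * (B + Real.exp (C * t * r ^ rho α)) := by ring
      _ ≤ _ := mul_le_mul_of_nonneg_right hMM (by positivity)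
  · intro z hz x hx
    obtain ⟨g1, g2, g3, g4, g5, g6, g7, g8, g9⟩ := hgeo z hz
    obtain ⟨m1, -, m3, -, -, -⟩ := hmain b (l z) g1 g2 g3 f (w (l z)) (w' (l z)) hf hF'b hf2 hF'I
      (hF.sol _) (hF.fin _) (hF.bc0 _)
    have e1 := m1 x hx
    have e3 := m3 X g6 g7
    have hM := hbig z hz
    set M : ℝ := C0 * (1 + ‖l z‖) ^ k with hMdef
    have hM0 : 1 ≤ M := one_le_mul_of_one_le_of_one_le hC0
      (one_le_pow₀ (by linarith [norm_nonneg (l z)]))
    set a : ℝ := ‖w' (l z) (x0 α (l z)) - sf α (l z) (x0 α (l z)) * w (l z) (x0 α (l z))‖ with ha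
    have ha0 : 0 ≤ a := norm_nonneg _
    rw [norm_mul, norm_exp_Pf hα (by linarith)]
    have hRd := (Rf_diff_le hα (by linarith : 0 < (l z).re) (by linarith) g6 g7 le_rfl).2
    rw [← g8]
    set R0 := Rf α (l z) (x0 α (l z)) with hR0
    set RX := Rf α (l z) X with hRX
    set aX : ℝ := ‖w' (l z) X - sf α (l z) X * w (l z) X‖ with haX
    have haX0 : 0 ≤ aX := norm_nonneg _
    have hEd : Real.exp (R0 - RX) ≤ Real.exp (C * t * r ^ rho α) :=
      (Real.exp_le_exp.mpr (hRd.trans g9)).trans hCt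
    have hstep : a ≤ M * (Real.exp (C * t * r ^ rho α) + aX * Real.exp (-RX) * Real.exp R0) := by
      refine e3.trans ?_
      rw [mul_assoc]
      apply mul_le_mul_of_nonneg_left _ (by linarith)
      rw [add_mul, one_mul]
      apply add_le_add hEd
      rw [mul_assoc, ← Real.exp_add]
      apply le_of_eq
      congr 2
      ring
    have hMC : 2 * (Real.exp (C0 * Real.sqrt ‖l z‖) * M) ≤ Real.exp (C * Real.sqrt r) := by
      have h3 : Real.exp (C0 * Real.sqrt ‖l z‖) ≤ Real.exp (2 * C0 * Real.sqrt r) := by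
        apply Real.exp_le_exp.mpr
        nlinarith
      calc 2 * (Real.exp (C0 * Real.sqrt ‖l z‖) * M) ≤ Real.exp (2 * Real.sqrt r) *
          (Real.exp (2 * C0 * Real.sqrt r) * Real.exp ((C0 + 4 * k) * Real.sqrt r)) :=
            mul_le_mul h2exp (mul_le_mul h3 hM (by linarith) (Real.exp_pos _).le)
              (by positivity) (Real.exp_pos _).le
        _ = Real.exp ((3 * C0 + 4 * k + 2) * Real.sqrt r) := by
            rw [← Real.exp_add, ← Real.exp_add]; ring_nf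
        _ ≤ _ := by
            apply Real.exp_le_exp.mpr
            apply mul_le_mul_of_nonneg_right _ (by linarith)
            rw [hC]
            have hk : (0:ℝ) ≤ k := Nat.cast_nonneg k
            linarith
    refine e1.trans ?_
    set Y : ℝ := aX * Real.exp (-RX) * Real.exp R0 with hY
    have hY0 : 0 ≤ Y := by positivity
    calc Real.exp (C0 * Real.sqrt ‖l z‖) * (1 + a) ≤
        Real.exp (C0 * Real.sqrt ‖l z‖) *
          (M * (2 * (Y + Real.exp (C * t * r ^ rho α)))) := by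
          apply mul_le_mul_of_nonneg_left _ (Real.exp_pos _).le
          have : 1 ≤ M * Real.exp (C * t * r ^ rho α) := one_le_mul_of_one_le_of_one_le hM0 h1t
          have h5 : 0 ≤ M * Y := by positivity
          have h6 : M * (Real.exp (C * t * r ^ rho α) + Y) =
            M * Real.exp (C * t * r ^ rho α) + M * Y := by ring
          have h7 : M * (2 * (Y + Real.exp (C * t * r ^ rho α))) =
            2 * (M * Real.exp (C * t * r ^ rho α)) + 2 * (M * Y) := by ring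
          linarith
      _ = (2 * (Real.exp (C0 * Real.sqrt ‖l z‖) * M)) *
          (Y + Real.exp (C * t * r ^ rho α)) := by ring
      _ ≤ _ := mul_le_mul_of_nonneg_right hMC (by positivity)

end Pool.Agent.Work.MP_9fcdee_mp
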