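import Mathlib

set_option autoImplicit false

open Set Filter Topology MeasureTheory

namespace Pool.Agent.Work.MP_9fcdee_mp

namespace FInd

variable {ι : Type*}

/-- `‖W i‖ ≤ C e^{η r^ρ}` near the ray of angle `φ` -/
def Bd (W : ι → ℂ → ℂ) (ρ φ η : ℝ) : Prop :=
  ∃ δ C : ℝ, 0 < δ ∧ 0 ≤ C ∧ ∀ i, ∀ r φ' : ℝ, 1 ≤ r → |φ' - φ| < δ →
    ‖W i (r * Complex.exp (φ' * Complex.I))‖ ≤ C * Real.exp (η * r ^ ρ)

/-- the indicator -/
noncomputable def vv (W : ι → ℂ → ℂ) (ρ φ : ℝ) : ℝ := sInf {η : ℝ | 0 ≤ η ∧ Bd W ρ φ η}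

/-- growth hypothesis -/
def Gr (W : ι → ℂ → ℂ) (ρ K : ℝ) : Prop :=
  0 ≤ K ∧ ∀ i z, ‖W i z‖ ≤ Real.exp (K * (1 + ‖z‖) ^ ρ)

lemma Bd.mono {W : ι → ℂ → ℂ} {ρ φ η η' : ℝ} (h : Bd W ρ φ η) (hη : η ≤ η') :
    Bd W ρ φ η' := by
  obtain ⟨δ, C, hδ, hC, h⟩ := h
  refine ⟨δ, C, hδ, hC, fun i r φ' hr hφ => (h i r φ' hr hφ).trans ?_⟩
  apply mul_le_mul_of_nonneg_left _ hC
  apply Real.exp_le_exp.mpr
  exact mul_le_mul_of_nonneg_right hη (Real.rpow_nonneg (by linarith) _)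

lemma norm_ray (r φ : ℝ) (hr : 0 ≤ r) : ‖(r : ℂ) * Complex.exp (φ * Complex.I)‖ = r := by
  rw [norm_mul, Complex.norm_exp_ofReal_mul_I, mul_one, Complex.norm_real, Real.norm_eq_abs,
    abs_of_nonneg hr]

lemma Gr.ray {W : ι → ℂ → ℂ} {ρ K : ℝ} (h : Gr W ρ K) (hρ : 0 < ρ) (i : ι) {r : ℝ} (φ : ℝ)
    (hr : 1 ≤ r) : ‖W i (r * Complex.exp (φ * Complex.I))‖ ≤
      Real.exp (K * 2 ^ ρ * r ^ ρ) := by
  refine (h.2 i _).trans (Real.exp_le_exp.mpr ?_)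
  rw [norm_ray r φ (by linarith), mul_assoc]
  apply mul_le_mul_of_nonneg_left _ h.1
  rw [← Real.mul_rpow (by norm_num) (by linarith)]
  exact Real.rpow_le_rpow (by linarith) (by linarith) hρ.le

lemma Gr.small {W : ι → ℂ → ℂ} {ρ K : ℝ} (h : Gr W ρ K) (hρ : 0 < ρ) (i : ι) {N : ℝ} {z : ℂ}
    (hz : ‖z‖ ≤ N) : ‖W i z‖ ≤ Real.exp (K * (1 + N) ^ ρ) := by
  refine (h.2 i _).trans (Real.exp_le_exp.mpr ?_)
  apply mul_le_mul_of_nonneg_left _ h.1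
  exact Real.rpow_le_rpow (by positivity) (by linarith) hρ.le

lemma Gr.bd {W : ι → ℂ → ℂ} {ρ K : ℝ} (h : Gr W ρ K) (hρ : 0 < ρ) (φ : ℝ) :
    Bd W ρ φ (K * 2 ^ ρ) := by
  refine ⟨1, 1, one_pos, zero_le_one, fun i r φ' hr _ => ?_⟩
  rw [one_mul]
  exact h.ray hρ i φ' hr

lemma vv_nonneg (W : ι → ℂ → ℂ) (ρ φ : ℝ) : 0 ≤ vv W ρ φ :=
  Real.sInf_nonneg fun _ h => h.1

lemma vv_le {W : ι → ℂ → ℂ} {ρ φ η : ℝ} (h0 : 0 ≤ η) (h : Bd W ρ φ η) : vv W ρ φ ≤ η :=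
  csInf_le ⟨0, fun _ h => h.1⟩ ⟨h0, h⟩

lemma Gr.vv_bound {W : ι → ℂ → ℂ} {ρ K : ℝ} (h : Gr W ρ K) (hρ : 0 < ρ) (φ : ℝ) :
    vv W ρ φ ≤ K * 2 ^ ρ :=
  vv_le (mul_nonneg h.1 (Real.rpow_nonneg (by norm_num) _)) (h.bd hρ φ)

lemma Gr.bd_of_lt {W : ι → ℂ → ℂ} {ρ K : ℝ} (h : Gr W ρ K) (hρ : 0 < ρ) {φ η : ℝ}
    (hη : vv W ρ φ < η) : Bd W ρ φ η := by
  have hne : {η : ℝ | 0 ≤ η ∧ Bd W ρ φ η}.Nonempty :=
    ⟨K * 2 ^ ρ, mul_nonneg h.1 (Real.rpow_nonneg (by norm_num) _), h.bd hρ φ⟩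
  obtain ⟨η', ⟨_, h1⟩, h2⟩ := exists_lt_of_csInf_lt hne hη
  exact h1.mono h2.le

lemma Bd.nhds {W : ι → ℂ → ℂ} {ρ φ η : ℝ} (h : Bd W ρ φ η) : ∀ᶠ φ' in 𝓝 φ, Bd W ρ φ' η := by
  obtain ⟨δ, C, hδ, hC, h⟩ := h
  have : ∀ᶠ φ' in 𝓝 φ, |φ' - φ| < δ / 2 := by
    rw [Metric.eventually_nhds_iff]
    exact ⟨δ / 2, by linarith, fun y hy => by rwa [Real.dist_eq] at hy⟩
  filter_upwards [this] with φ' hφ'
  refine ⟨δ / 2, C, by linarith, hC, fun i r φ'' hr hφ'' => h i r φ'' hr ?_⟩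
  calc |φ'' - φ| = |(φ'' - φ') + (φ' - φ)| := by ring_nf
    _ ≤ |φ'' - φ'| + |φ' - φ| := abs_add_le _ _
    _ < δ := by linarith

/-- the indicator is upper semicontinuous -/
lemma Gr.vv_lt_nhds {W : ι → ℂ → ℂ} {ρ K : ℝ} (h : Gr W ρ K) (hρ : 0 < ρ) {φ η : ℝ}
    (hη : vv W ρ φ < η) : ∀ᶠ φ' in 𝓝 φ, vv W ρ φ' < η := by
  obtain ⟨η', h1, h2⟩ := exists_between hη
  filter_upwards [(h.bd_of_lt hρ h1).nhds] with φ' hφ'
  exact (vv_le ((vv_nonneg W ρ φ).trans h1.le) hφ').trans_lt h2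

/-- uniform bounds on compact intervals -/
lemma Gr.unif {W : ι → ℂ → ℂ} {ρ K : ℝ} (h : Gr W ρ K) (hρ : 0 < ρ) {a b : ℝ} {ψ : ℝ → ℝ}
    (hψ : ContinuousOn ψ (Icc a b)) (hlt : ∀ φ ∈ Icc a b, vv W ρ φ < ψ φ) :
    ∃ C : ℝ, 0 ≤ C ∧ ∀ i, ∀ r φ : ℝ, 1 ≤ r → φ ∈ Icc a b →
      ‖W i (r * Complex.exp (φ * Complex.I))‖ ≤ C * Real.exp (ψ φ * r ^ ρ) := by
  refine isCompact_Icc.induction_on (p := fun S => ∃ C : ℝ, 0 ≤ C ∧ ∀ i, ∀ r φ : ℝ, 1 ≤ r →
    φ ∈ S → ‖W i (r * Complex.exp (φ * Complex.I))‖ ≤ C * Real.exp (ψ φ * r ^ ρ)) ?_ ?_ ?_ ?_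
  · exact ⟨0, le_rfl, fun i r φ _ hφ => absurd hφ (notMem_empty _)⟩
  · rintro s t hst ⟨C, hC, h1⟩
    exact ⟨C, hC, fun i r φ hr hφ => h1 i r φ hr (hst hφ)⟩
  · rintro s t ⟨C, hC, h1⟩ ⟨C', hC', h2⟩
    refine ⟨max C C', le_max_of_le_left hC, fun i r φ hr hφ => ?_⟩
    rcases hφ with hφ | hφ
    · exact (h1 i r φ hr hφ).trans (mul_le_mul_of_nonneg_right (le_max_left _ _)
        (Real.exp_pos _).le)
    · exact (h2 i r φ hr hφ).trans (mul_le_mul_of_nonneg_right (le_max_right _ _)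
        (Real.exp_pos _).le)
  · intro φ hφ
    obtain ⟨η, h1, h2⟩ := exists_between (hlt φ hφ)
    obtain ⟨δ, C, hδ, hC, h3⟩ := h.bd_of_lt hρ h1
    have e1 : ∀ᶠ φ' in 𝓝[Icc a b] φ, η < ψ φ' := (hψ φ hφ).eventually (lt_mem_nhds h2)
    have e2 : ∀ᶠ φ' in 𝓝[Icc a b] φ, |φ' - φ| < δ := by
      apply mem_nhdsWithin_of_mem_nhds
      rw [Metric.mem_nhds_iff]
      exact ⟨δ, hδ, fun y hy => by rwa [Metric.mem_ball, Real.dist_eq] at hy⟩
    refine ⟨{φ' | η < ψ φ' ∧ |φ' - φ| < δ}, e1.and e2, C, hC, fun i r φ' hr hφ' => ?_⟩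
    refine (h3 i r φ' hr hφ'.2).trans (mul_le_mul_of_nonneg_left (Real.exp_le_exp.mpr ?_) hC)
    exact mul_le_mul_of_nonneg_right hφ'.1.le (Real.rpow_nonneg (by linarith) _)

/-- points where the family is large -/
lemma Gr.large {W : ι → ℂ → ℂ} {ρ K : ℝ} (h : Gr W ρ K) (hρ : 0 < ρ) {φ η : ℝ} (h0 : 0 ≤ η)
    (hη : η < vv W ρ φ) {δ : ℝ} (hδ : 0 < δ) (N : ℝ) :
    ∃ i, ∃ r φ' : ℝ, N < r ∧ 1 ≤ r ∧ |φ' - φ| < δ ∧
      Real.exp (η * r ^ ρ) < ‖W i (r * Complex.exp (φ' * Complex.I))‖ := by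
  by_contra hcon
  push Not at hcon
  apply absurd (vv_le (W := W) (ρ := ρ) (φ := φ) h0 ?_) (not_le.mpr hη)
  refine ⟨δ, Real.exp (K * (1 + N) ^ ρ) + 1, hδ, by positivity, fun i r φ' hr hφ' => ?_⟩
  have e0 : 1 ≤ Real.exp (η * r ^ ρ) :=
    Real.one_le_exp (mul_nonneg h0 (Real.rpow_nonneg (by linarith) _))
  have e1 : 0 < Real.exp (K * (1 + N) ^ ρ) := Real.exp_pos _
  rcases le_or_gt r N with hN | hN
  · have := h.small hρ i (z := r * Complex.exp (φ' * Complex.I)) (N := N)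
      (by rw [norm_ray r φ' (by linarith)]; exact hN)
    nlinarith
  · have := hcon i r φ' hN hr hφ'
    nlinarith

/-- the sinusoid -/
noncomputable def TT (ρ A B φ : ℝ) : ℝ := A * Real.cos (ρ * φ) + B * Real.sin (ρ * φ)

lemma TT_cont (ρ A B : ℝ) : Continuous (TT ρ A B) := by
  unfold TT
  fun_prop

lemma re_TT (ρ A B : ℝ) (z : ℂ) :
    (((A : ℂ) - B * Complex.I) * Complex.exp (ρ * z)).re =
      Real.exp (ρ * z.re) * TT ρ A B z.im := by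
  have h1 : (Complex.exp (ρ * z)).re = Real.exp (ρ * z.re) * Real.cos (ρ * z.im) := by
    rw [Complex.exp_re]
    simp
  have h2 : (Complex.exp (ρ * z)).im = Real.exp (ρ * z.re) * Real.sin (ρ * z.im) := by
    rw [Complex.exp_im]
    simp
  rw [Complex.mul_re, h1, h2]
  simp only [Complex.sub_re, Complex.ofReal_re, Complex.mul_re, Complex.I_re, mul_zero,
    Complex.ofReal_im, Complex.I_im, mul_one, sub_self, sub_zero, Complex.sub_im, Complex.mul_im,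
    add_zero, zero_sub, TT]
  ring

lemma exp_ray (x y : ℝ) : Complex.exp (x + y * Complex.I) =
    ((Real.exp x : ℝ) : ℂ) * Complex.exp (y * Complex.I) := by
  rw [Complex.exp_add, Complex.ofReal_exp]

lemma exp_rpow (x ρ : ℝ) : (Real.exp x) ^ ρ = Real.exp (ρ * x) := by
  rw [← Real.exp_mul, mul_comm]

/-- Phragmen-Lindelof between two rays -/
lemma Gr.pl {W : ι → ℂ → ℂ} (hW : ∀ i, Differentiable ℂ (W i)) {ρ K : ℝ} (h : Gr W ρ K)
    (hρ : 0 < ρ) {φ₁ φ₂ A B : ℝ} (h12 : φ₁ < φ₂) (hlt : φ₂ - φ₁ < Real.pi / ρ)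
    (h1 : vv W ρ φ₁ < TT ρ A B φ₁) (h2 : vv W ρ φ₂ < TT ρ A B φ₂) :
    ∃ C : ℝ, 0 ≤ C ∧ ∀ i, ∀ r φ : ℝ, 1 ≤ r → φ ∈ Icc φ₁ φ₂ →
      ‖W i (r * Complex.exp (φ * Complex.I))‖ ≤ C * Real.exp (TT ρ A B φ * r ^ ρ) := by
  obtain ⟨δ₁, C₁, hδ₁, hC₁, b1⟩ := h.bd_of_lt hρ h1
  obtain ⟨δ₂, C₂, hδ₂, hC₂, b2⟩ := h.bd_of_lt hρ h2
  set a : ℂ := (A : ℂ) - B * Complex.I with ha
  set C₀ : ℝ := Real.exp (K * 2 ^ ρ + ‖a‖) with hC₀
  set C : ℝ := max C₀ (max C₁ C₂) with hC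
  have hexpz : ∀ z : ℂ, Complex.exp z = ((Real.exp z.re : ℝ) : ℂ) *
      Complex.exp (z.im * Complex.I) := by
    intro z
    rw [← exp_ray, Complex.re_add_im]
  have hg : ∀ (i : ι) (z : ℂ), ‖W i (Complex.exp z) * Complex.exp (-(a * Complex.exp (ρ * z)))‖ =
      ‖W i (Complex.exp z)‖ * Real.exp (-(Real.exp (ρ * z.re) * TT ρ A B z.im)) := by
    intro i z
    rw [norm_mul, Complex.norm_exp, Complex.neg_re, re_TT]
  have hTa : ∀ z : ℂ, Real.exp (-(Real.exp (ρ * z.re) * TT ρ A B z.im)) ≤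
      Real.exp (‖a‖ * Real.exp (ρ * z.re)) := by
    intro z
    apply Real.exp_le_exp.mpr
    rw [← re_TT, ← ha]
    refine (neg_le_abs _).trans ((Complex.abs_re_le_norm _).trans ?_)
    rw [norm_mul, Complex.norm_exp]
    simp
  -- bound on one side
  have side : ∀ (φ₀ δ C' : ℝ), 0 < δ → C' ≤ C → (∀ i, ∀ r φ' : ℝ, 1 ≤ r → |φ' - φ₀| < δ →
      ‖W i (r * Complex.exp (φ' * Complex.I))‖ ≤ C' * Real.exp (TT ρ A B φ₀ * r ^ ρ)) →
      ∀ (i : ι) (z : ℂ), z.im = φ₀ →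
        ‖W i (Complex.exp z) * Complex.exp (-(a * Complex.exp (ρ * z)))‖ ≤ C := by
    intro φ₀ δ C' hδ hC' hb i z hz
    rw [hg]
    rcases le_or_gt 0 z.re with h0 | h0
    · have e1 := hb i (Real.exp z.re) z.im (Real.one_le_exp h0) (by
        rw [hz, sub_self, abs_zero]; exact hδ)
      rw [← hexpz, exp_rpow] at e1
      calc ‖W i (Complex.exp z)‖ * Real.exp (-(Real.exp (ρ * z.re) * TT ρ A B z.im))
          ≤ (C' * Real.exp (TT ρ A B φ₀ * Real.exp (ρ * z.re))) *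
            Real.exp (-(Real.exp (ρ * z.re) * TT ρ A B z.im)) :=
            mul_le_mul_of_nonneg_right e1 (Real.exp_pos _).le
        _ = C' := by
            rw [mul_assoc, ← Real.exp_add, hz,
              show TT ρ A B φ₀ * Real.exp (ρ * z.re) + -(Real.exp (ρ * z.re) * TT ρ A B φ₀) = 0
                from by ring, Real.exp_zero, mul_one]
        _ ≤ C := hC'
    · have e1 : ‖W i (Complex.exp z)‖ ≤ Real.exp (K * (1 + 1) ^ ρ) := by
        apply h.small hρ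
        rw [Complex.norm_exp]
        exact Real.exp_le_one_iff.mpr h0.le
      have e2 : Real.exp (-(Real.exp (ρ * z.re) * TT ρ A B z.im)) ≤ Real.exp ‖a‖ := by
        refine (hTa z).trans (Real.exp_le_exp.mpr ?_)
        have : Real.exp (ρ * z.re) ≤ 1 := Real.exp_le_one_iff.mpr (by nlinarith)
        nlinarith [norm_nonneg a]
      calc ‖W i (Complex.exp z)‖ * Real.exp (-(Real.exp (ρ * z.re) * TT ρ A B z.im))
          ≤ Real.exp (K * (1 + 1) ^ ρ) * Real.exp ‖a‖ :=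
            mul_le_mul e1 e2 (Real.exp_pos _).le (Real.exp_pos _).le
        _ = C₀ := by rw [← Real.exp_add, hC₀]; norm_num
        _ ≤ C := le_max_left _ _
  have key : ∀ (i : ι) (z : ℂ), φ₁ ≤ z.im → z.im ≤ φ₂ →
      ‖W i (Complex.exp z) * Complex.exp (-(a * Complex.exp (ρ * z)))‖ ≤ C := by
    intro i z hz1 hz2
    refine PhragmenLindelof.horizontal_strip (a := φ₁) (b := φ₂)
      (f := fun z => W i (Complex.exp z) * Complex.exp (-(a * Complex.exp (ρ * z)))) ?_ ?_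
      (side φ₁ δ₁ C₁ hδ₁ ((le_max_left _ _).trans (le_max_right _ _)) b1 i)
      (side φ₂ δ₂ C₂ hδ₂ ((le_max_right _ _).trans (le_max_right _ _)) b2 i) hz1 hz2
    · apply Differentiable.diffContOnCl
      have e1 : Differentiable ℂ (fun z => W i (Complex.exp z)) :=
        (hW i).comp Complex.differentiable_exp
      have e2 : Differentiable ℂ (fun z : ℂ => Complex.exp (-(a * Complex.exp (ρ * z)))) := by
        fun_prop
      exact e1.mul e2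
    · refine ⟨ρ, ?_, K * 2 ^ ρ + ‖a‖, ?_⟩
      · rw [lt_div_iff₀ (by linarith)]
        rw [lt_div_iff₀ hρ] at hlt
        linarith
      · apply Asymptotics.IsBigO.of_bound 1
        apply Eventually.of_forall
        intro z
        rw [one_mul, Real.norm_eq_abs, abs_of_pos (Real.exp_pos _), hg]
        have e1 : ‖W i (Complex.exp z)‖ ≤ Real.exp (K * 2 ^ ρ * Real.exp (ρ * |z.re|)) := by
          refine (h.2 i _).trans (Real.exp_le_exp.mpr ?_)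
          rw [mul_assoc]
          apply mul_le_mul_of_nonneg_left _ h.1
          rw [← exp_rpow, ← Real.mul_rpow (by norm_num) (Real.exp_pos _).le, Complex.norm_exp]
          apply Real.rpow_le_rpow (by positivity) _ hρ.le
          have f1 : Real.exp z.re ≤ Real.exp |z.re| := Real.exp_le_exp.mpr (le_abs_self _)
          have f2 : 1 ≤ Real.exp |z.re| := Real.one_le_exp (abs_nonneg _)
          linarith
        have e2 : Real.exp (-(Real.exp (ρ * z.re) * TT ρ A B z.im)) ≤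
            Real.exp (‖a‖ * Real.exp (ρ * |z.re|)) := by
          refine (hTa z).trans (Real.exp_le_exp.mpr ?_)
          apply mul_le_mul_of_nonneg_left _ (norm_nonneg _)
          exact Real.exp_le_exp.mpr (mul_le_mul_of_nonneg_left (le_abs_self _) hρ.le)
        calc _ ≤ Real.exp (K * 2 ^ ρ * Real.exp (ρ * |z.re|)) *
            Real.exp (‖a‖ * Real.exp (ρ * |z.re|)) :=
              mul_le_mul e1 e2 (Real.exp_pos _).le (Real.exp_pos _).le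
          _ = _ := by rw [← Real.exp_add]; ring_nf
  refine ⟨C, (Real.exp_pos _).le.trans (le_max_left _ _), fun i r φ hr hφ => ?_⟩
  have hr0 : 0 < r := by linarith
  have e1 := key i ((Real.log r : ℝ) + (φ : ℝ) * Complex.I) (by simpa using hφ.1)
    (by simpa using hφ.2)
  rw [hg, exp_ray, Real.exp_log hr0] at e1
  have e2 : ((Real.log r : ℝ) + (φ : ℝ) * Complex.I : ℂ).re = Real.log r := by simp
  have e3 : ((Real.log r : ℝ) + (φ : ℝ) * Complex.I : ℂ).im = φ := by simp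
  rw [e2, e3, ← exp_rpow, Real.exp_log hr0, Real.exp_neg, ← div_eq_mul_inv,
    div_le_iff₀ (Real.exp_pos _)] at e1
  rw [mul_comm (TT ρ A B φ)]
  exact e1

lemma Gr.pl_vv {W : ι → ℂ → ℂ} (hW : ∀ i, Differentiable ℂ (W i)) {ρ K : ℝ} (h : Gr W ρ K)
    (hρ : 0 < ρ) {φ₁ φ₂ A B : ℝ} (hlt : φ₂ - φ₁ < Real.pi / ρ)
    (h1 : vv W ρ φ₁ < TT ρ A B φ₁) (h2 : vv W ρ φ₂ < TT ρ A B φ₂) {φ : ℝ}
    (hφ : φ ∈ Ioo φ₁ φ₂) : vv W ρ φ ≤ max 0 (TT ρ A B φ) := by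
  obtain ⟨C, hC, hb⟩ := h.pl hW hρ (hφ.1.trans hφ.2) hlt h1 h2
  apply le_of_forall_gt_imp_ge_of_dense
  intro η hη
  have h0 : 0 ≤ η := (le_max_left _ _).trans hη.le
  have h3 : TT ρ A B φ < η := (le_max_right _ _).trans_lt hη
  apply vv_le h0
  have e1 : ∀ᶠ φ' in 𝓝 φ, TT ρ A B φ' < η ∧ φ' ∈ Ioo φ₁ φ₂ :=
    ((TT_cont ρ A B).continuousAt.eventually (gt_mem_nhds h3)).and (isOpen_Ioo.mem_nhds hφ)
  obtain ⟨δ, hδ, h4⟩ := Metric.eventually_nhds_iff.mp e1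
  refine ⟨δ, C, hδ, hC, fun i r φ' hr hφ' => ?_⟩
  obtain ⟨h5, h6⟩ := h4 (y := φ') (by rwa [Real.dist_eq])
  refine (hb i r φ' hr (Ioo_subset_Icc_self h6)).trans
    (mul_le_mul_of_nonneg_left (Real.exp_le_exp.mpr ?_) hC)
  exact mul_le_mul_of_nonneg_right h5.le (Real.rpow_nonneg (by linarith) _)

/-- the sinusoid with values `a` at `φ₁`, `b` at `φ₂` -/
lemma exists_TT {ρ φ₁ φ₂ : ℝ} (hs : Real.sin (ρ * (φ₂ - φ₁)) ≠ 0) (a b : ℝ) :
    ∃ A B : ℝ, ∀ φ, TT ρ A B φ =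
      (a * Real.sin (ρ * (φ₂ - φ)) + b * Real.sin (ρ * (φ - φ₁))) /
        Real.sin (ρ * (φ₂ - φ₁)) := by
  refine ⟨(a * Real.sin (ρ * φ₂) - b * Real.sin (ρ * φ₁)) / Real.sin (ρ * (φ₂ - φ₁)),
    (b * Real.cos (ρ * φ₁) - a * Real.cos (ρ * φ₂)) / Real.sin (ρ * (φ₂ - φ₁)), fun φ => ?_⟩
  rw [TT, mul_sub ρ φ₂ φ, mul_sub ρ φ φ₁, Real.sin_sub (ρ * φ₂), Real.sin_sub (ρ * φ)]
  field_simp
  ring

/-- the Phragmen-Lindelof inequality for the indicator -/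
lemma Gr.convex {W : ι → ℂ → ℂ} (hW : ∀ i, Differentiable ℂ (W i)) {ρ K : ℝ} (h : Gr W ρ K)
    (hρ : 0 < ρ) {φ₁ φ₂ : ℝ} (hlt : φ₂ - φ₁ < Real.pi / ρ) {φ : ℝ} (hφ : φ ∈ Ioo φ₁ φ₂) :
    vv W ρ φ ≤ (vv W ρ φ₁ * Real.sin (ρ * (φ₂ - φ)) + vv W ρ φ₂ * Real.sin (ρ * (φ - φ₁))) /
        Real.sin (ρ * (φ₂ - φ₁)) := by
  have h12 : φ₁ < φ₂ := hφ.1.trans hφ.2
  have hlt' : ρ * (φ₂ - φ₁) < Real.pi := by
    rw [lt_div_iff₀ hρ] at hlt
    linarith
  have p1 : 0 < Real.sin (ρ * (φ₂ - φ₁)) :=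
    Real.sin_pos_of_pos_of_lt_pi (mul_pos hρ (by linarith)) hlt'
  have p2 : 0 < Real.sin (ρ * (φ₂ - φ)) := by
    apply Real.sin_pos_of_pos_of_lt_pi (mul_pos hρ (by linarith [hφ.2]))
    nlinarith [hφ.1]
  have p3 : 0 < Real.sin (ρ * (φ - φ₁)) := by
    apply Real.sin_pos_of_pos_of_lt_pi (mul_pos hρ (by linarith [hφ.1]))
    nlinarith [hφ.2]
  set c : ℝ := (Real.sin (ρ * (φ₂ - φ)) + Real.sin (ρ * (φ - φ₁))) / Real.sin (ρ * (φ₂ - φ₁))
    with hc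
  have hc0 : 0 < c := by positivity
  apply le_of_forall_pos_le_add
  intro ε hε
  obtain ⟨A, B, hAB⟩ := exists_TT p1.ne' (vv W ρ φ₁ + ε / c) (vv W ρ φ₂ + ε / c)
  have e1 : TT ρ A B φ₁ = vv W ρ φ₁ + ε / c := by
    rw [hAB, sub_self, mul_zero, Real.sin_zero, mul_zero, add_zero, mul_div_assoc,
      div_self p1.ne', mul_one]
  have e2 : TT ρ A B φ₂ = vv W ρ φ₂ + ε / c := by
    rw [hAB, sub_self, mul_zero, Real.sin_zero, mul_zero, zero_add, mul_div_assoc,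
      div_self p1.ne', mul_one]
  have hεc : 0 < ε / c := div_pos hε hc0
  have e3 := h.pl_vv hW hρ hlt (A := A) (B := B) (by rw [e1]; linarith) (by rw [e2]; linarith) hφ
  have e4 : TT ρ A B φ = (vv W ρ φ₁ * Real.sin (ρ * (φ₂ - φ)) +
      vv W ρ φ₂ * Real.sin (ρ * (φ - φ₁))) / Real.sin (ρ * (φ₂ - φ₁)) + ε := by
    rw [hAB, hc]
    field_simp
    ring
  have e5 : 0 ≤ TT ρ A B φ := by
    rw [e4]
    have := vv_nonneg W ρ φ₁
    have := vv_nonneg W ρ φ₂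
    positivity
  rw [max_eq_right e5, e4] at e3
  exact e3

lemma Gr.near_zero {W : ι → ℂ → ℂ} (hW : ∀ i, Differentiable ℂ (W i)) {ρ K : ℝ} (h : Gr W ρ K)
    (hρ : 0 < ρ) {φ ψ : ℝ} (hψ : vv W ρ ψ = 0) (hd : |φ - ψ| ≤ Real.pi / (4 * ρ)) :
    vv W ρ φ ≤ 2 * (K * 2 ^ ρ) * ρ * |φ - ψ| := by
  set c : ℝ := Real.pi / (4 * ρ) with hc
  have hc0 : 0 < c := by positivity
  have hcρ : ρ * c = Real.pi / 4 := by rw [hc]; field_simp
  have hK : 0 ≤ K * 2 ^ ρ := mul_nonneg h.1 (Real.rpow_nonneg (by norm_num) _)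
  have hpi : 2 * c < Real.pi / ρ := by
    rw [lt_div_iff₀ hρ]
    nlinarith [Real.pi_pos]
  have aux : ∀ d : ℝ, 0 < d → d ≤ c → ∀ w : ℝ, 0 ≤ w → w ≤ K * 2 ^ ρ →
      w * Real.sin (ρ * d) / Real.sin (ρ * (c + d)) ≤ 2 * (K * 2 ^ ρ) * ρ * d := by
    intro d hd0 hd w hw0 hw
    have e1 : Real.sin (ρ * d) ≤ ρ * d := Real.sin_le (by positivity)
    have e2 : 1 / 2 ≤ Real.sin (ρ * (c + d)) := by
      have f1 : Real.pi / 4 ≤ ρ * (c + d) := by nlinarith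
      have f2 : ρ * (c + d) ≤ Real.pi / 2 := by nlinarith
      have f3 := Real.mul_le_sin (by nlinarith [Real.pi_pos]) f2
      refine le_trans ?_ f3
      rw [div_mul_eq_mul_div, le_div_iff₀ Real.pi_pos]
      linarith
    have e3 : 0 ≤ Real.sin (ρ * d) := by
      apply Real.sin_nonneg_of_nonneg_of_le_pi (by positivity)
      nlinarith [Real.pi_pos]
    rw [div_le_iff₀ (by linarith)]
    calc w * Real.sin (ρ * d) ≤ (K * 2 ^ ρ) * (ρ * d) := mul_le_mul hw e1 e3 hK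
      _ = 2 * (K * 2 ^ ρ) * ρ * d * (1 / 2) := by ring
      _ ≤ 2 * (K * 2 ^ ρ) * ρ * d * Real.sin (ρ * (c + d)) :=
        mul_le_mul_of_nonneg_left e2 (by positivity)
  rcases lt_trichotomy ψ φ with hlt | heq | hgt
  · have hd' : |φ - ψ| = φ - ψ := abs_of_pos (by linarith)
    rw [hd'] at hd ⊢
    have e := h.convex hW hρ (φ₁ := ψ) (φ₂ := φ + c) (φ := φ) (by linarith) ⟨hlt, by linarith⟩
    rw [hψ, zero_mul, zero_add] at e
    refine e.trans ?_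
    have := aux (φ - ψ) (by linarith) hd (vv W ρ (φ + c)) (vv_nonneg _ _ _) (h.vv_bound hρ _)
    rw [show c + (φ - ψ) = φ + c - ψ by ring] at this
    exact this
  · rw [← heq, hψ]
    positivity
  · have hd' : |φ - ψ| = ψ - φ := by rw [abs_sub_comm]; exact abs_of_pos (by linarith)
    rw [hd'] at hd ⊢
    have e := h.convex hW hρ (φ₁ := φ - c) (φ₂ := ψ) (φ := φ) (by linarith) ⟨by linarith, hgt⟩
    rw [hψ, zero_mul, add_zero] at e
    refine e.trans ?_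
    have := aux (ψ - φ) (by linarith) hd (vv W ρ (φ - c)) (vv_nonneg _ _ _) (h.vv_bound hρ _)
    rw [show c + (ψ - φ) = ψ - (φ - c) by ring] at this
    exact this

/-- the zero set of the indicator is closed -/
lemma Gr.closed {W : ι → ℂ → ℂ} (hW : ∀ i, Differentiable ℂ (W i)) {ρ K : ℝ} (h : Gr W ρ K)
    (hρ : 0 < ρ) : IsClosed {φ : ℝ | vv W ρ φ = 0} := by
  rw [← isSeqClosed_iff_isClosed]
  intro x φ hx hlim
  have hx' : ∀ n, vv W ρ (x n) = 0 := hx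
  have e1 : Tendsto (fun n => 2 * (K * 2 ^ ρ) * ρ * |φ - x n|) atTop (𝓝 0) := by
    have : Tendsto (fun n => |φ - x n|) atTop (𝓝 |φ - φ|) :=
      (tendsto_const_nhds.sub hlim).abs
    rw [sub_self, abs_zero] at this
    simpa using this.const_mul (2 * (K * 2 ^ ρ) * ρ)
  have e2 : ∀ᶠ n in atTop, vv W ρ φ ≤ 2 * (K * 2 ^ ρ) * ρ * |φ - x n| := by
    have : ∀ᶠ n in atTop, |φ - x n| < Real.pi / (4 * ρ) := by
      have h3 : Tendsto (fun n => |φ - x n|) atTop (𝓝 |φ - φ|) :=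
        (tendsto_const_nhds.sub hlim).abs
      rw [sub_self, abs_zero] at h3
      exact h3.eventually (gt_mem_nhds (by positivity))
    filter_upwards [this] with n hn
    exact h.near_zero hW hρ (hx' n) hn.le
  exact le_antisymm (ge_of_tendsto e1 e2) (vv_nonneg _ _ _)

/-- the second order comparison of sinusoids -/
lemma trig_cmp {ρ ρ' θ : ℝ} (hρ : 0 < ρ) (hlt : ρ < ρ') (hc : 0 < Real.cos (ρ' * θ)) :
    ∃ κ t : ℝ, 0 < κ ∧ 0 < t ∧ ∀ y : ℝ, |y| ≤ t →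
      Real.cos (ρ' * (y + θ)) + κ * y ^ 2 ≤
        Real.cos (ρ' * θ) * Real.cos (ρ * y) -
          (ρ' / ρ) * Real.sin (ρ' * θ) * Real.sin (ρ * y) := by
  set c := Real.cos (ρ' * θ) with hcdef
  set s := Real.sin (ρ' * θ) with hsdef
  have hρ' : 0 < ρ' := hρ.trans hlt
  set κ := c * (ρ' ^ 2 - ρ ^ 2) / 4 with hκ
  have hκ0 : 0 < κ := by
    have : 0 < ρ' ^ 2 - ρ ^ 2 := by nlinarith
    positivity
  refine ⟨κ, min (1 / ρ') (κ / ρ' ^ 3), hκ0, by positivity, fun y hy => ?_⟩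
  have hy1 : |y| ≤ 1 / ρ' := hy.trans (min_le_left _ _)
  have hy2 : |y| ≤ κ / ρ' ^ 3 := hy.trans (min_le_right _ _)
  have hy1' : ρ' * |y| ≤ 1 := by
    rw [le_div_iff₀ hρ'] at hy1
    linarith
  have hy2' : ρ' ^ 3 * |y| ≤ κ := by
    rw [le_div_iff₀ (by positivity)] at hy2
    linarith
  have hc1 : c ≤ 1 := Real.cos_le_one _
  have hs1 : |s| ≤ 1 := Real.abs_sin_le_one _
  have ha1 : |ρ' * y| ≤ 1 := by rw [abs_mul, abs_of_pos hρ']; exact hy1'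
  have ha2 : |ρ * y| ≤ 1 := by
    rw [abs_mul, abs_of_pos hρ]
    exact (mul_le_mul_of_nonneg_right hlt.le (abs_nonneg y)).trans hy1'
  have hysq : y ^ 2 = |y| ^ 2 := (sq_abs y).symm
  -- cosines
  have c1 : 1 - (ρ * y) ^ 2 / 2 ≤ Real.cos (ρ * y) := Real.one_sub_sq_div_two_le_cos
  have c2 : Real.cos (ρ' * y) ≤ 1 - (ρ' * y) ^ 2 / 2 + |ρ' * y| ^ 4 * (5 / 96) := by
    have := Real.cos_bound ha1
    have := (abs_le.mp this).2
    linarith
  have c3 : (ρ' ^ 2 - ρ ^ 2) / 2 * |y| ^ 2 - ρ' ^ 4 * |y| ^ 4 * (5 / 96) ≤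
      Real.cos (ρ * y) - Real.cos (ρ' * y) := by
    have e1 : |ρ' * y| ^ 4 = ρ' ^ 4 * |y| ^ 4 := by rw [abs_mul, abs_of_pos hρ', mul_pow]
    rw [e1] at c2
    rw [mul_pow, hysq] at c1 c2
    linarith
  -- sines
  have sb : ∀ x : ℝ, |x| ≤ 1 → |Real.sin x - x| ≤ |x| ^ 3 / 5 := by
    intro x hx
    have h1 := Real.sin_bound hx
    have h2 : |Real.sin x - x| ≤ |Real.sin x - (x - x ^ 3 / 6)| + |x ^ 3 / 6| := by
      calc |Real.sin x - x| = |(Real.sin x - (x - x ^ 3 / 6)) + (-(x ^ 3 / 6))| := by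
            congr 1; ring
        _ ≤ _ := by
          refine (abs_add_le _ _).trans ?_
          rw [abs_neg]
    have h3 : |x ^ 3 / 6| = |x| ^ 3 / 6 := by
      rw [abs_div, abs_pow]; norm_num
    have h4 : |x| ^ 5 ≤ |x| ^ 3 := pow_le_pow_of_le_one (abs_nonneg x) hx (by norm_num)
    rw [h3] at h2
    have h5 : 0 ≤ |x| ^ 3 := by positivity
    linarith
  have s1 := sb _ ha1
  have s2 := sb _ ha2
  have s3 : |Real.sin (ρ' * y) - ρ' / ρ * Real.sin (ρ * y)| ≤ ρ' ^ 3 * |y| ^ 3 * (2 / 5) := by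
    have e1 : Real.sin (ρ' * y) - ρ' / ρ * Real.sin (ρ * y) =
        (Real.sin (ρ' * y) - ρ' * y) - ρ' / ρ * (Real.sin (ρ * y) - ρ * y) := by
      field_simp
      ring
    have e2 : |ρ' / ρ * (Real.sin (ρ * y) - ρ * y)| ≤ ρ' ^ 3 * |y| ^ 3 / 5 := by
      rw [abs_mul, abs_of_pos (by positivity : (0:ℝ) < ρ' / ρ)]
      calc ρ' / ρ * |Real.sin (ρ * y) - ρ * y| ≤ ρ' / ρ * (|ρ * y| ^ 3 / 5) :=
            mul_le_mul_of_nonneg_left s2 (by positivity)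
        _ = ρ' * ρ ^ 2 * |y| ^ 3 / 5 := by
            rw [abs_mul, abs_of_pos hρ, mul_pow]; field_simp
        _ ≤ ρ' ^ 3 * |y| ^ 3 / 5 := by
            have h6 : ρ ^ 2 ≤ ρ' ^ 2 := pow_le_pow_left₀ hρ.le hlt.le 2
            have h7 : ρ' * ρ ^ 2 ≤ ρ' * ρ' ^ 2 := mul_le_mul_of_nonneg_left h6 hρ'.le
            have h5 : 0 ≤ |y| ^ 3 := by positivity
            have h8 := mul_le_mul_of_nonneg_right h7 h5
            have h9 : ρ' * ρ' ^ 2 * |y| ^ 3 = ρ' ^ 3 * |y| ^ 3 := by ring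
            rw [h9] at h8
            linarith
    have e3 : |ρ' * y| ^ 3 = ρ' ^ 3 * |y| ^ 3 := by rw [abs_mul, abs_of_pos hρ', mul_pow]
    rw [e1]
    rw [e3] at s1
    refine (abs_sub _ _).trans ?_
    linarith
  have s4 : -(ρ' ^ 3 * |y| ^ 3 * (2 / 5)) ≤
      s * (Real.sin (ρ' * y) - ρ' / ρ * Real.sin (ρ * y)) := by
    have : |s * (Real.sin (ρ' * y) - ρ' / ρ * Real.sin (ρ * y))| ≤
        1 * (ρ' ^ 3 * |y| ^ 3 * (2 / 5)) := by
      rw [abs_mul]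
      exact mul_le_mul hs1 s3 (abs_nonneg _) zero_le_one
    have := (abs_le.mp this).1
    linarith
  have key : Real.cos (ρ' * (y + θ)) =
      c * Real.cos (ρ' * y) - s * Real.sin (ρ' * y) := by
    rw [mul_add, Real.cos_add]
    ring
  rw [key, hysq]
  have f1 : c * ((ρ' ^ 2 - ρ ^ 2) / 2 * |y| ^ 2 - ρ' ^ 4 * |y| ^ 4 * (5 / 96)) ≤
      c * (Real.cos (ρ * y) - Real.cos (ρ' * y)) := mul_le_mul_of_nonneg_left c3 hc.le
  have f2 : c * (ρ' ^ 4 * |y| ^ 4 * (5 / 96)) ≤ ρ' ^ 3 * |y| ^ 3 * (5 / 96) := by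
    have g1 : ρ' ^ 4 * |y| ^ 4 = (ρ' ^ 3 * |y| ^ 3) * (ρ' * |y|) := by ring
    have g2 : 0 ≤ ρ' ^ 3 * |y| ^ 3 := by positivity
    have g3 : ρ' ^ 4 * |y| ^ 4 ≤ ρ' ^ 3 * |y| ^ 3 := by
      rw [g1]
      exact mul_le_of_le_one_right g2 hy1'
    have g4 : 0 ≤ ρ' ^ 4 * |y| ^ 4 * (5 / 96) := by positivity
    calc c * (ρ' ^ 4 * |y| ^ 4 * (5 / 96)) ≤ 1 * (ρ' ^ 4 * |y| ^ 4 * (5 / 96)) :=
          mul_le_mul_of_nonneg_right hc1 g4
      _ ≤ ρ' ^ 3 * |y| ^ 3 * (5 / 96) := by linarith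
  have f3 : ρ' ^ 3 * |y| ^ 3 ≤ κ * |y| ^ 2 := by
    have g1 : ρ' ^ 3 * |y| ^ 3 = (ρ' ^ 3 * |y|) * |y| ^ 2 := by ring
    rw [g1]
    exact mul_le_mul_of_nonneg_right hy2' (by positivity)
  have f4 : c * ((ρ' ^ 2 - ρ ^ 2) / 2 * |y| ^ 2) = 2 * κ * |y| ^ 2 := by
    rw [hκ]; ring
  have f5 : 0 ≤ ρ' ^ 3 * |y| ^ 3 := by positivity
  have f6 : c * ((ρ' ^ 2 - ρ ^ 2) / 2 * |y| ^ 2 - ρ' ^ 4 * |y| ^ 4 * (5 / 96)) =
      2 * κ * |y| ^ 2 - c * (ρ' ^ 4 * |y| ^ 4 * (5 / 96)) := by rw [mul_sub, f4]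
  have f7 : c * Real.cos (ρ * y) - ρ' / ρ * s * Real.sin (ρ * y) -
      (c * Real.cos (ρ' * y) - s * Real.sin (ρ' * y)) =
      c * (Real.cos (ρ * y) - Real.cos (ρ' * y)) +
        s * (Real.sin (ρ' * y) - ρ' / ρ * Real.sin (ρ * y)) := by ring
  have f8 : 2 * κ * |y| ^ 2 = 2 * (κ * |y| ^ 2) := by ring
  rw [f6, f8] at f1
  linarith

/-- hypothesis H5 at one base angle -/
def Loc (W : ι → ℂ → ℂ) (ρ : ℝ) (e : ℝ → ℝ) (φ C Λ t₀ : ℝ) : Prop :=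
  ∀ (t r : ℝ), 0 < t → t ≤ t₀ → Λ ≤ r →
      ∃ A : ℂ → ℂ,
        DifferentiableOn ℂ A (Metric.closedBall 0 t) ∧
        (∀ z : ℂ, ‖z‖ ≤ t → ∀ B : ℝ, 0 ≤ B →
          (∀ i, ‖W i (r * Complex.exp (φ * Complex.I) * Complex.exp z)‖ ≤ B) →
          ‖A z‖ ≤ Real.exp (C * Real.sqrt r) * (B + Real.exp (C * t * r ^ ρ)) *
            Real.exp (- (e (φ + z.im) * (r * Real.exp z.re) ^ ρ))) ∧
        (∀ z : ℂ, ‖z‖ ≤ t → ∀ i,
          ‖W i (r * Complex.exp (φ * Complex.I) * Complex.exp z)‖ ≤ Real.exp (C * Real.sqrt r) *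
            (‖A z‖ * Real.exp (e (φ + z.im) * (r * Real.exp z.re) ^ ρ) +
              Real.exp (C * t * r ^ ρ)))

lemma ray_mul (r φ : ℝ) (z : ℂ) : (r : ℂ) * Complex.exp (φ * Complex.I) * Complex.exp z =
    ((r * Real.exp z.re : ℝ) : ℂ) * Complex.exp (((φ + z.im : ℝ) : ℂ) * Complex.I) := by
  have : Complex.exp z = Complex.exp (z.re) * Complex.exp (z.im * Complex.I) := by
    rw [← Complex.exp_add, Complex.re_add_im]
  rw [this]
  push_cast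
  rw [add_mul, Complex.exp_add]
  ring

lemma sqrt_small (C L ε : ℝ) (hC : 0 ≤ C) (hL : 0 ≤ L) (hε : 0 < ε) {ρ : ℝ} (hρ : 1 ≤ ρ) :
    ∃ N : ℝ, 1 ≤ N ∧ ∀ r : ℝ, N ≤ r → 2 * C * Real.sqrt r + L ≤ ε * r ^ ρ := by
  refine ⟨(1 + (2 * C + L) / ε) ^ 2, ?_, fun r hr => ?_⟩
  · have : 0 ≤ (2 * C + L) / ε := by positivity
    nlinarith
  · have h0 : 0 ≤ (2 * C + L) / ε := by positivity
    have hs : 1 + (2 * C + L) / ε ≤ Real.sqrt r := Real.le_sqrt_of_sq_le hr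
    have hr1 : 1 ≤ r := by nlinarith
    have h1 : 1 ≤ Real.sqrt r := by linarith
    have h2 : (2 * C + L) ≤ ε * Real.sqrt r := by
      have : (2 * C + L) / ε ≤ Real.sqrt r := by linarith
      rw [div_le_iff₀ hε] at this
      linarith
    have h3 : Real.sqrt r * Real.sqrt r = r := Real.mul_self_sqrt (by linarith)
    have h4 : r ≤ r ^ ρ := by
      calc r = r ^ (1 : ℝ) := (Real.rpow_one r).symm
        _ ≤ r ^ ρ := Real.rpow_le_rpow_of_exponent_le hr1 hρ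
    calc 2 * C * Real.sqrt r + L ≤ (2 * C + L) * Real.sqrt r := by nlinarith
      _ ≤ (ε * Real.sqrt r) * Real.sqrt r := mul_le_mul_of_nonneg_right h2 (by linarith)
      _ = ε * r := by rw [mul_assoc, h3]
      _ ≤ ε * r ^ ρ := mul_le_mul_of_nonneg_left h4 hε.le

lemma disc_facts {ρ t r : ℝ} (hρ : 1 ≤ ρ) (htρ : ρ * t ≤ 1 / 2) (hr2 : 2 ≤ r) {z : ℂ}
    (hz : ‖z‖ ≤ t) : |z.im| ≤ t ∧ 1 / 2 ≤ Real.exp (ρ * z.re) ∧
      Real.exp (ρ * z.re) ≤ 2 ∧ 1 ≤ r * Real.exp z.re ∧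
      (r * Real.exp z.re) ^ ρ = Real.exp (ρ * z.re) * r ^ ρ := by
  have h1 : |z.im| ≤ t := (Complex.abs_im_le_norm z).trans hz
  have h2 : |z.re| ≤ t := (Complex.abs_re_le_norm z).trans hz
  have h9 : |ρ * z.re| ≤ 1 / 2 := by
    rw [abs_mul, abs_of_pos (by linarith : (0:ℝ) < ρ)]
    exact (mul_le_mul_of_nonneg_left h2 (by linarith)).trans htρ
  have h9' : |z.re| ≤ 1 / 2 := by
    have : 1 * |z.re| ≤ |ρ * z.re| := by
      rw [abs_mul, abs_of_pos (by linarith : (0:ℝ) < ρ)]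
      exact mul_le_mul_of_nonneg_right hρ (abs_nonneg _)
    linarith
  have h4 := (abs_le.mp h9).1
  have h5 := (abs_le.mp h9).2
  have h6 := (abs_le.mp h9').1
  have h7 : 1 / 2 ≤ Real.exp (-(1 / 2 : ℝ)) := by
    have := Real.add_one_le_exp (-(1 / 2 : ℝ))
    linarith
  have h8 : Real.exp (1 / 2 : ℝ) ≤ 2 := by
    have e1 : Real.exp (1 / 2 : ℝ) * Real.exp (-(1 / 2 : ℝ)) = 1 := by
      rw [← Real.exp_add]; norm_num
    have e2 : Real.exp (1 / 2 : ℝ) * (1 / 2) ≤ Real.exp (1 / 2 : ℝ) * Real.exp (-(1 / 2 : ℝ)) :=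
      mul_le_mul_of_nonneg_left h7 (Real.exp_pos _).le
    linarith
  refine ⟨h1, h7.trans (Real.exp_le_exp.mpr h4), (Real.exp_le_exp.mpr h5).trans h8, ?_, ?_⟩
  · have e1 := h7.trans (Real.exp_le_exp.mpr h6)
    calc (1:ℝ) = 2 * (1 / 2) := by norm_num
      _ ≤ r * Real.exp z.re := mul_le_mul hr2 e1 (by norm_num) (by linarith)
  · rw [Real.mul_rpow (by linarith) (Real.exp_pos _).le, exp_rpow]
    ring

/-- a majorant of the indicator cannot touch it at an interior point -/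
lemma Gr.no_touch {W : ι → ℂ → ℂ} {ρ K : ℝ} (h : Gr W ρ K) (hρ : 1 ≤ ρ) {e : ℝ → ℝ}
    {φ₁ φ₂ φ₀ A B μ ρ' m : ℝ} (he : ContinuousOn e (Icc φ₁ φ₂)) (h0 : φ₀ ∈ Ioo φ₁ φ₂)
    (hρ' : ρ < ρ') (hμ : 0 < μ) (hcos : 0 < Real.cos (ρ' * (φ₀ - m)))
    (hle : ∀ φ ∈ Icc φ₁ φ₂, vv W ρ φ ≤ e φ + TT ρ A B φ + μ * Real.cos (ρ' * (φ - m)))
    (heq : vv W ρ φ₀ = e φ₀ + TT ρ A B φ₀ + μ * Real.cos (ρ' * (φ₀ - m)))
    (hpos : 0 < vv W ρ φ₀) {C Λ t₀ : ℝ} (hC : 0 < C) (ht₀ : 0 < t₀)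
    (H : Loc W ρ e φ₀ C Λ t₀) : False := by
  have hρ0 : 0 < ρ := by linarith
  set V : ℝ → ℝ := fun φ => e φ + TT ρ A B φ + μ * Real.cos (ρ' * (φ - m)) with hV
  have hVc : ContinuousOn V (Icc φ₁ φ₂) := by
    apply (he.add (TT_cont ρ A B).continuousOn).add
    fun_prop
  set v0 := vv W ρ φ₀ with hv0
  have hV0 : V φ₀ = v0 := heq.symm
  set θ := φ₀ - m with hθ
  obtain ⟨κ₁, t₁, hκ₁, ht₁, htrig⟩ := trig_cmp hρ0 hρ' hcos
  have hnhd : Icc φ₁ φ₂ ∈ 𝓝 φ₀ := Icc_mem_nhds h0.1 h0.2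
  have hVat : ContinuousAt V φ₀ := hVc.continuousAt hnhd
  have heat : ContinuousAt e φ₀ := he.continuousAt hnhd
  obtain ⟨t₂, ht₂, hloc⟩ : ∃ t₂ > 0, ∀ φ, |φ - φ₀| < t₂ → v0 / 2 < V φ ∧ φ ∈ Icc φ₁ φ₂ := by
    have e1 : ∀ᶠ φ in 𝓝 φ₀, v0 / 2 < V φ :=
      hVat.eventually (lt_mem_nhds (by rw [hV0]; linarith))
    obtain ⟨t, ht, h1⟩ := Metric.eventually_nhds_iff.mp (e1.and hnhd)
    exact ⟨t, ht, fun φ hφ => h1 (by rwa [Real.dist_eq])⟩
  obtain ⟨t, ht, htt₀, htt₁, htt₂, htρ, htC⟩ : ∃ t : ℝ, 0 < t ∧ t ≤ t₀ ∧ t ≤ t₁ ∧ t < t₂ ∧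
      ρ * t ≤ 1 / 2 ∧ C * t ≤ v0 / 4 := by
    refine ⟨min (min t₀ t₁) (min (t₂ / 2) (min (1 / (2 * ρ)) (v0 / (4 * C)))), by positivity,
      (min_le_left _ _).trans (min_le_left _ _), (min_le_left _ _).trans (min_le_right _ _), ?_,
      ?_, ?_⟩
    · refine ((min_le_right _ _).trans (min_le_left _ _)).trans_lt (by linarith)
    · calc ρ * _ ≤ ρ * (1 / (2 * ρ)) := mul_le_mul_of_nonneg_left
            ((min_le_right _ _).trans ((min_le_right _ _).trans (min_le_left _ _))) hρ0.le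
        _ = 1 / 2 := by field_simp
    · calc C * _ ≤ C * (v0 / (4 * C)) := mul_le_mul_of_nonneg_left
            ((min_le_right _ _).trans ((min_le_right _ _).trans (min_le_right _ _))) hC.le
        _ = v0 / 4 := by field_simp
  set κ := μ * κ₁ / 4 with hκ
  have hκ0 : 0 < κ := by positivity
  obtain ⟨ε, hε, hε1, hε2⟩ : ∃ ε : ℝ, 0 < ε ∧ 8 * ε ≤ κ * t ^ 2 ∧ ε ≤ v0 / 4 :=
    ⟨min (κ * t ^ 2 / 8) (v0 / 4), by positivity, by
      have := min_le_left (κ * t ^ 2 / 8) (v0 / 4)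
      linarith, min_le_right _ _⟩
  obtain ⟨Cε, hCε, hunif⟩ := h.unif hρ0 (ψ := fun φ => V φ + ε) (hVc.add continuousOn_const)
    (fun φ hφ => (hle φ hφ).trans_lt (by simp only [hV]; linarith))
  set L := Real.log (2 * (Cε + 1)) with hL
  have hL2 : Real.exp L = 2 * (Cε + 1) := Real.exp_log (by linarith)
  have hL0 : Real.log 2 ≤ L := Real.log_le_log (by norm_num) (by linarith)
  have hlog2 : 0 < Real.log 2 := Real.log_pos (by norm_num)
  obtain ⟨N, hN1, hN⟩ := sqrt_small C L ε hC.le (by linarith) hε hρ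
  -- the harmonic majorant
  set a : ℝ := A * Real.cos (ρ * φ₀) + B * Real.sin (ρ * φ₀) + μ * Real.cos (ρ' * θ) with ha
  set b : ℝ := -(A * Real.sin (ρ * φ₀)) + B * Real.cos (ρ * φ₀) -
    μ * (ρ' / ρ) * Real.sin (ρ' * θ) with hb
  have hab : ∀ y, TT ρ a b y = TT ρ A B (φ₀ + y) + μ * (Real.cos (ρ' * θ) * Real.cos (ρ * y) -
      (ρ' / ρ) * Real.sin (ρ' * θ) * Real.sin (ρ * y)) := by
    intro y
    simp only [TT, ha, hb]
    rw [mul_add, Real.cos_add, Real.sin_add]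
    ring
  set Hr : ℂ → ℝ := fun z => Real.exp (ρ * z.re) * TT ρ a b z.im + κ * (z.re ^ 2 - z.im ^ 2) -
    κ * t ^ 2 with hHr
  set HC : ℂ → ℂ := fun z => ((a : ℂ) - b * Complex.I) * Complex.exp (ρ * z) + κ * z ^ 2 -
    ((κ * t ^ 2 : ℝ) : ℂ) with hHC
  have hre : ∀ z, (HC z).re = Hr z := by
    intro z
    have e1 : (z ^ 2).re = z.re ^ 2 - z.im ^ 2 := by
      rw [sq z, Complex.mul_re]
      ring
    rw [show HC z = ((a : ℂ) - b * Complex.I) * Complex.exp (ρ * z) + κ * z ^ 2 -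
      ((κ * t ^ 2 : ℝ) : ℂ) from rfl, Complex.sub_re, Complex.add_re, re_TT, Complex.ofReal_re,
      Complex.re_ofReal_mul, e1]
  have hHr0 : Hr 0 = v0 - e φ₀ - κ * t ^ 2 := by
    simp only [hHr, Complex.zero_re, Complex.zero_im, mul_zero, Real.exp_zero, one_mul]
    rw [hab, add_zero, mul_zero, Real.cos_zero, Real.sin_zero, heq]
    ring
  have hHrc : Continuous (fun y : ℝ => Hr (y * Complex.I)) := by
    have e1 : (fun y : ℝ => Hr (y * Complex.I)) = fun y : ℝ => TT ρ a b y - κ * y ^ 2 -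
        κ * t ^ 2 := by
      funext y
      simp only [hHr]
      simp
      ring
    rw [e1]
    have := TT_cont ρ a b
    fun_prop
  obtain ⟨δ, hδ, hδt, hδ1⟩ : ∃ δ > 0, δ ≤ t ∧ ∀ φ, |φ - φ₀| < δ → e φ < e φ₀ + ε ∧
      Hr (((φ - φ₀ : ℝ) : ℂ) * Complex.I) < Hr 0 + ε := by
    have e1 : ∀ᶠ φ in 𝓝 φ₀, e φ < e φ₀ + ε := heat.eventually (gt_mem_nhds (by linarith))
    have e2 : ∀ᶠ φ in 𝓝 φ₀, Hr (((φ - φ₀ : ℝ) : ℂ) * Complex.I) < Hr 0 + ε := by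
      have h3 : ContinuousAt (fun φ : ℝ => Hr (((φ - φ₀ : ℝ) : ℂ) * Complex.I)) φ₀ :=
        (hHrc.comp (continuous_id.sub continuous_const)).continuousAt
      apply h3.eventually (gt_mem_nhds _)
      simp only [sub_self, Complex.ofReal_zero, zero_mul]
      linarith
    obtain ⟨δ, hδ, h3⟩ := Metric.eventually_nhds_iff.mp (e1.and e2)
    exact ⟨min δ t, by positivity, min_le_right _ _, fun φ hφ =>
      h3 (by rw [Real.dist_eq]; exact hφ.trans_le (min_le_left _ _))⟩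
  obtain ⟨i, r, φ', hNr, hr1, hφ', hbig⟩ := h.large hρ0 (φ := φ₀) (η := v0 - ε) (by linarith)
    (by linarith) hδ (max (max N Λ) 2)
  have hrN : N ≤ r := ((le_max_left _ _).trans (le_max_left _ _)).trans hNr.le
  have hrΛ : Λ ≤ r := ((le_max_right _ _).trans (le_max_left _ _)).trans hNr.le
  have hr2 : 2 ≤ r := (le_max_right _ _).trans hNr.le
  have hsmall := hN r hrN
  set R := r ^ ρ with hR
  have hR0 : 0 < R := Real.rpow_pos_of_pos (by linarith) _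
  set S := Real.sqrt r with hS
  have hS0 : 0 ≤ S := Real.sqrt_nonneg _
  obtain ⟨F, hFd, hFU, hFL⟩ := H t r ht htt₀ hrΛ
  -- elementary facts for `‖z‖ ≤ t`
  have hz : ∀ z : ℂ, ‖z‖ ≤ t → |z.im| ≤ t ∧ 1 / 2 ≤ Real.exp (ρ * z.re) ∧
      Real.exp (ρ * z.re) ≤ 2 ∧ 1 ≤ r * Real.exp z.re ∧
      (r * Real.exp z.re) ^ ρ = Real.exp (ρ * z.re) * R := fun z hz =>
    disc_facts hρ htρ hr2 hz
  -- upper bound on the disc
  set D := Real.exp (C * S) * (Cε + 1) with hD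
  have hD0 : 0 < D := by positivity
  have hup : ∀ z : ℂ, ‖z‖ ≤ t → ‖F z‖ ≤ D * Real.exp (R * (Real.exp (ρ * z.re) *
      (V (φ₀ + z.im) - e (φ₀ + z.im)) + 2 * ε)) := by
    intro z hzt
    obtain ⟨h1, h2, h3, h4, h5⟩ := hz z hzt
    obtain ⟨h6, h7⟩ := hloc (φ₀ + z.im) (by
      rw [add_sub_cancel_left]
      exact h1.trans_lt htt₂)
    have hB := hFU z hzt (Cε * Real.exp ((V (φ₀ + z.im) + ε) * (r * Real.exp z.re) ^ ρ))
      (by positivity) (fun i => by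
        rw [ray_mul]
        exact hunif i _ _ h4 h7)
    rw [h5] at hB
    refine hB.trans ?_
    have e1 : Real.exp (C * t * R) ≤
        Real.exp ((V (φ₀ + z.im) + ε) * (Real.exp (ρ * z.re) * R)) := by
      apply Real.exp_le_exp.mpr
      rw [← mul_assoc]
      apply mul_le_mul_of_nonneg_right _ hR0.le
      have g1 : v0 / 2 * (1 / 2) ≤ (V (φ₀ + z.im) + ε) * Real.exp (ρ * z.re) :=
        mul_le_mul (by linarith) h2 (by norm_num) (by linarith)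
      linarith
    calc Real.exp (C * S) * (Cε * Real.exp ((V (φ₀ + z.im) + ε) * (Real.exp (ρ * z.re) * R)) +
          Real.exp (C * t * R)) * Real.exp (-(e (φ₀ + z.im) * (Real.exp (ρ * z.re) * R)))
        ≤ Real.exp (C * S) * (Cε * Real.exp ((V (φ₀ + z.im) + ε) * (Real.exp (ρ * z.re) * R)) +
          Real.exp ((V (φ₀ + z.im) + ε) * (Real.exp (ρ * z.re) * R))) *
            Real.exp (-(e (φ₀ + z.im) * (Real.exp (ρ * z.re) * R))) := by
          gcongr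
      _ = D * Real.exp ((V (φ₀ + z.im) + ε) * (Real.exp (ρ * z.re) * R) +
            -(e (φ₀ + z.im) * (Real.exp (ρ * z.re) * R))) := by
          rw [Real.exp_add, hD]
          ring
      _ ≤ D * Real.exp (R * (Real.exp (ρ * z.re) *
            (V (φ₀ + z.im) - e (φ₀ + z.im)) + 2 * ε)) := by
          apply mul_le_mul_of_nonneg_left _ hD0.le
          apply Real.exp_le_exp.mpr
          have g1 : ε * Real.exp (ρ * z.re) * R ≤ ε * 2 * R :=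
            mul_le_mul_of_nonneg_right (mul_le_mul_of_nonneg_left h3 hε.le) hR0.le
          have g2 : (V (φ₀ + z.im) + ε) * (Real.exp (ρ * z.re) * R) +
              -(e (φ₀ + z.im) * (Real.exp (ρ * z.re) * R)) = R * (Real.exp (ρ * z.re) *
            (V (φ₀ + z.im) - e (φ₀ + z.im))) + ε * Real.exp (ρ * z.re) * R := by ring
          have g3 : R * (Real.exp (ρ * z.re) * (V (φ₀ + z.im) - e (φ₀ + z.im)) + 2 * ε) =
            R * (Real.exp (ρ * z.re) * (V (φ₀ + z.im) - e (φ₀ + z.im))) + ε * 2 * R := by ring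
          rw [g2, g3]
          linarith
  -- comparison on the circle
  have hcmp : ∀ z : ℂ, ‖z‖ = t → Real.exp (ρ * z.re) * (V (φ₀ + z.im) - e (φ₀ + z.im)) ≤
      Hr z := by
    intro z hzt
    obtain ⟨h1, h2, h3, h4, h5⟩ := hz z hzt.le
    have g1 := htrig z.im (h1.trans htt₁)
    have g2 : z.re ^ 2 = t ^ 2 - z.im ^ 2 := by
      have := Complex.sq_norm z
      rw [Complex.normSq_apply, hzt] at this
      linarith
    simp only [hHr, hV]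
    rw [hab, g2, show φ₀ + z.im - m = z.im + θ by rw [hθ]; ring]
    have g3 : μ * κ₁ * z.im ^ 2 * (1 / 2) ≤ μ * κ₁ * z.im ^ 2 * Real.exp (ρ * z.re) :=
      mul_le_mul_of_nonneg_left h2 (by positivity)
    have g4 : Real.exp (ρ * z.re) * (μ * (Real.cos (ρ' * (z.im + θ)) + κ₁ * z.im ^ 2)) ≤
        Real.exp (ρ * z.re) * (μ * (Real.cos (ρ' * θ) * Real.cos (ρ * z.im) -
          ρ' / ρ * Real.sin (ρ' * θ) * Real.sin (ρ * z.im))) := by
      apply mul_le_mul_of_nonneg_left _ (Real.exp_pos _).le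
      exact mul_le_mul_of_nonneg_left g1 hμ.le
    have g5 : κ = μ * κ₁ / 4 := hκ
    rw [g5]
    linarith
  -- maximum principle
  have hmax : ∀ z : ℂ, ‖z‖ ≤ t → ‖F z‖ ≤ D * Real.exp (R * (Hr z + 2 * ε)) := by
    intro z hzt
    have e1 : ‖F z * Complex.exp (-(R * HC z))‖ ≤ D * Real.exp (R * (2 * ε)) := by
      refine Complex.norm_le_of_forall_mem_frontier_norm_le (U := Metric.ball 0 t)
        (f := fun z => F z * Complex.exp (-(R * HC z))) Metric.isBounded_ball ?_ ?_ ?_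
      · apply DifferentiableOn.diffContOnCl
        rw [closure_ball _ ht.ne']
        apply hFd.mul
        apply Differentiable.differentiableOn
        simp only [hHC]
        fun_prop
      · intro w hw
        rw [frontier_ball _ ht.ne', mem_sphere_zero_iff_norm] at hw
        rw [norm_mul, Complex.norm_exp, Complex.neg_re, Complex.re_ofReal_mul, hre]
        calc ‖F w‖ * Real.exp (-(R * Hr w))
            ≤ (D * Real.exp (R * (Real.exp (ρ * w.re) *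
              (V (φ₀ + w.im) - e (φ₀ + w.im)) + 2 * ε))) * Real.exp (-(R * Hr w)) :=
              mul_le_mul_of_nonneg_right (hup w hw.le) (Real.exp_pos _).le
          _ = D * Real.exp (R * (Real.exp (ρ * w.re) *
              (V (φ₀ + w.im) - e (φ₀ + w.im)) + 2 * ε) + -(R * Hr w)) := by
              rw [Real.exp_add]; ring
          _ ≤ D * Real.exp (R * (2 * ε)) := by
              apply mul_le_mul_of_nonneg_left _ hD0.le
              apply Real.exp_le_exp.mpr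
              have := mul_le_mul_of_nonneg_left (hcmp w hw) hR0.le
              linarith
      · rw [closure_ball _ ht.ne']
        exact mem_closedBall_zero_iff.mpr hzt
    rw [norm_mul, Complex.norm_exp, Complex.neg_re, Complex.re_ofReal_mul, hre, Real.exp_neg,
      ← div_eq_mul_inv, div_le_iff₀ (Real.exp_pos _), mul_assoc, ← Real.exp_add] at e1
    refine e1.trans (le_of_eq ?_)
    congr 2
    ring
  -- contradiction
  have hzz : ‖((φ' - φ₀ : ℝ) : ℂ) * Complex.I‖ ≤ t := by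
    rw [norm_mul, Complex.norm_I, mul_one, Complex.norm_real, Real.norm_eq_abs]
    exact hφ'.le.trans hδt
  obtain ⟨hd1, hd2⟩ := hδ1 φ' hφ'
  have hlow := hFL _ hzz i
  rw [ray_mul] at hlow
  have i1 : (((φ' - φ₀ : ℝ) : ℂ) * Complex.I).re = 0 := by simp
  have i2 : (((φ' - φ₀ : ℝ) : ℂ) * Complex.I).im = φ' - φ₀ := by simp
  rw [i1, i2, Real.exp_zero, mul_one, add_sub_cancel] at hlow
  have hup2 := hmax _ hzz
  have f1 : Real.exp ((v0 - ε) * R) < Real.exp (C * S) *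
      (D * Real.exp (R * (v0 - κ * t ^ 2 + 4 * ε)) + Real.exp (C * t * R)) := by
    refine hbig.trans_le (hlow.trans ?_)
    apply mul_le_mul_of_nonneg_left _ (Real.exp_pos _).le
    apply add_le_add _ le_rfl
    calc ‖F (((φ' - φ₀ : ℝ) : ℂ) * Complex.I)‖ * Real.exp (e φ' * R)
        ≤ (D * Real.exp (R * (Hr (((φ' - φ₀ : ℝ) : ℂ) * Complex.I) + 2 * ε))) *
          Real.exp (e φ' * R) := mul_le_mul_of_nonneg_right hup2 (Real.exp_pos _).le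
      _ = D * Real.exp (R * (Hr (((φ' - φ₀ : ℝ) : ℂ) * Complex.I) + 2 * ε) + e φ' * R) := by
          rw [Real.exp_add]; ring
      _ ≤ D * Real.exp (R * (v0 - κ * t ^ 2 + 4 * ε)) := by
          apply mul_le_mul_of_nonneg_left _ hD0.le
          apply Real.exp_le_exp.mpr
          rw [hHr0] at hd2
          have g1 : R * (Hr (((φ' - φ₀ : ℝ) : ℂ) * Complex.I) + 2 * ε) + e φ' * R =
            R * (Hr (((φ' - φ₀ : ℝ) : ℂ) * Complex.I) + 2 * ε + e φ') := by ring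
          rw [g1]
          apply mul_le_mul_of_nonneg_left _ hR0.le
          linarith
  have f2 : Real.exp (C * S) * Real.exp (C * t * R) ≤ Real.exp ((v0 - ε) * R) / 2 := by
    rw [le_div_iff₀ (by norm_num : (0:ℝ) < 2)]
    rw [← Real.exp_add]
    calc Real.exp (C * S + C * t * R) * 2 = Real.exp (C * S + C * t * R + Real.log 2) := by
          rw [Real.exp_add _ (Real.log 2), Real.exp_log (by norm_num)]
      _ ≤ Real.exp ((v0 - ε) * R) := by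
          apply Real.exp_le_exp.mpr
          have g1 : C * t * R ≤ v0 / 4 * R := mul_le_mul_of_nonneg_right htC hR0.le
          have g2 : ε * R ≤ v0 / 4 * R := mul_le_mul_of_nonneg_right hε2 hR0.le
          have g3 : 0 ≤ C * S := by positivity
          have g4 : (v0 - ε) * R = v0 / 4 * R + v0 / 4 * R + (v0 / 2 * R - ε * R) := by ring
          have g5 : v0 / 2 * R = v0 / 4 * R + v0 / 4 * R := by ring
          have g6 : 2 * C * S = C * S + C * S := by ring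
          have g7 : 0 ≤ v0 / 4 * R := by positivity
          rw [g6] at hsmall
          rw [g4, g5]
          linarith
  have f3 : Real.exp (C * S) * (D * Real.exp (R * (v0 - κ * t ^ 2 + 4 * ε))) ≤
      Real.exp ((v0 - ε) * R) / 2 := by
    rw [le_div_iff₀ (by norm_num : (0:ℝ) < 2)]
    calc Real.exp (C * S) * (D * Real.exp (R * (v0 - κ * t ^ 2 + 4 * ε))) * 2
        = Real.exp (2 * C * S + L + R * (v0 - κ * t ^ 2 + 4 * ε)) := by
          rw [Real.exp_add, Real.exp_add, hL2, hD,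
            show 2 * C * S = C * S + C * S by ring, Real.exp_add]
          ring
      _ ≤ Real.exp ((v0 - ε) * R) := by
          apply Real.exp_le_exp.mpr
          have g1 : 8 * ε * R ≤ κ * t ^ 2 * R := mul_le_mul_of_nonneg_right hε1 hR0.le
          have g2 : R * (v0 - κ * t ^ 2 + 4 * ε) = v0 * R - κ * t ^ 2 * R + 4 * (ε * R) := by
            ring
          have g3 : (v0 - ε) * R = v0 * R - ε * R := by ring
          have g4 : 8 * ε * R = 8 * (ε * R) := by ring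
          have g5 : 0 ≤ ε * R := by positivity
          rw [g2, g3]
          rw [g4] at g1
          linarith
  rw [mul_add] at f1
  linarith

lemma Gr.lemmaG {W : ι → ℂ → ℂ} {ρ K : ℝ} (h : Gr W ρ K) (hρ : 1 ≤ ρ) {e : ℝ → ℝ}
    {φ₁ φ₂ A B : ℝ} (he : ContinuousOn e (Icc φ₁ φ₂)) (h12 : φ₁ < φ₂)
    (hlt : φ₂ - φ₁ < Real.pi / ρ) (hpos : ∀ φ ∈ Ioo φ₁ φ₂, 0 < vv W ρ φ)
    (hT1 : vv W ρ φ₁ - e φ₁ ≤ TT ρ A B φ₁) (hT2 : vv W ρ φ₂ - e φ₂ ≤ TT ρ A B φ₂)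
    (H : ∀ φ ∈ Ioo φ₁ φ₂, ∃ C Λ t₀ : ℝ, 0 < C ∧ 0 < t₀ ∧ Loc W ρ e φ C Λ t₀) :
    ∀ φ ∈ Icc φ₁ φ₂, vv W ρ φ ≤ e φ + TT ρ A B φ := by
  have hρ0 : 0 < ρ := by linarith
  obtain ⟨ρ', hρ', hρ'2⟩ : ∃ ρ', ρ < ρ' ∧ ρ' < Real.pi / (φ₂ - φ₁) := by
    apply exists_between
    rw [lt_div_iff₀ (by linarith)]
    rw [lt_div_iff₀ hρ0] at hlt
    linarith
  rw [lt_div_iff₀ (by linarith)] at hρ'2
  have hρ'0 : 0 < ρ' := by linarith
  set m := (φ₁ + φ₂) / 2 with hm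
  have hcos : ∀ φ ∈ Icc φ₁ φ₂, 0 < Real.cos (ρ' * (φ - m)) := by
    intro φ hφ
    apply Real.cos_pos_of_mem_Ioo
    have e1 : |φ - m| ≤ (φ₂ - φ₁) / 2 := by
      rw [abs_le, hm]
      constructor <;> linarith [hφ.1, hφ.2]
    have e2 : |ρ' * (φ - m)| < Real.pi / 2 := by
      rw [abs_mul, abs_of_pos hρ'0]
      calc ρ' * |φ - m| ≤ ρ' * ((φ₂ - φ₁) / 2) := mul_le_mul_of_nonneg_left e1 hρ'0.le
        _ < Real.pi / 2 := by linarith
    exact ⟨by linarith [(abs_lt.mp e2).1], (abs_lt.mp e2).2⟩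
  by_contra hcon
  push Not at hcon
  obtain ⟨φs, hφs, hgt⟩ := hcon
  let Fn : ℝ → ℝ := fun φ => (vv W ρ φ - e φ - TT ρ A B φ) / Real.cos (ρ' * (φ - m))
  have husc : UpperSemicontinuousOn Fn (Icc φ₁ φ₂) := by
    intro φ hφ
    apply upperSemicontinuousWithinAt_iff.mpr
    intro y hy
    have hc := hcos φ hφ
    simp only [Fn] at hy
    rw [div_lt_iff₀ hc] at hy
    obtain ⟨η, hη1, hη2⟩ := exists_between
      (show vv W ρ φ < y * Real.cos (ρ' * (φ - m)) + e φ + TT ρ A B φ by linarith)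
    have e1 : ∀ᶠ φ' in 𝓝[Icc φ₁ φ₂] φ, vv W ρ φ' < η :=
      (h.vv_lt_nhds hρ0 hη1).filter_mono nhdsWithin_le_nhds
    have e2 : ContinuousOn (fun φ => y * Real.cos (ρ' * (φ - m)) + e φ + TT ρ A B φ)
        (Icc φ₁ φ₂) := by
      have := TT_cont ρ A B
      fun_prop
    have e3 := (e2 φ hφ).eventually (lt_mem_nhds hη2)
    filter_upwards [e1, e3, self_mem_nhdsWithin] with φ' g1 g2 g3
    simp only [Fn]
    rw [div_lt_iff₀ (hcos φ' g3)]
    linarith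
  obtain ⟨φ₀, hφ₀, hmax⟩ := UpperSemicontinuousOn.exists_isMaxOn
    (nonempty_Icc.mpr h12.le) isCompact_Icc husc
  have hmax' : ∀ φ ∈ Icc φ₁ φ₂, Fn φ ≤ Fn φ₀ := fun φ hφ => hmax hφ
  have hμ : 0 < Fn φ₀ := by
    refine lt_of_lt_of_le ?_ (hmax' φs hφs)
    exact div_pos (by linarith) (hcos φs hφs)
  have hne1 : φ₀ ≠ φ₁ := by
    rintro rfl
    have : Fn φ₀ ≤ 0 := div_nonpos_of_nonpos_of_nonneg (by linarith) (hcos _ hφ₀).le
    linarith
  have hne2 : φ₀ ≠ φ₂ := by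
    rintro rfl
    have : Fn φ₀ ≤ 0 := div_nonpos_of_nonpos_of_nonneg (by linarith) (hcos _ hφ₀).le
    linarith
  have hIoo : φ₀ ∈ Ioo φ₁ φ₂ :=
    ⟨lt_of_le_of_ne hφ₀.1 (Ne.symm hne1), lt_of_le_of_ne hφ₀.2 hne2⟩
  obtain ⟨C, Λ, t₀, hC, ht₀, hL⟩ := H φ₀ hIoo
  refine h.no_touch hρ (A := A) (B := B) (μ := Fn φ₀) (m := m) he hIoo hρ' hμ (hcos φ₀ hφ₀) ?_ ?_
    (hpos φ₀ hIoo) hC ht₀ hL
  · intro φ hφ
    have := hmax' φ hφ
    simp only [Fn] at this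
    rw [div_le_iff₀ (hcos φ hφ)] at this
    simp only [Fn]
    linarith
  · have hc := (hcos φ₀ hφ₀).ne'
    simp only [Fn]
    rw [div_mul_cancel₀ _ hc]
    ring

end FInd

variable {α : ℝ}

open FInd in
theorem indicator_zero {ι : Type*} (W : ι → ℂ → ℂ) (hW : ∀ i, Differentiable ℂ (W i)) {ρ : ℝ}
    (hρ : 1 ≤ ρ) (e : ℝ → ℝ) (he : ContinuousOn e (Icc 0 (Real.pi / 2)))
    (hmono : StrictMonoOn e (Icc 0 (Real.pi / 2))) (he0 : e 0 = 0) (a : ℝ)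
    (H2 : ∃ C : ℝ, ∀ i z, ‖W i z‖ ≤ Real.exp (C * (1 + ‖z‖) ^ ρ))
    (H3 : ∀ ε : ℝ, 0 < ε → ∃ C : ℝ, ∀ i, ∀ r φ : ℝ, 1 ≤ r →
      (φ ∈ Icc (-Real.pi) (-ε) ∨ φ ∈ Icc (Real.pi / 2 + ε) Real.pi) →
      ‖W i (r * Complex.exp (φ * Complex.I))‖ ≤ C)
    (H4 : ∀ φ₀ ∈ Ioo 0 (Real.pi / 2), φ₀ ≠ a → ∀ η : ℝ, 2 * e φ₀ < η →
      ∃ δ C : ℝ, 0 < δ ∧ ∀ i, ∀ r φ : ℝ, 1 ≤ r → |φ - φ₀| < δ →
        ‖W i (r * Complex.exp (φ * Complex.I))‖ ≤ C * Real.exp (η * r ^ ρ))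
    (H5 : ∀ φ₁ φ₂ : ℝ, 0 < φ₁ → φ₂ < Real.pi / 2 →
      ∃ C Λ t₀ : ℝ, 0 < C ∧ 1 ≤ Λ ∧ 0 < t₀ ∧ ∀ (t r φ : ℝ), 0 < t → t ≤ t₀ → Λ ≤ r →
      φ ∈ Icc φ₁ φ₂ →
      ∃ A : ℂ → ℂ,
        DifferentiableOn ℂ A (Metric.closedBall 0 t) ∧
        (∀ z : ℂ, ‖z‖ ≤ t → ∀ B : ℝ, 0 ≤ B →
          (∀ i, ‖W i (r * Complex.exp (φ * Complex.I) * Complex.exp z)‖ ≤ B) →
          ‖A z‖ ≤ Real.exp (C * Real.sqrt r) * (B + Real.exp (C * t * r ^ ρ)) *
            Real.exp (- (e (φ + z.im) * (r * Real.exp z.re) ^ ρ))) ∧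
        (∀ z : ℂ, ‖z‖ ≤ t → ∀ i,
          ‖W i (r * Complex.exp (φ * Complex.I) * Complex.exp z)‖ ≤ Real.exp (C * Real.sqrt r) *
            (‖A z‖ * Real.exp (e (φ + z.im) * (r * Real.exp z.re) ^ ρ) +
              Real.exp (C * t * r ^ ρ)))) :
    ∀ ε : ℝ, 0 < ε → ∃ C : ℝ, ∀ i z, ‖W i z‖ ≤ C * Real.exp (ε * ‖z‖ ^ ρ) := by
  have hρ0 : 0 < ρ := by linarith
  have hpi := Real.pi_pos
  have hpi3 := Real.pi_gt_three
  obtain ⟨C₂, hC₂⟩ := H2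
  have hGr : Gr W ρ |C₂| := ⟨abs_nonneg _, fun i z => (hC₂ i z).trans (Real.exp_le_exp.mpr
    (mul_le_mul_of_nonneg_right (le_abs_self _) (Real.rpow_nonneg (by positivity) _)))⟩
  set Z : Set ℝ := {φ : ℝ | vv W ρ φ = 0} with hZ
  have hZc : IsClosed Z := hGr.closed hW hρ0
  have hz0 : ∀ φ δ ε : ℝ, 0 < δ → 0 < ε → (∀ φ', |φ' - φ| < δ →
      (φ' ∈ Icc (-Real.pi) (-ε) ∨ φ' ∈ Icc (Real.pi / 2 + ε) Real.pi)) → φ ∈ Z := by
    intro φ δ ε hδ hε hφ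
    obtain ⟨C, hC⟩ := H3 ε hε
    apply le_antisymm _ (vv_nonneg W ρ φ)
    apply vv_le le_rfl
    refine ⟨δ, |C|, hδ, abs_nonneg _, fun i r φ' hr hφ' => ?_⟩
    rw [zero_mul, Real.exp_zero, mul_one]
    exact (hC i r φ' hr (hφ φ' hφ')).trans (le_abs_self C)
  have hZ1 : Icc (-Real.pi) 0 ⊆ Z := by
    rw [← closure_Ioo (by linarith : -Real.pi ≠ 0)]
    apply hZc.closure_subset_iff.mpr
    intro φ hφ
    refine hz0 φ (min (φ + Real.pi) (-φ / 2)) (-φ / 2)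
      (lt_min (by linarith [hφ.1]) (by linarith [hφ.2])) (by linarith [hφ.2]) ?_
    intro φ' hφ'
    have e1 := abs_lt.mp (hφ'.trans_le (min_le_left _ _))
    have e2 := abs_lt.mp (hφ'.trans_le (min_le_right _ _))
    left
    exact ⟨by linarith, by linarith⟩
  have hZ2 : Icc (Real.pi / 2) Real.pi ⊆ Z := by
    rw [← closure_Ioo (by linarith : Real.pi / 2 ≠ Real.pi)]
    apply hZc.closure_subset_iff.mpr
    intro φ hφ
    refine hz0 φ (min (Real.pi - φ) ((φ - Real.pi / 2) / 2)) ((φ - Real.pi / 2) / 2)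
      (lt_min (by linarith [hφ.2]) (by linarith [hφ.1])) (by linarith [hφ.1]) ?_
    intro φ' hφ'
    have e1 := abs_lt.mp (hφ'.trans_le (min_le_left _ _))
    have e2 := abs_lt.mp (hφ'.trans_le (min_le_right _ _))
    right
    exact ⟨by linarith, by linarith⟩
  -- the indicator vanishes in the quadrant
  have hZ3 : Ioo 0 (Real.pi / 2) ⊆ Z := by
    by_contra hcon
    rw [not_subset] at hcon
    obtain ⟨φs, hφs, hnz⟩ := hcon
    have hps : 0 < vv W ρ φs := lt_of_le_of_ne (vv_nonneg _ _ _) (Ne.symm hnz)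
    obtain ⟨p, ⟨hpZ, hp⟩, hpub⟩ := (isCompact_Icc.inter_left hZc : IsCompact
      (Z ∩ Icc 0 φs)).exists_isGreatest ⟨0, hZ1 ⟨by linarith, le_rfl⟩, le_rfl, hφs.1.le⟩
    obtain ⟨q, ⟨hqZ, hq⟩, hqlb⟩ := (isCompact_Icc.inter_left hZc : IsCompact
      (Z ∩ Icc φs (Real.pi / 2))).exists_isLeast
        ⟨Real.pi / 2, hZ2 ⟨le_rfl, by linarith⟩, hφs.2.le, le_rfl⟩
    have hps1 : p < φs := lt_of_le_of_ne hp.2 (by rintro rfl; exact hnz hpZ)
    have hqs1 : φs < q := lt_of_le_of_ne hq.1 (by rintro rfl; exact hnz hqZ)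
    have hpos : ∀ φ ∈ Ioo p q, 0 < vv W ρ φ := by
      intro φ hφ
      refine lt_of_le_of_ne (vv_nonneg _ _ _) (fun h0 => ?_)
      rcases le_total φ φs with hle | hle
      · have := hpub ⟨h0.symm, by linarith [hp.1, hφ.1], hle⟩
        linarith [hφ.1]
      · have := hqlb ⟨h0.symm, hle, by linarith [hq.2, hφ.2]⟩
        linarith [hφ.2]
    have hgap : Real.pi / ρ ≤ q - p := by
      by_contra hlt
      push Not at hlt
      have e1 := hGr.convex hW hρ0 hlt (φ := φs) ⟨hps1, hqs1⟩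
      rw [show vv W ρ p = 0 from hpZ, show vv W ρ q = 0 from hqZ] at e1
      simp only [zero_mul, add_zero, zero_div] at e1
      linarith
    have hρpi : 0 < Real.pi / ρ := by positivity
    have hhalf : Real.pi / (2 * ρ) = Real.pi / ρ / 2 := by field_simp
    set x₁ := q - Real.pi / (2 * ρ) with hx₁
    have hx₁0 : 0 ≤ x₁ := by
      rw [hx₁, hhalf]
      linarith [hp.1]
    have hqI : q ∈ Icc 0 (Real.pi / 2) := ⟨by linarith [hφs.1], hq.2⟩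
    have hx₁I : x₁ ∈ Icc 0 (Real.pi / 2) := ⟨hx₁0, by
      rw [hx₁, hhalf]; linarith [hq.2]⟩
    have hd0 : e x₁ < e q := hmono hx₁I hqI (by rw [hx₁, hhalf]; linarith)
    set E := e (Real.pi / 2) with hE
    -- choice of the opening
    obtain ⟨d, hd1, hd2, hd3, hd4⟩ : ∃ d : ℝ, Real.pi / (2 * ρ) < d ∧ d < Real.pi / ρ ∧
        q - d ≠ a ∧ E * (2 * Real.cos (ρ * d / 2)) < e q - e x₁ := by
      have f1 : ∀ᶠ d in 𝓝[<] (Real.pi / ρ), Real.pi / (2 * ρ) < d := by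
        apply Filter.Eventually.filter_mono nhdsWithin_le_nhds
        apply lt_mem_nhds
        rw [hhalf]; linarith
      have f2 : ∀ᶠ d in 𝓝[<] (Real.pi / ρ), d < Real.pi / ρ := self_mem_nhdsWithin
      have f3 : ∀ᶠ d in 𝓝[<] (Real.pi / ρ), q - d ≠ a := by
        by_cases hqa : q - Real.pi / ρ = a
        · filter_upwards [f2] with d hd
          intro hda
          linarith
        · apply Filter.Eventually.filter_mono nhdsWithin_le_nhds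
          have : ContinuousAt (fun d : ℝ => q - d) (Real.pi / ρ) := by fun_prop
          exact this.eventually_ne hqa
      have f4 : ∀ᶠ d in 𝓝[<] (Real.pi / ρ),
          E * (2 * Real.cos (ρ * d / 2)) < e q - e x₁ := by
        apply Filter.Eventually.filter_mono nhdsWithin_le_nhds
        have h3 : ContinuousAt (fun d : ℝ => E * (2 * Real.cos (ρ * d / 2))) (Real.pi / ρ) := by
          fun_prop
        apply h3.eventually (gt_mem_nhds _)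
        have h4 : ρ * (Real.pi / ρ) / 2 = Real.pi / 2 := by field_simp
        show E * (2 * Real.cos (ρ * (Real.pi / ρ) / 2)) < e q - e x₁
        rw [h4, Real.cos_pi_div_two]
        linarith
      obtain ⟨d, g1, g2, g3, g4⟩ := (f1.and (f2.and (f3.and f4))).exists
      exact ⟨d, g1, g2, g3, g4⟩
    set x₂ := q - d with hx₂
    have hx₂p : p < x₂ := by rw [hx₂]; linarith
    have hx₂q : x₂ < q := by rw [hx₂]; linarith
    have hx₂I : x₂ ∈ Ioo 0 (Real.pi / 2) := ⟨by linarith [hp.1], by linarith [hq.2]⟩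
    have hcd : 0 < Real.cos (ρ * d / 2) := by
      apply Real.cos_pos_of_mem_Ioo
      have g1 : ρ * d < Real.pi := by
        rw [lt_div_iff₀ hρ0] at hd2
        linarith
      have g2 : 0 < ρ * d := mul_pos hρ0 (by linarith)
      exact ⟨by linarith, by linarith⟩
    have hsd : 0 < Real.sin (ρ * d / 2) := by
      apply Real.sin_pos_of_pos_of_lt_pi
      · have g2 : 0 < ρ * d := mul_pos hρ0 (by linarith)
        linarith
      · have g1 : ρ * d < Real.pi := by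
          rw [lt_div_iff₀ hρ0] at hd2
          linarith
        linarith
    have hsin2 : Real.sin (ρ * (q - x₂)) = 2 * Real.sin (ρ * d / 2) * Real.cos (ρ * d / 2) := by
      rw [← Real.sin_two_mul, hx₂]
      congr 1
      ring
    have hsne : Real.sin (ρ * (q - x₂)) ≠ 0 := by rw [hsin2]; positivity
    obtain ⟨A, B, hAB⟩ := exists_TT hsne (e x₂) (-(e q))
    have hT1 : TT ρ A B x₂ = e x₂ := by
      rw [hAB, sub_self, mul_zero, Real.sin_zero, mul_zero, add_zero, mul_div_assoc,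
        div_self hsne, mul_one]
    have hT2 : TT ρ A B q = -(e q) := by
      rw [hAB, sub_self, mul_zero, Real.sin_zero, mul_zero, zero_add, mul_div_assoc,
        div_self hsne, mul_one]
    have hv2 : vv W ρ x₂ ≤ 2 * e x₂ := by
      have hex : 0 ≤ e x₂ := by
        rw [← he0]
        exact (hmono ⟨le_rfl, by linarith⟩ (Ioo_subset_Icc_self hx₂I) hx₂I.1).le
      apply le_of_forall_gt_imp_ge_of_dense
      intro η hη
      apply vv_le (by linarith)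
      obtain ⟨δ, C, hδ, hC⟩ := H4 x₂ hx₂I hd3 η hη
      exact ⟨δ, |C|, hδ, abs_nonneg _, fun i r φ' hr hφ' => (hC i r φ' hr hφ').trans
        (mul_le_mul_of_nonneg_right (le_abs_self _) (Real.exp_pos _).le)⟩
    have hG := hGr.lemmaG hρ (e := e) (φ₁ := x₂) (φ₂ := q) (A := A) (B := B)
      (he.mono (Icc_subset_Icc hx₂I.1.le hq.2)) hx₂q (by rw [hx₂]; linarith)
      (fun φ hφ => hpos φ ⟨by linarith [hφ.1], hφ.2⟩) (by rw [hT1]; linarith)
      (by rw [hT2, show vv W ρ q = 0 from hqZ]; linarith) (fun φ hφ => by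
        obtain ⟨C, Λ, t₀, g1, g2, g3, g4⟩ := H5 φ φ (by linarith [hφ.1, hx₂I.1])
          (by linarith [hφ.2, hq.2])
        exact ⟨C, Λ, t₀, g1, g3, fun t r ht htt hr => g4 t r φ ht htt hr ⟨le_rfl, le_rfl⟩⟩)
    set mm := (x₂ + q) / 2 with hmm
    have hmI : mm ∈ Icc x₂ q := ⟨by rw [hmm]; linarith, by rw [hmm]; linarith⟩
    have hG2 := hG mm hmI
    have hmI2 : mm ∈ Icc 0 (Real.pi / 2) := ⟨by linarith [hmI.1, hx₂I.1], by linarith [hmI.2, hq.2]⟩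
    have hem : e mm ≤ E := hmono.monotoneOn hmI2 ⟨by linarith, le_rfl⟩ hmI2.2
    have hTm : TT ρ A B mm * (2 * Real.cos (ρ * d / 2)) = e x₂ - e q := by
      rw [hAB, hsin2]
      have g1 : ρ * (q - mm) = ρ * d / 2 := by rw [hmm, hx₂]; ring
      have g2 : ρ * (mm - x₂) = ρ * d / 2 := by rw [hmm, hx₂]; ring
      rw [g1, g2]
      field_simp
      ring
    have hex2 : e x₂ ≤ e x₁ := by
      apply hmono.monotoneOn (Ioo_subset_Icc_self hx₂I) hx₁I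
      rw [hx₂, hx₁]
      linarith
    have hvm := vv_nonneg W ρ mm
    have g1 : -E ≤ TT ρ A B mm := by linarith
    have g2 : -E * (2 * Real.cos (ρ * d / 2)) ≤ TT ρ A B mm * (2 * Real.cos (ρ * d / 2)) :=
      mul_le_mul_of_nonneg_right g1 (by linarith)
    linarith
  -- conclusion
  have hall : ∀ φ ∈ Icc (-(1 / 2 : ℝ)) (Real.pi / 2 + 1 / 2), vv W ρ φ = 0 := by
    intro φ hφ
    rcases le_or_gt φ 0 with h0 | h0
    · exact hZ1 ⟨by linarith [hφ.1], h0⟩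
    · rcases lt_or_ge φ (Real.pi / 2) with h1 | h1
      · exact hZ3 ⟨h0, h1⟩
      · exact hZ2 ⟨h1, by linarith [hφ.2]⟩
  intro ε hε
  obtain ⟨C₁, hC₁, h1⟩ := hGr.unif hρ0 (ψ := fun _ => ε) continuousOn_const
    (fun φ hφ => by rw [hall φ hφ]; exact hε)
  obtain ⟨C₃, hC₃⟩ := H3 (1 / 2) (by norm_num)
  refine ⟨max C₁ (max |C₃| (Real.exp (|C₂| * (1 + 1) ^ ρ))), fun i z => ?_⟩
  set CC := max C₁ (max |C₃| (Real.exp (|C₂| * (1 + 1) ^ ρ))) with hCC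
  have hCC1 : C₁ ≤ CC := le_max_left _ _
  have hCC2 : |C₃| ≤ CC := (le_max_left _ _).trans (le_max_right _ _)
  have hCC3 : Real.exp (|C₂| * (1 + 1) ^ ρ) ≤ CC := (le_max_right _ _).trans (le_max_right _ _)
  have hCC0 : 0 ≤ CC := hC₁.trans hCC1
  have hexp : 1 ≤ Real.exp (ε * ‖z‖ ^ ρ) :=
    Real.one_le_exp (mul_nonneg hε.le (Real.rpow_nonneg (norm_nonneg _) _))
  rcases le_or_gt ‖z‖ 1 with hz1 | hz1
  · refine (hGr.small hρ0 i hz1).trans (hCC3.trans ?_)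
    exact le_mul_of_one_le_right hCC0 hexp
  · have hzeq : z = ((‖z‖ : ℝ) : ℂ) * Complex.exp ((Complex.arg z : ℝ) * Complex.I) :=
      (Complex.norm_mul_exp_arg_mul_I z).symm
    have harg1 := Complex.neg_pi_lt_arg z
    have harg2 := Complex.arg_le_pi z
    by_cases hr : Complex.arg z ∈ Icc (-(1 / 2 : ℝ)) (Real.pi / 2 + 1 / 2)
    · have := h1 i ‖z‖ (Complex.arg z) hz1.le hr
      rw [← hzeq] at this
      exact this.trans (mul_le_mul_of_nonneg_right hCC1 (Real.exp_pos _).le)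
    · have hr' : Complex.arg z ∈ Icc (-Real.pi) (-(1 / 2 : ℝ)) ∨
          Complex.arg z ∈ Icc (Real.pi / 2 + 1 / 2) Real.pi := by
        by_cases h2 : Complex.arg z ≤ -(1 / 2)
        · left; exact ⟨harg1.le, h2⟩
        · right
          refine ⟨?_, harg2⟩
          by_contra h3
          push Not at h2 h3
          exact hr ⟨h2.le, h3.le⟩
      have := hC₃ i ‖z‖ (Complex.arg z) hz1.le hr'
      rw [← hzeq] at this
      refine this.trans ((le_abs_self _).trans (hCC2.trans ?_))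
      exact le_mul_of_one_le_right hCC0 hexp

end Pool.Agent.Work.MP_9fcdee_mp
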