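import Pool.Agent.Work.MP_9fcdee_mp.M4_Family
import Pool.Agent.Work.MP_9fcdee_mp.E3_Tail
import Pool.Agent.Work.MP_9fcdee_mp.E5_Quad
import Pool.Agent.Work.MP_9fcdee_mp.F_Indicator

set_option autoImplicit false

open Set Filter Topology MeasureTheory

namespace Pool.Agent.Work.MP_9fcdee_mp

variable {α : ℝ}

/-- Phragmén–Lindelöf in a horizontal strip for a function of at most exponential-exponential
growth. -/
lemma strip_pl {g : ℂ → ℂ} (hg : Differentiable ℂ g) {a b c B C D : ℝ} (_hab : a < b)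
    (hc : c < Real.pi / (b - a))
    (hB : ∀ z : ℂ, a ≤ z.im → z.im ≤ b → ‖g z‖ ≤ D * Real.exp (B * Real.exp (c * |z.re|)))
    (ha : ∀ z : ℂ, z.im = a → ‖g z‖ ≤ C) (hb : ∀ z : ℂ, z.im = b → ‖g z‖ ≤ C)
    (z : ℂ) (hza : a ≤ z.im) (hzb : z.im ≤ b) : ‖g z‖ ≤ C := by
  refine PhragmenLindelof.horizontal_strip hg.diffContOnCl ⟨c, hc, B, ?_⟩ ha hb hza hzb
  refine Asymptotics.IsBigO.of_bound D ?_
  rw [eventually_inf_principal]
  refine Eventually.of_forall fun w hw => ?_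
  have hw' : w.im ∈ Ioo a b := hw
  rw [Real.norm_eq_abs, abs_of_pos (Real.exp_pos _)]
  exact hB w hw'.1.le hw'.2.le

/-- abstract final Phragmén–Lindelöf step: one entire function -/
theorem final_pl {W : ℂ → ℂ} (hW : Differentiable ℂ W) {ρ : ℝ} (hρ : 1 ≤ ρ)
    (H2 : ∃ C : ℝ, ∀ z, ‖W z‖ ≤ Real.exp (C * (1 + ‖z‖) ^ ρ))
    (H3 : ∀ ε : ℝ, 0 < ε → ∃ C : ℝ, ∀ r φ : ℝ, 1 ≤ r →
      (φ ∈ Icc (-Real.pi) (-ε) ∨ φ ∈ Icc (Real.pi / 2 + ε) Real.pi) →
      ‖W (r * Complex.exp (φ * Complex.I))‖ ^ 2 ≤ C / r)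
    (H6 : ∀ φ₁ φ₂ : ℝ, 0 < φ₁ → φ₂ < Real.pi / 2 → ∃ (C : ℝ) (k : ℕ), ∀ (r φ : ℝ), 1 ≤ r →
      φ ∈ Icc φ₁ φ₂ → ‖W (r * Complex.exp (φ * Complex.I))‖ ≤ C * r ^ k) :
    ∀ z, W z = 0 := by
  have hπ := Real.pi_pos
  have hρ0 : 0 < ρ := by linarith
  set ε : ℝ := Real.pi / (4 * ρ) with hε
  have hεpos : 0 < ε := by positivity
  have hε4 : ε ≤ Real.pi / 4 := by
    rw [hε]
    apply div_le_div_of_nonneg_left hπ.le (by norm_num) (by linarith)
  obtain ⟨C2, hC2⟩ := H2
  obtain ⟨C3, hC3⟩ := H3 ε hεpos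
  obtain ⟨C6, k, hC6⟩ := H6 ε (Real.pi / 2 - ε) hεpos (by linarith)
  -- polar form of exp
  have hpol : ∀ z : ℂ, Complex.exp z = (Real.exp z.re : ℝ) * Complex.exp ((z.im : ℝ) * Complex.I) := by
    intro z
    rw [Complex.ofReal_exp, ← Complex.exp_add, Complex.re_add_im]
  -- bound on the unit disc
  set B0 : ℝ := Real.exp (|C2| * 2 ^ ρ) with hB0
  have hunit : ∀ z, ‖z‖ ≤ 1 → ‖W z‖ ≤ B0 := by
    intro z hz
    refine (hC2 z).trans (Real.exp_le_exp.mpr ?_)
    have h1 : (1 + ‖z‖) ^ ρ ≤ 2 ^ ρ :=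
      Real.rpow_le_rpow (by positivity) (by linarith) hρ0.le
    have h2 : (0:ℝ) ≤ (1 + ‖z‖) ^ ρ := by positivity
    calc C2 * (1 + ‖z‖) ^ ρ ≤ |C2| * (1 + ‖z‖) ^ ρ :=
          mul_le_mul_of_nonneg_right (le_abs_self _) h2
      _ ≤ |C2| * 2 ^ ρ := mul_le_mul_of_nonneg_left h1 (abs_nonneg _)
  -- outside
  have hout : ∀ r φ : ℝ, 1 ≤ r →
      (φ ∈ Icc (-Real.pi) (-ε) ∨ φ ∈ Icc (Real.pi / 2 + ε) Real.pi) →
      ‖W (r * Complex.exp (φ * Complex.I))‖ ≤ Real.sqrt |C3| := by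
    intro r φ hr hφ
    apply Real.le_sqrt_of_sq_le
    refine (hC3 r φ hr hφ).trans ?_
    rw [div_le_iff₀ (by linarith)]
    have := le_abs_self C3
    nlinarith [abs_nonneg C3]
  -- cone
  have hcone : ∀ r φ : ℝ, 1 ≤ r → φ ∈ Icc ε (Real.pi / 2 - ε) →
      ‖W (r * Complex.exp (φ * Complex.I))‖ ≤
        |C6| * (2 * k).factorial * Real.exp (Real.sqrt r) := by
    intro r φ hr hφ
    refine (hC6 r φ hr hφ).trans ?_
    have h1 : r ^ k ≤ (2 * k).factorial * Real.exp (Real.sqrt r) := by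
      have h2 := Real.pow_div_factorial_le_exp (Real.sqrt r) (Real.sqrt_nonneg _) (2 * k)
      rw [div_le_iff₀ (by positivity), pow_mul, Real.sq_sqrt (by linarith)] at h2
      linarith
    calc C6 * r ^ k ≤ |C6| * r ^ k :=
          mul_le_mul_of_nonneg_right (le_abs_self _) (by positivity)
      _ ≤ |C6| * ((2 * k).factorial * Real.exp (Real.sqrt r)) :=
          mul_le_mul_of_nonneg_left h1 (abs_nonneg _)
      _ = _ := by ring
  -- growth
  have hgrow : ∀ z : ℂ, ‖W (Complex.exp z)‖ ≤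
      Real.exp (|C2| * 2 ^ ρ * Real.exp (ρ * |z.re|)) := by
    intro z
    refine (hC2 _).trans (Real.exp_le_exp.mpr ?_)
    have h0 : ‖Complex.exp z‖ = Real.exp z.re := Complex.norm_exp z
    have h1 : 1 + ‖Complex.exp z‖ ≤ 2 * Real.exp |z.re| := by
      rw [h0]
      have h2 : Real.exp z.re ≤ Real.exp |z.re| := Real.exp_le_exp.mpr (le_abs_self _)
      have h3 : 1 ≤ Real.exp |z.re| := Real.one_le_exp (abs_nonneg _)
      linarith
    have h4 : (1 + ‖Complex.exp z‖) ^ ρ ≤ 2 ^ ρ * Real.exp (ρ * |z.re|) := by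
      refine (Real.rpow_le_rpow (by positivity) h1 hρ0.le).trans (le_of_eq ?_)
      rw [Real.mul_rpow (by norm_num) (Real.exp_pos _).le, ← Real.exp_mul, mul_comm ρ]
    calc C2 * (1 + ‖Complex.exp z‖) ^ ρ ≤ |C2| * (1 + ‖Complex.exp z‖) ^ ρ :=
          mul_le_mul_of_nonneg_right (le_abs_self _) (by positivity)
      _ ≤ |C2| * (2 ^ ρ * Real.exp (ρ * |z.re|)) :=
          mul_le_mul_of_nonneg_left h4 (abs_nonneg _)
      _ = _ := by ring
  -- the multiplier
  set m : ℂ → ℂ := fun z => Complex.exp (-(2 * Complex.exp ((z - (Real.pi / 4 : ℝ) * Complex.I) / 2)))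
    with hm
  have hmd : Differentiable ℂ m := by
    rw [hm]; fun_prop
  have hmn : ∀ z : ℂ, ‖m z‖ = Real.exp (-(2 * (Real.exp (z.re / 2) *
      Real.cos ((z.im - Real.pi / 4) / 2)))) := by
    intro z
    rw [hm]
    simp only
    rw [Complex.norm_exp, Complex.neg_re]
    congr 2
    have h1 : ((2:ℂ) * Complex.exp ((z - (Real.pi / 4 : ℝ) * Complex.I) / 2)).re =
        2 * (Complex.exp ((z - (Real.pi / 4 : ℝ) * Complex.I) / 2)).re := by
      simp
    rw [h1, Complex.exp_re]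
    have h2 : ((z - (Real.pi / 4 : ℝ) * Complex.I) / 2).re = z.re / 2 := by
      have : (z - (Real.pi / 4 : ℝ) * Complex.I) / 2 = (1/2 : ℝ) * (z - (Real.pi / 4 : ℝ) * Complex.I) := by
        push_cast; ring
      rw [this, Complex.re_ofReal_mul]
      simp; ring
    have h3 : ((z - (Real.pi / 4 : ℝ) * Complex.I) / 2).im = (z.im - Real.pi / 4) / 2 := by
      have : (z - (Real.pi / 4 : ℝ) * Complex.I) / 2 = (1/2 : ℝ) * (z - (Real.pi / 4 : ℝ) * Complex.I) := by
        push_cast; ring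
      rw [this, Complex.im_ofReal_mul]
      simp; ring
    rw [h2, h3]
  have hcos : ∀ y : ℝ, -(Real.pi / 4) ≤ y → y ≤ 3 * Real.pi / 4 →
      1 / 2 ≤ Real.cos ((y - Real.pi / 4) / 2) := by
    intro y h1 h2
    have h3 : |(y - Real.pi / 4) / 2| ≤ Real.pi / 3 := by
      rw [abs_le]; constructor <;> linarith
    rw [← Real.cos_abs, ← Real.cos_pi_div_three]
    exact Real.cos_le_cos_of_nonneg_of_le_pi (abs_nonneg _) (by linarith) h3
  have hmle : ∀ z : ℂ, -(Real.pi / 4) ≤ z.im → z.im ≤ 3 * Real.pi / 4 →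
      ‖m z‖ ≤ Real.exp (- Real.exp (z.re / 2)) := by
    intro z h1 h2
    rw [hmn]
    apply Real.exp_le_exp.mpr
    have := hcos z.im h1 h2
    nlinarith [Real.exp_pos (z.re / 2)]
  have hmge : ∀ z : ℂ, Real.exp (-(2 * Real.exp (z.re / 2))) ≤ ‖m z‖ := by
    intro z
    rw [hmn]
    apply Real.exp_le_exp.mpr
    have := Real.cos_le_one ((z.im - Real.pi / 4) / 2)
    nlinarith [Real.exp_pos (z.re / 2)]
  have hm1 : ∀ z : ℂ, -(Real.pi / 4) ≤ z.im → z.im ≤ 3 * Real.pi / 4 → ‖m z‖ ≤ 1 := by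
    intro z h1 h2
    refine (hmle z h1 h2).trans ?_
    rw [Real.exp_le_one_iff]
    linarith [Real.exp_pos (z.re / 2)]
  set g : ℂ → ℂ := fun z => W (Complex.exp z) * m z with hg
  have hgd : Differentiable ℂ g := by
    rw [hg]
    exact (hW.comp Complex.differentiable_exp).mul hmd
  set Cg : ℝ := B0 + Real.sqrt |C3| + |C6| * (2 * k).factorial with hCg
  have hB0p : 0 < B0 := Real.exp_pos _
  have hs3 : 0 ≤ Real.sqrt |C3| := Real.sqrt_nonneg _
  have hc6 : 0 ≤ |C6| * (2 * k).factorial := by positivity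
  have hsqrt : ∀ x : ℝ, Real.sqrt (Real.exp x) = Real.exp (x / 2) := by
    intro x
    rw [Real.sqrt_eq_iff_mul_self_eq (Real.exp_pos _).le (Real.exp_pos _).le, ← Real.exp_add]
    ring_nf
  -- bound of g on good rays
  have hgray : ∀ z : ℂ, -(Real.pi / 4) ≤ z.im → z.im ≤ 3 * Real.pi / 4 →
      (z.im ∈ Icc (-Real.pi) (-ε) ∨ z.im ∈ Icc (Real.pi / 2 + ε) Real.pi ∨
        z.im ∈ Icc ε (Real.pi / 2 - ε)) → ‖g z‖ ≤ Cg := by
    intro z h1 h2 h3
    rw [hg]
    simp only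
    rw [norm_mul]
    have hml := hmle z h1 h2
    have hm1' := hm1 z h1 h2
    rcases lt_or_ge z.re 0 with hx | hx
    · have h4 : ‖W (Complex.exp z)‖ ≤ B0 := by
        apply hunit
        rw [Complex.norm_exp]
        exact Real.exp_le_one_iff.mpr hx.le
      have : ‖W (Complex.exp z)‖ * ‖m z‖ ≤ B0 * 1 :=
        mul_le_mul h4 hm1' (norm_nonneg _) hB0p.le
      rw [hCg]; linarith
    · have hr : 1 ≤ Real.exp z.re := Real.one_le_exp hx
      rw [hpol z]
      rcases h3 with h3 | h3 | h3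
      · have h4 := hout (Real.exp z.re) z.im hr (Or.inl h3)
        have : ‖W ((Real.exp z.re : ℝ) * Complex.exp ((z.im : ℝ) * Complex.I))‖ * ‖m z‖ ≤
            Real.sqrt |C3| * 1 := mul_le_mul h4 hm1' (norm_nonneg _) hs3
        rw [hCg]; linarith
      · have h4 := hout (Real.exp z.re) z.im hr (Or.inr h3)
        have : ‖W ((Real.exp z.re : ℝ) * Complex.exp ((z.im : ℝ) * Complex.I))‖ * ‖m z‖ ≤
            Real.sqrt |C3| * 1 := mul_le_mul h4 hm1' (norm_nonneg _) hs3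
        rw [hCg]; linarith
      · have h4 := hcone (Real.exp z.re) z.im hr h3
        rw [hsqrt] at h4
        have h5 : ‖W ((Real.exp z.re : ℝ) * Complex.exp ((z.im : ℝ) * Complex.I))‖ * ‖m z‖ ≤
            (|C6| * (2 * k).factorial * Real.exp (Real.exp (z.re / 2))) *
              Real.exp (- Real.exp (z.re / 2)) :=
          mul_le_mul h4 hml (norm_nonneg _) (by positivity)
        have h6 : (|C6| * (2 * k).factorial * Real.exp (Real.exp (z.re / 2))) *
              Real.exp (- Real.exp (z.re / 2)) = |C6| * (2 * k).factorial := by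
          rw [mul_assoc, ← Real.exp_add, add_neg_cancel, Real.exp_zero, mul_one]
        rw [h6] at h5
        rw [hCg]; linarith
  have hggrow : ∀ z : ℂ, -(Real.pi / 4) ≤ z.im → z.im ≤ 3 * Real.pi / 4 →
      ‖g z‖ ≤ 1 * Real.exp (|C2| * 2 ^ ρ * Real.exp (ρ * |z.re|)) := by
    intro z h1 h2
    rw [hg]
    simp only
    rw [norm_mul, one_mul]
    have := mul_le_mul (hgrow z) (hm1 z h1 h2) (norm_nonneg _) (Real.exp_pos _).le
    rwa [mul_one] at this
  have hwidth : ρ < Real.pi / (2 * ε) := by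
    rw [hε, lt_div_iff₀ (by positivity)]
    have : ρ * (2 * (Real.pi / (4 * ρ))) = Real.pi / 2 := by field_simp; ring
    rw [this]; linarith
  -- bound on the closed sector
  have hsector : ∀ z : ℂ, -ε ≤ z.im → z.im ≤ Real.pi / 2 + ε → ‖g z‖ ≤ Cg := by
    intro z h1 h2
    have hz1 : -(Real.pi / 4) ≤ z.im := by linarith
    have hz2 : z.im ≤ 3 * Real.pi / 4 := by linarith
    rcases le_total z.im ε with h3 | h3
    · refine strip_pl hgd (a := -ε) (b := ε) (c := ρ) (by linarith) ?_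
        (fun w hw1 hw2 => hggrow w (by linarith) (by linarith)) ?_ ?_ z h1 h3
      · have : ε - -ε = 2 * ε := by ring
        rw [this]; exact hwidth
      · intro w hw
        exact hgray w (by linarith) (by linarith) (Or.inl ⟨by linarith, hw.le⟩)
      · intro w hw
        exact hgray w (by linarith) (by linarith) (Or.inr (Or.inr ⟨hw.ge, by linarith⟩))
    · rcases le_total z.im (Real.pi / 2 - ε) with h4 | h4
      · exact hgray z hz1 hz2 (Or.inr (Or.inr ⟨h3, h4⟩))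
      · refine strip_pl hgd (a := Real.pi / 2 - ε) (b := Real.pi / 2 + ε) (c := ρ) (by linarith) ?_
          (fun w hw1 hw2 => hggrow w (by linarith) (by linarith)) ?_ ?_ z h4 h2
        · have : Real.pi / 2 + ε - (Real.pi / 2 - ε) = 2 * ε := by ring
          rw [this]; exact hwidth
        · intro w hw
          exact hgray w (by linarith) (by linarith) (Or.inr (Or.inr ⟨by linarith, hw.le⟩))
        · intro w hw
          exact hgray w (by linarith) (by linarith) (Or.inr (Or.inl ⟨hw.ge, by linarith⟩))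
  have hCg0 : 0 ≤ Cg := by rw [hCg]; positivity
  -- W (exp z) bounded on the closed sector
  have hWexp : Differentiable ℂ (fun z => W (Complex.exp z)) :=
    hW.comp Complex.differentiable_exp
  have hsector2 : ∀ z : ℂ, -ε ≤ z.im → z.im ≤ Real.pi / 2 + ε → ‖W (Complex.exp z)‖ ≤ Cg := by
    intro z h1 h2
    refine strip_pl hWexp (a := -ε) (b := Real.pi / 2 + ε) (c := 1 / 2) (B := 2) (D := Cg)
      (by linarith) ?_ ?_ ?_ ?_ z h1 h2
    · rw [lt_div_iff₀ (by linarith)]; linarith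
    · intro w hw1 hw2
      have h3 := hsector w hw1 hw2
      rw [hg] at h3
      simp only [norm_mul] at h3
      have h4 := hmge w
      have h5 : ‖W (Complex.exp w)‖ * Real.exp (-(2 * Real.exp (w.re / 2))) ≤ Cg :=
        (mul_le_mul_of_nonneg_left h4 (norm_nonneg _)).trans h3
      rw [Real.exp_neg, ← div_eq_mul_inv, div_le_iff₀ (Real.exp_pos _)] at h5
      refine h5.trans (mul_le_mul_of_nonneg_left ?_ hCg0)
      apply Real.exp_le_exp.mpr
      refine mul_le_mul_of_nonneg_left (Real.exp_le_exp.mpr ?_) (by norm_num)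
      have := le_abs_self w.re
      linarith
    · intro w hw
      rcases lt_or_ge w.re 0 with hx | hx
      · have : ‖W (Complex.exp w)‖ ≤ B0 := by
          apply hunit
          rw [Complex.norm_exp]
          exact Real.exp_le_one_iff.mpr hx.le
        rw [hCg]; linarith
      · rw [hpol w]
        have := hout (Real.exp w.re) w.im (Real.one_le_exp hx) (Or.inl ⟨by linarith, hw.le⟩)
        rw [hCg]; linarith
    · intro w hw
      rcases lt_or_ge w.re 0 with hx | hx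
      · have : ‖W (Complex.exp w)‖ ≤ B0 := by
          apply hunit
          rw [Complex.norm_exp]
          exact Real.exp_le_one_iff.mpr hx.le
        rw [hCg]; linarith
      · rw [hpol w]
        have := hout (Real.exp w.re) w.im (Real.one_le_exp hx) (Or.inr ⟨hw.ge, by linarith⟩)
        rw [hCg]; linarith
  -- W bounded
  have hbdd : ∀ z : ℂ, ‖W z‖ ≤ Cg := by
    intro z
    rcases le_total ‖z‖ 1 with h1 | h1
    · have := hunit z h1
      rw [hCg]; linarith
    · have hz0 : z ≠ 0 := by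
        intro h; rw [h, norm_zero] at h1; linarith
      have hz : ((‖z‖ : ℝ) : ℂ) * Complex.exp ((Complex.arg z : ℝ) * Complex.I) = z :=
        Complex.norm_mul_exp_arg_mul_I z
      have ha1 := Complex.neg_pi_lt_arg z
      have ha2 := Complex.arg_le_pi z
      rcases lt_or_ge (Complex.arg z) (-ε) with h2 | h2
      · have := hout ‖z‖ (Complex.arg z) h1 (Or.inl ⟨ha1.le, h2.le⟩)
        rw [hz] at this
        rw [hCg]; linarith
      · rcases lt_or_ge (Real.pi / 2 + ε) (Complex.arg z) with h3 | h3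
        · have := hout ‖z‖ (Complex.arg z) h1 (Or.inr ⟨h3.le, ha2⟩)
          rw [hz] at this
          rw [hCg]; linarith
        · have h4 := hsector2 (Complex.log z) (by rw [Complex.log_im]; exact h2)
            (by rw [Complex.log_im]; exact h3)
          rwa [Complex.exp_log hz0] at h4
  have hconst : ∀ z w, W z = W w := by
    intro z w
    refine hW.apply_eq_apply_of_bounded ?_ z w
    rw [isBounded_iff_forall_norm_le]
    exact ⟨Cg, by rintro _ ⟨y, rfl⟩; exact hbdd y⟩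
  intro z
  by_contra hne
  have hpos : 0 < ‖W z‖ ^ 2 := by positivity
  obtain ⟨r, hr⟩ := exists_nat_gt (|C3| / ‖W z‖ ^ 2 + 1)
  have hr1 : (1:ℝ) ≤ r := by
    have : 0 ≤ |C3| / ‖W z‖ ^ 2 := by positivity
    linarith
  have h1 := hC3 r (-Real.pi) hr1 (Or.inl ⟨le_rfl, by linarith⟩)
  rw [hconst _ z] at h1
  rw [le_div_iff₀ (by linarith)] at h1
  have h2 : |C3| < ‖W z‖ ^ 2 * r := by
    have h3 : |C3| / ‖W z‖ ^ 2 < r := by linarith
    rw [div_lt_iff₀ hpos] at h3
    linarith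
  linarith [le_abs_self C3]

/-- the core theorem: a continuous bounded `L²` function orthogonal to all eigenfunctions is `0`. -/
theorem core (hα : 0 < α) (hα1 : α ≤ 1) (b : Bool) {f : ℝ → ℂ} (hf : Continuous f) {F : ℝ}
    (hfb : ∀ x, ‖f x‖ ≤ F) (hf2 : SqInt 0 f) (ho : Orth α b f) : ∀ x, 0 ≤ x → f x = 0 := by
  obtain ⟨w, w', hF⟩ := exists_family hα hα1 b hf hf2 ho
  have hρ : 1 ≤ rho α := by
    unfold rho
    have h1 : 1 ≤ 1 / α := by rw [le_div_iff₀ hα]; linarith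
    linarith
  obtain ⟨C2, H2⟩ := finite_type hα hα1 hF hf hfb hf2
  have hfin : ∀ ε : ℝ, 0 < ε → ∃ C : ℝ, ∀ (l : ℂ) (x : ℝ), 0 ≤ x →
      ‖w l x‖ ≤ C * Real.exp (ε * ‖l‖ ^ rho α) := by
    have key := indicator_zero (ι := {x : ℝ // 0 ≤ x}) (fun x l => w l x.1)
      (fun x => hF.dw x.1) hρ (ef α) (ef_continuousOn hα) (ef_strictMono hα) ef_zero
      (Real.pi / (α + 2)) ⟨C2, fun i z => H2 z i.1 i.2⟩ ?_ ?_ ?_
    · intro ε hε
      obtain ⟨C, hC⟩ := key ε hε
      exact ⟨C, fun l x hx => hC ⟨x, hx⟩ l⟩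
    · intro ε hε
      obtain ⟨C, hC, h⟩ := outside_bound hα b hε
      set I2 : ℝ := ∫ x in Ioi (0:ℝ), ‖f x‖ ^ 2 with hI2
      have hI0 : 0 ≤ I2 := by
        rw [hI2]; positivity
      refine ⟨Real.sqrt (C * I2), fun i r φ hr hφ => ?_⟩
      have h1 := h r φ hr hφ f _ _ hf hf2 (hF.sol _) (hF.fin _) (hF.bc0 _) i.1 i.2
      apply Real.le_sqrt_of_sq_le
      refine h1.trans ?_
      rw [div_le_iff₀ (by linarith)]
      nlinarith [mul_nonneg hC.le hI0]
    · intro φ₀ h0 h1 η hη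
      obtain ⟨δ, C, hδ, h⟩ := upper_two hα hα1 hF hf hfb hf2 h0 h1 hη
      exact ⟨δ, C, hδ, fun i r φ hr hφ => h i.1 i.2 r φ hr hφ⟩
    · intro φ₁ φ₂ h1 h2
      obtain ⟨C, Λ, t₀, hC, hΛ, ht, h⟩ := local_functional hα hα1 hF hf hfb hf2 h1 h2
      refine ⟨C, Λ, t₀, hC, hΛ, ht, fun t r φ ht0 ht1 hr hφ => ?_⟩
      obtain ⟨A, hA, hU, hL⟩ := h t r φ ht0 ht1 hr hφ
      exact ⟨A, hA, fun z hz B hB hW => hU z hz B hB (fun x hx => hW ⟨x, hx⟩),
        fun z hz i => hL z hz i.1 i.2⟩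
  have hzero : ∀ (x : ℝ), 0 ≤ x → ∀ l, w l x = 0 := by
    intro x hx
    refine final_pl (hF.dw x) hρ ⟨C2, fun z => H2 z x hx⟩ ?_ ?_
    · intro ε hε
      obtain ⟨C, hC, h⟩ := outside_bound hα b hε
      exact ⟨C * (∫ x in Ioi (0:ℝ), ‖f x‖ ^ 2), fun r φ hr hφ =>
        h r φ hr hφ f _ _ hf hf2 (hF.sol _) (hF.fin _) (hF.bc0 _) x hx⟩
    · intro φ₁ φ₂ h1 h2
      obtain ⟨C, k, h⟩ := cone_bound hα hα1 hF hf hfb hf2 hfin h1 h2 x hx
      exact ⟨C, k, fun r φ hr hφ => h r φ hr hφ⟩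
  -- now `w 0 = 0` on `[0,∞)`, hence `f = 0`
  have hpos : ∀ x, 0 < x → f x = 0 := by
    intro x hx
    have hw : ∀ᶠ y in 𝓝 x, w 0 y = 0 := by
      filter_upwards [lt_mem_nhds hx] with y hy using hzero y hy.le 0
    have hw' : ∀ᶠ y in 𝓝 x, w' 0 y = 0 := by
      filter_upwards [hw.eventually_nhds] with y hy
      have h1 := (hF.sol 0).du y
      have h2 : HasDerivAt (w 0) 0 y :=
        (hasDerivAt_const y (0:ℂ)).congr_of_eventuallyEq hy
      exact h1.unique h2
    have h1 := (hF.sol 0).dv x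
    have h2 : HasDerivAt (w' 0) 0 x := (hasDerivAt_const x (0:ℂ)).congr_of_eventuallyEq hw'
    have h3 := h1.unique h2
    rw [hzero x hx.le 0, mul_zero, zero_sub, neg_eq_zero] at h3
    exact h3
  intro x hx
  rcases hx.eq_or_lt with rfl | hx
  · have h1 : Tendsto f (𝓝[>] 0) (𝓝 (f 0)) := (hf.tendsto 0).mono_left nhdsWithin_le_nhds
    have h2 : Tendsto f (𝓝[>] 0) (𝓝 0) := by
      refine tendsto_const_nhds.congr' ?_
      filter_upwards [self_mem_nhdsWithin] with y hy using (hpos y hy).symm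
    exact tendsto_nhds_unique h1 h2
  · exact hpos x hx

end Pool.Agent.Work.MP_9fcdee_mp
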