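import Pool.Agent.Work.MP_9fcdee_mp.M4_Family
import Pool.Agent.Work.MP_9fcdee_mp.G1_Core

set_option autoImplicit false

open Set Filter Topology MeasureTheory

namespace Pool.Agent.Work.MP_9fcdee_mp

variable {α : ℝ}

lemma g2_coer (α : ℝ) : Coer (qf α Complex.I (-1)) 0 ((1 - Complex.I) / 2) (1 / 2) where
  pos := by norm_num
  nrm := by
    rw [norm_div]
    have h1 : ‖(1 : ℂ) - Complex.I‖ ≤ 2 := by
      have := norm_sub_le (1 : ℂ) Complex.I
      rw [norm_one, Complex.norm_I] at this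
      linarith
    have h2 : ‖(2 : ℂ)‖ = 2 := by simp
    rw [h2]
    linarith
  re := by
    simp
  req := by
    intro x _
    have h : 0 ≤ |x| ^ α := Real.rpow_nonneg (abs_nonneg x) α
    unfold qf
    have h2 : ((1 - Complex.I) / 2 * (Complex.I * ((|x| ^ α : ℝ) : ℂ) - -1)).re =
        (1 + |x| ^ α) / 2 := by
      simp [Complex.mul_re, Complex.mul_im]
      ring
    rw [h2]
    linarith

lemma g2_cont {q f w w' : ℝ → ℂ} (h : IsSol q f w w') : Continuous w ∧ Continuous w' :=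
  ⟨continuous_iff_continuousAt.2 fun x => (h.du x).continuousAt,
    continuous_iff_continuousAt.2 fun x => (h.dv x).continuousAt⟩

/-- the a priori bound -/
lemma g2_energy (hα : 0 < α) (b : Bool) {h w w' : ℝ → ℂ} (hh : Continuous h) (h2 : SqInt 0 h)
    (hs : IsSol (qf α Complex.I (-1)) h w w') (hE : FinEn 0 w w')
    (hb : bc b (w 0) (w' 0) = 0) : En 0 w w' ≤ 4 * ∫ x in Ioi (0:ℝ), ‖h x‖ ^ 2 := by
  have h1 := energy_bound (continuous_qf hα _ _) hh hs hE (g2_coer α) h2
  have h3 : ‖w 0‖ * ‖w' 0‖ = 0 := by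
    cases b with
    | true =>
      have : w 0 = 0 := hb
      rw [this]; simp
    | false =>
      have : w' 0 = 0 := hb
      rw [this]; simp
  rw [h3] at h1
  norm_num at h1
  linarith

lemma g2_sup (hα : 0 < α) (b : Bool) {h w w' : ℝ → ℂ} (hh : Continuous h) (h2 : SqInt 0 h)
    (hs : IsSol (qf α Complex.I (-1)) h w w') (hE : FinEn 0 w w')
    (hb : bc b (w 0) (w' 0) = 0) {x : ℝ} (hx : 0 ≤ x) :
    ‖w x‖ ≤ 2 * √(∫ x in Ioi (0:ℝ), ‖h x‖ ^ 2) := by
  have h1 := (norm_sq_le_En hs hE hx).trans (g2_energy hα b hh h2 hs hE hb)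
  have h3 : 2 * √(∫ x in Ioi (0:ℝ), ‖h x‖ ^ 2) = √(4 * ∫ x in Ioi (0:ℝ), ‖h x‖ ^ 2) := by
    rw [Real.sqrt_mul (by norm_num)]
    congr 1
    rw [show (4 : ℝ) = 2 ^ 2 by norm_num, Real.sqrt_sq (by norm_num)]
  rw [h3]
  exact Real.le_sqrt_of_sq_le h1

lemma g2_sq_left {u v : ℝ → ℂ} {X : ℝ} (hu : Continuous u) (h : FinEn X u v) : SqInt X u := by
  refine Integrable.mono' h ?_ ?_
  · exact (hu.norm.pow 2).aestronglyMeasurable
  · refine Eventually.of_forall fun x => ?_
    rw [Real.norm_of_nonneg (by positivity)]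
    have : 0 ≤ ‖v x‖ ^ 2 := by positivity
    linarith

lemma g2_L2 (hα : 0 < α) (b : Bool) {h w w' : ℝ → ℂ} (hh : Continuous h) (h2 : SqInt 0 h)
    (hs : IsSol (qf α Complex.I (-1)) h w w') (hE : FinEn 0 w w')
    (hb : bc b (w 0) (w' 0) = 0) :
    ∫ x in Ioi (0:ℝ), ‖w x‖ ^ 2 ≤ 4 * ∫ x in Ioi (0:ℝ), ‖h x‖ ^ 2 := by
  refine le_trans ?_ (g2_energy hα b hh h2 hs hE hb)
  unfold En
  refine integral_mono (g2_sq_left (g2_cont hs).1 hE) hE fun x => ?_
  have : 0 ≤ ‖w' x‖ ^ 2 := by positivity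
  show ‖w x‖ ^ 2 ≤ ‖w x‖ ^ 2 + ‖w' x‖ ^ 2
  linarith

/-- finite energy solutions with the boundary condition exist -/
lemma g2_exists (hα : 0 < α) (hα1 : α ≤ 1) (b : Bool) {h : ℝ → ℂ} (hh : Continuous h)
    (h2 : SqInt 0 h) : ∃ w w' : ℝ → ℂ, IsSol (qf α Complex.I (-1)) h w w' ∧ FinEn 0 w w' ∧
      bc b (w 0) (w' 0) = 0 := by
  have hq := continuous_qf hα Complex.I (-1)
  have hco : ∀ t₀ ∈ (univ : Set ℂ), ∃ (τ : ℂ) (δ : ℝ),
      ∀ᶠ _t in 𝓝 t₀, Coer (qf α Complex.I (-1)) 0 τ δ := fun t₀ _ =>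
    ⟨_, _, Eventually.of_forall fun _ => g2_coer α⟩
  have key : ∀ (f : ℝ → ℂ), Continuous f → SqInt 0 f → ∀ a : ℂ, ∃ w w' : ℝ → ℂ,
      IsSol (qf α Complex.I (-1)) f w w' ∧ FinEn 0 w w' ∧ w 0 = a := by
    intro f hf hf2 a
    obtain ⟨g, -, hg⟩ := weyl_family hα hα1 isOpen_univ (c := fun _ => Complex.I)
      (κ := fun _ => -1) (differentiableOn_const _) (differentiableOn_const _) le_rfl hco hf hf2 a
    exact ⟨_, _, isSol_sol hq hf 0 a (g 0), hg 0 (mem_univ _), solU_at hq hf 0 a (g 0)⟩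
  cases b with
  | true =>
    obtain ⟨w, w', h1, h3, h4⟩ := key h hh h2 0
    exact ⟨w, w', h1, h3, h4⟩
  | false =>
    obtain ⟨y, y', h1, h3, h4⟩ := key h hh h2 0
    have hz : SqInt 0 (0 : ℝ → ℂ) := by
      unfold SqInt
      simp
    obtain ⟨D, D', k1, k3, k4⟩ := key (0 : ℝ → ℂ) continuous_zero hz 1
    have hD : D' 0 ≠ 0 := by
      intro h0
      have e1 := g2_energy (h := (0 : ℝ → ℂ)) hα false continuous_zero hz k1 k3 h0
      have e2 := norm_sq_le_En k1 k3 le_rfl
      have e3 : ∫ x in Ioi (0:ℝ), ‖(0 : ℝ → ℂ) x‖ ^ 2 = 0 := by simp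
      rw [k4, norm_one] at e2
      rw [e3] at e1
      linarith
    refine ⟨fun x => y x + (-(y' 0) / D' 0) * D x, fun x => y' x + (-(y' 0) / D' 0) * D' x,
      ?_, ?_, ?_⟩
    · have := h1.add (k1.smul (-(y' 0) / D' 0))
      simpa using this
    · obtain ⟨c1, c2⟩ := g2_cont h1
      obtain ⟨d1, d2⟩ := g2_cont k1
      exact h3.add (k3.smul _) c1 c2 (continuous_const.mul d1) (continuous_const.mul d2)
    · show y' 0 + (-(y' 0) / D' 0) * D' 0 = 0
      field_simp
      ring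

lemma g2_memLp {h : ℝ → ℂ} (hh : Continuous h) (h2 : SqInt 0 h) :
    MemLp h 2 (volume.restrict (Ioi (0:ℝ))) :=
  (memLp_two_iff_integrable_sq_norm hh.aestronglyMeasurable).2 h2

lemma g2_sqInt {h : ℝ → ℂ} (hm : MemLp h 2 (volume.restrict (Ioi (0:ℝ)))) : SqInt 0 h :=
  (memLp_two_iff_integrable_sq_norm hm.1).1 hm

lemma g2_eL {h : ℝ → ℂ} (hm : MemLp h 2 (volume.restrict (Ioi (0:ℝ)))) :
    eLpNorm h 2 (volume.restrict (Ioi (0:ℝ))) =
      ENNReal.ofReal (√(∫ x in Ioi (0:ℝ), ‖h x‖ ^ 2)) := by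
  rw [hm.eLpNorm_eq_integral_rpow_norm (by norm_num) (by norm_num)]
  congr 1
  rw [Real.sqrt_eq_rpow]
  simp only [ENNReal.toReal_ofNat, Real.rpow_ofNat]
  norm_num

/-- approximation by continuous functions -/
lemma g2_approx {f : ℝ → ℂ} (hf : MemLp f 2 (volume.restrict (Ioi (0:ℝ)))) :
    ∃ F : ℕ → ℝ → ℂ, (∀ n, Continuous (F n)) ∧
      (∀ n, MemLp (F n) 2 (volume.restrict (Ioi (0:ℝ)))) ∧
      ∀ n, eLpNorm (F n - f) 2 (volume.restrict (Ioi (0:ℝ))) ≤ ENNReal.ofReal ((1 / 2) ^ n) := by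
  have h1 : MemLp ((Ioi (0:ℝ)).indicator f) 2 volume := (memLp_indicator_iff_restrict
    measurableSet_Ioi).2 hf
  have h2 : ∀ n : ℕ, ∃ g : ℝ → ℂ, HasCompactSupport g ∧
      eLpNorm ((Ioi (0:ℝ)).indicator f - g) 2 volume ≤ ENNReal.ofReal ((1 / 2) ^ n) ∧
      Continuous g ∧ MemLp g 2 volume := fun n =>
    h1.exists_hasCompactSupport_eLpNorm_sub_le (by norm_num) (by positivity)
  choose F hF1 hF2 hF3 hF4 using h2
  refine ⟨F, hF3, fun n => (hF4 n).restrict _, fun n => ?_⟩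
  refine le_trans ?_ (hF2 n)
  rw [eLpNorm_sub_comm]
  refine le_trans (le_of_eq ?_) (eLpNorm_restrict_le _ _ _ (Ioi (0:ℝ)))
  refine eLpNorm_congr_ae ?_
  filter_upwards [ae_restrict_mem measurableSet_Ioi] with x hx
  rw [Pi.sub_apply, Pi.sub_apply, indicator_of_mem hx]

lemma g2_lim {F : ℕ → ℝ → ℂ} {f k : ℝ → ℂ}
    (hF : ∀ n, MemLp (F n) 2 (volume.restrict (Ioi (0:ℝ))))
    (hf : MemLp f 2 (volume.restrict (Ioi (0:ℝ))))
    (hk : MemLp k 2 (volume.restrict (Ioi (0:ℝ))))
    (h : Tendsto (fun n => eLpNorm (F n - f) 2 (volume.restrict (Ioi (0:ℝ)))) atTop (𝓝 0)) :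
    Tendsto (fun n => ∫ x in Ioi (0:ℝ), F n x * k x) atTop
      (𝓝 (∫ x in Ioi (0:ℝ), f x * k x)) := by
  refine tendsto_integral_of_L1' (μ := volume.restrict (Ioi (0:ℝ))) (fun x => f x * k x)
    (hf.1.mul hk.1) ?_ ?_
  · exact Eventually.of_forall fun n => (hF n).integrable_mul hk
  · have h1 : ∀ n, eLpNorm ((fun x => F n x * k x) - fun x => f x * k x) 1
        (volume.restrict (Ioi (0:ℝ))) ≤
        eLpNorm (F n - f) 2 (volume.restrict (Ioi (0:ℝ))) *
          eLpNorm k 2 (volume.restrict (Ioi (0:ℝ))) := by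
      intro n
      have h2 : ((fun x => F n x * k x) - fun x => f x * k x) = (F n - f) • k := by
        funext x
        simp only [Pi.sub_apply, Pi.smul_apply', smul_eq_mul]
        ring
      rw [h2]
      exact eLpNorm_smul_le_mul_eLpNorm hk.1 ((hF n).1.sub hf.1)
    have h3 : Tendsto (fun n => eLpNorm (F n - f) 2 (volume.restrict (Ioi (0:ℝ))) *
          eLpNorm k 2 (volume.restrict (Ioi (0:ℝ)))) atTop (𝓝 0) := by
      have := ENNReal.Tendsto.mul_const h (Or.inr hk.2.ne)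
      rwa [zero_mul] at this
    exact tendsto_of_tendsto_of_tendsto_of_le_of_le tendsto_const_nhds h3
      (fun _ => bot_le) h1

/-- the bound for the difference of two solutions -/
lemma g2_diff (hα : 0 < α) (b : Bool) {h h' w w' z z' : ℝ → ℂ} (hh : Continuous h)
    (hh' : Continuous h') (h2 : MemLp h 2 (volume.restrict (Ioi (0:ℝ))))
    (h2' : MemLp h' 2 (volume.restrict (Ioi (0:ℝ))))
    (hs : IsSol (qf α Complex.I (-1)) h w w') (hE : FinEn 0 w w') (hb : bc b (w 0) (w' 0) = 0)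
    (ks : IsSol (qf α Complex.I (-1)) h' z z') (kE : FinEn 0 z z')
    (kb : bc b (z 0) (z' 0) = 0) :
    (∀ x, 0 ≤ x → ‖w x - z x‖ ≤ 2 * √(∫ x in Ioi (0:ℝ), ‖h x - h' x‖ ^ 2)) ∧
    √(∫ x in Ioi (0:ℝ), ‖w x - z x‖ ^ 2) ≤ 2 * √(∫ x in Ioi (0:ℝ), ‖h x - h' x‖ ^ 2) := by
  have s1 : IsSol (qf α Complex.I (-1)) (fun x => h x - h' x) (fun x => w x - z x)
      (fun x => w' x - z' x) := by
    have := hs.add (ks.smul (-1))
    simp only [neg_one_mul, ← sub_eq_add_neg] at this
    exact this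
  have s2 : FinEn 0 (fun x => w x - z x) (fun x => w' x - z' x) := by
    obtain ⟨c1, c2⟩ := g2_cont hs
    obtain ⟨d1, d2⟩ := g2_cont ks
    have := hE.add (kE.smul (-1)) c1 c2 (continuous_const.mul d1) (continuous_const.mul d2)
    simp only [neg_one_mul, ← sub_eq_add_neg] at this
    exact this
  have s3 : bc b (w 0 - z 0) (w' 0 - z' 0) = 0 := by
    cases b with
    | true =>
      have e1 : w 0 = 0 := hb
      have e2 : z 0 = 0 := kb
      show w 0 - z 0 = 0
      rw [e1, e2, sub_zero]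
    | false =>
      have e1 : w' 0 = 0 := hb
      have e2 : z' 0 = 0 := kb
      show w' 0 - z' 0 = 0
      rw [e1, e2, sub_zero]
  have s4 : SqInt 0 (fun x => h x - h' x) := g2_sqInt (h2.sub h2')
  refine ⟨fun x hx => g2_sup hα b (hh.sub hh') s4 s1 s2 s3 hx, ?_⟩
  have h3 : 2 * √(∫ x in Ioi (0:ℝ), ‖h x - h' x‖ ^ 2) =
      √(4 * ∫ x in Ioi (0:ℝ), ‖h x - h' x‖ ^ 2) := by
    rw [Real.sqrt_mul (by norm_num)]
    congr 1
    rw [show (4 : ℝ) = 2 ^ 2 by norm_num, Real.sqrt_sq (by norm_num)]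
  rw [h3]
  exact Real.sqrt_le_sqrt (g2_L2 hα b (hh.sub hh') s4 s1 s2 s3)

lemma g2_parts {h : ℝ → ℝ} (hh : ContDiff ℝ ((⊤ : ℕ∞) : WithTop ℕ∞) h)
    (hc : HasCompactSupport h) {q f w w' : ℝ → ℂ} (hq : Continuous q) (hf : Continuous f)
    (hs : IsSol q f w w') :
    ∫ x, f x * (h x : ℂ) = ∫ x, w x * (q x * (h x : ℂ) - ((deriv (deriv h) x : ℝ) : ℂ)) := by
  obtain ⟨c1, c2⟩ := g2_cont hs
  have hd0 : ∀ x, HasDerivAt (fun x => ((h x : ℝ) : ℂ)) ((deriv h x : ℝ) : ℂ) x := fun x =>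
    ((hh.differentiable (by simp)) x).hasDerivAt.ofReal_comp
  have hh1 : ContDiff ℝ ((⊤ : ℕ∞) : WithTop ℕ∞) (deriv h) :=
    (contDiff_infty_iff_deriv.1 hh).2
  have hh2 : ContDiff ℝ ((⊤ : ℕ∞) : WithTop ℕ∞) (deriv (deriv h)) :=
    (contDiff_infty_iff_deriv.1 hh1).2
  have hd1 : ∀ x, HasDerivAt (fun x => ((deriv h x : ℝ) : ℂ)) ((deriv (deriv h) x : ℝ) : ℂ) x :=
    fun x => ((hh1.differentiable (by simp)) x).hasDerivAt.ofReal_comp
  have k0 : Continuous (fun x => ((h x : ℝ) : ℂ)) := Complex.continuous_ofReal.comp hh.continuous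
  have k1 : Continuous (fun x => ((deriv h x : ℝ) : ℂ)) :=
    Complex.continuous_ofReal.comp hh1.continuous
  have k2 : Continuous (fun x => ((deriv (deriv h) x : ℝ) : ℂ)) :=
    Complex.continuous_ofReal.comp hh2.continuous
  have s0 : HasCompactSupport (fun x => ((h x : ℝ) : ℂ)) :=
    hc.comp_left (g := fun t : ℝ => (t : ℂ)) Complex.ofReal_zero
  have s1 : HasCompactSupport (fun x => ((deriv h x : ℝ) : ℂ)) :=
    hc.deriv.comp_left (g := fun t : ℝ => (t : ℂ)) Complex.ofReal_zero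
  have s2 : HasCompactSupport (fun x => ((deriv (deriv h) x : ℝ) : ℂ)) :=
    hc.deriv.deriv.comp_left (g := fun t : ℝ => (t : ℂ)) Complex.ofReal_zero
  have hint : ∀ {A B : ℝ → ℂ}, Continuous A → Continuous B → HasCompactSupport B →
      Integrable (fun x => A x * B x) := fun hA hB hB' =>
    (hA.mul hB).integrable_of_hasCompactSupport hB'.mul_left
  have e1 : ∫ x, w x * ((deriv (deriv h) x : ℝ) : ℂ) =
      - ∫ x, w' x * ((deriv h x : ℝ) : ℂ) :=
    integral_mul_deriv_eq_deriv_mul_of_integrable (fun x _ => hs.du x) (fun x _ => hd1 x)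
      (hint c1 k2 s2) (hint c2 k1 s1) (hint c1 k1 s1)
  have e2 : ∫ x, w' x * ((deriv h x : ℝ) : ℂ) =
      - ∫ x, (q x * w x - f x) * ((h x : ℝ) : ℂ) :=
    integral_mul_deriv_eq_deriv_mul_of_integrable (fun x _ => hs.dv x) (fun x _ => hd0 x)
      (hint c2 k1 s1) (hint ((hq.mul c1).sub hf) k0 s0) (hint c2 k0 s0)
  have hqw : Integrable (fun x => (q x * w x) * (h x : ℂ)) :=
    hint (A := fun x => q x * w x) (hq.mul c1) k0 s0
  have e3 : ∫ x, w x * (q x * (h x : ℂ) - ((deriv (deriv h) x : ℝ) : ℂ)) =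
      (∫ x, (q x * w x) * (h x : ℂ)) - ∫ x, w x * ((deriv (deriv h) x : ℝ) : ℂ) := by
    rw [← integral_sub hqw (hint c1 k2 s2)]
    refine integral_congr_ae (Eventually.of_forall fun x => ?_)
    simp only
    ring
  have e4 : ∫ x, (q x * w x - f x) * ((h x : ℝ) : ℂ) =
      (∫ x, (q x * w x) * (h x : ℂ)) - ∫ x, f x * (h x : ℂ) := by
    rw [← integral_sub hqw (hint hf k0 s0)]
    refine integral_congr_ae (Eventually.of_forall fun x => ?_)
    simp only
    ring
  rw [e3, e1, e2, e4]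
  ring

theorem reduction (hα : 0 < α) (hα1 : α ≤ 1) (b : Bool) {f : ℝ → ℂ}
    (hf : MemLp f 2 (volume.restrict (Ioi (0:ℝ)))) (ho : Orth α b f) :
    ∃ g : ℝ → ℂ, Continuous g ∧ (∃ F : ℝ, ∀ x, ‖g x‖ ≤ F) ∧ SqInt 0 g ∧ Orth α b g ∧
      ((∀ x, 0 ≤ x → g x = 0) → f =ᵐ[volume.restrict (Ioi (0:ℝ))] 0) := by
  obtain ⟨F, hFc, hFm, hFe⟩ := g2_approx hf
  choose w w' hw1 hw2 hw3 using fun n => g2_exists hα hα1 b (hFc n) (g2_sqInt (hFm n))
  have hwc : ∀ n, Continuous (w n) := fun n => (g2_cont (hw1 n)).1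
  have hwm : ∀ n, MemLp (w n) 2 (volume.restrict (Ioi (0:ℝ))) := fun n =>
    g2_memLp (hwc n) (g2_sq_left (hwc n) (hw2 n))
  have hdF : ∀ n m, √(∫ x in Ioi (0:ℝ), ‖F n x - F m x‖ ^ 2) ≤ (1 / 2) ^ n + (1 / 2) ^ m := by
    intro n m
    have h1 : eLpNorm (F n - F m) 2 (volume.restrict (Ioi (0:ℝ))) ≤
        ENNReal.ofReal ((1 / 2) ^ n + (1 / 2) ^ m) := by
      have h2 : F n - F m = (F n - f) - (F m - f) := by
        funext x
        simp
      rw [h2, ENNReal.ofReal_add (by positivity) (by positivity)]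
      exact (eLpNorm_sub_le ((hFm n).1.sub hf.1) ((hFm m).1.sub hf.1) (by norm_num)).trans
        (add_le_add (hFe n) (hFe m))
    have h3 := g2_eL ((hFm n).sub (hFm m))
    rw [h3, ENNReal.ofReal_le_ofReal_iff (by positivity)] at h1
    exact h1
  have hdiff := fun n m => g2_diff hα b (hFc n) (hFc m) (hFm n) (hFm m) (hw1 n) (hw2 n) (hw3 n)
    (hw1 m) (hw2 m) (hw3 m)
  have hd1 : ∀ n m, ∀ x, 0 ≤ x → ‖w n x - w m x‖ ≤ 2 * ((1 / 2) ^ n + (1 / 2) ^ m) :=
    fun n m x hx => ((hdiff n m).1 x hx).trans (by linarith [hdF n m])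
  have hd2 : ∀ n m, √(∫ x in Ioi (0:ℝ), ‖w n x - w m x‖ ^ 2) ≤
      2 * ((1 / 2) ^ n + (1 / 2) ^ m) :=
    fun n m => (hdiff n m).2.trans (by linarith [hdF n m])
  -- the limit
  have hstep : ∀ x : ℝ, ∀ n, dist (w n (max x 0)) (w (n + 1) (max x 0)) ≤ 3 * (1 / 2) ^ n := by
    intro x n
    rw [dist_eq_norm]
    refine (hd1 n (n + 1) _ (le_max_right _ _)).trans ?_
    rw [pow_succ]
    linarith [show (0 : ℝ) ≤ (1 / 2) ^ n by positivity]
  have hlim : ∀ x : ℝ, ∃ a, Tendsto (fun n => w n (max x 0)) atTop (𝓝 a) := fun x =>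
    cauchySeq_tendsto_of_complete (cauchySeq_of_le_geometric (1 / 2) 3 (by norm_num) (hstep x))
  choose g hg using hlim
  have hgd : ∀ x n, ‖w n (max x 0) - g x‖ ≤ 6 * (1 / 2) ^ n := by
    intro x n
    rw [← dist_eq_norm]
    have := dist_le_of_le_geometric_of_tendsto (1 / 2) 3 (by norm_num) (hstep x) (hg x) n
    refine this.trans (le_of_eq ?_)
    ring
  have hgc : Continuous g := by
    have hu : TendstoUniformly (fun n x => w n (max x 0)) g atTop := by
      rw [Metric.tendstoUniformly_iff]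
      intro ε hε
      have h1 : Tendsto (fun n : ℕ => 6 * (1 / 2 : ℝ) ^ n) atTop (𝓝 (6 * 0)) :=
        (tendsto_pow_atTop_nhds_zero_of_lt_one (by norm_num) (by norm_num)).const_mul 6
      rw [mul_zero] at h1
      filter_upwards [h1.eventually (gt_mem_nhds hε)] with n hn x
      rw [dist_comm, dist_eq_norm]
      exact (hgd x n).trans_lt hn
    exact hu.continuous (Frequently.of_forall fun n =>
      (hwc n).comp (continuous_id.max continuous_const))
  have hgL : ∀ n, eLpNorm (w n - g) 2 (volume.restrict (Ioi (0:ℝ))) ≤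
      ENNReal.ofReal (4 * (1 / 2) ^ n) := by
    intro n
    have h1 := Lp.eLpNorm_lim_le_liminf_eLpNorm (p := 2) (μ := volume.restrict (Ioi (0:ℝ)))
      (f := fun m => w n - w m) (fun m => (hwm n).1.sub (hwm m).1) (w n - g) (by
        filter_upwards [ae_restrict_mem measurableSet_Ioi] with x hx
        have hx' : max x 0 = x := max_eq_left (le_of_lt hx)
        have := hg x
        rw [hx'] at this
        exact tendsto_const_nhds.sub this)
    refine h1.trans ?_
    have h2 : ∀ᶠ m in atTop, eLpNorm (w n - w m) 2 (volume.restrict (Ioi (0:ℝ))) ≤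
        ENNReal.ofReal (4 * (1 / 2) ^ n) := by
      filter_upwards [eventually_ge_atTop n] with m hm
      rw [g2_eL ((hwm n).sub (hwm m))]
      refine ENNReal.ofReal_le_ofReal ((hd2 n m).trans ?_)
      have : (1 / 2 : ℝ) ^ m ≤ (1 / 2) ^ n :=
        pow_le_pow_of_le_one (by norm_num) (by norm_num) hm
      linarith
    exact (liminf_le_liminf h2).trans (liminf_const _).le
  have hgm : MemLp g 2 (volume.restrict (Ioi (0:ℝ))) := by
    have h1 : MemLp (w 0 - g) 2 (volume.restrict (Ioi (0:ℝ))) :=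
      ⟨(hwm 0).1.sub hgc.aestronglyMeasurable, (hgL 0).trans_lt ENNReal.ofReal_lt_top⟩
    have h2 := (hwm 0).sub h1
    have h3 : w 0 - (w 0 - g) = g := by
      funext x
      simp
    rwa [h3] at h2
  have hpow : ∀ c : ℝ, Tendsto (fun n : ℕ => ENNReal.ofReal (c * (1 / 2) ^ n)) atTop (𝓝 0) := by
    intro c
    have h1 : Tendsto (fun n : ℕ => c * (1 / 2 : ℝ) ^ n) atTop (𝓝 (c * 0)) :=
      (tendsto_pow_atTop_nhds_zero_of_lt_one (by norm_num) (by norm_num)).const_mul c
    rw [mul_zero] at h1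
    have := ENNReal.tendsto_ofReal h1
    rwa [ENNReal.ofReal_zero] at this
  have hwt : Tendsto (fun n => eLpNorm (w n - g) 2 (volume.restrict (Ioi (0:ℝ)))) atTop
      (𝓝 0) :=
    tendsto_of_tendsto_of_tendsto_of_le_of_le tendsto_const_nhds (hpow 4) (fun _ => bot_le) hgL
  have hFt : Tendsto (fun n => eLpNorm (F n - f) 2 (volume.restrict (Ioi (0:ℝ)))) atTop
      (𝓝 0) := by
    refine tendsto_of_tendsto_of_tendsto_of_le_of_le tendsto_const_nhds (hpow 1)
      (fun _ => bot_le) (fun n => ?_)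
    rw [one_mul]
    exact hFe n
  refine ⟨g, hgc, ?_, g2_sqInt hgm, ?_, ?_⟩
  · refine ⟨2 * √(∫ x in Ioi (0:ℝ), ‖F 0 x‖ ^ 2) + 6, fun x => ?_⟩
    have h1 := hgd x 0
    rw [pow_zero, mul_one] at h1
    have h2 := g2_sup hα b (hFc 0) (g2_sqInt (hFm 0)) (hw1 0) (hw2 0) (hw3 0)
      (le_max_right x 0)
    have h3 : g x = w 0 (max x 0) - (w 0 (max x 0) - g x) := by ring
    rw [h3]
    exact (norm_sub_le _ _).trans (add_le_add h2 h1)
  · intro l u v hu hE hb
    have huc := (g2_cont hu).1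
    have hum : MemLp u 2 (volume.restrict (Ioi (0:ℝ))) := g2_memLp huc (g2_sq_left huc hE)
    by_cases hl : l = -1
    · subst hl
      have hz : SqInt 0 (0 : ℝ → ℂ) := by
        unfold SqInt
        simp
      have e3 : ∫ x in Ioi (0:ℝ), ‖(0 : ℝ → ℂ) x‖ ^ 2 = 0 := by simp
      have hzero : ∀ x, 0 ≤ x → u x = 0 := by
        intro x hx
        have h1 := g2_sup (h := (0 : ℝ → ℂ)) hα b continuous_zero hz hu hE hb hx
        rw [e3, Real.sqrt_zero, mul_zero] at h1
        exact norm_le_zero_iff.1 h1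
      rw [← integral_zero ℝ ℂ (μ := volume.restrict (Ioi (0:ℝ)))]
      refine setIntegral_congr_fun measurableSet_Ioi fun x hx => ?_
      show g x * u x = 0
      rw [hzero x (le_of_lt hx), mul_zero]
    · have hn : ∀ n, ∫ x in Ioi (0:ℝ), F n x * u x = (1 + l) * ∫ x in Ioi (0:ℝ), w n x * u x := by
        intro n
        have s1 : IsSol (qf α Complex.I l) (fun x => F n x - (1 + l) * w n x) (w n) (w' n) := by
          refine ⟨(hw1 n).du, fun x => ?_⟩
          have := (hw1 n).dv x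
          convert this using 1
          unfold qf
          ring
        have s2 : SqInt 0 (fun x => F n x - (1 + l) * w n x) :=
          g2_sqInt ((hFm n).sub ((hwm n).const_mul (1 + l)))
        have s3 := (green (f := fun x => F n x - (1 + l) * w n x)
          (((hFc n).sub (continuous_const.mul (hwc n)))) s1 hu (hw2 n) hE s2).2
        have s4 : w' n 0 * u 0 - w n 0 * v 0 = 0 := by
          have hb' := hw3 n
          cases b with
          | true =>
            have e1 : w n 0 = 0 := hb'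
            have e2 : u 0 = 0 := hb
            rw [e1, e2]
            ring
          | false =>
            have e1 : w' n 0 = 0 := hb'
            have e2 : v 0 = 0 := hb
            rw [e1, e2]
            ring
        rw [s4] at s3
        have i1 : Integrable (fun x => F n x * u x) (volume.restrict (Ioi (0:ℝ))) :=
          (hFm n).integrable_mul hum
        have i2 : Integrable (fun x => w n x * u x) (volume.restrict (Ioi (0:ℝ))) :=
          (hwm n).integrable_mul hum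
        have s5 : ∫ x in Ioi (0:ℝ), (F n x - (1 + l) * w n x) * u x =
            (∫ x in Ioi (0:ℝ), F n x * u x) - (1 + l) * ∫ x in Ioi (0:ℝ), w n x * u x := by
          rw [← integral_const_mul, ← integral_sub i1 (i2.const_mul _)]
          refine integral_congr_ae (Eventually.of_forall fun x => ?_)
          simp only
          ring
        rw [s5] at s3
        exact sub_eq_zero.1 s3
      have t1 := g2_lim hFm hf hum hFt
      have t2 := (g2_lim hwm hgm hum hwt).const_mul (1 + l)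
      have t3 : (fun n => ∫ x in Ioi (0:ℝ), F n x * u x) =
          fun n => (1 + l) * ∫ x in Ioi (0:ℝ), w n x * u x := funext hn
      rw [t3] at t1
      have t4 := tendsto_nhds_unique t1 t2
      rw [ho l u v hu hE hb] at t4
      have hl' : (1 + l) ≠ 0 := by
        intro h0
        apply hl
        linear_combination h0
      exact (mul_eq_zero.1 t4.symm).resolve_left hl'
  · intro hg0
    have hloc : LocallyIntegrableOn f (Ioi (0:ℝ)) volume := by
      have h1 : LocallyIntegrable f (volume.restrict (Ioi (0:ℝ))) := hf.locallyIntegrable (by norm_num)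
      exact (locallyIntegrableOn_of_locallyIntegrable_restrict h1)
    have key := isOpen_Ioi.ae_eq_zero_of_integral_contDiff_smul_eq_zero hloc (by
      intro h hh hc hs
      have hzero : ∀ x, x ∉ Ioi (0:ℝ) → h x = 0 := fun x hx =>
        image_eq_zero_of_notMem_tsupport fun hx' => hx (hs hx')
      have hzero2 : ∀ x, x ∉ Ioi (0:ℝ) → deriv (deriv h) x = 0 := by
        intro x hx
        by_contra hne
        have h1 : x ∈ tsupport (deriv h) := support_deriv_subset hne
        have h2 : tsupport (deriv h) ⊆ tsupport h :=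
          closure_minimal support_deriv_subset (isClosed_tsupport h)
        exact hx (hs (h2 h1))
      have hh1 : ContDiff ℝ ((⊤ : ℕ∞) : WithTop ℕ∞) (deriv h) := (contDiff_infty_iff_deriv.1 hh).2
      have hh2 : ContDiff ℝ ((⊤ : ℕ∞) : WithTop ℕ∞) (deriv (deriv h)) :=
        (contDiff_infty_iff_deriv.1 hh1).2
      have k0 : Continuous (fun x => ((h x : ℝ) : ℂ)) :=
        Complex.continuous_ofReal.comp hh.continuous
      have k2 : Continuous (fun x => ((deriv (deriv h) x : ℝ) : ℂ)) :=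
        Complex.continuous_ofReal.comp hh2.continuous
      have s0 : HasCompactSupport (fun x => ((h x : ℝ) : ℂ)) :=
        hc.comp_left (g := fun t : ℝ => (t : ℂ)) Complex.ofReal_zero
      have s2 : HasCompactSupport (fun x => ((deriv (deriv h) x : ℝ) : ℂ)) :=
        hc.deriv.deriv.comp_left (g := fun t : ℝ => (t : ℂ)) Complex.ofReal_zero
      have hq := continuous_qf hα Complex.I (-1)
      set K : ℝ → ℂ := fun x => qf α Complex.I (-1) x * (h x : ℂ) -
        ((deriv (deriv h) x : ℝ) : ℂ) with hK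
      have m0 : MemLp (fun x => ((h x : ℝ) : ℂ)) 2 (volume.restrict (Ioi (0:ℝ))) :=
        (k0.memLp_of_hasCompactSupport s0).restrict _
      have hKm : MemLp K 2 (volume.restrict (Ioi (0:ℝ))) := by
        have a1 : MemLp (fun x => qf α Complex.I (-1) x * (h x : ℂ)) 2
            (volume.restrict (Ioi (0:ℝ))) :=
          ((hq.mul k0).memLp_of_hasCompactSupport s0.mul_left).restrict _
        have a2 : MemLp (fun x => ((deriv (deriv h) x : ℝ) : ℂ)) 2
            (volume.restrict (Ioi (0:ℝ))) := (k2.memLp_of_hasCompactSupport s2).restrict _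
        exact a1.sub a2
      have hn : ∀ n, ∫ x in Ioi (0:ℝ), F n x * (h x : ℂ) = ∫ x in Ioi (0:ℝ), w n x * K x := by
        intro n
        rw [setIntegral_eq_integral_of_forall_compl_eq_zero (fun x hx => by
            rw [hzero x hx, Complex.ofReal_zero, mul_zero]),
          setIntegral_eq_integral_of_forall_compl_eq_zero (fun x hx => by
            rw [hK]
            simp only
            rw [hzero x hx, hzero2 x hx, Complex.ofReal_zero]
            ring)]
        exact g2_parts hh hc hq (hFc n) (hw1 n)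
      have t1 := g2_lim hFm hf m0 hFt
      have t2 := g2_lim hwm hgm hKm hwt
      have t3 : (fun n => ∫ x in Ioi (0:ℝ), F n x * (h x : ℂ)) =
          fun n => ∫ x in Ioi (0:ℝ), w n x * K x := funext hn
      rw [t3] at t1
      have t4 := tendsto_nhds_unique t1 t2
      have t5 : ∫ x in Ioi (0:ℝ), g x * K x = 0 := by
        rw [← integral_zero ℝ ℂ (μ := volume.restrict (Ioi (0:ℝ)))]
        refine setIntegral_congr_fun measurableSet_Ioi fun x hx => ?_
        show g x * K x = 0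
        rw [hg0 x (le_of_lt hx), zero_mul]
      rw [t5] at t4
      rw [← t4, ← setIntegral_eq_integral_of_forall_compl_eq_zero (s := Ioi (0:ℝ)) (fun x hx => by
        rw [hzero x hx, zero_smul])]
      refine setIntegral_congr_fun measurableSet_Ioi fun x _ => ?_
      show h x • f x = f x * (h x : ℂ)
      rw [Complex.real_smul, mul_comm])
    rw [Filter.EventuallyEq, ae_restrict_iff' measurableSet_Ioi]
    exact key

theorem orth_zero (hα : 0 < α) (hα1 : α ≤ 1) (b : Bool) {f : ℝ → ℂ}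
    (hf : MemLp f 2 (volume.restrict (Ioi (0:ℝ)))) (ho : Orth α b f) :
    f =ᵐ[volume.restrict (Ioi (0:ℝ))] 0 := by
  obtain ⟨g, hg, ⟨F, hF⟩, hg2, hgo, h⟩ := reduction hα hα1 b hf ho
  exact h (core hα hα1 b hg hF hg2 hgo)

end Pool.Agent.Work.MP_9fcdee_mp
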