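import Pool.Agent.Work.MP_9fcdee_mp.Defs

set_option autoImplicit false

open Set Filter Topology MeasureTheory
open scoped Interval

namespace Pool.Agent.Work.MP_9fcdee_mp

variable {α : ℝ}

lemma continuous_qf (hα : 0 < α) (c κ : ℂ) : Continuous (qf α c κ) := by
  unfold qf
  exact (continuous_const.mul (Complex.continuous_ofReal.comp
    (continuous_abs.rpow_const (fun x => Or.inr hα.le)))).sub continuous_const

lemma IsSol.cont {q f u v : ℝ → ℂ} (h : IsSol q f u v) : Continuous u :=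
  continuous_iff_continuousAt.mpr fun x => (h.du x).continuousAt

lemma IsSol.cont' {q f u v : ℝ → ℂ} (h : IsSol q f u v) : Continuous v :=
  continuous_iff_continuousAt.mpr fun x => (h.dv x).continuousAt

/-- Picard iterates -/
noncomputable def pic (q f : ℝ → ℂ) (X : ℝ) (a b : ℂ) : ℕ → ℝ → ℂ × ℂ
  | 0 => fun x => (a, b) + ∫ t in X..x, ((0 : ℂ), - f t)
  | n + 1 => fun x => ∫ t in X..x, ((pic q f X a b n t).2, q t * (pic q f X a b n t).1)

lemma pic_continuous {q f : ℝ → ℂ} (hq : Continuous q) (hf : Continuous f) (X : ℝ) (a b : ℂ)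
    (n : ℕ) : Continuous (pic q f X a b n) := by
  induction n with
  | zero =>
    have h1 : Continuous (fun t => ((0:ℂ), - f t)) := by fun_prop
    have h2 := intervalIntegral.continuous_primitive
      (fun a b => h1.intervalIntegrable a b) X (μ := volume)
    exact continuous_const.add h2
  | succ n ih =>
    have h1 : Continuous (fun t => ((pic q f X a b n t).2, q t * (pic q f X a b n t).1)) := by
      fun_prop
    exact intervalIntegral.continuous_primitive
      (fun a b => h1.intervalIntegrable a b) X (μ := volume)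

lemma pic_deriv_zero {q f : ℝ → ℂ} (hf : Continuous f) (X : ℝ) (a b : ℂ) (x : ℝ) :
    HasDerivAt (pic q f X a b 0) ((0:ℂ), - f x) x := by
  have h1 : Continuous (fun t => ((0:ℂ), - f t)) := by fun_prop
  have h2 := intervalIntegral.integral_hasDerivAt_right (h1.intervalIntegrable X x)
    (h1.stronglyMeasurableAtFilter _ _) h1.continuousAt
  exact h2.const_add _

lemma pic_deriv_succ {q f : ℝ → ℂ} (hq : Continuous q) (hf : Continuous f) (X : ℝ) (a b : ℂ)
    (n : ℕ) (x : ℝ) :
    HasDerivAt (pic q f X a b (n + 1))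
      ((pic q f X a b n x).2, q x * (pic q f X a b n x).1) x := by
  have h0 := pic_continuous hq hf X a b n
  have h1 : Continuous (fun t => ((pic q f X a b n t).2, q t * (pic q f X a b n t).1)) := by
    fun_prop
  exact intervalIntegral.integral_hasDerivAt_right (h1.intervalIntegrable X x)
    (h1.stronglyMeasurableAtFilter _ _) h1.continuousAt

lemma pic_bound {q f : ℝ → ℂ} (hq : Continuous q) (hf : Continuous f) (X : ℝ) (a b : ℂ)
    {T K M : ℝ} (hK : 1 ≤ K) (_hM : 0 ≤ M)
    (hqK : ∀ t, |t - X| ≤ T → ‖q t‖ ≤ K) (h0 : ∀ t, |t - X| ≤ T → ‖pic q f X a b 0 t‖ ≤ M)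
    (n : ℕ) : ∀ x, |x - X| ≤ T → ‖pic q f X a b n x‖ ≤ M * K ^ n * |x - X| ^ n / n.factorial := by
  induction n with
  | zero => intro x hx; simpa using h0 x hx
  | succ n ih =>
    intro x hx
    have hc := pic_continuous hq hf X a b n
    have h1 : ‖pic q f X a b (n + 1) x‖ ≤
        ∫ t in Ι X x, ‖((pic q f X a b n t).2, q t * (pic q f X a b n t).1)‖ :=
      intervalIntegral.norm_integral_le_integral_norm_uIoc
    have h2 : ∫ t in Ι X x, ‖((pic q f X a b n t).2, q t * (pic q f X a b n t).1)‖ ≤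
        ∫ t in Ι X x, (M * K ^ (n + 1) / n.factorial) * |t - X| ^ n := by
      apply setIntegral_mono_on
      · have : Continuous (fun t => ‖((pic q f X a b n t).2, q t * (pic q f X a b n t).1)‖) := by
          fun_prop
        exact (this.integrableOn_uIcc (a := X) (b := x)).mono_set uIoc_subset_uIcc
      · have : Continuous (fun t : ℝ => (M * K ^ (n + 1) / n.factorial) * |t - X| ^ n) := by
          fun_prop
        exact (this.integrableOn_uIcc (a := X) (b := x)).mono_set uIoc_subset_uIcc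
      · exact measurableSet_uIoc
      · intro t ht
        have ht' : |t - X| ≤ T := by
          have := uIoc_subset_uIcc ht
          exact (abs_sub_left_of_mem_uIcc this).trans hx
        have h3 := ih t ht'
        have h4 := hqK t ht'
        have h5 : ‖(pic q f X a b n t).2‖ ≤ ‖pic q f X a b n t‖ := norm_snd_le _
        have h6 : ‖(pic q f X a b n t).1‖ ≤ ‖pic q f X a b n t‖ := norm_fst_le _
        have h7 : ‖((pic q f X a b n t).2, q t * (pic q f X a b n t).1)‖ ≤
            K * ‖pic q f X a b n t‖ := by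
          rw [Prod.norm_def]
          simp only [norm_mul]
          apply max_le
          · nlinarith [norm_nonneg (pic q f X a b n t)]
          · exact mul_le_mul h4 h6 (norm_nonneg _) (by linarith)
        refine h7.trans ?_
        have h8 : K * ‖pic q f X a b n t‖ ≤ K * (M * K ^ n * |t - X| ^ n / n.factorial) :=
          mul_le_mul_of_nonneg_left h3 (by linarith)
        refine h8.trans (le_of_eq ?_)
        rw [pow_succ]; ring
    refine (h1.trans h2).trans (le_of_eq ?_)
    rw [MeasureTheory.integral_const_mul, integral_pow_abs_sub_uIoc, Nat.factorial_succ]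
    have : (n.factorial : ℝ) ≠ 0 := by positivity
    push_cast
    field_simp

theorem exists_sol {q f : ℝ → ℂ} (hq : Continuous q) (hf : Continuous f) (X : ℝ) (a b : ℂ) :
    ∃ p : (ℝ → ℂ) × (ℝ → ℂ), IsSol q f p.1 p.2 ∧ p.1 X = a ∧ p.2 X = b := by
  set U : ℝ → ℂ × ℂ := fun x => ∑' n, pic q f X a b n x with hU
  -- local bounds
  have hloc : ∀ T : ℝ, 0 < T → ∃ M K : ℝ, 1 ≤ K ∧ 0 ≤ M ∧ (∀ t, |t - X| ≤ T → ‖q t‖ ≤ K) ∧
      (∀ t, |t - X| ≤ T → ‖f t‖ ≤ M) ∧
      (∀ t, |t - X| ≤ T → ‖pic q f X a b 0 t‖ ≤ M) := by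
    intro T hT
    have hcomp : IsCompact (Icc (X - T) (X + T)) := isCompact_Icc
    obtain ⟨K1, hK1⟩ := hcomp.exists_bound_of_continuousOn hq.continuousOn
    obtain ⟨M1, hM1⟩ := hcomp.exists_bound_of_continuousOn hf.continuousOn
    obtain ⟨M2, hM2⟩ := hcomp.exists_bound_of_continuousOn
      (pic_continuous hq hf X a b 0).continuousOn
    have hmem : ∀ t, |t - X| ≤ T → t ∈ Icc (X - T) (X + T) := by
      intro t ht
      rw [abs_le] at ht
      exact ⟨by linarith, by linarith⟩
    refine ⟨max 0 (max M1 M2), max 1 K1, le_max_left _ _, le_max_left _ _, ?_, ?_, ?_⟩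
    · intro t ht; exact (hK1 t (hmem t ht)).trans (le_max_right _ _)
    · intro t ht
      exact (hM1 t (hmem t ht)).trans ((le_max_left _ _).trans (le_max_right _ _))
    · intro t ht
      exact (hM2 t (hmem t ht)).trans ((le_max_right _ _).trans (le_max_right _ _))
  have hder : ∀ x, HasDerivAt U ((U x).2, q x * (U x).1 - f x) x := by
    intro x
    set T : ℝ := |x - X| + 1 with hT
    have hTpos : 0 < T := by positivity
    obtain ⟨M, K, hK, hM, hqK, hfM, h0⟩ := hloc T hTpos
    have hb := pic_bound hq hf X a b hK hM hqK h0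
    set g' : ℕ → ℝ → ℂ × ℂ := fun n y => match n with
      | 0 => ((0:ℂ), - f y)
      | n + 1 => ((pic q f X a b n y).2, q y * (pic q f X a b n y).1) with hg'
    set w : ℕ → ℝ := fun n => match n with
      | 0 => M
      | n + 1 => K * (M * (K * T) ^ n / n.factorial) with hw
    have hwsum : Summable w := by
      rw [← summable_nat_add_iff 1]
      have h1 : (fun n => w (n + 1)) = fun n : ℕ => K * M * ((K * T) ^ n / n.factorial) := by
        funext n; simp only [hw]; ring
      rw [h1]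
      exact (Real.summable_pow_div_factorial (K * T)).mul_left _
    have hnb : ∀ n y, |y - X| ≤ T → ‖pic q f X a b n y‖ ≤ M * (K * T) ^ n / n.factorial := by
      intro n y hy
      refine (hb n y hy).trans ?_
      have h1 : |y - X| ^ n ≤ T ^ n := pow_le_pow_left₀ (abs_nonneg _) hy n
      rw [mul_pow, ← mul_assoc]
      gcongr
    have hbound : ∀ n y, |y - X| ≤ T → ‖g' n y‖ ≤ w n := by
      intro n y hy
      cases n with
      | zero =>
        simp only [hg', hw, Prod.norm_def, norm_zero, norm_neg]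
        exact max_le hM (hfM y hy)
      | succ n =>
        simp only [hg', hw]
        have h5 : ‖(pic q f X a b n y).2‖ ≤ ‖pic q f X a b n y‖ := norm_snd_le _
        have h6 : ‖(pic q f X a b n y).1‖ ≤ ‖pic q f X a b n y‖ := norm_fst_le _
        have h7 : ‖((pic q f X a b n y).2, q y * (pic q f X a b n y).1)‖ ≤
            K * ‖pic q f X a b n y‖ := by
          rw [Prod.norm_def]
          simp only [norm_mul]
          apply max_le
          · nlinarith [norm_nonneg (pic q f X a b n y)]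
          · exact mul_le_mul (hqK y hy) h6 (norm_nonneg _) (by linarith)
        exact h7.trans (mul_le_mul_of_nonneg_left (hnb n y hy) (by linarith))
    have hIoo : ∀ y, y ∈ Ioo (X - T) (X + T) → |y - X| ≤ T := by
      intro y hy
      rw [abs_le]; exact ⟨by linarith [hy.1], by linarith [hy.2]⟩
    have hxm : x ∈ Ioo (X - T) (X + T) := by
      have h1 := abs_nonneg (x - X)
      have h2 := neg_abs_le (x - X)
      have h3 := le_abs_self (x - X)
      constructor <;> rw [hT] <;> linarith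
    have hsum : ∀ y, |y - X| ≤ T → Summable (fun n => pic q f X a b n y) := by
      intro y hy
      refine Summable.of_norm_bounded (g := fun n => M * ((K * T) ^ n / n.factorial))
        ((Real.summable_pow_div_factorial (K * T)).mul_left _) (fun n => ?_)
      refine (hnb n y hy).trans (le_of_eq (by ring))
    have hmain := hasDerivAt_tsum_of_isPreconnected (g := fun n y => pic q f X a b n y)
      (g' := g') hwsum isOpen_Ioo isPreconnected_Ioo
      (fun n y _ => by
        cases n with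
        | zero => exact pic_deriv_zero hf X a b y
        | succ n => exact pic_deriv_succ hq hf X a b n y)
      (fun n y hy => hbound n y (hIoo y hy)) hxm (hsum x (hIoo x hxm)) hxm
    refine hmain.congr_deriv ?_
    have hs' : Summable (fun n => g' n x) :=
      Summable.of_norm_bounded hwsum (fun n => hbound n x (hIoo x hxm))
    rw [hs'.tsum_eq_zero_add]
    have hsx := hsum x (hIoo x hxm)
    have h1 : (∑' n, g' (n + 1) x) = ((U x).2, q x * (U x).1) := by
      have e1 : HasSum (fun n => (pic q f X a b n x).2) (U x).2 := by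
        have := hsx.hasSum.mapL (ContinuousLinearMap.snd ℝ ℂ ℂ)
        simpa using this
      have e2 : HasSum (fun n => (pic q f X a b n x).1) (U x).1 := by
        have := hsx.hasSum.mapL (ContinuousLinearMap.fst ℝ ℂ ℂ)
        simpa using this
      have e3 : HasSum (fun n => ((pic q f X a b n x).2, q x * (pic q f X a b n x).1))
          ((U x).2, q x * (U x).1) := e1.prodMk (e2.mul_left (q x))
      exact e3.tsum_eq
    rw [h1]
    simp only [hg', Prod.mk_add_mk, zero_add]
    ring_nf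
  have hX : U X = (a, b) := by
    have h1 : ∀ n, pic q f X a b (n + 1) X = 0 := by
      intro n; simp [pic]
    have h2 : pic q f X a b 0 X = (a, b) := by simp [pic]
    rw [hU]
    simp only
    rw [tsum_eq_single 0]
    · exact h2
    · intro n hn
      obtain ⟨m, rfl⟩ := Nat.exists_eq_succ_of_ne_zero hn
      exact h1 m
  refine ⟨(fun x => (U x).1, fun x => (U x).2), ⟨fun x => ?_, fun x => ?_⟩, ?_, ?_⟩
  · exact (hder x).fst
  · exact (hder x).snd
  · simp [hX]
  · simp [hX]


theorem isSol_sol {q f : ℝ → ℂ} (hq : Continuous q) (hf : Continuous f) (X : ℝ) (a b : ℂ) :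
    IsSol q f (solU q f X a b) (solV q f X a b) := by
  have h := exists_sol hq hf X a b
  unfold solU solV solP
  rw [dif_pos h]
  exact h.choose_spec.1

theorem solU_at {q f : ℝ → ℂ} (hq : Continuous q) (hf : Continuous f) (X : ℝ) (a b : ℂ) :
    solU q f X a b X = a := by
  have h := exists_sol hq hf X a b
  unfold solU solP
  rw [dif_pos h]
  exact h.choose_spec.2.1

theorem solV_at {q f : ℝ → ℂ} (hq : Continuous q) (hf : Continuous f) (X : ℝ) (a b : ℂ) :
    solV q f X a b X = b := by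
  have h := exists_sol hq hf X a b
  unfold solV solP
  rw [dif_pos h]
  exact h.choose_spec.2.2

theorem IsSol.add {q f u v f' u' v' : ℝ → ℂ} (h : IsSol q f u v) (h' : IsSol q f' u' v') :
    IsSol q (fun x => f x + f' x) (fun x => u x + u' x) (fun x => v x + v' x) :=
  ⟨fun x => (h.du x).add (h'.du x), fun x => ((h.dv x).add (h'.dv x)).congr_deriv (by ring)⟩

theorem IsSol.smul {q f u v : ℝ → ℂ} (a : ℂ) (h : IsSol q f u v) :
    IsSol q (fun x => a * f x) (fun x => a * u x) (fun x => a * v x) :=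
  ⟨fun x => (h.du x).const_mul a, fun x => ((h.dv x).const_mul a).congr_deriv (by ring)⟩

theorem IsSol.sub {q f u v f' u' v' : ℝ → ℂ} (h : IsSol q f u v) (h' : IsSol q f' u' v') :
    IsSol q (fun x => f x - f' x) (fun x => u x - u' x) (fun x => v x - v' x) :=
  ⟨fun x => (h.du x).sub (h'.du x), fun x => ((h.dv x).sub (h'.dv x)).congr_deriv (by ring)⟩

theorem IsSol.congr_f {q f g u v : ℝ → ℂ} (h : IsSol q f u v) (hfg : ∀ x, f x = g x) :
    IsSol q g u v :=
  ⟨h.du, fun x => (h.dv x).congr_deriv (by rw [hfg])⟩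

/-- reflection about a point -/
theorem IsSol.reflect {q f u v : ℝ → ℂ} (h : IsSol q f u v) (c : ℝ) :
    IsSol (fun x => q (c - x)) (fun x => f (c - x)) (fun x => u (c - x)) (fun x => - v (c - x)) := by
  constructor
  · intro x
    have h1 : HasDerivAt (fun y : ℝ => c - y) (-1) x := by
      simpa using (hasDerivAt_id x).const_sub c
    have h2 := (h.du (c - x)).scomp x h1
    exact h2.congr_deriv (by simp)
  · intro x
    have h1 : HasDerivAt (fun y : ℝ => c - y) (-1) x := by
      simpa using (hasDerivAt_id x).const_sub c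
    have h2 := ((h.dv (c - x)).scomp x h1).neg
    exact h2.congr_deriv (by simp)

lemma sol_bound_right {q f u v : ℝ → ℂ} (h : IsSol q f u v) {X x K F : ℝ} (hXx : X ≤ x)
    (hK : 1 ≤ K) (hF : 0 ≤ F)
    (hq : ∀ t ∈ Icc X x, ‖q t‖ ≤ K ^ 2) (hf : ∀ t ∈ Icc X x, ‖f t‖ ≤ F) :
    max (K * ‖u x‖) ‖v x‖ ≤ (K * ‖u X‖ + ‖v X‖ + F) * Real.exp (K * (x - X)) := by
  have hK0 : 0 < K := by linarith
  set g : ℝ → ℂ × ℂ := fun t => ((K : ℂ) * u t, v t) with hg
  set g' : ℝ → ℂ × ℂ := fun t => ((K : ℂ) * v t, q t * u t - f t) with hg'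
  have hd : ∀ t, HasDerivAt g (g' t) t := fun t =>
    ((h.du t).const_mul (K : ℂ)).prodMk (h.dv t)
  have hKn : ‖(K : ℂ)‖ = K := by
    rw [Complex.norm_real, Real.norm_eq_abs, abs_of_pos hK0]
  have hgn : ∀ t, ‖g t‖ = max (K * ‖u t‖) ‖v t‖ := by
    intro t
    rw [hg, Prod.norm_def]
    simp only [norm_mul, hKn]
  have hmain := norm_le_gronwallBound_of_norm_deriv_right_le (f := g) (f' := g')
    (δ := max (K * ‖u X‖) ‖v X‖) (K := K) (ε := F) (a := X) (b := x)
    (fun t _ => (hd t).continuousAt.continuousWithinAt)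
    (fun t _ => (hd t).hasDerivWithinAt) (le_of_eq (hgn X)) (by
      intro t ht
      have ht' : t ∈ Icc X x := ⟨ht.1, ht.2.le⟩
      rw [hgn, hg', Prod.norm_def]
      simp only [norm_mul, hKn]
      apply max_le
      · have := le_max_right (K * ‖u t‖) ‖v t‖
        nlinarith [norm_nonneg (u t)]
      · have h1 := norm_sub_le (q t * u t) (f t)
        rw [norm_mul] at h1
        have h2 : ‖q t‖ * ‖u t‖ ≤ K ^ 2 * ‖u t‖ :=
          mul_le_mul_of_nonneg_right (hq t ht') (norm_nonneg _)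
        have h3 := hf t ht'
        have h4 : K * (K * ‖u t‖) ≤ K * max (K * ‖u t‖) ‖v t‖ :=
          mul_le_mul_of_nonneg_left (le_max_left _ _) hK0.le
        nlinarith) x ⟨hXx, le_rfl⟩
  rw [hgn] at hmain
  refine hmain.trans ?_
  rw [gronwallBound_of_K_ne_0 hK0.ne']
  have h1 : max (K * ‖u X‖) ‖v X‖ ≤ K * ‖u X‖ + ‖v X‖ := by
    apply max_le
    · linarith [norm_nonneg (v X)]
    · have := mul_nonneg hK0.le (norm_nonneg (u X)); linarith
  have h2 : F / K * (Real.exp (K * (x - X)) - 1) ≤ F * Real.exp (K * (x - X)) := by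
    have h3 : F / K ≤ F := div_le_self hF hK
    have h4 : 1 ≤ Real.exp (K * (x - X)) := Real.one_le_exp (mul_nonneg hK0.le (by linarith))
    have h5 : 0 ≤ F / K := by positivity
    nlinarith
  have h3 := Real.exp_pos (K * (x - X))
  calc max (K * ‖u X‖) ‖v X‖ * Real.exp (K * (x - X)) + F / K * (Real.exp (K * (x - X)) - 1)
      ≤ (K * ‖u X‖ + ‖v X‖) * Real.exp (K * (x - X)) + F * Real.exp (K * (x - X)) :=
        add_le_add (mul_le_mul_of_nonneg_right h1 h3.le) h2
    _ = _ := by ring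

/-- Gronwall: on an interval where `‖q‖ ≤ K²` (with `K ≥ 1`) and `‖f‖ ≤ F`. -/
theorem sol_bound {q f u v : ℝ → ℂ} (h : IsSol q f u v) {X x K F : ℝ} (hK : 1 ≤ K) (hF : 0 ≤ F)
    (hq : ∀ t ∈ uIcc X x, ‖q t‖ ≤ K ^ 2) (hf : ∀ t ∈ uIcc X x, ‖f t‖ ≤ F) :
    ‖u x‖ ≤ (K * ‖u X‖ + ‖v X‖ + F) * Real.exp (K * |x - X|) ∧
    ‖v x‖ ≤ (K * ‖u X‖ + ‖v X‖ + F) * Real.exp (K * |x - X|) := by
  have key : max (K * ‖u x‖) ‖v x‖ ≤ (K * ‖u X‖ + ‖v X‖ + F) * Real.exp (K * |x - X|) := by
    rcases le_total X x with hXx | hXx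
    · rw [uIcc_of_le hXx] at hq hf
      rw [abs_of_nonneg (by linarith)]
      exact sol_bound_right h hXx hK hF hq hf
    · rw [uIcc_of_ge hXx] at hq hf
      rw [abs_of_nonpos (by linarith)]
      have h1 := h.reflect (X + x)
      have h2 := sol_bound_right h1 hXx hK hF (fun t ht => hq _ ⟨by linarith [ht.2], by linarith [ht.1]⟩)
        (fun t ht => hf _ ⟨by linarith [ht.2], by linarith [ht.1]⟩)
      simp only [norm_neg, add_sub_cancel_left, add_sub_cancel_right] at h2
      rw [neg_sub]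
      exact h2
  constructor
  · refine le_trans ?_ key
    refine le_trans ?_ (le_max_left _ _)
    nlinarith [norm_nonneg (u x)]
  · exact (le_max_right _ _).trans key

theorem IsSol.unique {q f u v u' v' : ℝ → ℂ} (hq : Continuous q) (h : IsSol q f u v)
    (h' : IsSol q f u' v') {X : ℝ} (hu : u X = u' X) (hv : v X = v' X) :
    (∀ x, u x = u' x) ∧ (∀ x, v x = v' x) := by
  have hd := h.sub h'
  have key : ∀ x, u x = u' x ∧ v x = v' x := by
    intro x
    obtain ⟨K1, hK1⟩ := (isCompact_uIcc (a := X) (b := x)).exists_bound_of_continuousOn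
      hq.continuousOn
    have hK : ∀ t ∈ uIcc X x, ‖q t‖ ≤ (max 1 K1) ^ 2 := by
      intro t ht
      have h1 := (hK1 t ht).trans (le_max_right 1 K1)
      have h2 := le_max_left 1 K1
      nlinarith
    have h1 := sol_bound hd (X := X) (x := x) (K := max 1 K1) (F := 0) (le_max_left _ _) le_rfl hK
      (by intro t _; simp)
    simp only [hu, hv, sub_self, norm_zero, mul_zero, add_zero, zero_mul] at h1
    constructor
    · exact sub_eq_zero.mp (norm_le_zero_iff.mp h1.1)
    · exact sub_eq_zero.mp (norm_le_zero_iff.mp h1.2)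
  exact ⟨fun x => (key x).1, fun x => (key x).2⟩

/-- the derivative is controlled by the values on an interval of length one -/
theorem deriv_le {q f u v : ℝ → ℂ} (_hqc : Continuous q) (_hfc : Continuous f) (h : IsSol q f u v)
    {a B Q F : ℝ} (hu : ∀ t ∈ Icc a (a + 1), ‖u t‖ ≤ B) (hq : ∀ t ∈ Icc a (a + 1), ‖q t‖ ≤ Q)
    (hf : ∀ t ∈ Icc a (a + 1), ‖f t‖ ≤ F) {x : ℝ} (hx : x ∈ Icc a (a + 1)) :
    ‖v x‖ ≤ 2 * B + Q * B + F := by
  have hB : 0 ≤ B := (norm_nonneg _).trans (hu x hx)
  have hQ : 0 ≤ Q := (norm_nonneg _).trans (hq x hx)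
  have hF : 0 ≤ F := (norm_nonneg _).trans (hf x hx)
  have hcu := h.cont
  have hcv := h.cont'
  have h1 : ∫ t in a..(a+1), v t = u (a + 1) - u a :=
    intervalIntegral.integral_eq_sub_of_hasDerivAt (fun t _ => h.du t)
      (hcv.intervalIntegrable _ _)
  have h2 : ∫ t in a..(a+1), (v x - v t) = v x - (u (a + 1) - u a) := by
    rw [intervalIntegral.integral_sub (continuous_const.intervalIntegrable _ _)
      (hcv.intervalIntegrable _ _), h1]
    simp
  have h3 : ∀ t ∈ Icc a (a + 1), ‖v x - v t‖ ≤ Q * B + F := by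
    intro t ht
    have h4 : ∀ y ∈ Icc a (a + 1), ‖q y * u y - f y‖ ≤ Q * B + F := by
      intro y hy
      refine (norm_sub_le _ _).trans (add_le_add ?_ (hf y hy))
      rw [norm_mul]
      exact mul_le_mul (hq y hy) (hu y hy) (norm_nonneg _) hQ
    have h5 := (convex_Icc a (a+1)).norm_image_sub_le_of_norm_hasDerivWithin_le
      (f := v) (f' := fun y => q y * u y - f y) (C := Q * B + F)
      (fun y _ => (h.dv y).hasDerivWithinAt) h4 ht hx
    refine h5.trans ?_
    have h6 : ‖x - t‖ ≤ 1 := by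
      rw [Real.norm_eq_abs, abs_le]
      constructor <;> linarith [hx.1, hx.2, ht.1, ht.2]
    have h7 : 0 ≤ Q * B + F := by positivity
    nlinarith
  have h4 : ‖v x - (u (a + 1) - u a)‖ ≤ Q * B + F := by
    rw [← h2]
    have h5 := intervalIntegral.norm_integral_le_of_norm_le_const (a := a) (b := a + 1)
      (f := fun t => v x - v t) (C := Q * B + F) (fun t ht => by
        rw [uIoc_of_le (by linarith)] at ht
        exact h3 t ⟨ht.1.le, ht.2⟩)
    simpa using h5
  have h5 : ‖u (a + 1) - u a‖ ≤ 2 * B := by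
    refine (norm_sub_le _ _).trans ?_
    have := hu a ⟨le_rfl, by linarith⟩
    have := hu (a + 1) ⟨by linarith, le_rfl⟩
    linarith
  calc ‖v x‖ = ‖(v x - (u (a + 1) - u a)) + (u (a + 1) - u a)‖ := by rw [sub_add_cancel]
    _ ≤ ‖v x - (u (a + 1) - u a)‖ + ‖u (a + 1) - u a‖ := norm_add_le _ _
    _ ≤ _ := by linarith


/-- holomorphic dependence on parameters, with the derivative -/
theorem sol_hasDerivAt (hα : 0 < α) {c κ a b : ℂ → ℂ} {t₀ c₁ κ₁ a₁ b₁ : ℂ}
    (hc : HasDerivAt c c₁ t₀) (hκ : HasDerivAt κ κ₁ t₀) (ha : HasDerivAt a a₁ t₀)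
    (hb : HasDerivAt b b₁ t₀) {f : ℝ → ℂ} (hf : Continuous f) (X x : ℝ) :
    ∃ z z' : ℝ → ℂ, IsSol (qf α (c t₀) (κ t₀))
      (fun y => - ((c₁ * ((|y| ^ α : ℝ) : ℂ) - κ₁) *
        solU (qf α (c t₀) (κ t₀)) f X (a t₀) (b t₀) y)) z z' ∧
      HasDerivAt (fun t => solU (qf α (c t) (κ t)) f X (a t) (b t) x) (z x) t₀ ∧
      HasDerivAt (fun t => solV (qf α (c t) (κ t)) f X (a t) (b t) x) (z' x) t₀ := by
  have hpow : Continuous (fun y : ℝ => ((|y| ^ α : ℝ) : ℂ)) :=
    Complex.continuous_ofReal.comp (continuous_abs.rpow_const (fun x => Or.inr hα.le))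
  have hq : ∀ t, Continuous (qf α (c t) (κ t)) := fun t => continuous_qf hα _ _
  have hS : ∀ t, IsSol (qf α (c t) (κ t)) f (solU (qf α (c t) (κ t)) f X (a t) (b t))
      (solV (qf α (c t) (κ t)) f X (a t) (b t)) := fun t => isSol_sol (hq t) hf X (a t) (b t)
  set u : ℂ → ℝ → ℂ := fun t => solU (qf α (c t) (κ t)) f X (a t) (b t) with hu
  set v : ℂ → ℝ → ℂ := fun t => solV (qf α (c t) (κ t)) f X (a t) (b t) with hv
  have hSu : ∀ t, IsSol (qf α (c t) (κ t)) f (u t) (v t) := hS
  have huX : ∀ t, u t X = a t := fun t => solU_at (hq t) hf X (a t) (b t)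
  have hvX : ∀ t, v t X = b t := fun t => solV_at (hq t) hf X (a t) (b t)
  have hu0c : Continuous (u t₀) := (hSu t₀).cont
  set g : ℝ → ℂ := fun y => - ((c₁ * ((|y| ^ α : ℝ) : ℂ) - κ₁) * u t₀ y) with hg
  have hgc : Continuous g := by
    rw [hg]; fun_prop
  obtain ⟨⟨z, z'⟩, hz, hzX, hzX'⟩ := exists_sol (hq t₀) hgc X a₁ b₁
  simp only at hz hzX hzX'
  refine ⟨z, z', hz, ?_⟩
  -- compactness bounds
  have hJ : IsCompact (uIcc X x) := isCompact_uIcc
  obtain ⟨A0, hA0⟩ := hJ.exists_bound_of_continuousOn hpow.continuousOn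
  obtain ⟨U0, hU0⟩ := hJ.exists_bound_of_continuousOn hu0c.continuousOn
  obtain ⟨Z0, hZ0⟩ := hJ.exists_bound_of_continuousOn hz.cont.continuousOn
  have hA0' : 0 ≤ A0 := (norm_nonneg _).trans (hA0 X left_mem_uIcc)
  have hU0' : 0 ≤ U0 := (norm_nonneg _).trans (hU0 X left_mem_uIcc)
  have hZ0' : 0 ≤ Z0 := (norm_nonneg _).trans (hZ0 X left_mem_uIcc)
  set K : ℝ := 1 + (‖c t₀‖ + 1) * A0 + (‖κ t₀‖ + 1) with hKdef
  have hK1 : 1 ≤ K := by
    rw [hKdef]; have := mul_nonneg (add_nonneg (norm_nonneg (c t₀)) zero_le_one) hA0'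
    linarith [norm_nonneg (κ t₀)]
  -- little o pieces
  have oc := hasDerivAt_iff_isLittleO.mp hc
  have oκ := hasDerivAt_iff_isLittleO.mp hκ
  have oa := hasDerivAt_iff_isLittleO.mp ha
  have ob := hasDerivAt_iff_isLittleO.mp hb
  set rc : ℂ → ℂ := fun t => c t - c t₀ - (t - t₀) • c₁ with hrc
  set rκ : ℂ → ℂ := fun t => κ t - κ t₀ - (t - t₀) • κ₁ with hrκ
  set ra : ℂ → ℂ := fun t => a t - a t₀ - (t - t₀) • a₁ with hra
  set rb : ℂ → ℂ := fun t => b t - b t₀ - (t - t₀) • b₁ with hrb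
  set Er : ℂ → ℝ := fun t => (K * ‖ra t‖ + ‖rb t‖ + ((‖rc t‖ * A0 + ‖rκ t‖) * U0 +
    ‖t - t₀‖ * ((‖c t - c t₀‖ * A0 + ‖κ t - κ t₀‖) * Z0))) * Real.exp (K * |x - X|) with hEr
  have hEo : Er =o[𝓝 t₀] fun t => t - t₀ := by
    have h1 : (fun t => K * ‖ra t‖) =o[𝓝 t₀] fun t => t - t₀ := oa.norm_left.const_mul_left K
    have h2 : (fun t => ‖rb t‖) =o[𝓝 t₀] fun t => t - t₀ := ob.norm_left
    have h3 : (fun t => (‖rc t‖ * A0 + ‖rκ t‖) * U0) =o[𝓝 t₀] fun t => t - t₀ := by
      have h31 : (fun t => A0 * ‖rc t‖) =o[𝓝 t₀] fun t => t - t₀ := oc.norm_left.const_mul_left A0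
      have h32 : (fun t => ‖rκ t‖) =o[𝓝 t₀] fun t => t - t₀ := oκ.norm_left
      have h33 := (h31.add h32).const_mul_left U0
      refine h33.congr_left (fun t => by ring)
    have h4 : (fun t => ‖t - t₀‖ * ((‖c t - c t₀‖ * A0 + ‖κ t - κ t₀‖) * Z0)) =o[𝓝 t₀]
        fun t => t - t₀ := by
      have h41 : Tendsto (fun t => (‖c t - c t₀‖ * A0 + ‖κ t - κ t₀‖) * Z0) (𝓝 t₀) (𝓝 0) := by
        have e1 : Tendsto (fun t => ‖c t - c t₀‖) (𝓝 t₀) (𝓝 0) := by
          have := (hc.continuousAt.tendsto.sub_const (c t₀)).norm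
          simpa using this
        have e2 : Tendsto (fun t => ‖κ t - κ t₀‖) (𝓝 t₀) (𝓝 0) := by
          have := (hκ.continuousAt.tendsto.sub_const (κ t₀)).norm
          simpa using this
        have := ((e1.mul_const A0).add e2).mul_const Z0
        simpa using this
      have h42 : (fun t => (‖c t - c t₀‖ * A0 + ‖κ t - κ t₀‖) * Z0) =o[𝓝 t₀]
          fun _ => (1 : ℝ) := (Asymptotics.isLittleO_one_iff ℝ).mpr h41
      have h43 : (fun t : ℂ => ‖t - t₀‖) =O[𝓝 t₀] fun t => ‖t - t₀‖ := Asymptotics.isBigO_refl _ _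
      have h44 := h43.mul_isLittleO h42
      simp only [mul_one] at h44
      exact h44.of_norm_right
    have h5 := ((h1.add h2).add (h3.add h4)).const_mul_left (Real.exp (K * |x - X|))
    refine h5.congr_left (fun t => by rw [hEr]; ring)
  -- the remainder bound
  have hrem : ∀ᶠ t in 𝓝 t₀,
      ‖u t x - u t₀ x - (t - t₀) • z x‖ ≤ Er t ∧ ‖v t x - v t₀ x - (t - t₀) • z' x‖ ≤ Er t := by
    have e1 : ∀ᶠ t in 𝓝 t₀, ‖c t‖ < ‖c t₀‖ + 1 :=
      (hc.continuousAt.norm.tendsto).eventually_lt_const (by linarith)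
    have e2 : ∀ᶠ t in 𝓝 t₀, ‖κ t‖ < ‖κ t₀‖ + 1 :=
      (hκ.continuousAt.norm.tendsto).eventually_lt_const (by linarith)
    filter_upwards [e1, e2] with t h1 h2
    have hqK : ∀ y ∈ uIcc X x, ‖qf α (c t) (κ t) y‖ ≤ K ^ 2 := by
      intro y hy
      have h3 : ‖qf α (c t) (κ t) y‖ ≤ ‖c t‖ * A0 + ‖κ t‖ := by
        unfold qf
        refine (norm_sub_le _ _).trans ?_
        rw [norm_mul]
        exact add_le_add (mul_le_mul_of_nonneg_left (hA0 y hy) (norm_nonneg _)) le_rfl
      have h4 : ‖c t‖ * A0 ≤ (‖c t₀‖ + 1) * A0 := mul_le_mul_of_nonneg_right h1.le hA0'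
      have h5 : ‖qf α (c t) (κ t) y‖ ≤ K := by rw [hKdef]; linarith
      nlinarith
    have hR : IsSol (qf α (c t) (κ t))
        (fun y => - ((rc t * ((|y| ^ α : ℝ) : ℂ) - rκ t) * u t₀ y +
          (t - t₀) * (((c t - c t₀) * ((|y| ^ α : ℝ) : ℂ) - (κ t - κ t₀)) * z y)))
        (fun y => u t y - u t₀ y - (t - t₀) * z y) (fun y => v t y - v t₀ y - (t - t₀) * z' y) := by
      constructor
      · intro y
        exact (((hSu t).du y).sub ((hSu t₀).du y)).sub ((hz.du y).const_mul (t - t₀))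
      · intro y
        refine ((((hSu t).dv y).sub ((hSu t₀).dv y)).sub
          ((hz.dv y).const_mul (t - t₀))).congr_deriv ?_
        simp only [hg, hrc, hrκ, qf, smul_eq_mul]
        ring
    have hF : 0 ≤ (‖rc t‖ * A0 + ‖rκ t‖) * U0 +
        ‖t - t₀‖ * ((‖c t - c t₀‖ * A0 + ‖κ t - κ t₀‖) * Z0) := by positivity
    have hb := sol_bound hR (X := X) (x := x) hK1 hF hqK (by
      intro y hy
      rw [norm_neg]
      refine (norm_add_le _ _).trans (add_le_add ?_ ?_)
      · rw [norm_mul]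
        refine mul_le_mul ?_ (hU0 y hy) (norm_nonneg _) (by positivity)
        refine (norm_sub_le _ _).trans ?_
        rw [norm_mul]
        exact add_le_add (mul_le_mul_of_nonneg_left (hA0 y hy) (norm_nonneg _)) le_rfl
      · rw [norm_mul, norm_mul]
        refine mul_le_mul_of_nonneg_left ?_ (norm_nonneg _)
        refine mul_le_mul ?_ (hZ0 y hy) (norm_nonneg _) (by positivity)
        refine (norm_sub_le _ _).trans ?_
        rw [norm_mul]
        exact add_le_add (mul_le_mul_of_nonneg_left (hA0 y hy) (norm_nonneg _)) le_rfl)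
    have hX1 : u t X - u t₀ X - (t - t₀) * z X = ra t := by
      rw [huX, huX, hzX, hra]; simp only [smul_eq_mul]
    have hX2 : v t X - v t₀ X - (t - t₀) * z' X = rb t := by
      rw [hvX, hvX, hzX', hrb]; simp only [smul_eq_mul]
    simp only [hX1, hX2] at hb
    constructor
    · simpa [hEr, smul_eq_mul] using hb.1
    · simpa [hEr, smul_eq_mul] using hb.2
  constructor
  · rw [hasDerivAt_iff_isLittleO]
    refine Asymptotics.IsBigO.trans_isLittleO ?_ hEo
    refine Asymptotics.IsBigO.of_bound 1 ?_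
    filter_upwards [hrem] with t ht
    rw [one_mul]
    exact ht.1.trans (le_abs_self _)
  · rw [hasDerivAt_iff_isLittleO]
    refine Asymptotics.IsBigO.trans_isLittleO ?_ hEo
    refine Asymptotics.IsBigO.of_bound 1 ?_
    filter_upwards [hrem] with t ht
    rw [one_mul]
    exact ht.2.trans (le_abs_self _)

/-- holomorphic dependence on parameters -/
theorem sol_diff (hα : 0 < α) {c κ a b : ℂ → ℂ} {t₀ : ℂ} (hc : DifferentiableAt ℂ c t₀)
    (hκ : DifferentiableAt ℂ κ t₀) (ha : DifferentiableAt ℂ a t₀) (hb : DifferentiableAt ℂ b t₀)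
    {f : ℝ → ℂ} (hf : Continuous f) (X x : ℝ) :
    DifferentiableAt ℂ (fun t => solU (qf α (c t) (κ t)) f X (a t) (b t) x) t₀ ∧
    DifferentiableAt ℂ (fun t => solV (qf α (c t) (κ t)) f X (a t) (b t) x) t₀ := by
  obtain ⟨z, z', -, h1, h2⟩ := sol_hasDerivAt hα hc.hasDerivAt hκ.hasDerivAt ha.hasDerivAt
    hb.hasDerivAt hf X x
  exact ⟨h1.differentiableAt, h2.differentiableAt⟩

end Pool.Agent.Work.MP_9fcdee_mp
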