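import Pool.Agent.Work.MP_9fcdee_mp.M1_Ode

set_option autoImplicit false

open Set Filter Topology MeasureTheory

namespace Pool.Agent.Work.MP_9fcdee_mp

variable {α : ℝ}

lemma IsSol.continuous_u {q f u v : ℝ → ℂ} (h : IsSol q f u v) : Continuous u :=
  continuous_iff_continuousAt.2 fun x => (h.du x).continuousAt

lemma IsSol.continuous_v {q f u v : ℝ → ℂ} (h : IsSol q f u v) : Continuous v :=
  continuous_iff_continuousAt.2 fun x => (h.dv x).continuousAt

lemma FinEn.extend {u v : ℝ → ℂ} {X Y : ℝ} (hu : Continuous u) (hv : Continuous v)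
    (h : FinEn Y u v) : FinEn X u v := by
  unfold FinEn at *
  rcases le_total Y X with hXY | hXY
  · exact h.mono_set (Ioi_subset_Ioi hXY)
  · rw [← Ioc_union_Ioi_eq_Ioi hXY]
    refine IntegrableOn.union ?_ h
    have hc : Continuous fun x => ‖u x‖ ^ 2 + ‖v x‖ ^ 2 := by fun_prop
    exact (hc.integrableOn_Icc (a := X) (b := Y)).mono_set Ioc_subset_Icc_self

lemma FinEn.add {u v u' v' : ℝ → ℂ} {X : ℝ} (h : FinEn X u v) (h' : FinEn X u' v')
    (hu : Continuous u) (hv : Continuous v) (hu' : Continuous u') (hv' : Continuous v') :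
    FinEn X (fun x => u x + u' x) (fun x => v x + v' x) := by
  unfold FinEn at *
  have hg : IntegrableOn (fun x => 2 * (‖u x‖ ^ 2 + ‖v x‖ ^ 2) + 2 * (‖u' x‖ ^ 2 + ‖v' x‖ ^ 2))
      (Ioi X) := (h.const_mul 2).add (h'.const_mul 2)
  refine Integrable.mono' hg ?_ ?_
  · exact (by fun_prop : Continuous fun x => ‖u x + u' x‖ ^ 2 + ‖v x + v' x‖ ^ 2).aestronglyMeasurable
  · refine Eventually.of_forall fun x => ?_
    rw [Real.norm_of_nonneg (by positivity)]
    have h1 : ‖u x + u' x‖ ≤ ‖u x‖ + ‖u' x‖ := norm_add_le _ _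
    have h2 : ‖v x + v' x‖ ≤ ‖v x‖ + ‖v' x‖ := norm_add_le _ _
    have h3 : ‖u x + u' x‖ ^ 2 ≤ (‖u x‖ + ‖u' x‖) ^ 2 := pow_le_pow_left₀ (norm_nonneg _) h1 2
    have h4 : ‖v x + v' x‖ ^ 2 ≤ (‖v x‖ + ‖v' x‖) ^ 2 := pow_le_pow_left₀ (norm_nonneg _) h2 2
    nlinarith [sq_nonneg (‖u x‖ - ‖u' x‖), sq_nonneg (‖v x‖ - ‖v' x‖)]

lemma FinEn.smul {u v : ℝ → ℂ} {X : ℝ} (a : ℂ) (h : FinEn X u v) :
    FinEn X (fun x => a * u x) (fun x => a * v x) := by
  unfold FinEn at *
  have : (fun x => ‖a * u x‖ ^ 2 + ‖a * v x‖ ^ 2) = fun x => ‖a‖ ^ 2 * (‖u x‖ ^ 2 + ‖v x‖ ^ 2) := by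
    ext x
    rw [norm_mul, norm_mul]
    ring
  rw [this]
  exact h.const_mul _

/-- a nonnegative continuous integrable function is small along a sequence -/
lemma exists_seq_small {g : ℝ → ℝ} {X : ℝ} (hg0 : ∀ x, 0 ≤ g x) (hg : IntegrableOn g (Ioi X)) :
    ∃ L : ℕ → ℝ, Tendsto L atTop atTop ∧ Tendsto (fun n => g (L n)) atTop (𝓝 0) := by
  have key : ∀ ε > 0, ∀ N : ℝ, ∃ L > N, g L < ε := by
    intro ε hε N
    by_contra hcon
    push Not at hcon
    have h1 : IntegrableOn (fun _ : ℝ => ε) (Ioi (max N X)) := by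
      have h2 : IntegrableOn g (Ioi (max N X)) := hg.mono_set (Ioi_subset_Ioi (le_max_right _ _))
      refine Integrable.mono' h2 aestronglyMeasurable_const ?_
      rw [ae_restrict_iff' measurableSet_Ioi]
      refine Eventually.of_forall fun x hx => ?_
      rw [Real.norm_of_nonneg hε.le]
      exact hcon x (lt_of_le_of_lt (le_max_left _ _) hx)
    rw [integrableOn_const_iff] at h1
    rcases h1 with h1 | h1
    · simp at h1
      exact hε.ne' h1
    · simp at h1
  choose! L hL1 hL2 using key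
  refine ⟨fun n => L (1 / ((n : ℝ) + 1)) n, ?_, ?_⟩
  · refine tendsto_atTop_mono (fun n => (hL1 (1 / ((n : ℝ) + 1)) (by positivity) n).le) ?_
    exact tendsto_natCast_atTop_atTop
  · refine squeeze_zero (fun n => hg0 _) (fun n => (hL2 (1 / ((n : ℝ) + 1)) (by positivity) n).le) ?_
    exact tendsto_one_div_add_atTop_nhds_zero_nat

/-- pointwise bound by the energy -/
theorem norm_sq_le_En {q f u v : ℝ → ℂ} (h : IsSol q f u v) {X : ℝ} (hE : FinEn X u v)
    {x : ℝ} (hx : X ≤ x) : ‖u x‖ ^ 2 ≤ En X u v := by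
  have hu := h.continuous_u
  have hv := h.continuous_v
  obtain ⟨L, hL, hgL⟩ := exists_seq_small (fun x => by positivity) hE
  have hderiv : ∀ t, HasDerivAt (fun t => ‖u t‖ ^ 2) (2 * inner ℝ (u t) (v t)) t :=
    fun t => (h.du t).norm_sq
  have hcont : Continuous fun t => 2 * inner ℝ (u t) (v t) := by fun_prop
  have key : ∀ᶠ n in atTop, ‖u x‖ ^ 2 ≤ (‖u (L n)‖ ^ 2 + ‖v (L n)‖ ^ 2) + En X u v := by
    filter_upwards [hL.eventually_ge_atTop x] with n hn
    have hftc : ∫ t in x..(L n), 2 * inner ℝ (u t) (v t) = ‖u (L n)‖ ^ 2 - ‖u x‖ ^ 2 :=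
      intervalIntegral.integral_eq_sub_of_hasDerivAt (fun t _ => hderiv t)
        (hcont.intervalIntegrable _ _)
    have h1 : ∫ t in x..(L n), -(‖u t‖ ^ 2 + ‖v t‖ ^ 2) ≤ ∫ t in x..(L n), 2 * inner ℝ (u t) (v t) := by
      apply intervalIntegral.integral_mono_on hn
      · exact (by fun_prop : Continuous fun t => -(‖u t‖ ^ 2 + ‖v t‖ ^ 2)).intervalIntegrable _ _
      · exact hcont.intervalIntegrable _ _
      · intro t _
        have h2 := abs_real_inner_le_norm (u t) (v t)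
        have h3 := neg_le_of_abs_le h2
        nlinarith [sq_nonneg (‖u t‖ - ‖v t‖)]
    have h2 : ∫ t in x..(L n), (‖u t‖ ^ 2 + ‖v t‖ ^ 2) ≤ En X u v := by
      rw [intervalIntegral.integral_of_le hn]
      apply setIntegral_mono_set hE
      · exact Eventually.of_forall fun t => by positivity
      · exact (Ioc_subset_Ioi_self.trans (Ioi_subset_Ioi hx)).eventuallyLE
    rw [intervalIntegral.integral_neg] at h1
    have h3 : 0 ≤ ‖v (L n)‖ ^ 2 := by positivity
    linarith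
  have hlim : Tendsto (fun n => (‖u (L n)‖ ^ 2 + ‖v (L n)‖ ^ 2) + En X u v) atTop
      (𝓝 (0 + En X u v)) := hgL.add_const _
  rw [zero_add] at hlim
  exact ge_of_tendsto hlim key

/-- two homogeneous finite energy solutions have vanishing Wronskian -/
theorem wronskian_zero {q u v u' v' : ℝ → ℂ} (h : IsSol q 0 u v) (h' : IsSol q 0 u' v') {X : ℝ}
    (hE : FinEn X u v) (hE' : FinEn X u' v') (x : ℝ) : u x * v' x - u' x * v x = 0 := by
  have hd : ∀ t, HasDerivAt (fun t => u t * v' t - u' t * v t) 0 t := by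
    intro t
    have h1 := ((h.du t).mul (h'.dv t)).sub ((h'.du t).mul (h.dv t))
    refine h1.congr_deriv ?_
    simp only [Pi.zero_apply]
    ring
  have hconst : ∀ t, u t * v' t - u' t * v t = u x * v' x - u' x * v x := by
    intro t
    exact is_const_of_deriv_eq_zero (fun t => (hd t).differentiableAt) (fun t => (hd t).deriv) t x
  have hsum : IntegrableOn (fun x => (‖u x‖ ^ 2 + ‖v x‖ ^ 2) + (‖u' x‖ ^ 2 + ‖v' x‖ ^ 2)) (Ioi X) :=
    Integrable.add hE hE'
  obtain ⟨L, hL, hgL⟩ := exists_seq_small (fun x => by positivity) hsum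
  have hle : ‖u x * v' x - u' x * v x‖ ≤ 0 := by
    apply ge_of_tendsto hgL
    refine Eventually.of_forall fun n => ?_
    rw [← hconst (L n)]
    refine (norm_sub_le _ _).trans ?_
    rw [norm_mul, norm_mul]
    nlinarith [sq_nonneg (‖u (L n)‖ - ‖v' (L n)‖), sq_nonneg (‖u' (L n)‖ - ‖v (L n)‖),
      sq_nonneg (‖u (L n)‖), sq_nonneg (‖v (L n)‖), sq_nonneg (‖u' (L n)‖), sq_nonneg (‖v' (L n)‖)]
  exact norm_le_zero_iff.1 hle

/-- two homogeneous finite energy solutions are proportional -/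
theorem proportional {q u v u' v' : ℝ → ℂ} (hq : Continuous q) (h : IsSol q 0 u v)
    (h' : IsSol q 0 u' v') {X : ℝ} (hE : FinEn X u v) (hE' : FinEn X u' v')
    (h0 : u X ≠ 0 ∨ v X ≠ 0) : ∃ γ : ℂ, (∀ x, u' x = γ * u x) ∧ (∀ x, v' x = γ * v x) := by
  have hW := wronskian_zero h h' hE hE' X
  have hex : ∃ γ : ℂ, u' X = γ * u X ∧ v' X = γ * v X := by
    rcases h0 with h0 | h0
    · refine ⟨u' X / u X, ?_, ?_⟩
      · field_simp
      · field_simp
        linear_combination hW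
    · refine ⟨v' X / v X, ?_, ?_⟩
      · field_simp
        linear_combination -hW
      · field_simp
  obtain ⟨γ, h1, h2⟩ := hex
  refine ⟨γ, ?_⟩
  have h3 : IsSol q 0 (fun x => γ * u x) (fun x => γ * v x) := by
    have := h.smul γ
    have e : (fun x => γ * (0 : ℝ → ℂ) x) = 0 := by
      ext x
      simp
    rwa [e] at this
  exact IsSol.unique hq h' h3 (X := X) h1 h2

/-- Green's identity -/
theorem green {q f w w' u v : ℝ → ℂ} (hf : Continuous f) (h : IsSol q f w w')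
    (h' : IsSol q 0 u v) {X : ℝ} (hE : FinEn X w w') (hE' : FinEn X u v) (hf2 : SqInt X f) :
    IntegrableOn (fun x => f x * u x) (Ioi X) ∧
    ∫ x in Ioi X, f x * u x = w' X * u X - w X * v X := by
  have hw := h.continuous_u
  have hw' := h.continuous_v
  have hu := h'.continuous_u
  have hv := h'.continuous_v
  have hint : IntegrableOn (fun x => f x * u x) (Ioi X) := by
    have hg : IntegrableOn (fun x => ‖f x‖ ^ 2 + (‖u x‖ ^ 2 + ‖v x‖ ^ 2)) (Ioi X) :=
      Integrable.add hf2 hE'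
    refine Integrable.mono' hg (hf.mul hu).aestronglyMeasurable ?_
    refine Eventually.of_forall fun x => ?_
    rw [norm_mul]
    nlinarith [sq_nonneg (‖f x‖ - ‖u x‖), sq_nonneg (‖f x‖), sq_nonneg (‖u x‖), sq_nonneg (‖v x‖)]
  refine ⟨hint, ?_⟩
  have hd : ∀ t, HasDerivAt (fun t => w' t * u t - w t * v t) (-(f t * u t)) t := by
    intro t
    have h1 := ((h.dv t).mul (h'.du t)).sub ((h.du t).mul (h'.dv t))
    refine h1.congr_deriv ?_
    simp only [Pi.zero_apply]
    ring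
  have hsum : IntegrableOn (fun x => (‖w x‖ ^ 2 + ‖w' x‖ ^ 2) + (‖u x‖ ^ 2 + ‖v x‖ ^ 2)) (Ioi X) :=
    Integrable.add hE hE'
  obtain ⟨L, hL, hgL⟩ := exists_seq_small (fun x => by positivity) hsum
  have hlim0 : Tendsto (fun n => w' (L n) * u (L n) - w (L n) * v (L n)) atTop (𝓝 0) := by
    apply squeeze_zero_norm (fun n => ?_) hgL
    refine (norm_sub_le _ _).trans ?_
    rw [norm_mul, norm_mul]
    nlinarith [sq_nonneg (‖w' (L n)‖ - ‖u (L n)‖), sq_nonneg (‖w (L n)‖ - ‖v (L n)‖),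
      sq_nonneg (‖u (L n)‖), sq_nonneg (‖v (L n)‖), sq_nonneg (‖w (L n)‖), sq_nonneg (‖w' (L n)‖)]
  have hftc : ∀ n, ∫ t in X..(L n), f t * u t =
      (w' X * u X - w X * v X) - (w' (L n) * u (L n) - w (L n) * v (L n)) := by
    intro n
    have h1 : ∫ t in X..(L n), -(f t * u t) =
        (w' (L n) * u (L n) - w (L n) * v (L n)) - (w' X * u X - w X * v X) :=
      intervalIntegral.integral_eq_sub_of_hasDerivAt (fun t _ => hd t)
        ((hf.mul hu).neg.intervalIntegrable _ _)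
    rw [intervalIntegral.integral_neg] at h1
    linear_combination -h1
  have hlim1 : Tendsto (fun n => ∫ t in X..(L n), f t * u t) atTop
      (𝓝 (∫ x in Ioi X, f x * u x)) := intervalIntegral_tendsto_integral_Ioi X hint hL
  have hlim2 : Tendsto (fun n => ∫ t in X..(L n), f t * u t) atTop
      (𝓝 ((w' X * u X - w X * v X) - 0)) := by
    simp_rw [hftc]
    exact tendsto_const_nhds.sub hlim0
  rw [sub_zero] at hlim2
  exact tendsto_nhds_unique hlim1 hlim2

/-- finite interval energy inequality -/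
theorem energy_local {q f u v : ℝ → ℂ} (hf : Continuous f)
    (h : IsSol q f u v) {X : ℝ} {τ : ℂ} {δ : ℝ} (hc : Coer q X τ δ) {L : ℝ} (hL : X ≤ L) :
    (δ / 2) * (∫ x in X..L, (‖u x‖ ^ 2 + ‖v x‖ ^ 2)) - (∫ x in X..L, ‖f x‖ ^ 2) / (2 * δ) ≤
      ‖u L‖ * ‖v L‖ + ‖u X‖ * ‖v X‖ := by
  have hu := h.continuous_u
  have hv := h.continuous_v
  have hδ := hc.pos
  set Φ : ℝ → ℝ := fun x => (τ * (v x * (starRingEnd ℂ) (u x))).re with hΦ
  have hΦb : ∀ x, |Φ x| ≤ ‖u x‖ * ‖v x‖ := by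
    intro x
    refine (Complex.abs_re_le_norm _).trans ?_
    rw [norm_mul, norm_mul, RCLike.norm_conj]
    have := hc.nrm
    have h2 : 0 ≤ ‖v x‖ * ‖u x‖ := by positivity
    nlinarith
  have hconj : ∀ t, HasDerivAt (fun t => (starRingEnd ℂ) (u t)) ((starRingEnd ℂ) (v t)) t := by
    intro t
    exact (h.du t).star
  set G : ℝ → ℂ := fun t => τ * ((q t * u t - f t) * (starRingEnd ℂ) (u t) +
    v t * (starRingEnd ℂ) (v t)) with hG
  have hder : ∀ t, HasDerivAt Φ (G t).re t := by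
    intro t
    have h1 := (((h.dv t).mul (hconj t)).const_mul τ)
    have h2 := Complex.reCLM.hasFDerivAt.comp_hasDerivAt t h1
    exact h2
  have hlow : ∀ t, X ≤ t → (δ / 2) * (‖u t‖ ^ 2 + ‖v t‖ ^ 2) - ‖f t‖ ^ 2 / (2 * δ) ≤ (G t).re := by
    intro t ht
    have e1 : G t = ((‖v t‖ ^ 2 : ℝ) : ℂ) * τ + ((‖u t‖ ^ 2 : ℝ) : ℂ) * (τ * q t) -
        τ * (f t * (starRingEnd ℂ) (u t)) := by
      rw [hG]
      simp only
      have e2 : v t * (starRingEnd ℂ) (v t) = ((‖v t‖ ^ 2 : ℝ) : ℂ) := by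
        rw [Complex.mul_conj, Complex.normSq_eq_norm_sq]
      have e3 : u t * (starRingEnd ℂ) (u t) = ((‖u t‖ ^ 2 : ℝ) : ℂ) := by
        rw [Complex.mul_conj, Complex.normSq_eq_norm_sq]
      rw [← e2, ← e3]
      ring
    rw [e1, Complex.sub_re, Complex.add_re, Complex.re_ofReal_mul, Complex.re_ofReal_mul]
    have h1 : (τ * (f t * (starRingEnd ℂ) (u t))).re ≤ ‖f t‖ * ‖u t‖ := by
      refine (Complex.re_le_norm _).trans ?_
      rw [norm_mul, norm_mul, RCLike.norm_conj]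
      have := hc.nrm
      have h2 : 0 ≤ ‖f t‖ * ‖u t‖ := by positivity
      nlinarith
    have h2 : ‖f t‖ * ‖u t‖ ≤ ‖f t‖ ^ 2 / (2 * δ) + (δ / 2) * ‖u t‖ ^ 2 := by
      have h3 : 0 ≤ (‖f t‖ - δ * ‖u t‖) ^ 2 / (2 * δ) := by positivity
      have h4 : (‖f t‖ - δ * ‖u t‖) ^ 2 / (2 * δ) =
          ‖f t‖ ^ 2 / (2 * δ) + (δ / 2) * ‖u t‖ ^ 2 - ‖f t‖ * ‖u t‖ := by
        field_simp
        ring
      linarith
    have h5 := mul_le_mul_of_nonneg_left hc.re (sq_nonneg ‖v t‖)
    have h6 := mul_le_mul_of_nonneg_left (hc.req t ht) (sq_nonneg ‖u t‖)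
    have h7 : 0 ≤ δ * ‖v t‖ ^ 2 := by positivity
    nlinarith
  -- monotonicity of Φ - ∫
  have hAcont : Continuous fun t => (δ / 2) * (‖u t‖ ^ 2 + ‖v t‖ ^ 2) - ‖f t‖ ^ 2 / (2 * δ) := by
    fun_prop
  have hmono : (∫ t in X..L, ((δ / 2) * (‖u t‖ ^ 2 + ‖v t‖ ^ 2) - ‖f t‖ ^ 2 / (2 * δ))) ≤
      Φ L - Φ X := by
    have hd : ∀ t, HasDerivAt (fun y => Φ y - ∫ t in X..y,
        ((δ / 2) * (‖u t‖ ^ 2 + ‖v t‖ ^ 2) - ‖f t‖ ^ 2 / (2 * δ)))
        ((G t).re - ((δ / 2) * (‖u t‖ ^ 2 + ‖v t‖ ^ 2) - ‖f t‖ ^ 2 / (2 * δ))) t := by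
      intro t
      refine (hder t).sub ?_
      exact intervalIntegral.integral_hasDerivAt_right (hAcont.intervalIntegrable _ _)
        hAcont.stronglyMeasurable.stronglyMeasurableAtFilter hAcont.continuousAt
    have hm : MonotoneOn (fun y => Φ y - ∫ t in X..y,
        ((δ / 2) * (‖u t‖ ^ 2 + ‖v t‖ ^ 2) - ‖f t‖ ^ 2 / (2 * δ))) (Icc X L) := by
      apply monotoneOn_of_deriv_nonneg (convex_Icc X L)
      · exact fun t _ => (hd t).continuousAt.continuousWithinAt
      · exact fun t _ => (hd t).differentiableAt.differentiableWithinAt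
      · intro t ht
        rw [interior_Icc] at ht
        rw [(hd t).deriv]
        have := hlow t ht.1.le
        linarith
    have := hm (left_mem_Icc.2 hL) (right_mem_Icc.2 hL) hL
    simp only [intervalIntegral.integral_same, sub_zero] at this
    linarith
  have hI1 : IntervalIntegrable (fun t => (δ / 2) * (‖u t‖ ^ 2 + ‖v t‖ ^ 2)) volume X L :=
    (by fun_prop : Continuous fun t => (δ / 2) * (‖u t‖ ^ 2 + ‖v t‖ ^ 2)).intervalIntegrable _ _
  have hI2 : IntervalIntegrable (fun t => ‖f t‖ ^ 2 / (2 * δ)) volume X L :=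
    (by fun_prop : Continuous fun t => ‖f t‖ ^ 2 / (2 * δ)).intervalIntegrable _ _
  rw [intervalIntegral.integral_sub hI1 hI2, intervalIntegral.integral_const_mul,
    intervalIntegral.integral_div] at hmono
  have h1 := (abs_le.1 (hΦb L)).2
  have h2 := (abs_le.1 (hΦb X)).1
  linarith

/-- energy inequality -/
theorem energy_bound {q f u v : ℝ → ℂ} (hq : Continuous q) (hf : Continuous f)
    (h : IsSol q f u v) {X : ℝ} (hE : FinEn X u v) {τ : ℂ} {δ : ℝ} (hc : Coer q X τ δ)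
    (hf2 : SqInt X f) :
    En X u v ≤ (2 / δ) * (‖u X‖ * ‖v X‖) + (∫ x in Ioi X, ‖f x‖ ^ 2) / δ ^ 2 := by
  have hδ := hc.pos
  obtain ⟨L, hL, hgL⟩ := exists_seq_small (fun x => by positivity) hE
  have h1 : Tendsto (fun n => (δ / 2) * (∫ x in X..(L n), (‖u x‖ ^ 2 + ‖v x‖ ^ 2)) -
      (∫ x in X..(L n), ‖f x‖ ^ 2) / (2 * δ)) atTop
      (𝓝 ((δ / 2) * En X u v - (∫ x in Ioi X, ‖f x‖ ^ 2) / (2 * δ))) := by
    apply Tendsto.sub
    · exact (intervalIntegral_tendsto_integral_Ioi X hE hL).const_mul _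
    · exact (intervalIntegral_tendsto_integral_Ioi X hf2 hL).div_const _
  have h2 : Tendsto (fun n => (‖u (L n)‖ ^ 2 + ‖v (L n)‖ ^ 2) + ‖u X‖ * ‖v X‖) atTop
      (𝓝 (0 + ‖u X‖ * ‖v X‖)) := hgL.add_const _
  have h3 : (δ / 2) * En X u v - (∫ x in Ioi X, ‖f x‖ ^ 2) / (2 * δ) ≤ 0 + ‖u X‖ * ‖v X‖ := by
    apply le_of_tendsto_of_tendsto h1 h2
    filter_upwards [hL.eventually_ge_atTop X] with n hn
    refine (energy_local hf h hc hn).trans ?_
    nlinarith [sq_nonneg (‖u (L n)‖ - ‖v (L n)‖), sq_nonneg ‖u (L n)‖, sq_nonneg ‖v (L n)‖]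
  have h4 : (δ / 2) * En X u v ≤ ‖u X‖ * ‖v X‖ + (∫ x in Ioi X, ‖f x‖ ^ 2) / (2 * δ) := by
    linarith
  have h5 := mul_le_mul_of_nonneg_left h4 (show 0 ≤ 2 / δ by positivity)
  calc En X u v = (2 / δ) * ((δ / 2) * En X u v) := by field_simp
    _ ≤ (2 / δ) * (‖u X‖ * ‖v X‖ + (∫ x in Ioi X, ‖f x‖ ^ 2) / (2 * δ)) := h5
    _ = (2 / δ) * (‖u X‖ * ‖v X‖) + (∫ x in Ioi X, ‖f x‖ ^ 2) / δ ^ 2 := by
      field_simp

/-- dichotomy: polynomially bounded solutions have finite energy -/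
theorem finEn_of_poly {q f u v : ℝ → ℂ} (hq : Continuous q) (hf : Continuous f)
    (h : IsSol q f u v) {X : ℝ} {τ : ℂ} {δ : ℝ} (hc : Coer q X τ δ) (hf2 : SqInt X f)
    {C : ℝ} {n : ℕ} (hp : ∀ x, X ≤ x → ‖u x‖ ≤ C * (1 + |x|) ^ n ∧ ‖v x‖ ≤ C * (1 + |x|) ^ n) :
    FinEn X u v := by
  have hu := h.continuous_u
  have hv := h.continuous_v
  have hδ := hc.pos
  set g : ℝ → ℝ := fun x => ‖u x‖ ^ 2 + ‖v x‖ ^ 2 with hg
  have hgc : Continuous g := by rw [hg]; fun_prop
  have hg0 : ∀ x, 0 ≤ g x := fun x => by rw [hg]; positivity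
  set E : ℝ → ℝ := fun L => ∫ x in X..L, g x with hEdef
  set F2 : ℝ := ∫ x in Ioi X, ‖f x‖ ^ 2 with hF2
  set K : ℝ := 2 * (‖u X‖ * ‖v X‖) + F2 / δ with hK
  have hEd : ∀ t, HasDerivAt E (g t) t := fun t =>
    intervalIntegral.integral_hasDerivAt_right (hgc.intervalIntegrable _ _)
      hgc.stronglyMeasurable.stronglyMeasurableAtFilter hgc.continuousAt
  have hineq : ∀ L, X ≤ L → δ * E L - K ≤ g L := by
    intro L hL
    have h1 := energy_local hf h hc hL
    have h2 : ∫ x in X..L, ‖f x‖ ^ 2 ≤ F2 := by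
      rw [intervalIntegral.integral_of_le hL]
      apply setIntegral_mono_set hf2
      · exact Eventually.of_forall fun t => by positivity
      · exact Ioc_subset_Ioi_self.eventuallyLE
    have h3 : (∫ x in X..L, ‖f x‖ ^ 2) / (2 * δ) ≤ F2 / (2 * δ) :=
      div_le_div_of_nonneg_right h2 (by positivity)
    have h4 : F2 / δ = 2 * (F2 / (2 * δ)) := by field_simp
    have h5 : ‖u L‖ * ‖v L‖ ≤ g L / 2 := by
      rw [hg]
      nlinarith [sq_nonneg (‖u L‖ - ‖v L‖)]
    rw [hK, h4]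
    have h6 : (δ / 2) * E L ≤ g L / 2 + ‖u X‖ * ‖v X‖ + F2 / (2 * δ) := by
      have : (δ / 2) * E L - (∫ x in X..L, ‖f x‖ ^ 2) / (2 * δ) ≤
        ‖u L‖ * ‖v L‖ + ‖u X‖ * ‖v X‖ := h1
      linarith
    linarith
  have hmono : MonotoneOn (fun t => (E t - K / δ) * Real.exp (-δ * t)) (Ici X) := by
    have hd : ∀ t, HasDerivAt (fun t => (E t - K / δ) * Real.exp (-δ * t))
        (g t * Real.exp (-δ * t) + (E t - K / δ) * (Real.exp (-δ * t) * (-δ))) t := by
      intro t
      have h1 : HasDerivAt (fun t : ℝ => -δ * t) (-δ) t := by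
        simpa using (hasDerivAt_id t).const_mul (-δ)
      exact ((hEd t).sub_const _).mul h1.exp
    apply monotoneOn_of_deriv_nonneg (convex_Ici X)
    · exact fun t _ => (hd t).continuousAt.continuousWithinAt
    · exact fun t _ => (hd t).differentiableAt.differentiableWithinAt
    · intro t ht
      rw [interior_Ici] at ht
      rw [(hd t).deriv]
      have h1 := hineq t (le_of_lt ht)
      have h2 : g t * Real.exp (-δ * t) + (E t - K / δ) * (Real.exp (-δ * t) * (-δ)) =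
          (g t - (δ * E t - K)) * Real.exp (-δ * t) := by
        field_simp
        ring
      rw [h2]
      exact mul_nonneg (by linarith) (Real.exp_pos _).le
  have hC0 : 0 ≤ C := by
    have := (norm_nonneg _).trans (hp X le_rfl).1
    by_contra hneg
    push Not at hneg
    have h1 : 0 < (1 + |X|) ^ n := by positivity
    nlinarith
  have hEup : ∀ L, X ≤ L → E L ≤ (L - X) * (2 * (C * (1 + |X| + |L|) ^ n) ^ 2) := by
    intro L hL
    have h1 : E L ≤ ∫ _ in X..L, (2 * (C * (1 + |X| + |L|) ^ n) ^ 2) := by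
      apply intervalIntegral.integral_mono_on hL (hgc.intervalIntegrable _ _)
        (continuous_const.intervalIntegrable _ _)
      intro t ht
      have h2 := hp t ht.1
      have h3 : |t| ≤ |X| + |L| := by
        rw [abs_le]
        constructor
        · have := neg_abs_le X
          have := abs_nonneg L
          linarith [ht.1]
        · have := le_abs_self L
          have := abs_nonneg X
          linarith [ht.2]
      have h4 : C * (1 + |t|) ^ n ≤ C * (1 + |X| + |L|) ^ n := by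
        apply mul_le_mul_of_nonneg_left _ hC0
        apply pow_le_pow_left₀ (by positivity)
        linarith
      have h5 : ‖u t‖ ^ 2 ≤ (C * (1 + |X| + |L|) ^ n) ^ 2 :=
        pow_le_pow_left₀ (norm_nonneg _) (h2.1.trans h4) 2
      have h6 : ‖v t‖ ^ 2 ≤ (C * (1 + |X| + |L|) ^ n) ^ 2 :=
        pow_le_pow_left₀ (norm_nonneg _) (h2.2.trans h4) 2
      simp only [hg]
      linarith
    rw [intervalIntegral.integral_const, smul_eq_mul] at h1
    exact h1
  have hbdd : ∀ L, X ≤ L → E L ≤ K / δ := by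
    intro x1 hx1
    by_contra hcon
    push Not at hcon
    set c : ℝ := (E x1 - K / δ) * Real.exp (-δ * x1) with hc'
    have hcpos : 0 < c := mul_pos (by linarith) (Real.exp_pos _)
    have hK0 : 0 ≤ K / δ := by
      have : 0 ≤ F2 := setIntegral_nonneg measurableSet_Ioi fun t _ => by positivity
      positivity
    -- upper bound tends to zero
    have hlo : (fun x : ℝ => x ^ (2 * n + 1)) =o[atTop] fun x => Real.exp (δ * x) :=
      isLittleO_pow_exp_pos_mul_atTop _ hδ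
    have hM : Tendsto (fun L : ℝ => 1 + |X| + L) atTop atTop :=
      tendsto_atTop_add_const_left _ _ tendsto_id
    have hlo2 := hlo.comp_tendsto hM
    have hconst : 0 < c / (2 * C ^ 2 * Real.exp (δ * (1 + |X|)) + 1) := by positivity
    have hev := hlo2.bound hconst
    have := (hev.and ((eventually_ge_atTop x1).and (eventually_ge_atTop 0))).exists
    obtain ⟨L, hL1, hL2, hL3⟩ := this
    simp only [Function.comp] at hL1
    rw [Real.norm_of_nonneg (by positivity), Real.norm_of_nonneg (Real.exp_pos _).le] at hL1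
    have hXL : X ≤ L := hx1.trans hL2
    have h1 := hmono (show x1 ∈ Ici X from hx1) (show L ∈ Ici X from hXL) hL2
    simp only at h1
    have h2 := hEup L hXL
    rw [abs_of_nonneg hL3] at h2
    have h3 : L - X ≤ 1 + |X| + L := by
      have := neg_abs_le X
      linarith
    have h4 : (L - X) * (2 * (C * (1 + |X| + L) ^ n) ^ 2) ≤
        2 * C ^ 2 * (1 + |X| + L) ^ (2 * n + 1) := by
      have : 2 * C ^ 2 * (1 + |X| + L) ^ (2 * n + 1) =
          (1 + |X| + L) * (2 * (C * (1 + |X| + L) ^ n) ^ 2) := by ring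
      rw [this]
      apply mul_le_mul_of_nonneg_right h3
      positivity
    have h5 : c ≤ E L * Real.exp (-δ * L) := by
      refine h1.trans ?_
      apply mul_le_mul_of_nonneg_right _ (Real.exp_pos _).le
      linarith
    have h6 : E L * Real.exp (-δ * L) ≤
        2 * C ^ 2 * (c / (2 * C ^ 2 * Real.exp (δ * (1 + |X|)) + 1) *
          Real.exp (δ * (1 + |X| + L))) * Real.exp (-δ * L) := by
      apply mul_le_mul_of_nonneg_right _ (Real.exp_pos _).le
      refine (h2.trans h4).trans ?_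
      apply mul_le_mul_of_nonneg_left hL1
      positivity
    have h7 : Real.exp (δ * (1 + |X| + L)) * Real.exp (-δ * L) = Real.exp (δ * (1 + |X|)) := by
      rw [← Real.exp_add]
      congr 1
      ring
    have h8 : 2 * C ^ 2 * (c / (2 * C ^ 2 * Real.exp (δ * (1 + |X|)) + 1) *
          Real.exp (δ * (1 + |X| + L))) * Real.exp (-δ * L) =
        c * ((2 * C ^ 2 * Real.exp (δ * (1 + |X|))) /
          (2 * C ^ 2 * Real.exp (δ * (1 + |X|)) + 1)) := by
      rw [← h7]
      ring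
    have h9 : (2 * C ^ 2 * Real.exp (δ * (1 + |X|))) /
          (2 * C ^ 2 * Real.exp (δ * (1 + |X|)) + 1) < 1 := by
      rw [div_lt_one (by positivity)]
      linarith
    have h10 : c * ((2 * C ^ 2 * Real.exp (δ * (1 + |X|))) /
          (2 * C ^ 2 * Real.exp (δ * (1 + |X|)) + 1)) < c * 1 :=
      mul_lt_mul_of_pos_left h9 hcpos
    linarith
  unfold FinEn
  refine integrableOn_Ioi_of_intervalIntegral_norm_bounded (K / δ) X
    (b := fun L : ℝ => L) (l := atTop) (fun L => ?_) tendsto_id ?_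
  · exact (hgc.integrableOn_Icc (a := X) (b := L)).mono_set Ioc_subset_Icc_self
  · filter_upwards [eventually_ge_atTop X] with L hL
    have : ∫ x in X..L, ‖‖u x‖ ^ 2 + ‖v x‖ ^ 2‖ = E L := by
      apply intervalIntegral.integral_congr
      intro t _
      simp only
      rw [Real.norm_of_nonneg (hg0 t)]
    rw [this]
    exact hbdd L hL

end Pool.Agent.Work.MP_9fcdee_mp
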