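import Pool.Agent.Work.MP_9fcdee_mp.M2a_Energy

set_option autoImplicit false

open Set Filter Topology MeasureTheory

namespace Pool.Agent.Work.MP_9fcdee_mp

variable {α : ℝ}

/-- the derivative at `X` is controlled by the energy on `[X, X+1]` -/
lemma v_le_energy {q f u v : ℝ → ℂ} (hqc : Continuous q) (hf : Continuous f) (h : IsSol q f u v)
    {X Q η : ℝ} (hQ : 0 ≤ Q) (hη : 0 < η) (hq : ∀ x ∈ Icc X (X + 1), ‖q x‖ ≤ Q) :
    ‖v X‖ ≤ (1 + Q) * (η / 2) * (∫ x in X..(X + 1), (‖u x‖ ^ 2 + ‖v x‖ ^ 2)) + (1 + Q) / η +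
      ((∫ x in X..(X + 1), ‖f x‖ ^ 2) + 1) / 2 := by
  have hu := h.continuous_u
  have hv := h.continuous_v
  have hd : ∀ t, HasDerivAt (fun t : ℝ => v t * (((X + 1 - t : ℝ)) : ℂ))
      ((q t * u t - f t) * (((X + 1 - t : ℝ)) : ℂ) - v t) t := by
    intro t
    have h1 : HasDerivAt (fun t : ℝ => X + 1 - t) (-1) t := by
      simpa using (hasDerivAt_id t).const_sub (X + 1)
    have h2 := (h.dv t).mul h1.ofReal_comp
    refine h2.congr_deriv ?_
    push_cast
    ring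
  have hcont : Continuous fun t : ℝ => (q t * u t - f t) * (((X + 1 - t : ℝ)) : ℂ) - v t := by
    fun_prop
  have hftc : ∫ t in X..(X + 1), ((q t * u t - f t) * (((X + 1 - t : ℝ)) : ℂ) - v t) = - v X := by
    rw [intervalIntegral.integral_eq_sub_of_hasDerivAt (fun t _ => hd t)
      (hcont.intervalIntegrable _ _)]
    simp
  have h1 : ‖v X‖ ≤ ∫ t in X..(X + 1), ‖(q t * u t - f t) * (((X + 1 - t : ℝ)) : ℂ) - v t‖ := by
    rw [← norm_neg, ← hftc]
    exact intervalIntegral.norm_integral_le_integral_norm (by linarith)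
  have h2 : ∫ t in X..(X + 1), ‖(q t * u t - f t) * (((X + 1 - t : ℝ)) : ℂ) - v t‖ ≤
      ∫ t in X..(X + 1), (((1 + Q) * (η / 2) * (‖u t‖ ^ 2 + ‖v t‖ ^ 2) + (1 + Q) / η) +
        (‖f t‖ ^ 2 + 1) / 2) := by
    apply intervalIntegral.integral_mono_on (by linarith)
    · exact hcont.norm.intervalIntegrable _ _
    · apply Continuous.intervalIntegrable
      fun_prop
    · intro t ht
      have ht1 : ‖(((X + 1 - t : ℝ)) : ℂ)‖ ≤ 1 := by
        rw [Complex.norm_real, Real.norm_of_nonneg (by linarith [ht.2])]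
        linarith [ht.1]
      have h3 : ‖(q t * u t - f t) * (((X + 1 - t : ℝ)) : ℂ) - v t‖ ≤
          (Q * ‖u t‖ + ‖f t‖) + ‖v t‖ := by
        refine (norm_sub_le _ _).trans ?_
        rw [norm_mul]
        have h4 : ‖q t * u t - f t‖ ≤ Q * ‖u t‖ + ‖f t‖ := by
          refine (norm_sub_le _ _).trans ?_
          rw [norm_mul]
          have := mul_le_mul_of_nonneg_right (hq t ht) (norm_nonneg (u t))
          linarith
        have h5 : ‖q t * u t - f t‖ * ‖(((X + 1 - t : ℝ)) : ℂ)‖ ≤ (Q * ‖u t‖ + ‖f t‖) * 1 :=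
          mul_le_mul h4 ht1 (norm_nonneg _) (by positivity)
        linarith
      have hy : ∀ r : ℝ, r ≤ (η / 2) * r ^ 2 + 1 / (2 * η) := by
        intro r
        have h6 : 0 ≤ (η * r - 1) ^ 2 / (2 * η) := by positivity
        have h7 : (η * r - 1) ^ 2 / (2 * η) = (η / 2) * r ^ 2 + 1 / (2 * η) - r := by
          field_simp
          ring
        linarith
      have h8 := hy ‖u t‖
      have h9 := hy ‖v t‖
      have h10 : ‖f t‖ ≤ (‖f t‖ ^ 2 + 1) / 2 := by nlinarith [sq_nonneg (‖f t‖ - 1)]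
      have h11 : Q * ‖u t‖ + ‖v t‖ ≤ (1 + Q) * (‖u t‖ + ‖v t‖) := by
        nlinarith [norm_nonneg (u t), norm_nonneg (v t), mul_nonneg hQ (norm_nonneg (v t))]
      have h12 : (1 + Q) * (‖u t‖ + ‖v t‖) ≤
          (1 + Q) * ((η / 2) * (‖u t‖ ^ 2 + ‖v t‖ ^ 2) + 1 / η) := by
        apply mul_le_mul_of_nonneg_left _ (by linarith)
        have : 1 / η = 1 / (2 * η) + 1 / (2 * η) := by
          field_simp
          norm_num
        rw [this]
        linarith
      have h13 : (1 + Q) * ((η / 2) * (‖u t‖ ^ 2 + ‖v t‖ ^ 2) + 1 / η) =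
          (1 + Q) * (η / 2) * (‖u t‖ ^ 2 + ‖v t‖ ^ 2) + (1 + Q) / η := by ring
      linarith
  have h3 : ∫ t in X..(X + 1), (((1 + Q) * (η / 2) * (‖u t‖ ^ 2 + ‖v t‖ ^ 2) + (1 + Q) / η) +
        (‖f t‖ ^ 2 + 1) / 2) =
      (1 + Q) * (η / 2) * (∫ x in X..(X + 1), (‖u x‖ ^ 2 + ‖v x‖ ^ 2)) + (1 + Q) / η +
      ((∫ x in X..(X + 1), ‖f x‖ ^ 2) + 1) / 2 := by
    have i1 : IntervalIntegrable (fun t => (1 + Q) * (η / 2) * (‖u t‖ ^ 2 + ‖v t‖ ^ 2)) volume
        X (X + 1) := by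
      apply Continuous.intervalIntegrable
      fun_prop
    have i2 : IntervalIntegrable (fun _ : ℝ => (1 + Q) / η) volume X (X + 1) := by
      apply Continuous.intervalIntegrable
      fun_prop
    have i3 : IntervalIntegrable (fun t => (‖f t‖ ^ 2 + 1) / 2) volume X (X + 1) := by
      apply Continuous.intervalIntegrable
      fun_prop
    have i4 : IntervalIntegrable (fun t => ‖f t‖ ^ 2) volume X (X + 1) := by
      apply Continuous.intervalIntegrable
      fun_prop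
    have i5 : IntervalIntegrable (fun _ : ℝ => (1 : ℝ)) volume X (X + 1) := by
      apply Continuous.intervalIntegrable
      fun_prop
    have j3 : ∫ t in X..(X + 1), (‖f t‖ ^ 2 + 1) / 2 =
        ((∫ x in X..(X + 1), ‖f x‖ ^ 2) + 1) / 2 := by
      rw [intervalIntegral.integral_div, intervalIntegral.integral_add i4 i5]
      simp
    rw [intervalIntegral.integral_add (i1.add i2) i3, intervalIntegral.integral_add i1 i2,
      intervalIntegral.integral_const_mul, j3]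
    simp
  linarith

/-- the uniform energy constant -/
noncomputable def Bc (δ Q F A : ℝ) : ℝ :=
  (4 / δ) * (F / (2 * δ) + A * ((1 + Q) / (δ / (2 * (1 + A) * (1 + Q))) + (F + 1) / 2))

lemma energy_mono {u v : ℝ → ℂ} (hu : Continuous u) (hv : Continuous v) {X L L' : ℝ}
    (hL : X ≤ L) (hL' : L ≤ L') :
    ∫ x in X..L, (‖u x‖ ^ 2 + ‖v x‖ ^ 2) ≤ ∫ x in X..L', (‖u x‖ ^ 2 + ‖v x‖ ^ 2) := by
  have hc : Continuous fun x => ‖u x‖ ^ 2 + ‖v x‖ ^ 2 := by fun_prop
  rw [← intervalIntegral.integral_add_adjacent_intervals (hc.intervalIntegrable X L)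
    (hc.intervalIntegrable L L')]
  have : 0 ≤ ∫ x in L..L', (‖u x‖ ^ 2 + ‖v x‖ ^ 2) :=
    intervalIntegral.integral_nonneg hL' fun t _ => by positivity
  linarith

lemma fsq_le {f : ℝ → ℂ} {X L : ℝ} (hf2 : SqInt X f) (hL : X ≤ L) :
    ∫ x in X..L, ‖f x‖ ^ 2 ≤ ∫ x in Ioi X, ‖f x‖ ^ 2 := by
  rw [intervalIntegral.integral_of_le hL]
  apply setIntegral_mono_set hf2
  · exact Eventually.of_forall fun t => by positivity
  · exact Ioc_subset_Ioi_self.eventuallyLE

/-- uniform energy bound for solutions vanishing at `L` -/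
lemma energy_dirichlet {q f u v : ℝ → ℂ} (hqc : Continuous q) (hf : Continuous f)
    (h : IsSol q f u v) {X Q δ : ℝ} {τ : ℂ} (hc : Coer q X τ δ) (hQ : 0 ≤ Q)
    (hq : ∀ x ∈ Icc X (X + 1), ‖q x‖ ≤ Q) (hf2 : SqInt X f) {L : ℝ} (hL : X + 1 ≤ L)
    (hu0 : u L = 0) :
    ∫ x in X..L, (‖u x‖ ^ 2 + ‖v x‖ ^ 2) ≤ Bc δ Q (∫ x in Ioi X, ‖f x‖ ^ 2) ‖u X‖ := by
  have hu := h.continuous_u
  have hv := h.continuous_v
  have hδ := hc.pos
  have hXL : X ≤ L := by linarith
  set A := ‖u X‖ with hA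
  set F := ∫ x in Ioi X, ‖f x‖ ^ 2 with hF
  set η := δ / (2 * (1 + A) * (1 + Q)) with hηdef
  have hA0 : 0 ≤ A := norm_nonneg _
  have hη : 0 < η := by positivity
  set E := ∫ x in X..L, (‖u x‖ ^ 2 + ‖v x‖ ^ 2) with hE
  have h1 := energy_local hf h hc hXL
  rw [hu0, norm_zero, zero_mul, zero_add] at h1
  have h2 := v_le_energy hqc hf h hQ hη hq
  have h3 : ∫ x in X..(X + 1), (‖u x‖ ^ 2 + ‖v x‖ ^ 2) ≤ E := energy_mono hu hv (by linarith) hL
  have h4 : ∫ x in X..(X + 1), ‖f x‖ ^ 2 ≤ F := fsq_le hf2 (by linarith)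
  have h5 : ∫ x in X..L, ‖f x‖ ^ 2 ≤ F := fsq_le hf2 hXL
  have hE0 : 0 ≤ E := intervalIntegral.integral_nonneg hXL fun t _ => by positivity
  have h6 : ‖v X‖ ≤ (1 + Q) * (η / 2) * E + ((1 + Q) / η + (F + 1) / 2) := by
    have := mul_le_mul_of_nonneg_left h3 (show 0 ≤ (1 + Q) * (η / 2) by positivity)
    linarith
  have h7 : A * ‖v X‖ ≤ A * ((1 + Q) * (η / 2) * E) + A * ((1 + Q) / η + (F + 1) / 2) := by
    have := mul_le_mul_of_nonneg_left h6 hA0
    linarith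
  have h8 : A * ((1 + Q) * (η / 2) * E) ≤ (δ / 4) * E := by
    have h9 : A * ((1 + Q) * (η / 2) * E) = (A / (1 + A)) * ((δ / 4) * E) := by
      rw [hηdef]
      field_simp
      ring
    rw [h9]
    have h10 : A / (1 + A) ≤ 1 := by
      rw [div_le_one (by positivity)]
      linarith
    have h11 : 0 ≤ (δ / 4) * E := by positivity
    nlinarith
  have h12 : (∫ x in X..L, ‖f x‖ ^ 2) / (2 * δ) ≤ F / (2 * δ) :=
    div_le_div_of_nonneg_right h5 (by positivity)
  have h13 : (δ / 4) * E ≤ F / (2 * δ) + A * ((1 + Q) / η + (F + 1) / 2) := by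
    have : (δ / 2) * E - (∫ x in X..L, ‖f x‖ ^ 2) / (2 * δ) ≤ A * ‖v X‖ := h1
    linarith
  have h14 := mul_le_mul_of_nonneg_left h13 (show 0 ≤ 4 / δ by positivity)
  have h15 : 4 / δ * ((δ / 4) * E) = E := by field_simp
  rw [h15] at h14
  exact h14

/-- lower bound for the energy of the solution with data `(0, 1)` -/
lemma energy_S {q S S' : ℝ → ℂ} (hqc : Continuous q) (h : IsSol q 0 S S') {X Q δ : ℝ} {τ : ℂ}
    (hc : Coer q X τ δ) (hQ : 0 ≤ Q) (hq : ∀ x ∈ Icc X (X + 1), ‖q x‖ ≤ Q)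
    (h0 : S X = 0) (h1 : S' X = 1) {L : ℝ} (hL : X + 1 ≤ L) :
    Real.exp (δ * (L - X - 1)) / (8 * (1 + Q) ^ 2) ≤ ∫ x in X..L, (‖S x‖ ^ 2 + ‖S' x‖ ^ 2) := by
  have hu := h.continuous_u
  have hv := h.continuous_v
  have hδ := hc.pos
  have hzero : Continuous (0 : ℝ → ℂ) := continuous_zero
  set g : ℝ → ℝ := fun x => ‖S x‖ ^ 2 + ‖S' x‖ ^ 2 with hg
  have hgc : Continuous g := by rw [hg]; fun_prop
  set E : ℝ → ℝ := fun L => ∫ x in X..L, g x with hEdef
  have hEd : ∀ t, HasDerivAt E (g t) t := fun t =>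
    intervalIntegral.integral_hasDerivAt_right (hgc.intervalIntegrable _ _)
      hgc.stronglyMeasurable.stronglyMeasurableAtFilter hgc.continuousAt
  have hineq : ∀ t, X ≤ t → δ * E t ≤ g t := by
    intro t ht
    have h2 := energy_local hzero h hc ht
    rw [h0, norm_zero, zero_mul, add_zero] at h2
    have h3 : ∫ x in X..t, ‖(0 : ℝ → ℂ) x‖ ^ 2 = 0 := by simp
    rw [h3, zero_div, sub_zero] at h2
    have h5 : ‖S t‖ * ‖S' t‖ ≤ g t / 2 := by
      rw [hg]
      nlinarith [sq_nonneg (‖S t‖ - ‖S' t‖)]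
    have h6 : (δ / 2) * E t ≤ ‖S t‖ * ‖S' t‖ := h2
    linarith
  have hmono : MonotoneOn (fun t => E t * Real.exp (-δ * t)) (Ici X) := by
    have hd : ∀ t, HasDerivAt (fun t => E t * Real.exp (-δ * t))
        (g t * Real.exp (-δ * t) + E t * (Real.exp (-δ * t) * (-δ))) t := by
      intro t
      have h1 : HasDerivAt (fun t : ℝ => -δ * t) (-δ) t := by
        simpa using (hasDerivAt_id t).const_mul (-δ)
      exact (hEd t).mul h1.exp
    apply monotoneOn_of_deriv_nonneg (convex_Ici X)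
    · exact fun t _ => (hd t).continuousAt.continuousWithinAt
    · exact fun t _ => (hd t).differentiableAt.differentiableWithinAt
    · intro t ht
      rw [interior_Ici] at ht
      rw [(hd t).deriv]
      have h1 := hineq t (le_of_lt ht)
      have h2 : g t * Real.exp (-δ * t) + E t * (Real.exp (-δ * t) * (-δ)) =
          (g t - δ * E t) * Real.exp (-δ * t) := by ring
      rw [h2]
      exact mul_nonneg (by linarith) (Real.exp_pos _).le
  have hE1 : 1 / (8 * (1 + Q) ^ 2) ≤ E (X + 1) := by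
    have h2 := v_le_energy hqc hzero h hQ (show 0 < 4 * (1 + Q) by positivity) hq
    rw [h1] at h2
    have h3 : ∫ x in X..(X + 1), ‖(0 : ℝ → ℂ) x‖ ^ 2 = 0 := by simp
    rw [h3, norm_one] at h2
    have h4 : (1 + Q) / (4 * (1 + Q)) = 1 / 4 := by
      field_simp
    rw [h4] at h2
    have h5 : 1 ≤ 2 * (1 + Q) ^ 2 * E (X + 1) + 1 / 4 + 1 / 2 := by
      have : (1 + Q) * (4 * (1 + Q) / 2) * E (X + 1) = 2 * (1 + Q) ^ 2 * E (X + 1) := by ring
      have h6 : (1 : ℝ) ≤ (1 + Q) * (4 * (1 + Q) / 2) * E (X + 1) + 1 / 4 + (0 + 1) / 2 := h2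
      linarith
    rw [div_le_iff₀ (by positivity)]
    linarith
  have h2 := hmono (show X + 1 ∈ Ici X by simp) (show L ∈ Ici X by
    simp only [mem_Ici]; linarith) hL
  simp only at h2
  have h3 : E L = E L * Real.exp (-δ * L) * Real.exp (δ * L) := by
    rw [mul_assoc, ← Real.exp_add]
    simp
  have h4 : E (X + 1) * Real.exp (δ * (L - X - 1)) ≤ E L := by
    rw [h3]
    have h5 : E (X + 1) * Real.exp (δ * (L - X - 1)) =
        E (X + 1) * Real.exp (-δ * (X + 1)) * Real.exp (δ * L) := by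
      rw [mul_assoc, ← Real.exp_add]
      congr 2
      ring
    rw [h5]
    exact mul_le_mul_of_nonneg_right h2 (Real.exp_pos _).le
  refine le_trans ?_ h4
  calc Real.exp (δ * (L - X - 1)) / (8 * (1 + Q) ^ 2)
      = 1 / (8 * (1 + Q) ^ 2) * Real.exp (δ * (L - X - 1)) := by ring
    _ ≤ _ := mul_le_mul_of_nonneg_right hE1 (Real.exp_pos _).le

lemma S_ne_zero {q S S' : ℝ → ℂ} (hqc : Continuous q) (h : IsSol q 0 S S') {X Q δ : ℝ} {τ : ℂ}
    (hc : Coer q X τ δ) (hQ : 0 ≤ Q) (hq : ∀ x ∈ Icc X (X + 1), ‖q x‖ ≤ Q)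
    (h0 : S X = 0) (h1 : S' X = 1) {L : ℝ} (hL : X + 1 ≤ L) : S L ≠ 0 := by
  intro hSL
  have h2 := energy_local (f := 0) continuous_zero h hc (show X ≤ L by linarith)
  rw [h0, hSL, norm_zero, zero_mul, zero_mul, add_zero] at h2
  have h3 : ∫ x in X..L, ‖(0 : ℝ → ℂ) x‖ ^ 2 = 0 := by simp
  rw [h3, zero_div, sub_zero] at h2
  have h4 := energy_S hqc h hc hQ hq h0 h1 hL
  have h5 : 0 < Real.exp (δ * (L - X - 1)) / (8 * (1 + Q) ^ 2) := by positivity
  have hδ := hc.pos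
  nlinarith

/-- the solution `y + G S` -/
lemma isSol_comb {q f y y' S S' : ℝ → ℂ} (hy : IsSol q f y y') (hS : IsSol q 0 S S') (G : ℂ) :
    IsSol q f (fun x => y x + G * S x) (fun x => y' x + G * S' x) := by
  have := hy.add (hS.smul G)
  have e : (fun x => f x + G * (0 : ℝ → ℂ) x) = f := by
    ext x
    simp
  rwa [e] at this

lemma cauchy_G {q f y y' S S' : ℝ → ℂ} (hqc : Continuous q) (hf : Continuous f)
    (hy : IsSol q f y y') (hS : IsSol q 0 S S') {X Q δ : ℝ} {τ : ℂ}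
    (hc : Coer q X τ δ) (hQ : 0 ≤ Q) (hq : ∀ x ∈ Icc X (X + 1), ‖q x‖ ≤ Q) (hf2 : SqInt X f)
    (h0 : S X = 0) (h1 : S' X = 1) {L L' : ℝ} (hL : X + 1 ≤ L) (hL' : L ≤ L') :
    ‖(-y L / S L) - (-y L' / S L')‖ ^ 2 ≤
      4 * Bc δ Q (∫ x in Ioi X, ‖f x‖ ^ 2) ‖y X‖ * (8 * (1 + Q) ^ 2) *
        Real.exp (-(δ * (L - X - 1))) := by
  set B := Bc δ Q (∫ x in Ioi X, ‖f x‖ ^ 2) ‖y X‖ with hB
  have hSL := S_ne_zero hqc hS hc hQ hq h0 h1 hL
  have hSL' := S_ne_zero hqc hS hc hQ hq h0 h1 (hL.trans hL')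
  set G := -y L / S L with hG
  set G' := -y L' / S L' with hG'
  have hu1 := isSol_comb hy hS G
  have hu2 := isSol_comb hy hS G'
  have hX1 : ‖y X + G * S X‖ = ‖y X‖ := by rw [h0]; simp
  have hX2 : ‖y X + G' * S X‖ = ‖y X‖ := by rw [h0]; simp
  have e1 := energy_dirichlet hqc hf hu1 hc hQ hq hf2 hL (by
    rw [hG]; field_simp; ring)
  have e2 := energy_dirichlet hqc hf hu2 hc hQ hq hf2 (hL.trans hL') (by
    rw [hG']; field_simp; ring)
  simp only [hX1] at e1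
  simp only [hX2] at e2
  have e3 := energy_mono hu2.continuous_u hu2.continuous_v (show X ≤ L by linarith) hL'
  have hyc := hy.continuous_u
  have hyc' := hy.continuous_v
  have hSc := hS.continuous_u
  have hSc' := hS.continuous_v
  have e4 : ‖G - G'‖ ^ 2 * ∫ x in X..L, (‖S x‖ ^ 2 + ‖S' x‖ ^ 2) ≤
      2 * (∫ x in X..L, (‖y x + G * S x‖ ^ 2 + ‖y' x + G * S' x‖ ^ 2)) +
      2 * (∫ x in X..L, (‖y x + G' * S x‖ ^ 2 + ‖y' x + G' * S' x‖ ^ 2)) := by
    rw [← intervalIntegral.integral_const_mul, ← intervalIntegral.integral_const_mul,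
      ← intervalIntegral.integral_const_mul, ← intervalIntegral.integral_add]
    · apply intervalIntegral.integral_mono_on (by linarith)
      · apply Continuous.intervalIntegrable
        fun_prop
      · apply Continuous.intervalIntegrable
        fun_prop
      · intro t _
        have a1 : ‖G - G'‖ * ‖S t‖ ≤ ‖y t + G * S t‖ + ‖y t + G' * S t‖ := by
          rw [← norm_mul]
          have : (G - G') * S t = (y t + G * S t) - (y t + G' * S t) := by ring
          rw [this]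
          exact norm_sub_le _ _
        have a2 : ‖G - G'‖ * ‖S' t‖ ≤ ‖y' t + G * S' t‖ + ‖y' t + G' * S' t‖ := by
          rw [← norm_mul]
          have : (G - G') * S' t = (y' t + G * S' t) - (y' t + G' * S' t) := by ring
          rw [this]
          exact norm_sub_le _ _
        have a3 := pow_le_pow_left₀ (by positivity) a1 2
        have a4 := pow_le_pow_left₀ (by positivity) a2 2
        nlinarith [sq_nonneg (‖y t + G * S t‖ - ‖y t + G' * S t‖),
          sq_nonneg (‖y' t + G * S' t‖ - ‖y' t + G' * S' t‖)]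
    · apply Continuous.intervalIntegrable
      fun_prop
    · apply Continuous.intervalIntegrable
      fun_prop
  have e5 := energy_S hqc hS hc hQ hq h0 h1 hL
  have e6 : ‖G - G'‖ ^ 2 * (Real.exp (δ * (L - X - 1)) / (8 * (1 + Q) ^ 2)) ≤ 4 * B := by
    have := mul_le_mul_of_nonneg_left e5 (sq_nonneg ‖G - G'‖)
    linarith
  have e7 : ‖G - G'‖ ^ 2 = ‖G - G'‖ ^ 2 * (Real.exp (δ * (L - X - 1)) / (8 * (1 + Q) ^ 2)) *
      ((8 * (1 + Q) ^ 2) * Real.exp (-(δ * (L - X - 1)))) := by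
    rw [Real.exp_neg]
    have : Real.exp (δ * (L - X - 1)) ≠ 0 := (Real.exp_pos _).ne'
    field_simp
  rw [e7]
  calc _ ≤ 4 * B * ((8 * (1 + Q) ^ 2) * Real.exp (-(δ * (L - X - 1)))) := by
        apply mul_le_mul_of_nonneg_right e6
        positivity
    _ = _ := by ring

/-- limit of the truncated solutions has finite energy -/
lemma finEn_limit {q f y y' S S' : ℝ → ℂ} (hqc : Continuous q) (hf : Continuous f)
    (hy : IsSol q f y y') (hS : IsSol q 0 S S') {X Q δ : ℝ} {τ : ℂ}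
    (hc : Coer q X τ δ) (hQ : 0 ≤ Q) (hq : ∀ x ∈ Icc X (X + 1), ‖q x‖ ≤ Q) (hf2 : SqInt X f)
    (h0 : S X = 0) (h1 : S' X = 1) {g : ℂ}
    (hg : Tendsto (fun n : ℕ => -y (X + 1 + n) / S (X + 1 + n)) atTop (𝓝 g)) :
    FinEn X (fun x => y x + g * S x) (fun x => y' x + g * S' x) := by
  set B := Bc δ Q (∫ x in Ioi X, ‖f x‖ ^ 2) ‖y X‖ with hB
  have hyc := hy.continuous_u
  have hyc' := hy.continuous_v
  have hSc := hS.continuous_u
  have hSc' := hS.continuous_v
  have hgc : Continuous fun x => ‖y x + g * S x‖ ^ 2 + ‖y' x + g * S' x‖ ^ 2 := by fun_prop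
  have hbd : ∀ L, X ≤ L → ∫ x in X..L, (‖y x + g * S x‖ ^ 2 + ‖y' x + g * S' x‖ ^ 2) ≤ B := by
    intro L hL
    have hcont : Continuous fun G : ℂ =>
        ∫ x in X..L, (‖y x + G * S x‖ ^ 2 + ‖y' x + G * S' x‖ ^ 2) := by
      apply intervalIntegral.continuous_parametric_intervalIntegral_of_continuous'
      fun_prop
    have hlim := (hcont.tendsto g).comp hg
    refine le_of_tendsto hlim ?_
    have hLn : Tendsto (fun n : ℕ => X + 1 + (n : ℝ)) atTop atTop :=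
      tendsto_atTop_add_const_left _ _ tendsto_natCast_atTop_atTop
    filter_upwards [hLn.eventually_ge_atTop L] with n hn
    have hX1 : X + 1 ≤ X + 1 + (n : ℝ) := by
      have : (0 : ℝ) ≤ n := Nat.cast_nonneg n
      linarith
    have hSL := S_ne_zero hqc hS hc hQ hq h0 h1 hX1
    have hu1 := isSol_comb hy hS (-y (X + 1 + n) / S (X + 1 + n))
    have e1 := energy_dirichlet hqc hf hu1 hc hQ hq hf2 hX1 (by field_simp; ring)
    have hXX : ‖y X + (-y (X + 1 + n) / S (X + 1 + n)) * S X‖ = ‖y X‖ := by rw [h0]; simp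
    simp only [hXX] at e1
    exact (energy_mono hu1.continuous_u hu1.continuous_v hL hn).trans e1
  unfold FinEn
  refine integrableOn_Ioi_of_intervalIntegral_norm_bounded B X
    (b := fun L : ℝ => L) (l := atTop) (fun L => ?_) tendsto_id ?_
  · exact (hgc.integrableOn_Icc (a := X) (b := L)).mono_set Ioc_subset_Icc_self
  · filter_upwards [eventually_ge_atTop X] with L hL
    have : ∫ x in X..L, ‖‖y x + g * S x‖ ^ 2 + ‖y' x + g * S' x‖ ^ 2‖ =
        ∫ x in X..L, (‖y x + g * S x‖ ^ 2 + ‖y' x + g * S' x‖ ^ 2) := by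
      apply intervalIntegral.integral_congr
      intro t _
      simp only
      rw [Real.norm_of_nonneg (by positivity)]
    rw [this]
    exact hbd L hL

theorem weyl_family (hα : 0 < α) (hα1 : α ≤ 1) {U : Set ℂ} (hU : IsOpen U) {c κ : ℂ → ℂ}
    (hc : DifferentiableOn ℂ c U) (hκ : DifferentiableOn ℂ κ U) {X : ℝ} (hX : 0 ≤ X)
    (hco : ∀ t₀ ∈ U, ∃ (τ : ℂ) (δ : ℝ), ∀ᶠ t in 𝓝 t₀, Coer (qf α (c t) (κ t)) X τ δ)
    {f : ℝ → ℂ} (hf : Continuous f) (hf2 : SqInt X f) (a : ℂ) :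
    ∃ g : ℂ → ℂ, DifferentiableOn ℂ g U ∧ ∀ t ∈ U,
      FinEn X (solU (qf α (c t) (κ t)) f X a (g t)) (solV (qf α (c t) (κ t)) f X a (g t)) := by
  have hzero : Continuous (0 : ℝ → ℂ) := continuous_zero
  have hqc : ∀ t, Continuous (qf α (c t) (κ t)) := fun t => continuous_qf hα _ _
  set F := ∫ x in Ioi X, ‖f x‖ ^ 2 with hF
  -- local constants
  have hloc : ∀ t₀ ∈ U, ∃ (τ : ℂ) (δ Q : ℝ), 0 ≤ Q ∧ 0 < δ ∧
      ∀ᶠ t in 𝓝 t₀, Coer (qf α (c t) (κ t)) X τ δ ∧
        ∀ x ∈ Icc X (X + 1), ‖qf α (c t) (κ t) x‖ ≤ Q := by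
    intro t₀ ht₀
    obtain ⟨τ, δ, hev⟩ := hco t₀ ht₀
    have hδ : 0 < δ := (hev.self_of_nhds).pos
    have hcc : ContinuousAt c t₀ := (hc.differentiableAt (hU.mem_nhds ht₀)).continuousAt
    have hκc : ContinuousAt κ t₀ := (hκ.differentiableAt (hU.mem_nhds ht₀)).continuousAt
    have h1 : ∀ᶠ t in 𝓝 t₀, ‖c t‖ < ‖c t₀‖ + 1 :=
      hcc.norm.eventually_lt continuousAt_const (by linarith)
    have h2 : ∀ᶠ t in 𝓝 t₀, ‖κ t‖ < ‖κ t₀‖ + 1 :=
      hκc.norm.eventually_lt continuousAt_const (by linarith)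
    refine ⟨τ, δ, (‖c t₀‖ + 1) * (X + 1) ^ α + (‖κ t₀‖ + 1), by positivity, hδ, ?_⟩
    filter_upwards [hev, h1, h2] with t h3 h4 h5
    refine ⟨h3, fun x hx => ?_⟩
    unfold qf
    refine (norm_sub_le _ _).trans ?_
    rw [norm_mul, Complex.norm_real, Real.norm_of_nonneg (by positivity)]
    have h6 : |x| ^ α ≤ (X + 1) ^ α := by
      apply Real.rpow_le_rpow (abs_nonneg _) _ hα.le
      rw [abs_of_nonneg (hX.trans hx.1)]
      exact hx.2
    have h7 : ‖c t‖ * |x| ^ α ≤ (‖c t₀‖ + 1) * (X + 1) ^ α :=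
      mul_le_mul h4.le h6 (by positivity) (by positivity)
    linarith
  set Y : ℂ → ℝ → ℂ := fun t => solU (qf α (c t) (κ t)) f X a 0 with hYdef
  set Y' : ℂ → ℝ → ℂ := fun t => solV (qf α (c t) (κ t)) f X a 0 with hY'def
  set S : ℂ → ℝ → ℂ := fun t => solU (qf α (c t) (κ t)) 0 X 0 1 with hSdef
  set S' : ℂ → ℝ → ℂ := fun t => solV (qf α (c t) (κ t)) 0 X 0 1 with hS'def
  have hY : ∀ t, IsSol (qf α (c t) (κ t)) f (Y t) (Y' t) := fun t => isSol_sol (hqc t) hf X a 0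
  have hS : ∀ t, IsSol (qf α (c t) (κ t)) 0 (S t) (S' t) := fun t => isSol_sol (hqc t) hzero X 0 1
  have hYX : ∀ t, Y t X = a := fun t => solU_at (hqc t) hf X a 0
  have hY'X : ∀ t, Y' t X = 0 := fun t => solV_at (hqc t) hf X a 0
  have hSX : ∀ t, S t X = 0 := fun t => solU_at (hqc t) hzero X 0 1
  have hS'X : ∀ t, S' t X = 1 := fun t => solV_at (hqc t) hzero X 0 1
  set G : ℕ → ℂ → ℂ := fun n t => -Y t (X + 1 + n) / S t (X + 1 + n) with hGdef
  have hXn : ∀ n : ℕ, X + 1 ≤ X + 1 + (n : ℝ) := by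
    intro n
    have : (0 : ℝ) ≤ n := Nat.cast_nonneg n
    linarith
  -- Cauchy estimate
  have hcau : ∀ t₀ ∈ U, ∃ (A r : ℝ), 0 ≤ A ∧ 0 ≤ r ∧ r < 1 ∧ ∀ᶠ t in 𝓝 t₀, ∀ n m : ℕ, n ≤ m →
      ‖G n t - G m t‖ ≤ A * r ^ n := by
    intro t₀ ht₀
    obtain ⟨τ, δ, Q, hQ, hδ, hev⟩ := hloc t₀ ht₀
    refine ⟨Real.sqrt (4 * Bc δ Q F ‖a‖ * (8 * (1 + Q) ^ 2)), Real.exp (-(δ / 2)),
      Real.sqrt_nonneg _, (Real.exp_pos _).le, ?_, ?_⟩
    · rw [Real.exp_lt_one_iff]
      linarith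
    · filter_upwards [hev] with t ht n m hnm
      obtain ⟨hco', hq'⟩ := ht
      have h1 := cauchy_G (hqc t) hf (hY t) (hS t) hco' hQ hq' hf2 (hSX t) (hS'X t) (hXn n)
        (show X + 1 + (n : ℝ) ≤ X + 1 + (m : ℝ) by
          have : (n : ℝ) ≤ m := by exact_mod_cast hnm
          linarith)
      rw [hYX t] at h1
      have h2 : Real.exp (-(δ * (X + 1 + (n : ℝ) - X - 1))) = (Real.exp (-(δ / 2)) ^ n) ^ 2 := by
        rw [← Real.exp_nat_mul, ← Real.exp_nat_mul]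
        congr 1
        push_cast
        ring
      rw [h2] at h1
      have h3 : ‖G n t - G m t‖ ≤
          Real.sqrt (4 * Bc δ Q F ‖a‖ * (8 * (1 + Q) ^ 2) * (Real.exp (-(δ / 2)) ^ n) ^ 2) :=
        Real.le_sqrt_of_sq_le h1
      rwa [Real.sqrt_mul' _ (sq_nonneg _), Real.sqrt_sq (by positivity)] at h3
  have hex : ∀ t ∈ U, ∃ l, Tendsto (fun n => G n t) atTop (𝓝 l) := by
    intro t ht
    obtain ⟨A, r, hA, hr, hr1, hev⟩ := hcau t ht
    apply cauchySeq_tendsto_of_complete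
    rw [Metric.cauchySeq_iff']
    intro ε hε
    have hlim : Tendsto (fun n : ℕ => A * r ^ n) atTop (𝓝 (A * 0)) :=
      (tendsto_pow_atTop_nhds_zero_of_lt_one hr hr1).const_mul A
    rw [mul_zero] at hlim
    obtain ⟨N, hN⟩ := (hlim.eventually (gt_mem_nhds hε)).exists
    refine ⟨N, fun n hn => ?_⟩
    rw [dist_comm, dist_eq_norm]
    exact (hev.self_of_nhds N n hn).trans_lt hN
  choose! g hg using hex
  refine ⟨g, ?_, ?_⟩
  · have hlu : TendstoLocallyUniformlyOn G g atTop U := by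
      rw [Metric.tendstoLocallyUniformlyOn_iff]
      intro ε hε t₀ ht₀
      obtain ⟨A, r, hA, hr, hr1, hev⟩ := hcau t₀ ht₀
      have hev2 : ∀ᶠ t in 𝓝 t₀, t ∈ U := hU.mem_nhds ht₀
      refine ⟨{t | (∀ n m : ℕ, n ≤ m → ‖G n t - G m t‖ ≤ A * r ^ n) ∧ t ∈ U},
        mem_nhdsWithin_of_mem_nhds (hev.and hev2), ?_⟩
      have hlim : Tendsto (fun n : ℕ => A * r ^ n) atTop (𝓝 (A * 0)) :=
        (tendsto_pow_atTop_nhds_zero_of_lt_one hr hr1).const_mul A
      rw [mul_zero] at hlim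
      filter_upwards [hlim.eventually (gt_mem_nhds hε)] with n hn t ht
      rw [dist_comm, dist_eq_norm]
      refine lt_of_le_of_lt ?_ hn
      have h1 : Tendsto (fun m => ‖G n t - G m t‖) atTop (𝓝 ‖G n t - g t‖) :=
        (tendsto_const_nhds.sub (hg t ht.2)).norm
      apply le_of_tendsto h1
      filter_upwards [eventually_ge_atTop n] with m hm
      exact ht.1 n m hm
    refine hlu.differentiableOn (Eventually.of_forall fun n => ?_) hU
    intro t ht
    apply DifferentiableAt.differentiableWithinAt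
    have hct := hc.differentiableAt (hU.mem_nhds ht)
    have hκt := hκ.differentiableAt (hU.mem_nhds ht)
    have d1 := (sol_diff hα hct hκt (differentiableAt_const a) (differentiableAt_const 0) hf X
      (X + 1 + n)).1
    have d2 := (sol_diff hα hct hκt (differentiableAt_const 0) (differentiableAt_const 1) hzero X
      (X + 1 + n)).1
    obtain ⟨τ, δ, Q, hQ, hδ, hev⟩ := hloc t ht
    obtain ⟨hco', hq'⟩ := hev.self_of_nhds
    exact d1.neg.div d2 (S_ne_zero (hqc t) (hS t) hco' hQ hq' (hSX t) (hS'X t) (hXn n))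
  · intro t ht
    obtain ⟨τ, δ, Q, hQ, hδ, hev⟩ := hloc t ht
    obtain ⟨hco', hq'⟩ := hev.self_of_nhds
    have h1 := finEn_limit (hqc t) hf (hY t) (hS t) hco' hQ hq' hf2 (hSX t) (hS'X t) (hg t ht)
    have h2 := IsSol.unique (hqc t) (isSol_sol (hqc t) hf X a (g t))
      (isSol_comb (hY t) (hS t) (g t)) (X := X)
      (by rw [solU_at (hqc t) hf, hYX, hSX]; simp)
      (by rw [solV_at (hqc t) hf, hY'X, hS'X]; simp)
    have e1 : solU (qf α (c t) (κ t)) f X a (g t) = fun x => Y t x + g t * S t x := funext h2.1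
    have e2 : solV (qf α (c t) (κ t)) f X a (g t) = fun x => Y' t x + g t * S' t x := funext h2.2
    rw [e1, e2]
    exact h1

end Pool.Agent.Work.MP_9fcdee_mp
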