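import Pool.Agent.Work.MP_9fcdee_mp.M2b_Weyl

set_option autoImplicit false

open Set Filter Topology MeasureTheory

namespace Pool.Agent.Work.MP_9fcdee_mp

variable {α : ℝ}

lemma m3_sqInt_zero (X : ℝ) : SqInt X 0 := by
  unfold SqInt
  simp

lemma m3_cont {q f u v : ℝ → ℂ} (h : IsSol q f u v) : Continuous u ∧ Continuous v :=
  ⟨continuous_iff_continuousAt.2 fun x => (h.du x).continuousAt,
   continuous_iff_continuousAt.2 fun x => (h.dv x).continuousAt⟩

lemma m3_int {u v : ℝ → ℂ} {X : ℝ} (hu : Continuous u) (hv : Continuous v) (h : FinEn X u v) :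
    IntegrableOn (fun x => ‖u x‖ ^ 2) (Ioi X) ∧ IntegrableOn (fun x => ‖v x‖ ^ 2) (Ioi X) := by
  constructor
  · refine Integrable.mono' h ?_ ?_
    · exact (hu.norm.pow 2).aestronglyMeasurable
    · refine ae_of_all _ fun x => ?_
      rw [Real.norm_eq_abs, abs_of_nonneg (by positivity)]
      nlinarith [sq_nonneg ‖v x‖]
  · refine Integrable.mono' h ?_ ?_
    · exact (hv.norm.pow 2).aestronglyMeasurable
    · refine ae_of_all _ fun x => ?_
      rw [Real.norm_eq_abs, abs_of_nonneg (by positivity)]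
      nlinarith [sq_nonneg ‖u x‖]

/-- scaling of homogeneous solutions -/
lemma m3_scale {q u v : ℝ → ℂ} (h : IsSol q 0 u v) (t : ℝ) :
    IsSol (fun x => (t : ℂ) ^ 2 * q (t * x)) 0 (fun x => u (t * x)) (fun x => (t : ℂ) * v (t * x)) := by
  constructor
  · intro x
    have h1 := (h.du (t * x)).scomp x ((hasDerivAt_id x).const_mul t)
    simp only [mul_one] at h1
    have h2 : t • v (t * x) = (t : ℂ) * v (t * x) := by rw [Complex.real_smul]
    rw [← h2]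
    exact h1
  · intro x
    have h1 := ((h.dv (t * x)).scomp x ((hasDerivAt_id x).const_mul t)).const_mul (t : ℂ)
    simp only [mul_one] at h1
    refine h1.congr_deriv ?_
    rw [Complex.real_smul]
    simp only [Pi.zero_apply]
    ring

lemma m3_scale_fin {u v : ℝ → ℂ} {X : ℝ} (hu : Continuous u) (hv : Continuous v)
    (h : FinEn X u v) {t : ℝ} (ht : 0 < t) :
    FinEn (X / t) (fun x => u (t * x)) (fun x => (t : ℂ) * v (t * x)) := by
  unfold FinEn
  obtain ⟨h1, h2⟩ := m3_int hu hv h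
  have h3 : IntegrableOn (fun y => ‖u y‖ ^ 2 + t ^ 2 * ‖v y‖ ^ 2) (Ioi (t * (X / t))) := by
    rw [mul_div_cancel₀ _ ht.ne']
    exact h1.add (h2.const_mul _)
  have h4 := (integrableOn_Ioi_comp_mul_left_iff (fun y => ‖u y‖ ^ 2 + t ^ 2 * ‖v y‖ ^ 2) (X / t) ht).2 h3
  refine h4.congr_fun (fun x _ => ?_) measurableSet_Ioi
  simp only [norm_mul, Complex.norm_real, Real.norm_eq_abs, abs_of_pos ht]
  ring

lemma m3_om_norm : ‖om α‖ = 1 := by
  unfold om
  rw [Complex.norm_exp_ofReal_mul_I]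

lemma m3_om_ne : om α ≠ 0 := Complex.exp_ne_zero _

/-- the quadratic coefficient after scaling -/
lemma m3_qf_scale (c κ : ℂ) {t : ℝ} (ht : 0 < t) (x : ℝ) :
    (t : ℂ) ^ 2 * qf α c κ (t * x) = qf α (c * ((t ^ (α + 2) : ℝ) : ℂ)) (κ * (t : ℂ) ^ 2) x := by
  unfold qf
  rw [abs_mul, abs_of_pos ht, Real.mul_rpow ht.le (abs_nonneg _), Real.rpow_add ht]
  push_cast
  have : ((t ^ (2 : ℝ) : ℝ) : ℂ) = (t : ℂ) ^ 2 := by
    rw [Real.rpow_two]; push_cast; rfl
  rw [this]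
  ring

lemma m3_rotate (hα : 0 < α) (hα1 : α ≤ 1) {s : ℝ} (hs : 0 < s) :
    ∃ m : ℂ,
      FinEn 0 (solU (qf α 1 (-(s : ℂ))) 0 0 1 m) (solV (qf α 1 (-(s : ℂ))) 0 0 1 m) ∧
      FinEn 0 (solU (qf α Complex.I (-(s : ℂ) * om α ^ 2)) 0 0 1 (om α * m))
        (solV (qf α Complex.I (-(s : ℂ) * om α ^ 2)) 0 0 1 (om α * m)) := by
  set R : ℝ := Real.pi / (α + 2) with hR
  have hR0 : 0 < R := by positivity
  set c : ℂ → ℂ := fun z => Complex.exp (((α + 2 : ℝ) : ℂ) * z) with hc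
  set κ : ℂ → ℂ := fun z => -(s : ℂ) * Complex.exp (2 * z) with hκ
  have hcd : Differentiable ℂ c := by
    intro z
    exact ((differentiableAt_id.const_mul _)).cexp
  have hκd : Differentiable ℂ κ := by
    intro z
    exact (((differentiableAt_id.const_mul _)).cexp).const_mul _
  have hco : ∀ t₀ ∈ Metric.ball (0:ℂ) R, ∃ (τ : ℂ) (δ : ℝ), ∀ᶠ t in 𝓝 t₀,
      Coer (qf α (c t) (κ t)) 0 τ δ := by
    intro z hz
    have him : |z.im| < R := lt_of_le_of_lt (Complex.abs_im_le_norm z) (by simpa using hz)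
    have him2 : |(α + 2) * z.im| < Real.pi := by
      rw [abs_mul, abs_of_pos (by linarith : (0:ℝ) < α + 2)]
      calc (α + 2) * |z.im| < (α + 2) * R := by
            exact mul_lt_mul_of_pos_left him (by linarith)
        _ = Real.pi := by rw [hR]; field_simp
    set θ : ℝ := (α + 2) * z.im / 2 with hθ
    have hθa : |θ| < Real.pi / 2 := by
      rw [hθ, abs_div, abs_two]; linarith
    set τ : ℂ := Complex.exp (((-θ : ℝ) : ℂ) * Complex.I) with hτ
    have hτn : ‖τ‖ = 1 := Complex.norm_exp_ofReal_mul_I _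
    have hτre : 0 < τ.re := by
      rw [hτ, Complex.exp_ofReal_mul_I_re, Real.cos_neg]
      exact Real.cos_pos_of_mem_Ioo ⟨by linarith [(abs_lt.1 hθa).1], (abs_lt.1 hθa).2⟩
    have h1 : 0 < (τ * c z).re := by
      rw [hτ, hc]
      simp only
      rw [← Complex.exp_add, Complex.exp_re]
      have : ((((-θ : ℝ) : ℂ) * Complex.I + ((α + 2 : ℝ) : ℂ) * z)).im = θ := by
        simp only [Complex.add_im, Complex.mul_im, Complex.ofReal_re, Complex.ofReal_im,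
          Complex.I_re, Complex.I_im]
        rw [hθ]; ring
      rw [this]
      refine mul_pos (Real.exp_pos _) ?_
      exact Real.cos_pos_of_mem_Ioo ⟨by linarith [(abs_lt.1 hθa).1], (abs_lt.1 hθa).2⟩
    have h2 : 0 < (-(τ * κ z)).re := by
      have e1 : -(τ * κ z) = (s : ℂ) * Complex.exp (((-θ : ℝ) : ℂ) * Complex.I + 2 * z) := by
        rw [hκ, hτ, Complex.exp_add]; ring
      rw [e1, Complex.re_ofReal_mul, Complex.exp_re]
      have : ((((-θ : ℝ) : ℂ) * Complex.I + 2 * z)).im = (2 - α) / 2 * z.im := by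
        simp only [Complex.add_im, Complex.mul_im, Complex.ofReal_re, Complex.ofReal_im,
          Complex.I_re, Complex.I_im, Complex.re_ofNat, Complex.im_ofNat]
        rw [hθ]; ring
      rw [this]
      refine mul_pos hs (mul_pos (Real.exp_pos _) ?_)
      have h3 : |(2 - α) / 2 * z.im| < Real.pi / 2 := by
        rw [abs_mul, abs_of_pos (by linarith : (0:ℝ) < (2 - α) / 2)]
        have h4 : (α + 2) * |z.im| < Real.pi := by
          rw [abs_mul, abs_of_pos (by linarith : (0:ℝ) < α + 2)] at him2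
          exact him2
        nlinarith [abs_nonneg z.im]
      exact Real.cos_pos_of_mem_Ioo ⟨by linarith [(abs_lt.1 h3).1], (abs_lt.1 h3).2⟩
    set δ : ℝ := min τ.re ((-(τ * κ z)).re / 2) with hδ
    have hδ0 : 0 < δ := lt_min hτre (by linarith)
    refine ⟨τ, δ, ?_⟩
    have e1 : ∀ᶠ t in 𝓝 z, 0 < (τ * c t).re := by
      have : ContinuousAt (fun t => (τ * c t).re) z :=
        Complex.continuous_re.continuousAt.comp ((continuousAt_const).mul (hcd z).continuousAt)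
      exact this.eventually (lt_mem_nhds h1)
    have e2 : ∀ᶠ t in 𝓝 z, (-(τ * κ z)).re / 2 < (-(τ * κ t)).re := by
      have : ContinuousAt (fun t => (-(τ * κ t)).re) z :=
        Complex.continuous_re.continuousAt.comp ((continuousAt_const).mul (hκd z).continuousAt).neg
      exact this.eventually (lt_mem_nhds (by linarith))
    filter_upwards [e1, e2] with t h1 h2
    refine ⟨hδ0, hτn.le, min_le_left _ _, fun x _ => ?_⟩
    have e3 : (τ * qf α (c t) (κ t) x).re = (τ * c t).re * |x| ^ α + (-(τ * κ t)).re := by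
      unfold qf
      have : τ * (c t * ((|x| ^ α : ℝ) : ℂ) - κ t) = (τ * c t) * ((|x| ^ α : ℝ) : ℂ) + -(τ * κ t) := by
        ring
      rw [this, Complex.add_re, Complex.re_mul_ofReal]
    rw [e3]
    have h5 : 0 ≤ (τ * c t).re * |x| ^ α := by positivity
    have h6 : δ ≤ (-(τ * κ z)).re / 2 := min_le_right _ _
    linarith
  obtain ⟨m, hm, hfin⟩ := weyl_family hα hα1 (Metric.isOpen_ball (x := (0:ℂ)) (ε := R))
    hcd.differentiableOn hκd.differentiableOn (le_refl 0) hco (f := 0) continuous_zero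
    (m3_sqInt_zero 0) 1
  have hqc : ∀ z : ℂ, Continuous (qf α (c z) (κ z)) := fun z => continuous_qf hα _ _
  have hsol : ∀ z : ℂ, IsSol (qf α (c z) (κ z)) 0 (solU (qf α (c z) (κ z)) 0 0 1 (m z))
      (solV (qf α (c z) (κ z)) 0 0 1 (m z)) := fun z => isSol_sol (hqc z) continuous_zero _ _ _
  -- on the real axis
  have hreal : ∀ x : ℝ, (x : ℂ) ∈ Metric.ball (0:ℂ) R → m x = Complex.exp x * m 0 := by
    intro x hx
    have h0 : (0:ℂ) ∈ Metric.ball (0:ℂ) R := Metric.mem_ball_self hR0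
    have hs0 := hsol 0
    have hf0 := hfin 0 h0
    obtain ⟨hu0, hv0⟩ := m3_cont hs0
    have hs1 := m3_scale hs0 (Real.exp x)
    have hf1 := m3_scale_fin hu0 hv0 hf0 (Real.exp_pos x)
    rw [zero_div] at hf1
    have hq : (fun y => ((Real.exp x : ℝ) : ℂ) ^ 2 * qf α (c 0) (κ 0) (Real.exp x * y)) =
        qf α (c x) (κ x) := by
      funext y
      rw [m3_qf_scale _ _ (Real.exp_pos x)]
      congr 1
      · simp only [hc, mul_zero, Complex.exp_zero, one_mul]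
        rw [← Real.exp_mul]
        push_cast
        congr 1
        ring
      · simp only [hκ, mul_zero, Complex.exp_zero, mul_one]
        push_cast
        rw [← Complex.exp_nat_mul]
        norm_num
    rw [hq] at hs1
    have hw := wronskian_zero hs1 (hsol x) hf1 (hfin x hx) 0
    rw [solU_at (hqc x) continuous_zero, solV_at (hqc x) continuous_zero, mul_zero,
      solU_at (hqc 0) continuous_zero, solV_at (hqc 0) continuous_zero, one_mul, one_mul] at hw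
    have := sub_eq_zero.1 hw
    rw [this]
    push_cast
    rfl
  -- identity theorem
  have hall : EqOn m (fun z => Complex.exp z * m 0) (Metric.ball (0:ℂ) R) := by
    have ha1 : AnalyticOnNhd ℂ m (Metric.ball (0:ℂ) R) := hm.analyticOnNhd Metric.isOpen_ball
    have ha2 : AnalyticOnNhd ℂ (fun z => Complex.exp z * m 0) (Metric.ball (0:ℂ) R) := by
      refine DifferentiableOn.analyticOnNhd ?_ Metric.isOpen_ball
      exact (Complex.differentiable_exp.mul_const _).differentiableOn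
    refine ha1.eqOn_of_preconnected_of_frequently_eq ha2 (convex_ball _ _).isPreconnected
      (Metric.mem_ball_self hR0) ?_
    have ht : Tendsto (fun x : ℝ => (x : ℂ)) (𝓝[>] 0) (𝓝[≠] 0) := by
      rw [tendsto_nhdsWithin_iff]
      refine ⟨?_, ?_⟩
      · have : Tendsto (fun x : ℝ => (x : ℂ)) (𝓝 0) (𝓝 ((0:ℝ) : ℂ)) :=
          Complex.continuous_ofReal.continuousAt
        simpa using this.mono_left nhdsWithin_le_nhds
      · filter_upwards [self_mem_nhdsWithin] with x hx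
        simp only [mem_compl_iff, mem_singleton_iff, Complex.ofReal_eq_zero]
        exact (ne_of_gt hx)
    refine ht.frequently (Eventually.frequently ?_)
    have : ∀ᶠ x : ℝ in 𝓝[>] 0, x < R := by
      exact mem_nhdsWithin_of_mem_nhds (Iio_mem_nhds hR0)
    filter_upwards [this, self_mem_nhdsWithin] with x hx hx0
    refine hreal x ?_
    rw [Metric.mem_ball, dist_zero_right, Complex.norm_real, Real.norm_eq_abs,
      abs_of_pos (show (0:ℝ) < x from hx0)]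
    exact hx
  set z₁ : ℂ := ((Real.pi / (2 * (α + 2)) : ℝ) : ℂ) * Complex.I with hz₁
  have hz₁m : z₁ ∈ Metric.ball (0:ℂ) R := by
    rw [Metric.mem_ball, dist_zero_right, hz₁, norm_mul, Complex.norm_I, mul_one,
      Complex.norm_real, Real.norm_eq_abs, abs_of_pos (by positivity), hR]
    have : Real.pi / (2 * (α + 2)) = (Real.pi / (α + 2)) / 2 := by
      field_simp
    rw [this]
    have := hR0
    rw [hR] at this
    linarith
  have hmz : m z₁ = om α * m 0 := hall hz₁m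
  refine ⟨m 0, ?_, ?_⟩
  · have := hfin 0 (Metric.mem_ball_self hR0)
    simpa [hc, hκ] using this
  · have h := hfin z₁ hz₁m
    have e1 : c z₁ = Complex.I := by
      rw [hc, hz₁]
      simp only
      rw [← mul_assoc, ← Complex.ofReal_mul]
      have : (α + 2) * (Real.pi / (2 * (α + 2))) = Real.pi / 2 := by
        field_simp
      rw [this]
      push_cast
      exact Complex.exp_pi_div_two_mul_I
    have e2 : κ z₁ = -(s : ℂ) * om α ^ 2 := by
      rw [hκ]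
      simp only
      unfold om
      rw [← Complex.exp_nat_mul]
      norm_num [hz₁]
    rw [e1, e2, hmz] at h
    exact h

/-- a family of finite energy solutions on a ball, normalised by the value `1` at `X` -/
structure M3Fam (α : ℝ) (c : ℂ) (X M : ℝ) (m : ℂ → ℂ) : Prop where
  d : DifferentiableOn ℂ m (Metric.ball (0 : ℂ) M)
  f : ∀ l ∈ Metric.ball (0 : ℂ) M,
    FinEn X (solU (qf α c l) 0 X 1 (m l)) (solV (qf α c l) 0 X 1 (m l))

lemma m3_fam (hα : 0 < α) (hα1 : α ≤ 1) {c : ℂ} {X M : ℝ} (hX : 0 ≤ X) {τ : ℂ} {δ : ℝ}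
    (hco : ∀ l ∈ Metric.ball (0 : ℂ) M, Coer (qf α c l) X τ δ) :
    ∃ m : ℂ → ℂ, M3Fam α c X M m := by
  obtain ⟨m, h1, h2⟩ := weyl_family hα hα1 (Metric.isOpen_ball (x := (0:ℂ)) (ε := M))
    (c := fun _ => c) (κ := fun l => l)
    (differentiableOn_const _) differentiableOn_id hX (fun t₀ ht₀ => ⟨τ, δ, by
      filter_upwards [Metric.isOpen_ball.mem_nhds ht₀] with t ht
      exact hco t ht⟩) (f := 0) continuous_zero (m3_sqInt_zero X) 1
  exact ⟨m, h1, h2⟩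

lemma m3_fam_sol (hα : 0 < α) (c l : ℂ) (X : ℝ) (m : ℂ) :
    IsSol (qf α c l) 0 (solU (qf α c l) 0 X 1 m) (solV (qf α c l) 0 X 1 m) :=
  isSol_sol (continuous_qf hα _ _) continuous_zero _ _ _

lemma m3_fam_fin (hα : 0 < α) {c : ℂ} {X M : ℝ} {m : ℂ → ℂ} (h : M3Fam α c X M m) {l : ℂ}
    (hl : l ∈ Metric.ball (0 : ℂ) M) (Y : ℝ) :
    FinEn Y (solU (qf α c l) 0 X 1 (m l)) (solV (qf α c l) 0 X 1 (m l)) := by
  obtain ⟨h1, h2⟩ := m3_cont (m3_fam_sol hα c l X (m l))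
  exact FinEn.extend h1 h2 (h.f l hl)

lemma m3_fam_diff (hα : 0 < α) {c : ℂ} {X M : ℝ} {m : ℂ → ℂ} (h : M3Fam α c X M m) (x : ℝ) :
    DifferentiableOn ℂ (fun l => solU (qf α c l) 0 X 1 (m l) x) (Metric.ball (0 : ℂ) M) ∧
    DifferentiableOn ℂ (fun l => solV (qf α c l) 0 X 1 (m l) x) (Metric.ball (0 : ℂ) M) := by
  have key : ∀ l ∈ Metric.ball (0 : ℂ) M,
      DifferentiableAt ℂ (fun l => solU (qf α c l) 0 X 1 (m l) x) l ∧
      DifferentiableAt ℂ (fun l => solV (qf α c l) 0 X 1 (m l) x) l := by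
    intro l hl
    exact sol_diff hα (c := fun _ => c) (κ := fun l => l) (a := fun _ => 1) (b := m)
      (differentiableAt_const _) differentiableAt_id (differentiableAt_const _)
      (h.d.differentiableAt (Metric.isOpen_ball.mem_nhds hl)) continuous_zero X x
  exact ⟨fun l hl => (key l hl).1.differentiableWithinAt,
    fun l hl => (key l hl).2.differentiableWithinAt⟩

lemma m3_fam_ne (hα : 0 < α) (c l : ℂ) (X : ℝ) (m : ℂ) (x : ℝ)
    (h0 : solU (qf α c l) 0 X 1 m x = 0) : solV (qf α c l) 0 X 1 m x ≠ 0 := by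
  intro h1
  have hq := continuous_qf hα c l
  have hs := m3_fam_sol hα c l X m
  have hz : IsSol (qf α c l) 0 (fun _ => 0) (fun _ => 0) := by
    constructor
    · intro x; exact hasDerivAt_const x 0
    · intro x
      have := hasDerivAt_const x (0:ℂ)
      simpa using this
  have := (IsSol.unique hq hs hz (X := x) h0 h1).1 X
  rw [solU_at hq continuous_zero] at this
  exact one_ne_zero this

/-- the identity between the two families -/
lemma m3_ident (hα : 0 < α) (hα1 : α ≤ 1) {X M : ℝ} (hM : 0 < M) {mi m1 : ℂ → ℂ}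
    (hi : M3Fam α Complex.I X M mi) (h1 : M3Fam α 1 X M m1) {l : ℂ}
    (hl : l ∈ Metric.ball (0 : ℂ) M) :
    solV (qf α Complex.I l) 0 X 1 (mi l) 0 *
        solU (qf α 1 (l * (om α ^ 2)⁻¹)) 0 X 1 (m1 (l * (om α ^ 2)⁻¹)) 0 =
      om α * solV (qf α 1 (l * (om α ^ 2)⁻¹)) 0 X 1 (m1 (l * (om α ^ 2)⁻¹)) 0 *
        solU (qf α Complex.I l) 0 X 1 (mi l) 0 := by
  have hom : ‖om α ^ 2‖ = 1 := by rw [norm_pow, m3_om_norm, one_pow]
  have hom0 : om α ^ 2 ≠ 0 := pow_ne_zero _ m3_om_ne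
  have hmaps : MapsTo (fun l : ℂ => l * (om α ^ 2)⁻¹) (Metric.ball (0:ℂ) M) (Metric.ball (0:ℂ) M) := by
    intro l hl
    rw [Metric.mem_ball, dist_zero_right] at hl ⊢
    rw [norm_mul, norm_inv, hom, inv_one, mul_one]
    exact hl
  obtain ⟨dU, dV⟩ := m3_fam_diff hα hi 0
  obtain ⟨eU, eV⟩ := m3_fam_diff hα h1 0
  have hlin : DifferentiableOn ℂ (fun l : ℂ => l * (om α ^ 2)⁻¹) (Metric.ball (0:ℂ) M) :=
    (differentiable_id.mul_const _).differentiableOn
  have eU' := eU.comp hlin hmaps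
  have eV' := eV.comp hlin hmaps
  have a1 := (dV.mul eU').analyticOnNhd Metric.isOpen_ball
  have a2 := ((eV'.const_mul (om α)).mul dU).analyticOnNhd Metric.isOpen_ball
  have key := a1.eqOn_of_preconnected_of_frequently_eq a2 (convex_ball _ _).isPreconnected
    (Metric.mem_ball_self hM) ?_
  · exact key hl
  · have ht : Tendsto (fun s : ℝ => -(s : ℂ) * om α ^ 2) (𝓝[>] 0) (𝓝[≠] 0) := by
      rw [tendsto_nhdsWithin_iff]
      refine ⟨?_, ?_⟩
      · have : Tendsto (fun s : ℝ => -(s : ℂ) * om α ^ 2) (𝓝 0) (𝓝 (-((0:ℝ) : ℂ) * om α ^ 2)) := by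
          have : Continuous (fun s : ℝ => -(s : ℂ) * om α ^ 2) := by fun_prop
          exact this.continuousAt
        simp only [Complex.ofReal_zero, neg_zero, zero_mul] at this
        exact this.mono_left nhdsWithin_le_nhds
      · filter_upwards [self_mem_nhdsWithin] with x hx
        simp only [mem_compl_iff, mem_singleton_iff]
        refine mul_ne_zero (neg_ne_zero.2 ?_) hom0
        rw [Ne, Complex.ofReal_eq_zero]
        exact (ne_of_gt hx)
    refine ht.frequently (Eventually.frequently ?_)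
    have hlt : ∀ᶠ x : ℝ in 𝓝[>] 0, x < M := by
      exact mem_nhdsWithin_of_mem_nhds (Iio_mem_nhds hM)
    filter_upwards [hlt, self_mem_nhdsWithin] with s hs hs0
    have hs0 : (0:ℝ) < s := hs0
    obtain ⟨m, hf1, hf2⟩ := m3_rotate hα hα1 hs0
    have hlm : -(s : ℂ) * om α ^ 2 ∈ Metric.ball (0:ℂ) M := by
      rw [Metric.mem_ball, dist_zero_right, norm_mul, hom, mul_one, norm_neg, Complex.norm_real,
        Real.norm_eq_abs, abs_of_pos hs0]
      exact hs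
    have hlm' : -(s : ℂ) ∈ Metric.ball (0:ℂ) M := by
      rw [Metric.mem_ball, dist_zero_right, norm_neg, Complex.norm_real,
        Real.norm_eq_abs, abs_of_pos hs0]
      exact hs
    have e1 : -(s : ℂ) * om α ^ 2 * (om α ^ 2)⁻¹ = -(s : ℂ) := by
      rw [mul_assoc, mul_inv_cancel₀ hom0, mul_one]
    have w1 := wronskian_zero (m3_fam_sol hα Complex.I (-(s : ℂ) * om α ^ 2) 0 (om α * m))
      (m3_fam_sol hα Complex.I (-(s : ℂ) * om α ^ 2) X (mi (-(s : ℂ) * om α ^ 2))) hf2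
      (m3_fam_fin hα hi hlm 0) 0
    have w2 := wronskian_zero (m3_fam_sol hα 1 (-(s : ℂ)) 0 m)
      (m3_fam_sol hα 1 (-(s : ℂ)) X (m1 (-(s : ℂ)))) hf1
      (m3_fam_fin hα h1 hlm' 0) 0
    rw [solU_at (continuous_qf hα _ _) continuous_zero, solV_at (continuous_qf hα _ _) continuous_zero,
      one_mul, sub_eq_zero] at w1 w2
    simp only [Pi.mul_apply, Function.comp_apply, e1]
    rw [w1, w2]
    ring

/-- the conjugate solution -/
lemma m3_conj {ν : ℂ} {u v : ℝ → ℂ} (h : IsSol (qf α 1 ν) 0 u v) :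
    IsSol (qf α 1 ν) (fun x => (-ν + star ν) * star (u x)) (fun x => star (u x))
      (fun x => star (v x)) := by
  constructor
  · intro x
    exact (h.du x).star
  · intro x
    refine (h.dv x).star.congr_deriv ?_
    simp only [Pi.zero_apply, sub_zero, star_mul']
    have : star (qf α 1 ν x) = qf α 1 ν x - (-ν + star ν) := by
      unfold qf
      simp only [one_mul, star_sub]
      have : star ((|x| ^ α : ℝ) : ℂ) = ((|x| ^ α : ℝ) : ℂ) := Complex.conj_ofReal _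
      rw [this]
      ring
    rw [this]
    ring

/-- imaginary part identity -/
lemma m3_im {ν : ℂ} {u v : ℝ → ℂ} (h : IsSol (qf α 1 ν) 0 u v) (hE : FinEn 0 u v) :
    (v 0 * star (u 0)).im = ν.im * ∫ x in Ioi (0:ℝ), ‖u x‖ ^ 2 := by
  obtain ⟨hu, hv⟩ := m3_cont h
  obtain ⟨h1, h2⟩ := m3_int hu hv hE
  have hc := m3_conj h
  have hfc : Continuous (fun x => (-ν + star ν) * star (u x)) := by fun_prop
  have hE' : FinEn 0 (fun x => star (u x)) (fun x => star (v x)) := by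
    unfold FinEn at hE ⊢
    simpa only [norm_star] using hE
  have hf2 : SqInt 0 (fun x => (-ν + star ν) * star (u x)) := by
    unfold SqInt
    simp only [norm_mul, norm_star, mul_pow]
    exact h1.const_mul _
  obtain ⟨-, hg⟩ := green hfc hc h hE' hE hf2
  have e1 : ∀ x, (-ν + star ν) * star (u x) * u x = (-ν + star ν) * ((‖u x‖ ^ 2 : ℝ) : ℂ) := by
    intro x
    have : star (u x) * u x = ((‖u x‖ ^ 2 : ℝ) : ℂ) := by
      push_cast
      exact Complex.conj_mul' (u x)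
    rw [mul_assoc, this]
  simp only [e1] at hg
  rw [integral_const_mul, integral_complex_ofReal] at hg
  have him := congrArg Complex.im hg
  rw [Complex.im_mul_ofReal] at him
  simp only [Complex.add_im, Complex.neg_im, Complex.sub_im, Complex.mul_im, Complex.star_def,
    Complex.conj_re, Complex.conj_im] at him ⊢
  linarith

/-- lower bound for the `L²` norm of `u` -/
lemma m3_lower {q u v : ℝ → ℂ} (h : IsSol q 0 u v) {X : ℝ} (hE : FinEn X u v) {K : ℝ}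
    (hK : 0 < K) :
    ‖u X‖ ^ 2 ≤ K * (∫ x in Ioi X, ‖u x‖ ^ 2) + K⁻¹ * ∫ x in Ioi X, ‖v x‖ ^ 2 := by
  obtain ⟨hu, hv⟩ := m3_cont h
  obtain ⟨h1, h2⟩ := m3_int hu hv hE
  have ht : 0 < K⁻¹ := inv_pos.2 hK
  have hs := m3_scale h K⁻¹
  have hf := m3_scale_fin hu hv hE ht
  have key := norm_sq_le_En hs hf (le_refl (X / K⁻¹))
  have e0 : K⁻¹ * (X / K⁻¹) = X := by field_simp
  rw [e0] at key
  refine key.trans (le_of_eq ?_)
  unfold En
  have e1 : ∀ x, ‖u (K⁻¹ * x)‖ ^ 2 + ‖((K⁻¹ : ℝ) : ℂ) * v (K⁻¹ * x)‖ ^ 2 =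
      (fun y => ‖u y‖ ^ 2 + K⁻¹ ^ 2 * ‖v y‖ ^ 2) (K⁻¹ * x) := by
    intro x
    simp only [norm_mul, Complex.norm_real, Real.norm_eq_abs, abs_of_pos ht]
    ring
  simp only [e1]
  rw [integral_comp_mul_left_Ioi (fun y => ‖u y‖ ^ 2 + K⁻¹ ^ 2 * ‖v y‖ ^ 2) (X / K⁻¹) ht, e0,
    integral_add h1 (h2.const_mul _), integral_const_mul, smul_eq_mul]
  field_simp

/-- local lower bound -/
lemma m3_fam_lower (hα : 0 < α) {X M : ℝ} (hX : 0 ≤ X) {m1 : ℂ → ℂ}
    (h1 : M3Fam α 1 X M m1) {τ : ℂ} {δ : ℝ}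
    (hco : ∀ l ∈ Metric.ball (0 : ℂ) M, Coer (qf α 1 l) X τ δ) {ν : ℂ}
    (hν : ν ∈ Metric.ball (0 : ℂ) M) {B : ℝ} (hB : ‖m1 ν‖ ≤ B) :
    1 ≤ 2 * (4 * B / δ + 1) * ∫ x in Ioi (0:ℝ), ‖solU (qf α 1 ν) 0 X 1 (m1 ν) x‖ ^ 2 := by
  have hc := hco ν hν
  have hδ := hc.pos
  have hB0 : 0 ≤ B := (norm_nonneg _).trans hB
  have hs := m3_fam_sol hα 1 ν X (m1 ν)
  obtain ⟨hu, hv⟩ := m3_cont hs
  have hE := h1.f ν hν
  obtain ⟨i1, i2⟩ := m3_int hu hv hE
  obtain ⟨j1, j2⟩ := m3_int hu hv (m3_fam_fin hα h1 hν 0)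
  have hb := energy_bound (continuous_qf hα 1 ν) continuous_zero hs hE hc (m3_sqInt_zero X)
  rw [solU_at (continuous_qf hα _ _) continuous_zero, solV_at (continuous_qf hα _ _) continuous_zero,
    norm_one, one_mul] at hb
  simp only [Pi.zero_apply, norm_zero, ne_eq, OfNat.ofNat_ne_zero, not_false_eq_true, zero_pow,
    integral_zero, zero_div, add_zero] at hb
  set K : ℝ := 4 * B / δ + 1 with hK
  have hK0 : 0 < K := by positivity
  have hl := m3_lower hs hE hK0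
  rw [solU_at (continuous_qf hα _ _) continuous_zero, norm_one, one_pow] at hl
  have hv2 : ∫ x in Ioi X, ‖solV (qf α 1 ν) 0 X 1 (m1 ν) x‖ ^ 2 ≤ 2 / δ * B := by
    refine le_trans ?_ (hb.trans (mul_le_mul_of_nonneg_left hB (by positivity)))
    unfold En
    refine integral_mono i2 hE (fun x => ?_)
    simp only
    nlinarith [sq_nonneg ‖solU (qf α 1 ν) 0 X 1 (m1 ν) x‖]
  have hu2 : ∫ x in Ioi X, ‖solU (qf α 1 ν) 0 X 1 (m1 ν) x‖ ^ 2 ≤
      ∫ x in Ioi (0:ℝ), ‖solU (qf α 1 ν) 0 X 1 (m1 ν) x‖ ^ 2 := by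
    refine setIntegral_mono_set j1 (ae_of_all _ fun x => by positivity) ?_
    exact (Ioi_subset_Ioi hX).eventuallyLE
  have h3 : K⁻¹ * ∫ x in Ioi X, ‖solV (qf α 1 ν) 0 X 1 (m1 ν) x‖ ^ 2 ≤ 1 / 2 := by
    calc K⁻¹ * ∫ x in Ioi X, ‖solV (qf α 1 ν) 0 X 1 (m1 ν) x‖ ^ 2 ≤ K⁻¹ * (2 / δ * B) :=
          mul_le_mul_of_nonneg_left hv2 (inv_pos.2 hK0).le
      _ ≤ 1 / 2 := by
          rw [inv_mul_le_iff₀ hK0, hK]
          have : 2 / δ * B = (4 * B / δ) / 2 := by ring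
          rw [this]; linarith
  have h4 := mul_le_mul_of_nonneg_left hu2 hK0.le
  linarith

/-- simple zeros for `c = 1` -/
lemma m3_simple_one (hα : 0 < α) {X M : ℝ} (hX : 0 ≤ X) {m1 : ℂ → ℂ}
    (h1 : M3Fam α 1 X M m1) {τ : ℂ} {δ : ℝ}
    (hco : ∀ l ∈ Metric.ball (0 : ℂ) M, Coer (qf α 1 l) X τ δ) (b : Bool) {ν : ℂ}
    (hν : ν ∈ Metric.ball (0 : ℂ) M)
    (h0 : bc b (solU (qf α 1 ν) 0 X 1 (m1 ν) 0) (solV (qf α 1 ν) 0 X 1 (m1 ν) 0) = 0) :
    deriv (fun l => bc b (solU (qf α 1 l) 0 X 1 (m1 l) 0) (solV (qf α 1 l) 0 X 1 (m1 l) 0)) ν ≠ 0 := by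
  intro hd
  set G : ℂ → ℂ := fun l => bc b (solU (qf α 1 l) 0 X 1 (m1 l) 0) (solV (qf α 1 l) 0 X 1 (m1 l) 0)
    with hG
  set H : ℂ → ℂ := fun l => bc (!b) (solU (qf α 1 l) 0 X 1 (m1 l) 0) (solV (qf α 1 l) 0 X 1 (m1 l) 0)
    with hH
  obtain ⟨dU, dV⟩ := m3_fam_diff hα h1 0
  have hball := Metric.isOpen_ball.mem_nhds hν
  have dG : DifferentiableAt ℂ G ν := by
    rw [hG]
    cases b
    · exact dV.differentiableAt hball
    · exact dU.differentiableAt hball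
  have dH : DifferentiableAt ℂ H ν := by
    rw [hH]
    cases b
    · exact dU.differentiableAt hball
    · exact dV.differentiableAt hball
  have dm : DifferentiableAt ℂ m1 ν := h1.d.differentiableAt hball
  set B : ℝ := ‖m1 ν‖ + 1 with hB
  set C : ℝ := 2 * (4 * B / δ + 1) with hC
  have hδ := (hco ν hν).pos
  have hC0 : 0 < C := by positivity
  -- key lower bound
  have key : ∀ l ∈ Metric.ball (0 : ℂ) M, ‖m1 l‖ ≤ B → |l.im| ≤ C * (‖G l‖ * ‖H l‖) := by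
    intro l hl hml
    have e1 := m3_fam_lower hα hX h1 hco hl hml
    have e2 := m3_im (m3_fam_sol hα 1 l X (m1 l)) (m3_fam_fin hα h1 hl 0)
    have e3 : ‖G l‖ * ‖H l‖ = ‖solU (qf α 1 l) 0 X 1 (m1 l) 0‖ * ‖solV (qf α 1 l) 0 X 1 (m1 l) 0‖ := by
      rw [hG, hH]
      cases b
      · simp only [bc, Bool.false_eq_true, if_false, Bool.not_false, if_true]
        ring
      · simp only [bc, Bool.false_eq_true, if_false, Bool.not_true, if_true]
    have e4 : |l.im| * (∫ x in Ioi (0:ℝ), ‖solU (qf α 1 l) 0 X 1 (m1 l) x‖ ^ 2) ≤ ‖G l‖ * ‖H l‖ := by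
      have hI : 0 ≤ ∫ x in Ioi (0:ℝ), ‖solU (qf α 1 l) 0 X 1 (m1 l) x‖ ^ 2 :=
        integral_nonneg fun x => by positivity
      calc |l.im| * (∫ x in Ioi (0:ℝ), ‖solU (qf α 1 l) 0 X 1 (m1 l) x‖ ^ 2)
          = |l.im * (∫ x in Ioi (0:ℝ), ‖solU (qf α 1 l) 0 X 1 (m1 l) x‖ ^ 2)| := by
            rw [abs_mul, abs_of_nonneg hI]
        _ = |(solV (qf α 1 l) 0 X 1 (m1 l) 0 * star (solU (qf α 1 l) 0 X 1 (m1 l) 0)).im| := by
            rw [e2]
        _ ≤ ‖solV (qf α 1 l) 0 X 1 (m1 l) 0 * star (solU (qf α 1 l) 0 X 1 (m1 l) 0)‖ :=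
            Complex.abs_im_le_norm _
        _ = ‖G l‖ * ‖H l‖ := by
            rw [norm_mul, norm_star, e3, mul_comm]
    calc |l.im| = |l.im| * 1 := by ring
      _ ≤ |l.im| * (C * ∫ x in Ioi (0:ℝ), ‖solU (qf α 1 l) 0 X 1 (m1 l) x‖ ^ 2) :=
          mul_le_mul_of_nonneg_left e1 (abs_nonneg _)
      _ = C * (|l.im| * (∫ x in Ioi (0:ℝ), ‖solU (qf α 1 l) 0 X 1 (m1 l) x‖ ^ 2)) := by ring
      _ ≤ C * (‖G l‖ * ‖H l‖) := mul_le_mul_of_nonneg_left e4 hC0.le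
  have hG0 : G ν = 0 := h0
  have hder : HasDerivAt G 0 ν := by
    have := dG.hasDerivAt
    rwa [hd] at this
  have hνim : ν.im = 0 := by
    have := key ν hν (by rw [hB]; linarith)
    rw [hG0, norm_zero, zero_mul, mul_zero] at this
    exact abs_eq_zero.1 (le_antisymm this (abs_nonneg _))
  have hlo := hasDerivAt_iff_isLittleO.1 hder
  simp only [hG0, sub_zero, smul_zero] at hlo
  set η : ℝ := 1 / (2 * C * (‖H ν‖ + 1)) with hη
  have hη0 : 0 < η := by positivity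
  have ev1 := hlo.def hη0
  have ev2 : ∀ᶠ l in 𝓝 ν, ‖H l‖ < ‖H ν‖ + 1 :=
    (dH.continuousAt.norm).eventually (gt_mem_nhds (by linarith))
  have ev3 : ∀ᶠ l in 𝓝 ν, ‖m1 l‖ < ‖m1 ν‖ + 1 :=
    (dm.continuousAt.norm).eventually (gt_mem_nhds (by linarith))
  have ht : Tendsto (fun ε : ℝ => ν + (ε : ℂ) * Complex.I) (𝓝[>] 0) (𝓝 ν) := by
    have : Continuous (fun ε : ℝ => ν + (ε : ℂ) * Complex.I) := by fun_prop
    have h2 := this.continuousAt (x := 0)
    unfold ContinuousAt at h2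
    simp only [Complex.ofReal_zero, zero_mul, add_zero] at h2
    exact h2.mono_left nhdsWithin_le_nhds
  have ev := ht.eventually (((ev1.and ev2).and ev3).and hball)
  obtain ⟨ε, ⟨⟨⟨a1, a2⟩, a3⟩, a4⟩, hε⟩ := (ev.and self_mem_nhdsWithin).exists
  have hε : 0 < ε := hε
  have k := key _ a4 a3.le
  have e5 : (ν + (ε : ℂ) * Complex.I).im = ε := by
    simp [hνim]
  have e6 : ‖(ν + (ε : ℂ) * Complex.I) - ν‖ = ε := by
    rw [add_sub_cancel_left, norm_mul, Complex.norm_I, mul_one, Complex.norm_real,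
      Real.norm_eq_abs, abs_of_pos hε]
  rw [e5, abs_of_pos hε] at k
  rw [e6] at a1
  have hHpos : 0 < ‖H ν‖ + 1 := by positivity
  have : C * (‖G (ν + (ε : ℂ) * Complex.I)‖ * ‖H (ν + (ε : ℂ) * Complex.I)‖) ≤
      C * ((η * ε) * (‖H ν‖ + 1)) := by
    refine mul_le_mul_of_nonneg_left ?_ hC0.le
    exact mul_le_mul a1 a2.le (norm_nonneg _) (by positivity)
  have e7 : C * ((η * ε) * (‖H ν‖ + 1)) = ε / 2 := by
    rw [hη]; field_simp
  rw [e7] at this
  linarith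

/-- simple zeros for `c = i` -/
lemma m3_simple_i (hα : 0 < α) (hα1 : α ≤ 1) {X M : ℝ} (hM : 0 < M) (hX : 0 ≤ X)
    {mi m1 : ℂ → ℂ} (hi : M3Fam α Complex.I X M mi) (h1 : M3Fam α 1 X M m1) {τ : ℂ} {δ : ℝ}
    (hco : ∀ l ∈ Metric.ball (0 : ℂ) M, Coer (qf α 1 l) X τ δ) (b : Bool) {l₀ : ℂ}
    (hl : l₀ ∈ Metric.ball (0 : ℂ) M)
    (h0 : bc b (solU (qf α Complex.I l₀) 0 X 1 (mi l₀) 0) (solV (qf α Complex.I l₀) 0 X 1 (mi l₀) 0)
      = 0) :
    deriv (fun l => bc b (solU (qf α Complex.I l) 0 X 1 (mi l) 0)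
      (solV (qf α Complex.I l) 0 X 1 (mi l) 0)) l₀ ≠ 0 := by
  have hom : ‖om α ^ 2‖ = 1 := by rw [norm_pow, m3_om_norm, one_pow]
  have hom0 : om α ^ 2 ≠ 0 := pow_ne_zero _ m3_om_ne
  set ζ : ℂ := (om α ^ 2)⁻¹ with hζ
  have hζ0 : ζ ≠ 0 := inv_ne_zero hom0
  have hν : l₀ * ζ ∈ Metric.ball (0:ℂ) M := by
    rw [Metric.mem_ball, dist_zero_right] at hl ⊢
    rw [norm_mul, hζ, norm_inv, hom, inv_one, mul_one]
    exact hl
  set a0 : ℂ → ℂ := fun l => solU (qf α Complex.I l) 0 X 1 (mi l) 0 with ha0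
  set a1 : ℂ → ℂ := fun l => solV (qf α Complex.I l) 0 X 1 (mi l) 0 with ha1
  set b0 : ℂ → ℂ := fun l => solU (qf α 1 l) 0 X 1 (m1 l) 0 with hb0
  set b1 : ℂ → ℂ := fun l => solV (qf α 1 l) 0 X 1 (m1 l) 0 with hb1
  obtain ⟨dU, dV⟩ := m3_fam_diff hα hi 0
  obtain ⟨eU, eV⟩ := m3_fam_diff hα h1 0
  have hball := Metric.isOpen_ball.mem_nhds hl
  have hball' := Metric.isOpen_ball.mem_nhds hν
  have Da0 : HasDerivAt a0 (deriv a0 l₀) l₀ := (dU.differentiableAt hball).hasDerivAt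
  have Da1 : HasDerivAt a1 (deriv a1 l₀) l₀ := (dV.differentiableAt hball).hasDerivAt
  have Db0 : HasDerivAt b0 (deriv b0 (l₀ * ζ)) (l₀ * ζ) := (eU.differentiableAt hball').hasDerivAt
  have Db1 : HasDerivAt b1 (deriv b1 (l₀ * ζ)) (l₀ * ζ) := (eV.differentiableAt hball').hasDerivAt
  have Dl : HasDerivAt (fun l : ℂ => l * ζ) ζ l₀ := by
    simpa using (hasDerivAt_id l₀).mul_const ζ
  have Cb0 : HasDerivAt (fun l => b0 (l * ζ)) (deriv b0 (l₀ * ζ) * ζ) l₀ :=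
    HasDerivAt.comp (h₂ := b0) (h := fun l => l * ζ) l₀ Db0 Dl
  have Cb1 : HasDerivAt (fun l => b1 (l * ζ)) (deriv b1 (l₀ * ζ) * ζ) l₀ :=
    HasDerivAt.comp (h₂ := b1) (h := fun l => l * ζ) l₀ Db1 Dl
  have hid : ∀ l ∈ Metric.ball (0:ℂ) M, a1 l * b0 (l * ζ) = om α * b1 (l * ζ) * a0 l :=
    fun l hl => m3_ident hα hα1 hM hi h1 hl
  have hev : (fun l => a1 l * b0 (l * ζ)) =ᶠ[𝓝 l₀] (fun l => om α * b1 (l * ζ) * a0 l) := by
    filter_upwards [hball] with l hl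
    exact hid l hl
  have D1 : HasDerivAt (fun l => a1 l * b0 (l * ζ))
      (deriv a1 l₀ * b0 (l₀ * ζ) + a1 l₀ * (deriv b0 (l₀ * ζ) * ζ)) l₀ := Da1.mul Cb0
  have D2 : HasDerivAt (fun l => om α * b1 (l * ζ) * a0 l)
      (om α * (deriv b1 (l₀ * ζ) * ζ) * a0 l₀ + om α * b1 (l₀ * ζ) * deriv a0 l₀) l₀ :=
    (Cb1.const_mul (om α)).mul Da0
  have hE := D1.unique (D2.congr_of_eventuallyEq hev)
  have hid0 := hid l₀ hl
  have hne : ∀ c l m, solU (qf α c l) 0 X 1 m 0 = 0 → solV (qf α c l) 0 X 1 m 0 ≠ 0 :=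
    fun c l m => m3_fam_ne hα c l X m 0
  have hom' : om α ≠ 0 := m3_om_ne
  cases b
  · -- Neumann
    have h0' : a1 l₀ = 0 := h0
    intro hd
    have hd' : deriv a1 l₀ = 0 := hd
    have ha0ne : a0 l₀ ≠ 0 := fun h => hne _ _ _ h h0'
    have hb1z : b1 (l₀ * ζ) = 0 := by
      rw [h0', zero_mul] at hid0
      have := hid0.symm
      rcases mul_eq_zero.1 this with h | h
      · rcases mul_eq_zero.1 h with h | h
        · exact absurd h hom'
        · exact h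
      · exact absurd h ha0ne
    have hs := m3_simple_one hα hX h1 hco false hν hb1z
    have hs' : deriv b1 (l₀ * ζ) ≠ 0 := hs
    rw [hd', h0', hb1z] at hE
    simp only [zero_mul, mul_zero, add_zero] at hE
    have := hE.symm
    rcases mul_eq_zero.1 this with h | h
    · rcases mul_eq_zero.1 h with h | h
      · exact hom' h
      · rcases mul_eq_zero.1 h with h | h
        · exact hs' h
        · exact hζ0 h
    · exact ha0ne h
  · have h0' : a0 l₀ = 0 := h0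
    intro hd
    have hd' : deriv a0 l₀ = 0 := hd
    have ha1ne : a1 l₀ ≠ 0 := hne _ _ _ h0'
    have hb0z : b0 (l₀ * ζ) = 0 := by
      rw [h0', mul_zero] at hid0
      rcases mul_eq_zero.1 hid0 with h | h
      · exact absurd h ha1ne
      · exact h
    have hs := m3_simple_one hα hX h1 hco true hν hb0z
    have hs' : deriv b0 (l₀ * ζ) ≠ 0 := hs
    rw [hd', h0', hb0z] at hE
    simp only [mul_zero, add_zero, zero_add] at hE
    rcases mul_eq_zero.1 hE with h | h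
    · exact ha1ne h
    · rcases mul_eq_zero.1 h with h | h
      · exact hs' h
      · exact hζ0 h

/-- `|v(0)|² ≤ 2 N E` -/
lemma m3_v0 (hα : 0 < α) {ν : ℂ} {u v : ℝ → ℂ} (h : IsSol (qf α 1 ν) 0 u v)
    (hE : FinEn 0 u v) : ‖v 0‖ ^ 2 ≤ 2 * (1 + ‖ν‖) * En 0 u v := by
  obtain ⟨hu, hv⟩ := m3_cont h
  have hE0 : 0 ≤ En 0 u v := integral_nonneg fun x => by positivity
  by_cases hv0 : v 0 = 0
  · rw [hv0, norm_zero, zero_pow two_ne_zero]
    have := norm_nonneg ν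
    positivity
  have hvp : 0 < ‖v 0‖ := norm_pos_iff.2 hv0
  set N : ℝ := 1 + ‖ν‖ with hN
  have hN1 : 1 ≤ N := by rw [hN]; linarith [norm_nonneg ν]
  have hN0 : 0 < N := by linarith
  set c : ℝ := 2 / ‖v 0‖ with hc
  have hc0 : 0 < c := by positivity
  have hNi : 0 ≤ N⁻¹ := (inv_pos.2 hN0).le
  have hder : ∀ x ∈ uIcc 0 N⁻¹, HasDerivAt (fun x : ℝ => v x * ((1 - N * x : ℝ) : ℂ))
      ((qf α 1 ν x * u x) * ((1 - N * x : ℝ) : ℂ) + v x * ((-N : ℝ) : ℂ)) x := by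
    intro x _
    have h1 : HasDerivAt (fun x : ℝ => ((1 - N * x : ℝ) : ℂ)) ((-N : ℝ) : ℂ) x := by
      have : HasDerivAt (fun x : ℝ => 1 - N * x) (-N) x := by
        have := ((hasDerivAt_id x).const_mul N).const_sub 1
        simpa using this
      exact this.ofReal_comp
    have h2 := (h.dv x).mul h1
    simp only [Pi.zero_apply, sub_zero] at h2
    exact h2
  have hq := continuous_qf hα 1 ν
  have hcont : Continuous (fun x : ℝ => (qf α 1 ν x * u x) * ((1 - N * x : ℝ) : ℂ) +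
      v x * ((-N : ℝ) : ℂ)) := by fun_prop
  have hint := intervalIntegral.integral_eq_sub_of_hasDerivAt hder
    (hcont.intervalIntegrable 0 N⁻¹)
  rw [mul_inv_cancel₀ hN0.ne'] at hint
  simp only [sub_self, Complex.ofReal_zero, mul_zero, sub_zero, Complex.ofReal_one, mul_one,
    zero_sub] at hint
  have hb : ‖v 0‖ ≤ ∫ x in (0:ℝ)..N⁻¹, (N * (c / 2) * (‖u x‖ ^ 2 + ‖v x‖ ^ 2) + N * (1 / c)) := by
    have e1 : ‖v 0‖ = ‖∫ x in (0:ℝ)..N⁻¹, ((qf α 1 ν x * u x) * ((1 - N * x : ℝ) : ℂ) +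
        v x * ((-N : ℝ) : ℂ))‖ := by
      rw [hint, norm_neg]
    rw [e1]
    refine intervalIntegral.norm_integral_le_of_norm_le hNi ?_ ?_
    · refine ae_of_all _ fun x hx => ?_
      have hx0 : 0 < x := hx.1
      have hx1 : x ≤ N⁻¹ := hx.2
      have hx2 : N * x ≤ 1 := by
        have := mul_le_mul_of_nonneg_left hx1 hN0.le
        rwa [mul_inv_cancel₀ hN0.ne'] at this
      have hx3 : x ≤ 1 := by
        refine hx1.trans ?_
        exact inv_le_one_of_one_le₀ hN1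
      have q1 : ‖qf α 1 ν x‖ ≤ N := by
        unfold qf
        rw [one_mul]
        refine (norm_sub_le _ _).trans ?_
        rw [Complex.norm_real, Real.norm_eq_abs, abs_of_nonneg (by positivity), abs_of_pos hx0, hN]
        have := Real.rpow_le_one hx0.le hx3 hα.le
        linarith
      have q2 : ‖((1 - N * x : ℝ) : ℂ)‖ ≤ 1 := by
        rw [Complex.norm_real, Real.norm_eq_abs, abs_le]
        constructor
        · linarith
        · have := mul_pos hN0 hx0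
          linarith
      have q3 : ‖((-N : ℝ) : ℂ)‖ = N := by
        rw [Complex.norm_real, Real.norm_eq_abs, abs_neg, abs_of_pos hN0]
      calc ‖(qf α 1 ν x * u x) * ((1 - N * x : ℝ) : ℂ) + v x * ((-N : ℝ) : ℂ)‖
          ≤ ‖qf α 1 ν x‖ * ‖u x‖ * ‖((1 - N * x : ℝ) : ℂ)‖ + ‖v x‖ * ‖((-N : ℝ) : ℂ)‖ := by
            refine (norm_add_le _ _).trans ?_
            rw [norm_mul, norm_mul, norm_mul]
        _ ≤ N * ‖u x‖ * 1 + ‖v x‖ * N := by
            rw [q3]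
            gcongr
        _ = N * (‖u x‖ + ‖v x‖) := by ring
        _ ≤ N * ((c / 2) * (‖u x‖ ^ 2 + ‖v x‖ ^ 2) + 1 / c) := by
            refine mul_le_mul_of_nonneg_left ?_ hN0.le
            have h4 : (‖u x‖ + ‖v x‖) ≤ c / 4 * (‖u x‖ + ‖v x‖) ^ 2 + 1 / c := by
              have : c / 4 * (‖u x‖ + ‖v x‖) ^ 2 + 1 / c - (‖u x‖ + ‖v x‖) =
                  (c * (‖u x‖ + ‖v x‖) / 2 - 1) ^ 2 / c := by
                field_simp
                ring
              have h5 : 0 ≤ (c * (‖u x‖ + ‖v x‖) / 2 - 1) ^ 2 / c := by positivity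
              linarith
            have h6 : c / 4 * (‖u x‖ + ‖v x‖) ^ 2 ≤ (c / 2) * (‖u x‖ ^ 2 + ‖v x‖ ^ 2) := by
              nlinarith [sq_nonneg (‖u x‖ - ‖v x‖)]
            linarith
        _ = _ := by ring
    · exact Continuous.intervalIntegrable (by fun_prop) _ _
  have hi1 : ∫ x in (0:ℝ)..N⁻¹, (N * (c / 2) * (‖u x‖ ^ 2 + ‖v x‖ ^ 2) + N * (1 / c)) =
      N * (c / 2) * (∫ x in (0:ℝ)..N⁻¹, (‖u x‖ ^ 2 + ‖v x‖ ^ 2)) + 1 / c := by
    rw [intervalIntegral.integral_add (Continuous.intervalIntegrable (by fun_prop) _ _)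
      (Continuous.intervalIntegrable (by fun_prop) _ _), intervalIntegral.integral_const_mul,
      intervalIntegral.integral_const, sub_zero, smul_eq_mul]
    field_simp
  have hi2 : ∫ x in (0:ℝ)..N⁻¹, (‖u x‖ ^ 2 + ‖v x‖ ^ 2) ≤ En 0 u v := by
    rw [intervalIntegral.integral_of_le hNi]
    unfold En
    exact setIntegral_mono_set hE (ae_of_all _ fun x => by positivity)
      (Ioc_subset_Ioi_self.eventuallyLE)
  rw [hi1] at hb
  have h7 : N * (c / 2) * (∫ x in (0:ℝ)..N⁻¹, (‖u x‖ ^ 2 + ‖v x‖ ^ 2)) ≤ N * (c / 2) * En 0 u v :=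
    mul_le_mul_of_nonneg_left hi2 (by positivity)
  have h8 : ‖v 0‖ ≤ N * (c / 2) * En 0 u v + 1 / c := by linarith
  have h9 : N * (c / 2) * En 0 u v + 1 / c = N * En 0 u v / ‖v 0‖ + ‖v 0‖ / 2 := by
    rw [hc]; field_simp
  rw [h9] at h8
  have h10 : ‖v 0‖ / 2 ≤ N * En 0 u v / ‖v 0‖ := by linarith
  rw [le_div_iff₀ hvp] at h10
  nlinarith

/-- bounds for `c = 1` -/
lemma m3_bound_one (hα : 0 < α) {ν : ℂ} {u v : ℝ → ℂ} (h : IsSol (qf α 1 ν) 0 u v)
    (hE : FinEn 0 u v) (hν : ν.im ≠ 0) :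
    |ν.im| * ‖v 0‖ ≤ 8 * (1 + ‖ν‖) ^ 2 * ‖u 0‖ ∧ |ν.im| * ‖u 0‖ ≤ 4 * (1 + ‖ν‖) * ‖v 0‖ := by
  have hi : 0 < |ν.im| := abs_pos.2 hν
  have hνn : 0 < ‖ν‖ := lt_of_lt_of_le hi (Complex.abs_im_le_norm ν)
  set N : ℝ := 1 + ‖ν‖ with hN
  have hN1 : 1 ≤ N := by linarith
  have hN0 : 0 < N := by linarith
  set w : ℂ := (‖ν‖ : ℂ) - star ν with hw
  have hwre : w.re = ‖ν‖ - ν.re := by simp [hw]
  have hwim : w.im = ν.im := by simp [hw]
  have hwi : |ν.im| ≤ ‖w‖ := by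
    rw [← hwim]; exact Complex.abs_im_le_norm w
  have hw0 : 0 < ‖w‖ := lt_of_lt_of_le hi hwi
  have hnsq : ‖ν‖ ^ 2 = ν.re ^ 2 + ν.im ^ 2 := by
    rw [← Complex.normSq_eq_norm_sq, Complex.normSq_apply]; ring
  have hwsq : ‖w‖ ^ 2 = 2 * ‖ν‖ * (‖ν‖ - ν.re) := by
    rw [← Complex.normSq_eq_norm_sq, Complex.normSq_apply, hwre, hwim]
    nlinarith
  set τ : ℂ := w / (‖w‖ : ℂ) with hτ
  have hτn : ‖τ‖ = 1 := by
    rw [hτ, norm_div, Complex.norm_real, norm_norm, div_self hw0.ne']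
  have hτre : τ.re = ‖w‖ / (2 * ‖ν‖) := by
    rw [hτ, Complex.div_ofReal_re, hwre]
    rw [div_eq_div_iff hw0.ne' (by positivity)]
    nlinarith
  have hτν : (τ * ν).re = -(‖w‖ / 2) := by
    have : τ * ν = (w * ν) / (‖w‖ : ℂ) := by rw [hτ]; ring
    rw [this, Complex.div_ofReal_re, Complex.mul_re, hwre, hwim]
    rw [div_eq_iff hw0.ne']
    nlinarith
  set δ : ℝ := |ν.im| / (2 * N) with hδ
  have hδ0 : 0 < δ := by positivity
  have hδ1 : δ ≤ ‖w‖ / (2 * ‖ν‖) := by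
    rw [hδ]
    have : 2 * ‖ν‖ ≤ 2 * N := by linarith
    exact div_le_div₀ hw0.le hwi (by positivity) this
  have hδ2 : δ ≤ ‖w‖ / 2 := by
    rw [hδ]
    exact div_le_div₀ hw0.le hwi (by norm_num) (by linarith)
  have hco : Coer (qf α 1 ν) 0 τ δ := by
    refine ⟨hδ0, hτn.le, by rw [hτre]; exact hδ1, fun x _ => ?_⟩
    have : (τ * qf α 1 ν x).re = τ.re * |x| ^ α - (τ * ν).re := by
      unfold qf
      rw [one_mul, mul_sub, Complex.sub_re, Complex.re_mul_ofReal]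
    rw [this, hτν, hτre]
    have h5 : 0 ≤ ‖w‖ / (2 * ‖ν‖) * |x| ^ α := by positivity
    linarith
  have hb := energy_bound (continuous_qf hα 1 ν) continuous_zero h hE hco (m3_sqInt_zero 0)
  simp only [Pi.zero_apply, norm_zero, ne_eq, OfNat.ofNat_ne_zero, not_false_eq_true, zero_pow,
    integral_zero, zero_div, add_zero] at hb
  have e1 : 2 / δ = 4 * N / |ν.im| := by
    rw [hδ]; field_simp; norm_num
  rw [e1] at hb
  have hu := norm_sq_le_En h hE (le_refl 0)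
  have hv := m3_v0 hα h hE
  have hEb : |ν.im| * En 0 u v ≤ 4 * N * (‖u 0‖ * ‖v 0‖) := by
    have := mul_le_mul_of_nonneg_left hb hi.le
    have e2 : |ν.im| * (4 * N / |ν.im| * (‖u 0‖ * ‖v 0‖)) = 4 * N * (‖u 0‖ * ‖v 0‖) := by
      field_simp
    rwa [e2] at this
  constructor
  · by_cases hv0 : ‖v 0‖ = 0
    · rw [hv0, mul_zero]; positivity
    have hvp : 0 < ‖v 0‖ := lt_of_le_of_ne (norm_nonneg _) (Ne.symm hv0)
    have h3 : |ν.im| * ‖v 0‖ ^ 2 ≤ 8 * N ^ 2 * (‖u 0‖ * ‖v 0‖) := by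
      calc |ν.im| * ‖v 0‖ ^ 2 ≤ |ν.im| * (2 * N * En 0 u v) := mul_le_mul_of_nonneg_left hv hi.le
        _ = 2 * N * (|ν.im| * En 0 u v) := by ring
        _ ≤ 2 * N * (4 * N * (‖u 0‖ * ‖v 0‖)) := mul_le_mul_of_nonneg_left hEb (by positivity)
        _ = _ := by ring
    have h4 : (|ν.im| * ‖v 0‖) * ‖v 0‖ ≤ (8 * N ^ 2 * ‖u 0‖) * ‖v 0‖ := by
      calc (|ν.im| * ‖v 0‖) * ‖v 0‖ = |ν.im| * ‖v 0‖ ^ 2 := by ring
        _ ≤ _ := h3
        _ = _ := by ring
    exact le_of_mul_le_mul_right h4 hvp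
  · by_cases hu0 : ‖u 0‖ = 0
    · rw [hu0, mul_zero]; positivity
    have hup : 0 < ‖u 0‖ := lt_of_le_of_ne (norm_nonneg _) (Ne.symm hu0)
    have h3 : |ν.im| * ‖u 0‖ ^ 2 ≤ 4 * N * (‖u 0‖ * ‖v 0‖) :=
      (mul_le_mul_of_nonneg_left hu hi.le).trans hEb
    have h4 : (|ν.im| * ‖u 0‖) * ‖u 0‖ ≤ (4 * N * ‖v 0‖) * ‖u 0‖ := by
      calc (|ν.im| * ‖u 0‖) * ‖u 0‖ = |ν.im| * ‖u 0‖ ^ 2 := by ring
        _ ≤ _ := h3
        _ = _ := by ring
    exact le_of_mul_le_mul_right h4 hup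

/-- common set-up on a ball -/
lemma m3_setup (hα : 0 < α) (M : ℝ) (hM : 0 < M) :
    ∃ X : ℝ, 0 ≤ X ∧
    (∃ (τ : ℂ) (δ : ℝ), ∀ l ∈ Metric.ball (0 : ℂ) M, Coer (qf α Complex.I l) X τ δ) ∧
    (∃ (τ : ℂ) (δ : ℝ), ∀ l ∈ Metric.ball (0 : ℂ) M, Coer (qf α 1 l) X τ δ) := by
  have hX : ∀ x : ℝ, (4 * (M + 1)) ^ (1 / α) ≤ x → 4 * (M + 1) ≤ |x| ^ α := by
    intro x hx
    have h0 : 0 ≤ (4 * (M + 1)) ^ (1 / α) := by positivity
    have h1 : ((4 * (M + 1)) ^ (1 / α)) ^ α ≤ |x| ^ α :=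
      Real.rpow_le_rpow h0 (hx.trans (le_abs_self x)) hα.le
    rwa [← Real.rpow_mul (by positivity), one_div, inv_mul_cancel₀ hα.ne', Real.rpow_one] at h1
  refine ⟨(4 * (M + 1)) ^ (1 / α), by positivity, ?_, ?_⟩
  · set τ : ℂ := Complex.exp (((-(Real.pi / 4) : ℝ) : ℂ) * Complex.I) with hτ
    have hτn : ‖τ‖ = 1 := Complex.norm_exp_ofReal_mul_I _
    have hsq : 1 / 2 ≤ Real.sqrt 2 / 2 := by
      have : (1:ℝ) ≤ Real.sqrt 2 := by
        rw [Real.one_le_sqrt]; norm_num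
      linarith
    have hτre : τ.re = Real.sqrt 2 / 2 := by
      rw [hτ, Complex.exp_ofReal_mul_I_re, Real.cos_neg, Real.cos_pi_div_four]
    have hτim : τ.im = -(Real.sqrt 2 / 2) := by
      rw [hτ, Complex.exp_ofReal_mul_I_im, Real.sin_neg, Real.sin_pi_div_four]
    refine ⟨τ, 1 / 2, fun l hl => ⟨by norm_num, hτn.le, by rw [hτre]; exact hsq, fun x hx => ?_⟩⟩
    have e1 : (τ * qf α Complex.I l x).re = (τ * Complex.I).re * |x| ^ α - (τ * l).re := by
      unfold qf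
      rw [mul_sub, Complex.sub_re, ← mul_assoc, Complex.re_mul_ofReal]
    have e2 : (τ * Complex.I).re = Real.sqrt 2 / 2 := by
      rw [Complex.mul_re, Complex.I_re, Complex.I_im, hτim]; ring
    have e3 : (τ * l).re ≤ M := by
      refine (Complex.re_le_norm _).trans ?_
      rw [norm_mul, hτn, one_mul]
      rw [Metric.mem_ball, dist_zero_right] at hl
      exact hl.le
    rw [e1, e2]
    have h4 := hX x hx
    have h5 : 1 / 2 * |x| ^ α ≤ Real.sqrt 2 / 2 * |x| ^ α :=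
      mul_le_mul_of_nonneg_right hsq (by positivity)
    linarith
  · refine ⟨1, 1 / 2, fun l hl => ⟨by norm_num, by simp, by norm_num, fun x hx => ?_⟩⟩
    have e1 : (1 * qf α 1 l x).re = |x| ^ α - l.re := by
      unfold qf
      rw [one_mul, one_mul, Complex.sub_re, Complex.ofReal_re]
    have e3 : l.re ≤ M := by
      refine (Complex.re_le_norm _).trans ?_
      rw [Metric.mem_ball, dist_zero_right] at hl
      exact hl.le
    rw [e1]
    have h4 := hX x hx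
    linarith

/-- Weyl solutions on a ball, with simple zeros of the boundary values. -/
theorem weyl_ball (hα : 0 < α) (hα1 : α ≤ 1) (M : ℝ) (hM : 0 < M) :
    ∃ X : ℝ, 0 ≤ X ∧
    (∃ (τ : ℂ) (δ : ℝ), ∀ l ∈ Metric.ball (0 : ℂ) M, Coer (qf α Complex.I l) X τ δ) ∧
    ∃ m : ℂ → ℂ, DifferentiableOn ℂ m (Metric.ball 0 M) ∧
      (∀ l ∈ Metric.ball (0 : ℂ) M,
        FinEn X (solU (qf α Complex.I l) 0 X 1 (m l)) (solV (qf α Complex.I l) 0 X 1 (m l))) ∧
      ∀ (b : Bool), ∀ l₀ ∈ Metric.ball (0 : ℂ) M,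
        bc b (solU (qf α Complex.I l₀) 0 X 1 (m l₀) 0) (solV (qf α Complex.I l₀) 0 X 1 (m l₀) 0) = 0 →
        deriv (fun l => bc b (solU (qf α Complex.I l) 0 X 1 (m l) 0)
          (solV (qf α Complex.I l) 0 X 1 (m l) 0)) l₀ ≠ 0 := by
  obtain ⟨X, hX, ⟨τ, δ, hci⟩, ⟨τ', δ', hc1⟩⟩ := m3_setup hα M hM
  obtain ⟨mi, hmi⟩ := m3_fam hα hα1 hX hci
  obtain ⟨m1, hm1⟩ := m3_fam hα hα1 hX hc1
  refine ⟨X, hX, ⟨τ, δ, hci⟩, mi, hmi.d, hmi.f, fun b l₀ hl₀ h0 => ?_⟩
  exact m3_simple_i hα hα1 hM hX hmi hm1 hc1 b hl₀ h0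

/-- bounds for the ratio `u'(0)/u(0)` of finite energy solutions off the ray. -/
theorem m_bound (hα : 0 < α) (hα1 : α ≤ 1) {l : ℂ} {u v : ℝ → ℂ}
    (h : IsSol (qf α Complex.I l) 0 u v) (hE : FinEn 0 u v) :
    |(l * (om α ^ 2)⁻¹).im| * ‖v 0‖ ≤ 8 * (1 + ‖l‖) ^ 2 * ‖u 0‖ ∧
    |(l * (om α ^ 2)⁻¹).im| * ‖u 0‖ ≤ 4 * (1 + ‖l‖) * ‖v 0‖ := by
  have hN0 : 0 < 1 + ‖l‖ := by have := norm_nonneg l; linarith
  by_cases hν : (l * (om α ^ 2)⁻¹).im = 0
  · rw [hν, abs_zero, zero_mul, zero_mul]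
    constructor <;> positivity
  have hom : ‖om α ^ 2‖ = 1 := by rw [norm_pow, m3_om_norm, one_pow]
  set ν : ℂ := l * (om α ^ 2)⁻¹ with hνd
  have hνn : ‖ν‖ = ‖l‖ := by rw [hνd, norm_mul, norm_inv, hom, inv_one, mul_one]
  obtain ⟨X, hX, ⟨τ, δ, hci⟩, ⟨τ', δ', hc1⟩⟩ := m3_setup hα (1 + ‖l‖) hN0
  obtain ⟨mi, hmi⟩ := m3_fam hα hα1 hX hci
  obtain ⟨m1, hm1⟩ := m3_fam hα hα1 hX hc1
  have hl : l ∈ Metric.ball (0:ℂ) (1 + ‖l‖) := by
    rw [Metric.mem_ball, dist_zero_right]; linarith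
  have hl' : ν ∈ Metric.ball (0:ℂ) (1 + ‖l‖) := by
    rw [Metric.mem_ball, dist_zero_right, hνn]; linarith
  have hid := m3_ident hα hα1 hN0 hmi hm1 hl
  rw [← hνd] at hid
  have hw := wronskian_zero h (m3_fam_sol hα Complex.I l X (mi l)) hE (m3_fam_fin hα hmi hl 0) 0
  have hne := m3_fam_ne hα Complex.I l X (mi l) 0
  have hne1 := m3_fam_ne hα 1 ν X (m1 ν) 0
  obtain ⟨b1, b2⟩ := m3_bound_one hα (m3_fam_sol hα 1 ν X (m1 ν)) (m3_fam_fin hα hm1 hl' 0) hν
  set a0 : ℂ := solU (qf α Complex.I l) 0 X 1 (mi l) 0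
  set a1 : ℂ := solV (qf α Complex.I l) 0 X 1 (mi l) 0
  set c0 : ℂ := solU (qf α 1 ν) 0 X 1 (m1 ν) 0
  set c1 : ℂ := solV (qf α 1 ν) 0 X 1 (m1 ν) 0
  have hi : 0 < |ν.im| := abs_pos.2 hν
  rw [hνn] at b1 b2
  have hc0 : c0 ≠ 0 := by
    intro h0
    have := hne1 h0
    rw [h0, norm_zero, mul_zero] at b1
    have h2 : 0 < |ν.im| * ‖c1‖ := mul_pos hi (norm_pos_iff.2 this)
    linarith
  have hc1' : c1 ≠ 0 := by
    intro h0
    rw [h0, norm_zero, mul_zero] at b2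
    have h2 : 0 < |ν.im| * ‖c0‖ := mul_pos hi (norm_pos_iff.2 hc0)
    linarith
  have key : v 0 * c0 = om α * c1 * u 0 := by
    by_cases ha : a0 = 0
    · have ha1 := hne ha
      rw [ha, zero_mul, sub_zero] at hw
      rw [ha, mul_zero] at hid
      have hu0 : u 0 = 0 := by
        rcases mul_eq_zero.1 hw with h | h
        · exact h
        · exact absurd h ha1
      exfalso
      rcases mul_eq_zero.1 hid with h | h
      · exact ha1 h
      · exact hc0 h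
    · have h1 : a0 * (v 0 * c0) = a0 * (om α * c1 * u 0) := by
        have hw' : a0 * v 0 = u 0 * a1 := (sub_eq_zero.1 hw).symm
        calc a0 * (v 0 * c0) = (a0 * v 0) * c0 := by ring
          _ = u 0 * (a1 * c0) := by rw [hw']; ring
          _ = u 0 * (om α * c1 * a0) := by rw [hid]
          _ = _ := by ring
      exact mul_left_cancel₀ ha h1
  have keyn : ‖v 0‖ * ‖c0‖ = ‖c1‖ * ‖u 0‖ := by
    have := congrArg norm key
    rwa [norm_mul, norm_mul, norm_mul, m3_om_norm, one_mul] at this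
  have hp0 : 0 < ‖c0‖ := norm_pos_iff.2 hc0
  have hp1 : 0 < ‖c1‖ := norm_pos_iff.2 hc1'
  constructor
  · have : (|ν.im| * ‖v 0‖) * ‖c0‖ ≤ (8 * (1 + ‖l‖) ^ 2 * ‖u 0‖) * ‖c0‖ := by
      calc (|ν.im| * ‖v 0‖) * ‖c0‖ = |ν.im| * (‖v 0‖ * ‖c0‖) := by ring
        _ = (|ν.im| * ‖c1‖) * ‖u 0‖ := by rw [keyn]; ring
        _ ≤ (8 * (1 + ‖l‖) ^ 2 * ‖c0‖) * ‖u 0‖ := mul_le_mul_of_nonneg_right b1 (norm_nonneg _)
        _ = _ := by ring
    exact le_of_mul_le_mul_right this hp0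
  · have : (|ν.im| * ‖u 0‖) * ‖c1‖ ≤ (4 * (1 + ‖l‖) * ‖v 0‖) * ‖c1‖ := by
      calc (|ν.im| * ‖u 0‖) * ‖c1‖ = |ν.im| * (‖c1‖ * ‖u 0‖) := by ring
        _ = (|ν.im| * ‖c0‖) * ‖v 0‖ := by rw [← keyn]; ring
        _ ≤ (4 * (1 + ‖l‖) * ‖c1‖) * ‖v 0‖ := mul_le_mul_of_nonneg_right b2 (norm_nonneg _)
        _ = _ := by ring
    exact le_of_mul_le_mul_right this hp1

end Pool.Agent.Work.MP_9fcdee_mp
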