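import Pool.Agent.Work.MP_9fcdee_mp.M3_Rotate

set_option autoImplicit false

open Set Filter Topology MeasureTheory

namespace Pool.Agent.Work.MP_9fcdee_mp

variable {α : ℝ}

/-- there is no eigenfunction with eigenvalue `l` -/
def M4Uq (α : ℝ) (b : Bool) (l : ℂ) : Prop :=
  ∀ u v : ℝ → ℂ, IsSol (qf α Complex.I l) 0 u v → FinEn 0 u v → bc b (u 0) (v 0) = 0 →
    (∀ x, u x = 0) ∧ (∀ x, v x = 0)

lemma m4_bc_add (b : Bool) (x y x' y' : ℂ) : bc b (x + x') (y + y') = bc b x y + bc b x' y' := by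
  unfold bc; split_ifs <;> rfl

lemma m4_bc_mul (b : Bool) (c x y : ℂ) : bc b (c * x) (c * y) = c * bc b x y := by
  unfold bc; split_ifs <;> rfl

lemma m4_cont_u {q f u v : ℝ → ℂ} (h : IsSol q f u v) : Continuous u :=
  continuous_iff_continuousAt.mpr fun x => (h.du x).continuousAt

lemma m4_cont_v {q f u v : ℝ → ℂ} (h : IsSol q f u v) : Continuous v :=
  continuous_iff_continuousAt.mpr fun x => (h.dv x).continuousAt

lemma m4_isSol_zero (q : ℝ → ℂ) : IsSol q 0 (fun _ => 0) (fun _ => 0) where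
  du x := by simpa using hasDerivAt_const x (0 : ℂ)
  dv x := by simpa using hasDerivAt_const x (0 : ℂ)

/-- the quotient of two holomorphic functions, the denominator having simple zeros at which the
numerator vanishes -/
lemma m4_quot_diff {M : ℝ} {η β : ℂ → ℂ} (hη : DifferentiableOn ℂ η (Metric.ball 0 M))
    (hβ : DifferentiableOn ℂ β (Metric.ball 0 M))
    (hz : ∀ l ∈ Metric.ball (0 : ℂ) M, β l = 0 → η l = 0 ∧ deriv β l ≠ 0) :
    (∃ c : ℂ → ℂ, DifferentiableOn ℂ c (Metric.ball 0 M) ∧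
      ∀ l ∈ Metric.ball (0 : ℂ) M, η l + c l * β l = 0) ∧
    ∀ l₀ ∈ Metric.ball (0 : ℂ) M, ∀ᶠ l in 𝓝[≠] l₀, β l ≠ 0 := by
  classical
  have hopen : IsOpen (Metric.ball (0 : ℂ) M) := Metric.isOpen_ball
  -- isolated zeros
  have hiso : ∀ l₀ ∈ Metric.ball (0 : ℂ) M, ∀ᶠ l in 𝓝[≠] l₀, β l ≠ 0 := by
    intro l₀ hl₀
    by_cases h0 : β l₀ = 0
    · have hd := (hβ l₀ hl₀).differentiableAt (hopen.mem_nhds hl₀)
      have := hd.hasDerivAt.eventually_ne (c := 0) (hz l₀ hl₀ h0).2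
      exact this
    · have hc : ContinuousAt β l₀ := (hβ.continuousOn).continuousAt (hopen.mem_nhds hl₀)
      exact (hc.eventually_ne h0).filter_mono nhdsWithin_le_nhds
  refine ⟨⟨fun l => if β l = 0 then -(deriv η l / deriv β l) else -(η l / β l), ?_, ?_⟩, hiso⟩
  · intro l₀ hl₀
    apply DifferentiableAt.differentiableWithinAt
    by_cases h0 : β l₀ = 0
    · obtain ⟨hη0, hβ0⟩ := hz l₀ hl₀ h0
      have hnh := hopen.mem_nhds hl₀
      have d1 : DifferentiableAt ℂ (dslope η l₀) l₀ :=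
        (((Complex.differentiableOn_dslope hnh).mpr hη) l₀ hl₀).differentiableAt hnh
      have d2 : DifferentiableAt ℂ (dslope β l₀) l₀ :=
        (((Complex.differentiableOn_dslope hnh).mpr hβ) l₀ hl₀).differentiableAt hnh
      have hne : dslope β l₀ l₀ ≠ 0 := by rw [dslope_same]; exact hβ0
      have d3 : DifferentiableAt ℂ (fun l => -(dslope η l₀ l / dslope β l₀ l)) l₀ :=
        (d1.div d2 hne).neg
      refine d3.congr_of_eventuallyEq ?_
      have hev := hiso l₀ hl₀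
      rw [eventually_nhdsWithin_iff] at hev
      filter_upwards [hev] with l hl
      by_cases hll : l = l₀
      · subst hll
        rw [if_pos h0, dslope_same, dslope_same]
      · rw [if_neg (hl hll), dslope_of_ne _ hll, dslope_of_ne _ hll, slope_def_field,
          slope_def_field, hη0, h0, sub_zero, sub_zero]
        have : l - l₀ ≠ 0 := sub_ne_zero.mpr hll
        rw [div_div_div_cancel_right₀ this]
    · have hnh := hopen.mem_nhds hl₀
      have d1 := (hη l₀ hl₀).differentiableAt hnh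
      have d2 := (hβ l₀ hl₀).differentiableAt hnh
      have d3 : DifferentiableAt ℂ (fun l => -(η l / β l)) l₀ := (d1.div d2 h0).neg
      refine d3.congr_of_eventuallyEq ?_
      have hc : ContinuousAt β l₀ := d2.continuousAt
      filter_upwards [hc.eventually_ne h0] with l hl
      rw [if_neg hl]
  · intro l hl
    by_cases h0 : β l = 0
    · rw [(hz l hl h0).1, h0]; simp
    · simp only [if_neg h0]
      field_simp
      ring

theorem m4_ball_family (hα : 0 < α) (hα1 : α ≤ 1) (b : Bool) {f : ℝ → ℂ} (hf : Continuous f)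
    (hf2 : SqInt 0 f) (ho : Orth α b f) (M : ℝ) (hM : 0 < M) :
    ∃ W W' : ℂ → ℝ → ℂ,
      (∀ l ∈ Metric.ball (0 : ℂ) M, IsSol (qf α Complex.I l) f (W l) (W' l) ∧
        FinEn 0 (W l) (W' l) ∧ bc b (W l 0) (W' l 0) = 0) ∧
      (∀ x, DifferentiableOn ℂ (fun l => W l x) (Metric.ball 0 M)) ∧
      (∀ x, DifferentiableOn ℂ (fun l => W' l x) (Metric.ball 0 M)) ∧
      ∀ l₀ ∈ Metric.ball (0 : ℂ) M, ∀ᶠ l in 𝓝[≠] l₀, M4Uq α b l := by
  have hopen : IsOpen (Metric.ball (0 : ℂ) M) := Metric.isOpen_ball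
  obtain ⟨X, hX, ⟨τ, δ, hco⟩, m, hm, hmE, hsimple⟩ := weyl_ball hα hα1 M hM
  have hf2X : SqInt X f := hf2.mono_set (Ioi_subset_Ioi hX)
  obtain ⟨g, hg, hgE⟩ := weyl_family hα hα1 hopen (c := fun _ => Complex.I) (κ := fun l => l)
    (differentiableOn_const _) differentiableOn_id hX
    (fun t₀ ht₀ => ⟨τ, δ, by
      filter_upwards [hopen.mem_nhds ht₀] with t ht
      exact hco t ht⟩) hf hf2X 0
  have hq : ∀ l : ℂ, Continuous (qf α Complex.I l) := fun l => continuous_qf hα _ _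
  have h0c : Continuous (0 : ℝ → ℂ) := continuous_zero
  -- the homogeneous solution
  set D : ℂ → ℝ → ℂ := fun l => solU (qf α Complex.I l) 0 X 1 (m l) with hD
  set D' : ℂ → ℝ → ℂ := fun l => solV (qf α Complex.I l) 0 X 1 (m l) with hD'
  set y : ℂ → ℝ → ℂ := fun l => solU (qf α Complex.I l) f X 0 (g l) with hy
  set y' : ℂ → ℝ → ℂ := fun l => solV (qf α Complex.I l) f X 0 (g l) with hy'
  have solD : ∀ l, IsSol (qf α Complex.I l) 0 (D l) (D' l) := fun l =>
    isSol_sol (hq l) h0c X 1 (m l)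
  have soly : ∀ l, IsSol (qf α Complex.I l) f (y l) (y' l) := fun l =>
    isSol_sol (hq l) hf X 0 (g l)
  have DX : ∀ l, D l X = 1 := fun l => solU_at (hq l) h0c X 1 (m l)
  have finD : ∀ l ∈ Metric.ball (0 : ℂ) M, FinEn 0 (D l) (D' l) := fun l hl =>
    FinEn.extend (m4_cont_u (solD l)) (m4_cont_v (solD l)) (hmE l hl)
  have finy : ∀ l ∈ Metric.ball (0 : ℂ) M, FinEn 0 (y l) (y' l) := fun l hl =>
    FinEn.extend (m4_cont_u (soly l)) (m4_cont_v (soly l)) (hgE l hl)
  have hm' : ∀ l ∈ Metric.ball (0 : ℂ) M, DifferentiableAt ℂ m l := fun l hl =>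
    (hm l hl).differentiableAt (hopen.mem_nhds hl)
  have hg' : ∀ l ∈ Metric.ball (0 : ℂ) M, DifferentiableAt ℂ g l := fun l hl =>
    (hg l hl).differentiableAt (hopen.mem_nhds hl)
  have dD : ∀ x, DifferentiableOn ℂ (fun l => D l x) (Metric.ball 0 M) ∧
      DifferentiableOn ℂ (fun l => D' l x) (Metric.ball 0 M) := by
    intro x
    have key : ∀ l ∈ Metric.ball (0 : ℂ) M, _ := fun l hl =>
      sol_diff (α := α) hα (c := fun _ => Complex.I) (κ := fun l => l) (a := fun _ => 1) (b := m)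
        (t₀ := l) (differentiableAt_const _) differentiableAt_id (differentiableAt_const _)
        (hm' l hl) h0c X x
    exact ⟨fun l hl => (key l hl).1.differentiableWithinAt,
      fun l hl => (key l hl).2.differentiableWithinAt⟩
  have dy : ∀ x, DifferentiableOn ℂ (fun l => y l x) (Metric.ball 0 M) ∧
      DifferentiableOn ℂ (fun l => y' l x) (Metric.ball 0 M) := by
    intro x
    have key : ∀ l ∈ Metric.ball (0 : ℂ) M, _ := fun l hl =>
      sol_diff (α := α) hα (c := fun _ => Complex.I) (κ := fun l => l) (a := fun _ => 0) (b := g)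
        (t₀ := l) (differentiableAt_const _) differentiableAt_id (differentiableAt_const _)
        (hg' l hl) hf X x
    exact ⟨fun l hl => (key l hl).1.differentiableWithinAt,
      fun l hl => (key l hl).2.differentiableWithinAt⟩
  set β : ℂ → ℂ := fun l => bc b (D l 0) (D' l 0) with hβ
  set η : ℂ → ℂ := fun l => bc b (y l 0) (y' l 0) with hη
  have dβ : DifferentiableOn ℂ β (Metric.ball 0 M) := by
    rw [hβ]
    unfold bc
    cases b
    · exact (dD 0).2
    · exact (dD 0).1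
  have dη : DifferentiableOn ℂ η (Metric.ball 0 M) := by
    rw [hη]
    unfold bc
    cases b
    · exact (dy 0).2
    · exact (dy 0).1
  have hz : ∀ l ∈ Metric.ball (0 : ℂ) M, β l = 0 → η l = 0 ∧ deriv β l ≠ 0 := by
    intro l hl h0
    refine ⟨?_, hsimple b l hl h0⟩
    have horth := ho l (D l) (D' l) (solD l) (finD l hl) h0
    have hgr := (green hf (soly l) (solD l) (finy l hl) (finD l hl) hf2).2
    rw [horth] at hgr
    -- D is not zero
    have hne : ¬ (D l 0 = 0 ∧ D' l 0 = 0) := by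
      rintro ⟨h1, h2⟩
      have := (IsSol.unique (hq l) (solD l) (m4_isSol_zero _) (X := 0) h1 h2).1 X
      rw [DX] at this
      exact one_ne_zero this
    simp only [hβ, hη, bc] at h0 ⊢
    cases b
    · simp only [Bool.false_eq_true, if_false] at h0 ⊢
      have h1 : D l 0 ≠ 0 := fun h => hne ⟨h, h0⟩
      rw [h0, mul_zero, sub_zero] at hgr
      exact (mul_eq_zero.mp hgr.symm).resolve_right h1
    · simp only [if_true] at h0 ⊢
      have h1 : D' l 0 ≠ 0 := fun h => hne ⟨h0, h⟩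
      rw [h0, mul_zero, zero_sub] at hgr
      have h2 : y l 0 * D' l 0 = 0 := by
        have := hgr.symm
        rwa [neg_eq_zero] at this
      exact (mul_eq_zero.mp h2).resolve_right h1
  obtain ⟨⟨c, hc, hc0⟩, hiso⟩ := m4_quot_diff dη dβ hz
  refine ⟨fun l x => y l x + c l * D l x, fun l x => y' l x + c l * D' l x, ?_, ?_, ?_, ?_⟩
  · intro l hl
    refine ⟨?_, ?_, ?_⟩
    · have h1 := (soly l).add ((solD l).smul (c l))
      have e : (fun x => f x + c l * (0 : ℝ → ℂ) x) = f := by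
        ext x; simp
      rw [e] at h1
      exact h1
    · exact FinEn.add (finy l hl) ((finD l hl).smul (c l)) (m4_cont_u (soly l)) (m4_cont_v (soly l))
        (continuous_const.mul (m4_cont_u (solD l))) (continuous_const.mul (m4_cont_v (solD l)))
    · rw [m4_bc_add, m4_bc_mul]
      exact hc0 l hl
  · intro x
    exact (dy x).1.add (hc.mul (dD x).1)
  · intro x
    exact (dy x).2.add (hc.mul (dD x).2)
  · intro l₀ hl₀
    have h1 : ∀ᶠ l in 𝓝[≠] l₀, l ∈ Metric.ball (0 : ℂ) M :=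
      (hopen.eventually_mem hl₀).filter_mono nhdsWithin_le_nhds
    filter_upwards [hiso l₀ hl₀, h1] with l hl hlM
    intro u v hs hfin hbc
    obtain ⟨γ, hγu, hγv⟩ := proportional (hq l) (solD l) hs (X := X) (hmE l hlM)
      (hfin.mono_set (Ioi_subset_Ioi hX)) (Or.inl (by rw [DX]; exact one_ne_zero))
    rw [hγu 0, hγv 0, m4_bc_mul] at hbc
    have hγ : γ = 0 := (mul_eq_zero.mp hbc).resolve_right hl
    exact ⟨fun x => by rw [hγu, hγ, zero_mul], fun x => by rw [hγv, hγ, zero_mul]⟩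

theorem exists_family (hα : 0 < α) (hα1 : α ≤ 1) (b : Bool) {f : ℝ → ℂ} (hf : Continuous f)
    (hf2 : SqInt 0 f) (ho : Orth α b f) : ∃ w w' : ℂ → ℝ → ℂ, Fam α b f w w' := by
  have hex : ∀ n : ℕ, ∃ W W' : ℂ → ℝ → ℂ,
      (∀ l ∈ Metric.ball (0 : ℂ) (n + 1), IsSol (qf α Complex.I l) f (W l) (W' l) ∧
        FinEn 0 (W l) (W' l) ∧ bc b (W l 0) (W' l 0) = 0) ∧
      (∀ x, DifferentiableOn ℂ (fun l => W l x) (Metric.ball 0 (n + 1))) ∧
      (∀ x, DifferentiableOn ℂ (fun l => W' l x) (Metric.ball 0 (n + 1))) ∧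
      ∀ l₀ ∈ Metric.ball (0 : ℂ) (n + 1), ∀ᶠ l in 𝓝[≠] l₀, M4Uq α b l := fun n =>
    m4_ball_family hα hα1 b hf hf2 ho (n + 1) (by positivity)
  choose W W' hW dW dW' hUq using hex
  -- uniqueness at regular points
  have huniq : ∀ (n n' : ℕ) (l : ℂ), l ∈ Metric.ball (0 : ℂ) (n + 1) →
      l ∈ Metric.ball (0 : ℂ) (n' + 1) → M4Uq α b l →
      ∀ x, W n l x = W n' l x ∧ W' n l x = W' n' l x := by
    intro n n' l hl hl' hU x
    obtain ⟨s1, e1, b1⟩ := hW n l hl
    obtain ⟨s2, e2, b2⟩ := hW n' l hl'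
    have h1 := s1.add (s2.smul (-1))
    have e : (fun x => f x + -1 * f x) = (0 : ℝ → ℂ) := by
      ext x; simp
    rw [e] at h1
    have h2 : FinEn 0 (fun x => W n l x + -1 * W n' l x) (fun x => W' n l x + -1 * W' n' l x) :=
      FinEn.add e1 (e2.smul (-1)) (m4_cont_u s1) (m4_cont_v s1)
        (continuous_const.mul (m4_cont_u s2)) (continuous_const.mul (m4_cont_v s2))
    have h3 : bc b (W n l 0 + -1 * W n' l 0) (W' n l 0 + -1 * W' n' l 0) = 0 := by
      rw [m4_bc_add, m4_bc_mul, b1, b2]; simp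
    obtain ⟨h4, h5⟩ := hU _ _ h1 h2 h3
    refine ⟨?_, ?_⟩
    · have := h4 x; linear_combination this
    · have := h5 x; linear_combination this
  -- uniqueness everywhere
  have hball : ∀ (n : ℕ) (l : ℂ), l ∈ Metric.ball (0 : ℂ) (n + 1) →
      Metric.ball (0 : ℂ) (n + 1) ∈ 𝓝 l := fun n l hl => Metric.isOpen_ball.mem_nhds hl
  have hglue : ∀ (n n' : ℕ) (l : ℂ), l ∈ Metric.ball (0 : ℂ) (n + 1) →
      l ∈ Metric.ball (0 : ℂ) (n' + 1) →
      ∀ x, W n l x = W n' l x ∧ W' n l x = W' n' l x := by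
    intro n n' l hl hl' x
    have hev : ∀ᶠ t in 𝓝[≠] l, W n t x = W n' t x ∧ W' n t x = W' n' t x := by
      have h1 : ∀ᶠ t in 𝓝[≠] l, t ∈ Metric.ball (0 : ℂ) (n + 1) :=
        mem_nhdsWithin_of_mem_nhds (hball n l hl)
      have h2 : ∀ᶠ t in 𝓝[≠] l, t ∈ Metric.ball (0 : ℂ) (n' + 1) :=
        mem_nhdsWithin_of_mem_nhds (hball n' l hl')
      filter_upwards [h1, h2, hUq n l hl] with t ht ht' hU
      exact huniq n n' t ht ht' hU x
    have c1 : Tendsto (fun t => W n t x) (𝓝[≠] l) (𝓝 (W n l x)) :=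
      (((dW n x).continuousOn).continuousAt (hball n l hl)).tendsto.mono_left nhdsWithin_le_nhds
    have c2 : Tendsto (fun t => W n' t x) (𝓝[≠] l) (𝓝 (W n' l x)) :=
      (((dW n' x).continuousOn).continuousAt (hball n' l hl')).tendsto.mono_left nhdsWithin_le_nhds
    have c3 : Tendsto (fun t => W' n t x) (𝓝[≠] l) (𝓝 (W' n l x)) :=
      (((dW' n x).continuousOn).continuousAt (hball n l hl)).tendsto.mono_left nhdsWithin_le_nhds
    have c4 : Tendsto (fun t => W' n' t x) (𝓝[≠] l) (𝓝 (W' n' l x)) :=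
      (((dW' n' x).continuousOn).continuousAt (hball n' l hl')).tendsto.mono_left nhdsWithin_le_nhds
    exact ⟨tendsto_nhds_unique_of_eventuallyEq c1 c2 (hev.mono fun t ht => ht.1),
      tendsto_nhds_unique_of_eventuallyEq c3 c4 (hev.mono fun t ht => ht.2)⟩
  have hmem : ∀ l : ℂ, l ∈ Metric.ball (0 : ℂ) ((⌈‖l‖⌉₊ : ℕ) + 1) := by
    intro l
    rw [mem_ball_zero_iff]
    have := Nat.le_ceil ‖l‖
    linarith
  refine ⟨fun l => W ⌈‖l‖⌉₊ l, fun l => W' ⌈‖l‖⌉₊ l, ?_, ?_, ?_, ?_, ?_⟩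
  · intro l; exact (hW _ l (hmem l)).1
  · intro l; exact (hW _ l (hmem l)).2.1
  · intro l; exact (hW _ l (hmem l)).2.2
  · intro x l₀
    have h1 : DifferentiableAt ℂ (fun l => W ⌈‖l₀‖⌉₊ l x) l₀ :=
      (dW _ x l₀ (hmem l₀)).differentiableAt (hball _ l₀ (hmem l₀))
    refine h1.congr_of_eventuallyEq ?_
    filter_upwards [hball _ l₀ (hmem l₀)] with l hl
    exact (hglue _ _ l (hmem l) hl x).1
  · intro x l₀
    have h1 : DifferentiableAt ℂ (fun l => W' ⌈‖l₀‖⌉₊ l x) l₀ :=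
      (dW' _ x l₀ (hmem l₀)).differentiableAt (hball _ l₀ (hmem l₀))
    refine h1.congr_of_eventuallyEq ?_
    filter_upwards [hball _ l₀ (hmem l₀)] with l hl
    exact (hglue _ _ l (hmem l) hl x).2

end Pool.Agent.Work.MP_9fcdee_mp
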